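import Mathlib
import Pool.Agent.Helper606_LC.Sh
import Pool.Agent.Helper606_LC.Six

/-!
# Fields of values: from functions to `FDRep`
-/

set_option autoImplicit false
set_option linter.unusedSectionVars false

namespace Run7.h132

open Pool.Agent.H541R3.ART Pool.Agent.W446.AS Pool.Agent.R389 Pool.Agent.Helper606_LC

/-- `χ` is not induced from an irreducible character of a proper subgroup -/
def Prim {G : Type} [Group G] (χ : G → ℂ) : Prop :=
  ¬ ∃ H : Subgroup G, H ≠ ⊤ ∧ ∃ φ ∈ Irr H, χ = ind H φ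

/-- some proper self-normalizing subgroup has an irreducible character which is fixed by the same
Galois automorphisms as `χ` -/
def Mch {G : Type} [Group G] (χ : G → ℂ) : Prop :=
  ∃ H : Subgroup G, H ≠ ⊤ ∧ Subgroup.normalizer (H : Set G) = H ∧ ∃ ψ ∈ Irr H,
    ∀ u : (ZMod (Nat.card G))ˣ, pw u χ = χ ↔ pw u ψ = ψ

section

variable {G : Type} [Group G] [Finite G]

/-- equality of fields of values from equality of Galois stabilizers -/
theorem adjoin_le_of_pw {H : Type} [Group H] [Finite H] {N : ℕ} (hN : 0 < N) (hG : Nat.card G ∣ N)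
    (hH : Nat.card H ∣ N) {χ : G → ℂ} (hχ : χ ∈ Irr G) {ψ : H → ℂ} (hψ : ψ ∈ Irr H)
    (h : ∀ u : (ZMod N)ˣ, pw u ψ = ψ → pw u χ = χ) :
    IntermediateField.adjoin ℚ (Set.range χ) ≤ IntermediateField.adjoin ℚ (Set.range ψ) := by
  rw [IntermediateField.adjoin_le_iff]
  rintro _ ⟨g, rfl⟩
  by_contra hcon
  obtain ⟨σ, h1, h2⟩ := Pool.Agent.TH119.MX.exists_move
    (F := (IntermediateField.adjoin ℚ (Set.range ψ)).toSubfield) hcon
  apply h2
  obtain ⟨k, hk⟩ := exists_pow_aut hN σ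
  have h3 : pw k ψ = ψ := by
    funext x
    change ψ (x ^ (k : ZMod N).val) = ψ x
    rw [← irr_pow hN hk hψ (pow_card_dvd hH x)]
    exact h1 _ (IntermediateField.subset_adjoin ℚ _ ⟨x, rfl⟩)
  have h4 := congrFun (h k h3) g
  rw [irr_pow hN hk hχ (pow_card_dvd hG g)]
  exact h4

theorem adjoin_eq_of_pw {H : Type} [Group H] [Finite H] {N : ℕ} (hN : 0 < N) (hG : Nat.card G ∣ N)
    (hH : Nat.card H ∣ N) {χ : G → ℂ} (hχ : χ ∈ Irr G) {ψ : H → ℂ} (hψ : ψ ∈ Irr H)
    (h : ∀ u : (ZMod N)ˣ, pw u χ = χ ↔ pw u ψ = ψ) :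
    IntermediateField.adjoin ℚ (Set.range χ) = IntermediateField.adjoin ℚ (Set.range ψ) :=
  le_antisymm (adjoin_le_of_pw hN hG hH hχ hψ fun u hu => (h u).mpr hu)
    (adjoin_le_of_pw hN hH hG hψ hχ fun u hu => (h u).mp hu)

/-- the converse direction -/
theorem pw_of_adjoin_le {H : Type} [Group H] [Finite H] {N : ℕ} (hN : 0 < N)
    (hG : Nat.card G ∣ N) (hH : Nat.card H ∣ N) {χ : G → ℂ} (hχ : χ ∈ Irr G) {ψ : H → ℂ}
    (hψ : ψ ∈ Irr H)
    (h : IntermediateField.adjoin ℚ (Set.range χ) ≤ IntermediateField.adjoin ℚ (Set.range ψ))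
    (u : (ZMod N)ˣ) (hu : pw u ψ = ψ) : pw u χ = χ := by
  obtain ⟨σ, hσ⟩ := exists_aut_pow hN u
  have h1 : ∀ z ∈ IntermediateField.adjoin ℚ (Set.range ψ), σ z = z := by
    intro z hz
    induction hz using IntermediateField.adjoin_induction with
    | mem x hx =>
      obtain ⟨y, rfl⟩ := hx
      rw [irr_pow hN hσ hψ (pow_card_dvd hH y)]
      exact congrFun hu y
    | algebraMap x =>
      have h1 : (algebraMap ℚ ℂ) x = (x : ℂ) := rfl
      rw [h1, map_ratCast]
    | add a b _ _ ha hb => rw [map_add, ha, hb]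
    | inv a _ ha => rw [map_inv₀, ha]
    | mul a b _ _ ha hb => rw [map_mul, ha, hb]
  funext g
  change χ (g ^ (u : ZMod N).val) = χ g
  rw [← irr_pow hN hσ hχ (pow_card_dvd hG g)]
  exact h1 _ (h (IntermediateField.subset_adjoin ℚ _ ⟨g, rfl⟩))

/-- irreducible characters are characters of simple objects -/
theorem exists_fdrep {ψ : G → ℂ} (hψ : ψ ∈ Irr G) :
    ∃ W : FDRep ℂ G, CategoryTheory.Simple W ∧ W.character = ψ := by
  obtain ⟨n, ρ, hρ, rfl⟩ := exists_rep hψ
  have := hρ.1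
  exact ⟨FDRep.of ρ, Pool.Agent.Helper199.RepDim.simple_of_irred ρ hρ.2, rfl⟩

end

section fd

open Classical

variable {G : Type} [Group G] [Fintype G]

/-- primitivity in the form of the problem gives primitivity for irreducible characters of
subgroups -/
theorem prim_of_fd {χ : G → ℂ}
    (h : ¬ ∃ (K : Subgroup G) (W : FDRep ℂ K), K ≠ ⊤ ∧
          ∀ g : G, χ g =
            (Nat.card K : ℂ)⁻¹ *
              ∑ x : G, (if h : x * g * x⁻¹ ∈ K then W.character ⟨x * g * x⁻¹, h⟩ else 0)) :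
    Prim χ := by
  rintro ⟨H, hH, φ, hφ, hχ⟩
  apply h
  obtain ⟨W, -, hW⟩ := exists_fdrep hφ
  refine ⟨H, W, hH, fun g => ?_⟩
  rw [hχ, ind_eq, ← Equiv.sum_comp (Equiv.inv G)]
  congr 1
  refine Finset.sum_congr rfl fun x _ => ?_
  simp only [Equiv.inv_apply, inv_inv]
  rw [hW]
  rfl

/-- the conclusion of the problem -/
theorem fd_of_mch (V : FDRep ℂ G) (hV : CategoryTheory.Simple V) (h : Mch V.character) :
    ∃ (H : Subgroup G) (W : FDRep ℂ H), H ≠ ⊤ ∧ Subgroup.normalizer (H : Set G) = H ∧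
        CategoryTheory.Simple W ∧
        IntermediateField.adjoin ℚ (Set.range V.character) =
          IntermediateField.adjoin ℚ (Set.range W.character) := by
  obtain ⟨H, h1, h2, ψ, hψ, h3⟩ := h
  obtain ⟨W, hW, hW'⟩ := exists_fdrep hψ
  refine ⟨H, W, h1, h2, hW, ?_⟩
  rw [hW']
  exact adjoin_eq_of_pw Nat.card_pos dvd_rfl (Subgroup.card_subgroup_dvd_card H)
    (irr_of_simple V hV) hψ h3

end fd

end Run7.h132
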