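import Mathlib
import Pool.Agent.Run7.h132.Base

/-!
# Transfer of the field of values to a strongly embedded subgroup
-/

set_option autoImplicit false
set_option linter.unusedSectionVars false

namespace Run7.h132

open Pool.Agent.H541R3.ART Pool.Agent.W446.AS Pool.Agent.R389 Pool.Agent.Helper606_LC

section basic

variable {G : Type} [Group G] [Finite G]

/-- values at inverses are complex conjugates -/
lemma irr_inv_conj {χ : G → ℂ} (hχ : χ ∈ Irr G) (g : G) : χ g⁻¹ = starRingEnd ℂ (χ g) := by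
  have hN : 0 < Nat.card G := Nat.card_pos
  obtain ⟨k, hk⟩ := exists_pow_aut hN (starRingAut (R := ℂ))
  have h1 := irr_pow hN hk hχ (pow_card_dvd dvd_rfl g)
  have h2 : starRingAut (R := ℂ) (χ g) = starRingEnd ℂ (χ g) := rfl
  rw [← h2, h1]
  congr 1
  have hζ : IsPrimitiveRoot (Complex.exp (2 * Real.pi * Complex.I / (Nat.card G : ℕ))) (Nat.card G) :=
    Complex.isPrimitiveRoot_exp _ hN.ne'
  set ζ := Complex.exp (2 * Real.pi * Complex.I / (Nat.card G : ℕ))
  have h3 := hk ζ hζ.pow_eq_one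
  have h4 : starRingAut (R := ℂ) ζ = ζ⁻¹ := by
    change starRingEnd ℂ ζ = ζ⁻¹
    have h5 : ‖ζ‖ = 1 := hζ.norm'_eq_one hN.ne'
    rw [Complex.inv_def, Complex.normSq_eq_norm_sq, h5]
    simp
  have h6 : ζ ^ ((k : ZMod (Nat.card G)).val + 1) = 1 := by
    rw [pow_succ, ← h3, h4, inv_mul_cancel₀ (hζ.ne_zero hN.ne')]
  have h7 := (hζ.pow_eq_one_iff_dvd _).mp h6
  have h8 : g ^ ((k : ZMod (Nat.card G)).val + 1) = 1 := by
    obtain ⟨c, hc⟩ := h7
    rw [hc, pow_mul, pow_card_eq_one', one_pow]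
  rw [pow_succ] at h8
  exact (eq_inv_of_mul_eq_one_left h8).symm

lemma virt_inv_conj {θ : G → ℂ} (hθ : Virt θ) (g : G) : θ g⁻¹ = starRingEnd ℂ (θ g) := by
  induction hθ using AddSubgroup.closure_induction with
  | mem χ hχ => exact irr_inv_conj hχ g
  | zero => simp
  | add a b _ _ ha hb => rw [Pi.add_apply, Pi.add_apply, ha, hb, map_add]
  | neg a _ ha => rw [Pi.neg_apply, Pi.neg_apply, ha, map_neg]

/-- products of values at inverse elements -/
lemma virt_mul_inv {θ : G → ℂ} (hθ : Virt θ) (g : G) :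
    θ g * θ g⁻¹ = ((Complex.normSq (θ g) : ℝ) : ℂ) := by
  rw [virt_inv_conj hθ, Complex.mul_conj]

lemma pr_sub (a b χ : G → ℂ) : pr (a - b) χ = pr a χ - pr b χ := by
  rw [sub_eq_add_neg, pr_add, pr_neg, sub_eq_add_neg]

lemma pr_sub' (a b χ : G → ℂ) : pr χ (a - b) = pr χ a - pr χ b := by
  rw [pr_comm, pr_sub, pr_comm a, pr_comm b]

lemma pw_sub {N : ℕ} (k : (ZMod N)ˣ) (a b : G → ℂ) : pw k (a - b) = pw k a - pw k b := rfl

end basic

section combi

/-- a difference function on a finite cyclic set of small norm -/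
lemma diff_two {X : Type} [Fintype X] [DecidableEq X] (τ : Equiv.Perm X) (m : X → ℤ)
    (hne : ∃ x, m x ≠ m (τ x)) (hle : ∑ x, (m x - m (τ x)) ^ 2 ≤ 2) :
    ∃ (x y : X) (j : ℕ), y = (τ ^ j) x ∧ x ≠ y ∧
      ((∀ z, m z - m (τ z) = (if z = x then 1 else 0) - (if z = y then 1 else 0)) ∨
        ∀ z, m z - m (τ z) = (if z = y then 1 else 0) - (if z = x then 1 else 0)) := by
  classical
  obtain ⟨x, hx⟩ := hne
  set d : X → ℤ := fun z => m z - m (τ z) with hd
  have hdx : d x ≠ 0 := sub_ne_zero.mpr hx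
  set n := orderOf τ
  have hn : 0 < n := orderOf_pos τ
  have hsum : ∑ i ∈ Finset.range n, d ((τ ^ i) x) = 0 := by
    have h1 : ∀ i, d ((τ ^ i) x) = m ((τ ^ i) x) - m ((τ ^ (i + 1)) x) := by
      intro i
      rw [hd]
      simp only
      rw [pow_succ']
      rfl
    rw [Finset.sum_congr rfl (fun i _ => h1 i), Finset.sum_range_sub' (fun i => m ((τ ^ i) x)) n]
    rw [pow_orderOf_eq_one, pow_zero, sub_self]
  have h0 : d ((τ ^ 0) x) ≠ 0 := by rw [pow_zero]; exact hdx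
  have hex : ∃ i ∈ Finset.range n, d ((τ ^ i) x) * d x < 0 := by
    by_contra hcon
    push Not at hcon
    have h2 : ∑ i ∈ Finset.range n, d ((τ ^ i) x) * d x = 0 := by
      rw [← Finset.sum_mul, hsum, zero_mul]
    have h3 := (Finset.sum_eq_zero_iff_of_nonneg hcon).mp h2 0 (Finset.mem_range.mpr hn)
    rw [pow_zero] at h3
    exact hdx (mul_self_eq_zero.mp h3)
  obtain ⟨j, -, hj⟩ := hex
  set y := (τ ^ j) x with hy
  have hxy : x ≠ y := by
    intro h
    rw [← h] at hj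
    nlinarith [mul_self_nonneg (d x)]
  have hdy : d y ≠ 0 := by
    intro h
    rw [h, zero_mul] at hj
    exact lt_irrefl _ hj
  have hx1 : 1 ≤ d x ^ 2 := by
    have := sq_pos_of_ne_zero hdx
    omega
  have hy1 : 1 ≤ d y ^ 2 := by
    have := sq_pos_of_ne_zero hdy
    omega
  have hsplit : ∑ z, d z ^ 2 = d x ^ 2 + d y ^ 2 + ∑ z ∈ (Finset.univ.erase x).erase y, d z ^ 2 := by
    rw [← Finset.add_sum_erase _ _ (Finset.mem_univ x),
      ← Finset.add_sum_erase _ _ (Finset.mem_erase.mpr ⟨hxy.symm, Finset.mem_univ y⟩)]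
    ring
  have hnn : 0 ≤ ∑ z ∈ (Finset.univ.erase x).erase y, d z ^ 2 :=
    Finset.sum_nonneg fun z _ => sq_nonneg _
  have hle' : ∑ z, d z ^ 2 ≤ 2 := hle
  have hx2 : d x ^ 2 = 1 := by linarith
  have hy2 : d y ^ 2 = 1 := by linarith
  have hr : ∑ z ∈ (Finset.univ.erase x).erase y, d z ^ 2 = 0 := by linarith
  have hz : ∀ z, z ≠ x → z ≠ y → d z = 0 := by
    intro z h1 h2
    have h3 := (Finset.sum_eq_zero_iff_of_nonneg (fun z _ => sq_nonneg (d z))).mp hr z
      (Finset.mem_erase.mpr ⟨h2, Finset.mem_erase.mpr ⟨h1, Finset.mem_univ z⟩⟩)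
    exact pow_eq_zero_iff (two_ne_zero) |>.mp h3
  refine ⟨x, y, j, rfl, hxy, ?_⟩
  rcases sq_eq_one_iff.mp hx2 with h1 | h1
  · left
    have h2 : d y = -1 := by
      rcases sq_eq_one_iff.mp hy2 with h2 | h2
      · rw [h1, h2] at hj; norm_num at hj
      · exact h2
    intro z
    change d z = _
    by_cases hzx : z = x
    · rw [hzx, if_pos rfl, if_neg hxy, h1]; norm_num
    · by_cases hzy : z = y
      · rw [hzy, if_neg hxy.symm, if_pos rfl, h2]; norm_num
      · rw [hz z hzx hzy, if_neg hzx, if_neg hzy]; norm_num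
  · right
    have h2 : d y = 1 := by
      rcases sq_eq_one_iff.mp hy2 with h2 | h2
      · exact h2
      · rw [h1, h2] at hj; norm_num at hj
    intro z
    change d z = _
    by_cases hzx : z = x
    · rw [hzx, if_pos rfl, if_neg hxy, h1]; norm_num
    · by_cases hzy : z = y
      · rw [hzy, if_neg hxy.symm, if_pos rfl, h2]; norm_num
      · rw [hz z hzx hzy, if_neg hzx, if_neg hzy]; norm_num

end combi

section main

variable {G : Type} [Group G] [Finite G]

/-- the action of a unit on the irreducible characters -/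
noncomputable def pwPerm {N : ℕ} (hN : 0 < N) (hG : Nat.card G ∣ N) (a : (ZMod N)ˣ) :
    Equiv.Perm {χ : G → ℂ // χ ∈ irrF G} where
  toFun := fun χ => ⟨pw a χ.1, mem_irrF.mpr (irr_pw hN hG a (mem_irrF.mp χ.2))⟩
  invFun := fun χ => ⟨pw a⁻¹ χ.1, mem_irrF.mpr (irr_pw hN hG a⁻¹ (mem_irrF.mp χ.2))⟩
  left_inv := fun χ => Subtype.ext (by
    change pw a⁻¹ (pw a χ.1) = χ.1
    rw [← pw_mul hN hG, inv_mul_cancel, pw_one hN hG])
  right_inv := fun χ => Subtype.ext (by
    change pw a (pw a⁻¹ χ.1) = χ.1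
    rw [← pw_mul hN hG, mul_inv_cancel, pw_one hN hG])

lemma pwPerm_pow {N : ℕ} (hN : 0 < N) (hG : Nat.card G ∣ N) (a : (ZMod N)ˣ) (j : ℕ)
    (χ : {χ : G → ℂ // χ ∈ irrF G}) : ((pwPerm hN hG a ^ j) χ).1 = pw (a ^ j) χ.1 := by
  induction j with
  | zero => rw [pow_zero, pow_zero, pw_one hN hG]; rfl
  | succ j ih =>
    rw [pow_succ', pow_succ', pw_mul hN hG, ← ih]
    rfl

lemma virt_pw {N : ℕ} (hN : 0 < N) (hG : Nat.card G ∣ N) (a : (ZMod N)ˣ) {θ : G → ℂ}
    (hθ : Virt θ) : Virt (pw a θ) := by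
  induction hθ using AddSubgroup.closure_induction with
  | mem χ hχ => exact AddSubgroup.subset_closure (irr_pw hN hG a hχ)
  | zero => exact AddSubgroup.zero_mem _
  | add x y _ _ hx hy => exact AddSubgroup.add_mem _ hx hy
  | neg x _ hx => exact AddSubgroup.neg_mem _ hx

lemma virt_sub {a b : G → ℂ} (ha : Virt a) (hb : Virt b) : Virt (a - b) :=
  AddSubgroup.sub_mem _ ha hb

lemma virt_norm {f : G → ℂ} (hf : Virt f) :
    pr f f = ((∑ χ : {χ : G → ℂ // χ ∈ irrF G}, mult f χ.1 ^ 2 : ℤ) : ℂ) := by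
  rw [Pool.Agent.R389.pr_expand (F := f) hf.conj, ← Finset.sum_coe_sort (irrF G)
    (fun χ => pr f χ * pr f χ)]
  push_cast
  exact Finset.sum_congr rfl fun χ _ => by rw [mult_spec hf (mem_irrF.mp χ.2), pow_two]

lemma virt_ext {a b : G → ℂ} (ha : Virt a) (hb : Virt b)
    (h : ∀ χ ∈ irrF G, pr a χ = pr b χ) : a = b := by
  funext g
  rw [class_expand ha.conj g, class_expand hb.conj g]
  exact Finset.sum_congr rfl fun χ hχ => by rw [h χ hχ]

/-- a virtual character of norm at most two coming from a Galois difference -/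
lemma gal_diff {N : ℕ} (hN : 0 < N) (hG : Nat.card G ∣ N) (a : (ZMod N)ˣ) {θ : G → ℂ}
    (hθ : Virt θ) (hne : pw a θ ≠ θ) {r : ℝ} (hr : pr (θ - pw a θ) (θ - pw a θ) = (r : ℂ))
    (hr2 : r ≤ 2) : r = 2 ∧ ∃ ψ₁ ∈ Irr G, ∃ ψ₂ ∈ Irr G, ψ₁ ≠ ψ₂ ∧
      (∃ c : (ZMod N)ˣ, ψ₂ = pw c ψ₁) ∧ θ - pw a θ = ψ₁ - ψ₂ := by
  classical
  have hθa := virt_pw hN hG a hθ
  have hd := virt_sub hθ hθa
  let τ := pwPerm hN hG a⁻¹
  let m : {χ : G → ℂ // χ ∈ irrF G} → ℤ := fun ω => mult θ ω.1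
  have h1 : ∀ ω, mult (θ - pw a θ) ω.1 = m ω - m (τ ω) := by
    intro ω
    apply mult_of_pr
    have h2 : pr (pw a θ) ω.1 = pr θ (pw a⁻¹ ω.1) := by
      have h3 : ω.1 = pw a (pw a⁻¹ ω.1) := by
        rw [← pw_mul hN hG, mul_inv_cancel, pw_one hN hG]
      conv_lhs => rw [h3]
      exact pr_pw hG a _ _
    rw [pr_sub, h2, mult_spec hθ (mem_irrF.mp ω.2),
      mult_spec hθ (irr_pw hN hG a⁻¹ (mem_irrF.mp ω.2))]
    push_cast
    rfl
  have h2 : (r : ℂ) = ((∑ ω, (m ω - m (τ ω)) ^ 2 : ℤ) : ℂ) := by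
    rw [← hr, virt_norm hd]
    congr 1
    exact Finset.sum_congr rfl fun ω _ => by rw [h1]
  have h2' : r = ((∑ ω, (m ω - m (τ ω)) ^ 2 : ℤ) : ℝ) := by exact_mod_cast h2
  have hne' : ∃ ω, m ω ≠ m (τ ω) := by
    by_contra hcon
    push Not at hcon
    apply hne
    have h3 : θ - pw a θ = 0 := by
      apply virt_ext hd (AddSubgroup.zero_mem _)
      intro χ hχ
      rw [mult_spec hd (mem_irrF.mp hχ), h1 ⟨χ, hχ⟩, hcon ⟨χ, hχ⟩, sub_self, pr_zero_left]
      norm_num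
    exact (sub_eq_zero.mp h3).symm
  have hle : ∑ ω, (m ω - m (τ ω)) ^ 2 ≤ 2 := by
    rw [h2'] at hr2
    exact_mod_cast hr2
  obtain ⟨x, y, j, hy, hxy, hz⟩ := diff_two τ m hne' hle
  have hyx : y.1 = pw (a⁻¹ ^ j) x.1 := by rw [hy, pwPerm_pow]
  have hxy1 : x.1 = pw (a⁻¹ ^ j)⁻¹ y.1 := by
    rw [hyx, ← pw_mul hN hG, inv_mul_cancel, pw_one hN hG]
  have hxI := mem_irrF.mp x.2
  have hyI := mem_irrF.mp y.2
  have hxy2 : x.1 ≠ y.1 := fun h => hxy (Subtype.ext h)
  have hsq : ∑ ω, (m ω - m (τ ω)) ^ 2 = 2 := by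
    have key : ∀ ω, (m ω - m (τ ω)) ^ 2 = (if ω = x then 1 else 0) + (if ω = y then 1 else 0) := by
      intro ω
      rcases hz with hz | hz
      · rw [hz ω]
        by_cases h1 : ω = x
        · rw [if_pos h1, h1, if_neg hxy]; norm_num
        · rw [if_neg h1]
          by_cases h2 : ω = y
          · rw [if_pos h2]; norm_num
          · rw [if_neg h2]; norm_num
      · rw [hz ω]
        by_cases h1 : ω = x
        · rw [if_pos h1, h1, if_neg hxy]; norm_num
        · rw [if_neg h1]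
          by_cases h2 : ω = y
          · rw [if_pos h2]; norm_num
          · rw [if_neg h2]; norm_num
    rw [Finset.sum_congr rfl (fun ω _ => key ω), Finset.sum_add_distrib, Finset.sum_ite_eq',
      Finset.sum_ite_eq', if_pos (Finset.mem_univ _), if_pos (Finset.mem_univ _)]
    norm_num
  refine ⟨by rw [h2', hsq]; norm_num, ?_⟩
  have hone : ∀ (p q : {χ : G → ℂ // χ ∈ irrF G}), p.1 ≠ q.1 →
      (∀ z, m z - m (τ z) = (if z = p then 1 else 0) - (if z = q then 1 else 0)) →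
      θ - pw a θ = p.1 - q.1 := by
    intro p q hpq hzz
    have hp := mem_irrF.mp p.2
    have hq := mem_irrF.mp q.2
    apply virt_ext hd (virt_sub (AddSubgroup.subset_closure hp) (AddSubgroup.subset_closure hq))
    intro χ hχ
    rw [mult_spec hd (mem_irrF.mp hχ), h1 ⟨χ, hχ⟩, hzz ⟨χ, hχ⟩, pr_sub]
    by_cases h3 : (⟨χ, hχ⟩ : {χ : G → ℂ // χ ∈ irrF G}) = p
    · have h4 : χ = p.1 := congrArg Subtype.val h3
      have h5 : (⟨χ, hχ⟩ : {χ : G → ℂ // χ ∈ irrF G}) ≠ q := fun h => hpq (by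
        rw [← h4]; exact congrArg Subtype.val h)
      rw [if_pos h3, if_neg h5, h4, pr_self hp, pr_ne hq hp hpq.symm]
      norm_num
    · have h4 : p.1 ≠ χ := fun h => h3 (Subtype.ext h.symm)
      rw [if_neg h3, pr_ne hp (mem_irrF.mp hχ) h4]
      by_cases h6 : (⟨χ, hχ⟩ : {χ : G → ℂ // χ ∈ irrF G}) = q
      · have h7 : χ = q.1 := congrArg Subtype.val h6
        rw [if_pos h6, h7, pr_self hq]
        norm_num
      · have h7 : q.1 ≠ χ := fun h => h6 (Subtype.ext h.symm)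
        rw [if_neg h6, pr_ne hq (mem_irrF.mp hχ) h7]
        norm_num
  rcases hz with hz | hz
  · exact ⟨x.1, hxI, y.1, hyI, hxy2, ⟨_, hyx⟩, hone x y hxy2 hz⟩
  · exact ⟨y.1, hyI, x.1, hxI, hxy2.symm, ⟨_, hxy1⟩, hone y x hxy2.symm hz⟩

/-- comparison of the norm on a subgroup with the norm on the group -/
lemma norm_res {H : Subgroup G} {f : G → ℂ} (hf : Virt f)
    (hTI : ∀ h ∈ H, f h ≠ 0 → ∀ x, x * h * x⁻¹ ∈ H → x ∈ H) :
    ∃ r : ℝ, pr (fun h : H => f h) (fun h : H => f h) = (r : ℂ) ∧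
      ∃ R : ℝ, pr f f = (R : ℂ) ∧ r ≤ R ∧ (r = R → ∀ g, f g ≠ 0 → ∃ x, x * g * x⁻¹ ∈ H) := by
  classical
  have : Fintype G := Fintype.ofFinite G
  have : Fintype H := Fintype.ofFinite H
  let F : G → ℝ := fun g => Complex.normSq (f g)
  have hF : ∀ g, f g * f g⁻¹ = ((F g : ℝ) : ℂ) := fun g => virt_mul_inv hf g
  have hF0 : ∀ g, 0 ≤ F g := fun g => Complex.normSq_nonneg _
  have hFc : ∀ g x : G, F (x * g * x⁻¹) = F g := fun g x => by
    change Complex.normSq (f (x * g * x⁻¹)) = _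
    rw [hf.conj]
  have hFne : ∀ g, F g ≠ 0 ↔ f g ≠ 0 := fun g => by
    change Complex.normSq (f g) ≠ 0 ↔ _
    rw [Ne, Complex.normSq_eq_zero]
  have hGpos : (0 : ℝ) < Nat.card G := by exact_mod_cast Nat.card_pos
  have hHpos : (0 : ℝ) < Nat.card H := by exact_mod_cast Nat.card_pos
  let c : G → ℝ := fun g => ∑ x : G, if x * g * x⁻¹ ∈ H then (1 : ℝ) else 0
  have hcle : ∀ g, f g ≠ 0 → c g = 0 ∨ (c g = Nat.card H ∧ ∃ x, x * g * x⁻¹ ∈ H) := by
    intro g hg
    by_cases hex : ∃ x, x * g * x⁻¹ ∈ H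
    · right
      refine ⟨?_, hex⟩
      obtain ⟨x₀, hx₀⟩ := hex
      have hv : f (x₀ * g * x₀⁻¹) ≠ 0 := by rw [hf.conj]; exact hg
      change (∑ x : G, if x * g * x⁻¹ ∈ H then (1 : ℝ) else 0) = _
      rw [← Equiv.sum_comp (Equiv.mulRight x₀)]
      have h1 : ∀ x : G, (if (Equiv.mulRight x₀ x) * g * (Equiv.mulRight x₀ x)⁻¹ ∈ H
          then (1 : ℝ) else 0) = if x ∈ H then 1 else 0 := by
        intro x
        have h2 : (Equiv.mulRight x₀ x) * g * (Equiv.mulRight x₀ x)⁻¹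
            = x * (x₀ * g * x₀⁻¹) * x⁻¹ := by
          change x * x₀ * g * (x * x₀)⁻¹ = _
          group
        rw [h2]
        by_cases hx : x ∈ H
        · rw [if_pos hx, if_pos (H.mul_mem (H.mul_mem hx hx₀) (H.inv_mem hx))]
        · rw [if_neg hx, if_neg (fun h => hx (hTI _ hx₀ hv x h))]
      rw [Finset.sum_congr rfl (fun x _ => h1 x), Finset.sum_boole, Nat.card_eq_fintype_card,
        Fintype.card_subtype]
    · left
      push Not at hex
      exact Finset.sum_eq_zero fun x _ => if_neg (hex x)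
  have hcount : (Nat.card G : ℝ) * ∑ h : H, F h = ∑ g : G, F g * c g := by
    have h1 : ∀ x : G, ∑ g : G, (if x * g * x⁻¹ ∈ H then F g else 0) = ∑ h : H, F h := by
      intro x
      rw [← Finset.sum_subtype (Finset.univ.filter fun g => g ∈ H) (by simp) (fun g : G => F g),
        Finset.sum_filter, ← Equiv.sum_comp (MulAut.conj x).toEquiv
          (fun g => if g ∈ H then F g else 0)]
      refine Finset.sum_congr rfl fun g _ => ?_
      change _ = if x * g * x⁻¹ ∈ H then F (x * g * x⁻¹) else 0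
      rw [hFc]
    have h2 : (Nat.card G : ℝ) * ∑ h : H, F h
        = ∑ x : G, ∑ g : G, (if x * g * x⁻¹ ∈ H then F g else 0) := by
      rw [Finset.sum_congr rfl (fun x _ => h1 x), Finset.sum_const, Finset.card_univ,
        nsmul_eq_mul, Nat.card_eq_fintype_card]
    rw [h2, Finset.sum_comm]
    refine Finset.sum_congr rfl fun g _ => ?_
    change _ = F g * ∑ x : G, _
    rw [Finset.mul_sum]
    refine Finset.sum_congr rfl fun x _ => ?_
    split_ifs <;> simp
  have hterm : ∀ g, F g * c g ≤ F g * Nat.card H := by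
    intro g
    by_cases hg : f g = 0
    · have : F g = 0 := by
        by_contra h
        exact (hFne g).mp h hg
      rw [this, zero_mul, zero_mul]
    · apply mul_le_mul_of_nonneg_left _ (hF0 g)
      rcases hcle g hg with h1 | h1
      · rw [h1]; exact hHpos.le
      · rw [h1.1]
  refine ⟨(Nat.card H : ℝ)⁻¹ * ∑ h : H, F h, ?_, (Nat.card G : ℝ)⁻¹ * ∑ g : G, F g, ?_, ?_, ?_⟩
  · rw [pr_eq]
    push_cast
    congr 1
    refine Finset.sum_congr rfl fun h _ => ?_
    exact hF h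
  · rw [pr_eq]
    push_cast
    congr 1
    exact Finset.sum_congr rfl fun g _ => hF g
  · have h1 : (Nat.card G : ℝ) * ∑ h : H, F h ≤ (Nat.card H : ℝ) * ∑ g : G, F g := by
      rw [hcount, Finset.mul_sum]
      refine Finset.sum_le_sum fun g _ => ?_
      rw [mul_comm (Nat.card H : ℝ)]
      exact hterm g
    rw [inv_mul_le_iff₀ hHpos, mul_left_comm, le_inv_mul_iff₀ hGpos]
    exact h1
  · intro heq g hg
    by_contra hcon
    have h0 : c g = 0 := by
      rcases hcle g hg with h1 | h1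
      · exact h1
      · exact absurd h1.2 hcon
    have h1 : (Nat.card G : ℝ) * ∑ h : H, F h < (Nat.card H : ℝ) * ∑ g : G, F g := by
      rw [hcount, Finset.mul_sum]
      refine Finset.sum_lt_sum (fun g _ => ?_) ⟨g, Finset.mem_univ g, ?_⟩
      · rw [mul_comm (Nat.card H : ℝ)]
        exact hterm g
      · rw [h0, mul_zero]
        have h3 : 0 < F g := lt_of_le_of_ne (hF0 g) (Ne.symm ((hFne g).mpr hg))
        positivity
    have h2 : (Nat.card G : ℝ) * ∑ h : H, F h = (Nat.card H : ℝ) * ∑ g : G, F g := by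
      field_simp at heq
      linarith
    linarith

/-- **Transfer of the field of values.** -/
theorem ti_transfer {χ : G → ℂ} (hχ : χ ∈ Irr G) {N : ℕ} (hN : 0 < N) (hG : Nat.card G ∣ N)
    (a : (ZMod N)ˣ) (H : Subgroup G) (hne : ∃ h ∈ H, pw a χ h ≠ χ h)
    (hTI : ∀ h ∈ H, pw a χ h ≠ χ h → ∀ x, x * h * x⁻¹ ∈ H → x ∈ H) :
    Subgroup.normalizer (H : Set G) = H ∧
      ∃ ψ ∈ Irr H, ∀ u : (ZMod N)ˣ, pw u χ = χ ↔ pw u ψ = ψ := by
  classical
  have hH : Nat.card H ∣ N := (Subgroup.card_subgroup_dvd_card H).trans hG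
  constructor
  · obtain ⟨h, hh, hv⟩ := hne
    apply le_antisymm _ Subgroup.le_normalizer
    intro x hx
    rw [Subgroup.mem_normalizer_iff] at hx
    exact hTI h hh hv x ((hx h).mp hh)
  have hχa : pw a χ ∈ Irr G := irr_pw hN hG a hχ
  have hχne : χ ≠ pw a χ := by
    obtain ⟨h, -, hv⟩ := hne
    intro h1
    exact hv (congrFun h1 h).symm
  have hχv : Virt χ := AddSubgroup.subset_closure hχ
  have hd : Virt (χ - pw a χ) := virt_sub hχv (virt_pw hN hG a hχv)
  have hnorm : pr (χ - pw a χ) (χ - pw a χ) = 2 := by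
    rw [pr_sub, pr_sub', pr_sub', pr_self hχ, pr_self hχa, pr_ne hχ hχa hχne,
      pr_ne hχa hχ hχne.symm]
    norm_num
  obtain ⟨r, hr, R, hR, hrR, heq⟩ := norm_res (H := H) hd (by
    intro h hh hv x hx
    refine hTI h hh (fun h1 => hv ?_) x hx
    rw [Pi.sub_apply, h1, sub_self])
  have hR2 : R = 2 := by
    rw [hnorm] at hR
    exact_mod_cast hR.symm
  have hres : Virt (fun h : H => χ h) := hχv.comp H.subtype
  obtain ⟨hr2, ψ₁, hψ₁, ψ₂, hψ₂, hψne, ⟨c, hc⟩, hdiff⟩ := gal_diff hN hH a hres (by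
    obtain ⟨h, hh, hv⟩ := hne
    intro h1
    exact hv (congrFun h1 ⟨h, hh⟩)) hr (by rw [hR2] at hrR; exact hrR)
  have hsupp := heq (by rw [hr2, hR2])
  refine ⟨ψ₁, hψ₁, fun u => ⟨fun hu => ?_, fun hu => ?_⟩⟩
  · -- the character is fixed
    have h1 : pw u (ψ₁ - ψ₂) = ψ₁ - ψ₂ := by
      rw [← hdiff]
      funext h
      have h2 : pw u (χ - pw a χ) = χ - pw a χ := by
        rw [pw_sub, hu, ← pw_mul hN hG, mul_comm u a, pw_mul hN hG, hu]
      exact congrFun h2 (h : G)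
    have hu1 := irr_pw hN hH u hψ₁
    have hu2 := irr_pw hN hH u hψ₂
    have h3 : pr (pw u ψ₁) ψ₁ - pr (pw u ψ₂) ψ₁ = 1 := by
      rw [← pr_sub, ← pw_sub, h1, pr_sub, pr_self hψ₁, pr_ne hψ₂ hψ₁ hψne.symm, sub_zero]
    by_contra hcon
    rw [pr_ne hu1 hψ₁ hcon] at h3
    by_cases h4 : pw u ψ₂ = ψ₁
    · rw [h4, pr_self hψ₁] at h3
      norm_num at h3
    · rw [pr_ne hu2 hψ₁ h4] at h3
      norm_num at h3
  · have hu2 : pw u ψ₂ = ψ₂ := by
      rw [hc, ← pw_mul hN hH, mul_comm u c, pw_mul hN hH, hu]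
    have h1 : ∀ h : H, pw u (χ - pw a χ) (h : G) = (χ - pw a χ) (h : G) := by
      intro h
      have h2 : pw u (ψ₁ - ψ₂) = ψ₁ - ψ₂ := by rw [pw_sub, hu, hu2]
      rw [← hdiff] at h2
      exact congrFun h2 h
    have hcl : ∀ g x : G, (χ - pw a χ) (x * g * x⁻¹) = (χ - pw a χ) g := hd.conj
    have hclu : ∀ g x : G, pw u (χ - pw a χ) (x * g * x⁻¹) = pw u (χ - pw a χ) g := by
      intro g x
      change (χ - pw a χ) ((x * g * x⁻¹) ^ _) = (χ - pw a χ) (g ^ _)
      rw [conj_pow, hcl]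
    have h2 : pw u (χ - pw a χ) = χ - pw a χ := by
      funext g
      by_cases hg : ∃ x, x * g * x⁻¹ ∈ H
      · obtain ⟨x, hx⟩ := hg
        rw [← hclu g x, ← hcl g x]
        exact h1 ⟨_, hx⟩
      · have h3 : (χ - pw a χ) g = 0 := by
          by_contra h4
          exact hg (hsupp g h4)
        have h5 : pw u (χ - pw a χ) g = 0 := by
          by_contra h4
          apply hg
          obtain ⟨x, hx⟩ := hsupp _ h4
          refine ⟨x, ?_⟩
          rw [← conj_pow] at hx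
          have h6 := pow_val_mul hN (pow_card_dvd hG (x * g * x⁻¹)) u u⁻¹
          rw [mul_inv_cancel, pow_val_one hN (pow_card_dvd hG _)] at h6
          rw [h6]
          exact H.pow_mem hx _
        rw [h3, h5]
    have h3 : pr (pw u χ) χ - pr (pw u (pw a χ)) χ = 1 := by
      rw [← pr_sub, ← pw_sub, h2, pr_sub, pr_self hχ, pr_ne hχa hχ hχne.symm, sub_zero]
    by_contra hcon
    rw [pr_ne (irr_pw hN hG u hχ) hχ hcon] at h3
    by_cases h4 : pw u (pw a χ) = χ
    · rw [h4, pr_self hχ] at h3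
      norm_num at h3
    · rw [pr_ne (irr_pw hN hG u hχa) hχ h4] at h3
      norm_num at h3

end main

end Run7.h132
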