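import Mathlib
import Pool.Agent.Run7.h132.TI
import Pool.Agent.Helper606_LC.Iso
import Pool.Agent.Helper606_LC.Pr2

/-!
# Strongly embedded subgroups
-/

set_option autoImplicit false
set_option linter.unusedSectionVars false

namespace Run7.h132

open Pool.Agent.H541R3.ART Pool.Agent.W446.AS Pool.Agent.R389 Pool.Agent.Helper606_LC

variable {G : Type} [Group G] [Finite G]

/-- changing the modulus -/
lemma pw_change {H : Type} [Group H] [Finite H] {N : ℕ} (hN : 0 < N) (hG : Nat.card G ∣ N)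
    (hH : Nat.card H ∣ N) {χ : G → ℂ} (hχ : χ ∈ Irr G) {ψ : H → ℂ} (hψ : ψ ∈ Irr H)
    (h : ∀ u : (ZMod N)ˣ, pw u χ = χ ↔ pw u ψ = ψ) {M : ℕ} (hM : 0 < M) (hG' : Nat.card G ∣ M)
    (hH' : Nat.card H ∣ M) (u : (ZMod M)ˣ) : pw u χ = χ ↔ pw u ψ = ψ := by
  have h1 := adjoin_eq_of_pw hN hG hH hχ hψ h
  exact ⟨pw_of_adjoin_le hM hH' hG' hψ hχ h1.ge u, pw_of_adjoin_le hM hG' hH' hχ hψ h1.le u⟩

/-- elements moved by an automorphism fixing the roots of unity of order not divisible by `m` -/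
lemma dvd_of_moved {N : ℕ} (hG : Nat.card G ∣ N) {m : ℕ} {u : (ZMod N)ˣ}
    (hu : u ∈ Ug N m) {χ : G → ℂ} {g : G} (hg : pw u χ g ≠ χ g) : m ∣ orderOf g := by
  by_contra hcon
  apply hg
  change χ (g ^ (u : ZMod N).val) = χ g
  congr 1
  have ho : 0 < orderOf g := orderOf_pos g
  have hζ : IsPrimitiveRoot (Complex.exp (2 * Real.pi * Complex.I / (orderOf g : ℕ))) (orderOf g) :=
    Complex.isPrimitiveRoot_exp _ ho.ne'
  set ζ := Complex.exp (2 * Real.pi * Complex.I / (orderOf g : ℕ))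
  have hdN : orderOf g ∣ N := (orderOf_dvd_natCard g).trans hG
  have h1 : ζ ^ (u : ZMod N).val = ζ := by
    apply hu
    · obtain ⟨c, hc⟩ := hdN
      rw [hc, pow_mul, hζ.pow_eq_one, one_pow]
    · rw [← hζ.eq_orderOf]
      exact hcon
  have h2 : (u : ZMod N).val ≡ 1 [MOD orderOf g] := by
    have h3 : ζ ^ (u : ZMod N).val = ζ ^ 1 := by rw [h1, pow_one]
    rw [pow_eq_pow_mod _ hζ.pow_eq_one, pow_eq_pow_mod 1 hζ.pow_eq_one] at h3
    exact hζ.pow_inj (Nat.mod_lt _ ho) (Nat.mod_lt _ ho) h3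
  rw [pow_eq_of_modEq (pow_orderOf_eq_one g) h2, pow_one]

/-- a subgroup which controls one `p`-element strongly contains a Sylow `p`-subgroup -/
lemma sylow_le_of_emb {p : ℕ} [Fact p.Prime] {H : Subgroup G} {y : G} (hy : y ∈ H)
    (P : Sylow p G) (hyP : y ∈ P) (hTI : ∀ x : G, x * y * x⁻¹ ∈ H → x ∈ H) :
    (P : Subgroup G) ≤ H := by
  have hnil : Group.IsNilpotent P := P.2.isNilpotent
  have hnc := Group.normalizerCondition_of_isNilpotent (G := P)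
  by_contra hcon
  let R : Subgroup P := H.subgroupOf P
  have hR : R < ⊤ := by
    rw [lt_top_iff_ne_top]
    intro h
    exact hcon (Subgroup.subgroupOf_eq_top.mp h)
  have h1 := hnc R hR
  obtain ⟨x, hx1, hx2⟩ := SetLike.exists_of_lt h1
  apply hx2
  rw [Subgroup.mem_normalizer_iff] at hx1
  have h2 := (hx1 ⟨y, hyP⟩).mp (Subgroup.mem_subgroupOf.mpr hy)
  exact Subgroup.mem_subgroupOf.mpr (hTI x (Subgroup.mem_subgroupOf.mp h2))

/-- **Strongly embedded subgroups.** -/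
theorem emb_transfer {χ : G → ℂ} (hχ : χ ∈ Irr G) {p a : ℕ} (hp : p.Prime) (ha : 0 < a)
    (hpa : ∀ n : ℕ, 0 < n → (∀ g, χ g ∈ Qc n) → p ^ a ∣ n) (H : Subgroup G)
    (hH : ∃ y ∈ H, (∃ k, orderOf y = p ^ k) ∧ p ^ a ∣ orderOf y)
    (hTI : ∀ y ∈ H, (∃ k, orderOf y = p ^ k) → p ^ a ∣ orderOf y →
      ∀ x : G, x * y * x⁻¹ ∈ H → x ∈ H) :
    Subgroup.normalizer (H : Set G) = H ∧
      ∃ ψ ∈ Irr H, ∀ u : (ZMod (Nat.card G))ˣ, pw u χ = χ ↔ pw u ψ = ψ := by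
  classical
  have : Fact p.Prime := ⟨hp⟩
  obtain ⟨n, hn, h, hmin⟩ := exists_cond hχ
  set N := Nat.card G * n with hNdef
  have hGN : Nat.card G ∣ N := Dvd.intro _ rfl
  have hnN : n ∣ N := Dvd.intro_left _ rfl
  have hN : 0 < N := Nat.mul_pos Nat.card_pos hn
  have hcl : ∀ g x : G, χ (x * g * x⁻¹) = χ g :=
    (show Virt χ from AddSubgroup.subset_closure hχ).conj
  obtain ⟨u, hu, hne⟩ := exists_mov hN hGN hχ hn hnN h hmin hp ha (hpa n hn h)
  -- a Sylow subgroup in `H`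
  obtain ⟨y, hy, ⟨k, hk⟩, hya⟩ := hH
  have hyp : IsPGroup p (Subgroup.zpowers y) := by
    apply IsPGroup.of_card (n := k)
    rw [Nat.card_zpowers, hk]
  obtain ⟨P, hP⟩ := hyp.exists_le_sylow
  have hPH : (P : Subgroup G) ≤ H :=
    sylow_le_of_emb hy P (hP (Subgroup.mem_zpowers y)) (hTI y hy ⟨k, hk⟩ hya)
  -- main step
  have hTI2 : ∀ h ∈ H, pw u χ h ≠ χ h → ∀ x, x * h * x⁻¹ ∈ H → x ∈ H := by
    intro h hh hv x hx
    have hd := dvd_of_moved hGN hu hv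
    obtain ⟨v, M, hM, hNM⟩ := Nat.exists_eq_pow_mul_and_not_dvd (orderOf_pos h).ne' p hp.ne_one
    have hM0 : M ≠ 0 := by rintro rfl; exact hM (dvd_zero p)
    have ho : orderOf (h ^ M) = p ^ v := by
      rw [orderOf_pow_of_dvd hM0 ⟨p ^ v, by rw [hNM, mul_comm]⟩, hNM,
        Nat.mul_div_cancel _ (Nat.pos_of_ne_zero hM0)]
    refine hTI (h ^ M) (H.pow_mem hh M) ⟨v, ho⟩ ?_ x ?_
    · rw [ho]
      have h2 : Nat.Coprime (p ^ a) M :=
        Nat.Coprime.pow_left a ((Nat.Prime.coprime_iff_not_dvd hp).mpr hM)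
      rw [hNM] at hd
      exact h2.dvd_of_dvd_mul_right hd
    · rw [← conj_pow]
      exact H.pow_mem hx M
  suffices hmv : ∃ h ∈ H, pw u χ h ≠ χ h by
    obtain ⟨h1, ψ, hψ, h2⟩ := ti_transfer hχ hN hGN u H hmv hTI2
    exact ⟨h1, ψ, hψ, pw_change hN hGN ((Subgroup.card_subgroup_dvd_card H).trans hGN) hχ hψ h2
      Nat.card_pos dvd_rfl (Subgroup.card_subgroup_dvd_card H)⟩
  -- an element of `H` which is moved
  have hex : ∃ g, pw u χ g ≠ χ g := by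
    by_contra hcon
    push Not at hcon
    exact hne (funext hcon)
  obtain ⟨g, hg⟩ := hex
  have hd := dvd_of_moved hGN hu hg
  obtain ⟨v, M, hM, hNM⟩ := Nat.exists_eq_pow_mul_and_not_dvd (orderOf_pos g).ne' p hp.ne_one
  have hM0 : M ≠ 0 := by rintro rfl; exact hM (dvd_zero p)
  have ho : orderOf (g ^ M) = p ^ v := by
    rw [orderOf_pow_of_dvd hM0 ⟨p ^ v, by rw [hNM, mul_comm]⟩, hNM,
      Nat.mul_div_cancel _ (Nat.pos_of_ne_zero hM0)]
  have hd' : p ^ a ∣ orderOf (g ^ M) := by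
    rw [ho]
    have h2 : Nat.Coprime (p ^ a) M :=
      Nat.Coprime.pow_left a ((Nat.Prime.coprime_iff_not_dvd hp).mpr hM)
    rw [hNM] at hd
    exact h2.dvd_of_dvd_mul_right hd
  have hgp : IsPGroup p (Subgroup.zpowers (g ^ M)) := by
    apply IsPGroup.of_card (n := v)
    rw [Nat.card_zpowers, ho]
  obtain ⟨Q, hQ⟩ := hgp.exists_le_sylow
  obtain ⟨x, hx⟩ := MulAction.exists_smul_eq G Q P
  have hxH : x * g ^ M * x⁻¹ ∈ H := by
    apply hPH
    rw [← hx]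
    exact Subgroup.smul_mem_pointwise_smul (g ^ M) (MulAut.conj x) (Q : Subgroup G)
      (hQ (Subgroup.mem_zpowers _))
  have hgH : x * g * x⁻¹ ∈ H := by
    have ho2 : orderOf (x * g ^ M * x⁻¹) = orderOf (g ^ M) := by
      have : x * g ^ M * x⁻¹ = MulAut.conj x (g ^ M) := rfl
      rw [this]
      exact orderOf_injective (MulAut.conj x).toMonoidHom (MulAut.conj x).injective (g ^ M)
    apply hTI (x * g ^ M * x⁻¹) hxH ⟨v, by rw [ho2, ho]⟩ (by rw [ho2]; exact hd')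
    have : x * g * x⁻¹ * (x * g ^ M * x⁻¹) * (x * g * x⁻¹)⁻¹ = x * g ^ M * x⁻¹ := by
      have h1 : g * g ^ M = g ^ M * g := by rw [← pow_succ', ← pow_succ]
      have h2 : g * g ^ M * g⁻¹ = g ^ M := by rw [h1, mul_inv_cancel_right]
      calc x * g * x⁻¹ * (x * g ^ M * x⁻¹) * (x * g * x⁻¹)⁻¹ = x * (g * g ^ M * g⁻¹) * x⁻¹ := by
            group
        _ = _ := by rw [h2]
    rw [this]
    exact hxH
  refine ⟨x * g * x⁻¹, hgH, ?_⟩
  rw [hcl]
  change χ ((x * g * x⁻¹) ^ _) ≠ _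
  rw [conj_pow, hcl]
  exact hg

end Run7.h132
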