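import Mathlib
import Pool.Agent.Run7.h132.Base

/-!
# Representations with irreducible characters
-/

set_option autoImplicit false
set_option linter.unusedSectionVars false

namespace Run7.h132

open Pool.Agent.H541R3.ART Pool.Agent.W446.AS Pool.Agent.R389 Pool.Agent.Helper606_LC

/-- a representation whose character is irreducible is irreducible -/
lemma irred_of_char {H : Type} [Group H] [Finite H] {V : Type} [AddCommGroup V] [Module ℂ V]
    [FiniteDimensional ℂ V] {ρ : Representation ℂ H V} (h : ρ.character ∈ Irr H) : Irred ρ := by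
  classical
  have : Fintype H := Fintype.ofFinite H
  have h1 : CategoryTheory.Simple (FDRep.of ρ) := by
    rw [FDRep.simple_iff_char_is_norm_one]
    have h2 := pr_self h
    rw [pr_eq] at h2
    have h3 : (Nat.card H : ℂ) ≠ 0 := card_ne
    have h4 : ∑ g : H, ρ.character g * ρ.character g⁻¹ = Nat.card H := by
      field_simp at h2
      exact h2
    exact h4
  exact irred_of_simple (FDRep.of ρ) h1

variable {G : Type} [Group G] [Finite G]

/-- irreducibility on an intermediate subgroup -/
lemma irrOn_mid {L M K : Subgroup G} (hLM : L ≤ M) (hMK : M ≤ K) {ν : G → ℂ} (hK : IrrOn K ν)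
    (hL : IrrOn L ν) : IrrOn M ν := by
  obtain ⟨n, ρ, hρ, hρν⟩ := exists_rep hK
  let ρM : Representation ℂ M (Fin n → ℂ) := ρ.comp (Subgroup.inclusion hMK)
  let ρL : Representation ℂ L (Fin n → ℂ) := ρ.comp (Subgroup.inclusion (hLM.trans hMK))
  have h1 : ρL.character = fun l : L => ν l := by
    funext l
    exact (congrFun hρν (Subgroup.inclusion (hLM.trans hMK) l)).symm
  have h2 : ρM.character = fun l : M => ν l := by
    funext l
    exact (congrFun hρν (Subgroup.inclusion hMK l)).symm
  have h3 : Irred ρL := irred_of_char (by rw [h1]; exact hL)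
  have h4 : Irred ρM := ⟨h3.1, fun W hW => h3.2 W fun g v hv => hW ⟨g, hLM g.2⟩ v hv⟩
  rw [IrrOn, ← h2]
  exact irr_of_irred h4

/-- the scalar is not zero -/
lemma irrOn_scal {K : Subgroup G} {χ : G → ℂ} {c : ℂ}
    (hK : IrrOn K (fun g => c * χ g)) : c ≠ 0 := by
  rintro rfl
  exact irrOn_one_ne hK (by simp)

/-- the projection to the homogeneous component is the identity for a homogeneous restriction -/
lemma pj_one [Fintype G] {V : Type} [AddCommGroup V] [Module ℂ V] [FiniteDimensional ℂ V]
    {ρ : Representation ℂ G V} (hρ : Irred ρ) {K : Subgroup G} (hK : K.Normal) {c : ℂ}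
    (h : IrrOn K (fun g => c * ρ.character g)) :
    Pj K ρ (fun k : K => c * ρ.character k) = 1 := by
  classical
  have hc := irrOn_scal h
  set θ : K → ℂ := fun k => c * ρ.character k with hθdef
  have hθ : θ ∈ Irr K := h
  have hcomm : ∀ x : G, Pj K ρ θ * ρ x = ρ x * Pj K ρ θ := by
    intro x
    have h1 := Pj_conj ρ hK θ x
    have h2 : (fun k => θ (MulAut.conjNormal x k)) = θ := by
      funext k
      change c * ρ.character (x * k * x⁻¹) = c * ρ.character k
      rw [ρ.char_conj]
    rw [h2] at h1
    calc Pj K ρ θ * ρ x = ρ x * (ρ x⁻¹ * Pj K ρ θ * ρ x) := by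
          rw [← mul_assoc, ← mul_assoc, ← map_mul, mul_inv_cancel, map_one, one_mul]
      _ = _ := by rw [h1]
  obtain ⟨z, hz⟩ := hρ.scalar (Pj K ρ θ) (fun g v => LinearMap.congr_fun (hcomm g) v)
  have hPz : Pj K ρ θ = z • (1 : Module.End ℂ V) := LinearMap.ext fun v => hz v
  have hPP : Pj K ρ θ * Pj K ρ θ = Pj K ρ θ := by rw [Pj_mul ρ hθ hθ, pr_self hθ, one_smul]
  have hP0 : Pj K ρ θ ≠ 0 := by
    intro h0
    have h2 := Pj_trace ρ θ
    rw [h0, map_zero] at h2
    have h3 : θ 1 ≠ 0 := by
      obtain ⟨d, hd, hd1⟩ := irr_deg_pos hθ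
      rw [hd1]
      exact_mod_cast hd.ne'
    have h4 : pr (fun k : K => ρ.character k) θ ≠ 0 := by
      have h5 : (fun k : K => ρ.character k) = fun k : K => c⁻¹ * θ k := by
        funext k
        rw [hθdef]
        simp only
        rw [inv_mul_cancel_left₀ hc]
      rw [h5, pr_const_left, pr_self hθ, mul_one]
      exact inv_ne_zero hc
    exact mul_ne_zero h3 h4 h2.symm
  have hnt := hρ.1
  have h2 : (z * z) • (1 : Module.End ℂ V) = z • (1 : Module.End ℂ V) := by
    have h3 := hPP
    rw [hPz, smul_mul_smul_comm, one_mul] at h3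
    exact h3
  have h3 : z * z = z := smul_left_injective ℂ (one_ne_zero (α := Module.End ℂ V)) h2
  have h4 : z ≠ 0 := by
    rintro rfl
    rw [zero_smul] at hPz
    exact hP0 hPz
  have h5 : z = 1 := mul_left_cancel₀ h4 (by rw [h3, mul_one])
  rw [hPz, h5, one_smul]

end Run7.h132
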