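import Mathlib
import Pool.Agent.Run7.h132.RepA

/-!
# The algebra generated by a homogeneous representation
-/

set_option autoImplicit false
set_option linter.unusedSectionVars false

namespace Run7.h132

open Pool.Agent.H541R3.ART Pool.Agent.W446.AS Pool.Agent.R389 Pool.Agent.Helper606_LC

/-- inversion formula for families whose conjugation averages are scalar -/
lemma inv_general {W : Type} [AddCommGroup W] [Module ℂ W] [FiniteDimensional ℂ W] {ι : Type}
    [Fintype ι] (x y : ι → Module.End ℂ W)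
    (h : ∀ z : Module.End ℂ W, ∃ c : ℂ, ∑ i, x i * z * y i = c • 1) (hyx : ∀ i, y i * x i = 1)
    (hd : (Module.finrank ℂ W : ℂ) ≠ 0) (f : Module.End ℂ W) :
    ∑ i, LinearMap.trace ℂ W (y i * f) • x i
      = ((Fintype.card ι : ℂ) / Module.finrank ℂ W) • f := by
  classical
  let b := Module.finBasis ℂ W
  have htr : ∀ g : Module.End ℂ W, LinearMap.trace ℂ W g = ∑ j, b.coord j (g (b j)) := by
    intro g
    rw [LinearMap.trace_eq_matrix_trace ℂ b, Matrix.trace]
    refine Finset.sum_congr rfl fun j _ => ?_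
    rw [Matrix.diag_apply, LinearMap.toMatrix_apply]
    rfl
  apply LinearMap.ext
  intro v
  have key : ∀ (j) (u : W), ∑ i, b.coord j (y i u) • x i v
      = ((Fintype.card ι : ℂ) / Module.finrank ℂ W * b.coord j v) • u := by
    intro j u
    obtain ⟨c, hc⟩ := h ((b.coord j).smulRight v)
    have h1 : ∑ i, b.coord j (y i u) • x i v = c • u := by
      have h2 := LinearMap.congr_fun hc u
      rw [LinearMap.sum_apply, LinearMap.smul_apply, Module.End.one_apply] at h2
      rw [← h2]
      refine Finset.sum_congr rfl fun i _ => ?_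
      rw [Module.End.mul_apply, Module.End.mul_apply, LinearMap.smulRight_apply, map_smul]
    have h3 : c = (Fintype.card ι : ℂ) / Module.finrank ℂ W * b.coord j v := by
      have h4 := congrArg (LinearMap.trace ℂ W) hc
      rw [map_sum, map_smul, LinearMap.trace_one, smul_eq_mul] at h4
      have h5 : ∀ i, LinearMap.trace ℂ W (x i * (b.coord j).smulRight v * y i) = b.coord j v := by
        intro i
        rw [LinearMap.trace_mul_comm, ← mul_assoc, hyx, one_mul, LinearMap.trace_smulRight]
      rw [Finset.sum_congr rfl (fun i _ => h5 i), Finset.sum_const, Finset.card_univ,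
        nsmul_eq_mul] at h4
      field_simp
      exact h4.symm
    rw [h1, h3]
  rw [LinearMap.sum_apply, LinearMap.smul_apply]
  have h1 : ∀ i, (LinearMap.trace ℂ W (y i * f) • x i) v
      = ∑ j, b.coord j (y i (f (b j))) • x i v := by
    intro i
    rw [LinearMap.smul_apply, htr, Finset.sum_smul]
    rfl
  rw [Finset.sum_congr rfl (fun i _ => h1 i), Finset.sum_comm,
    Finset.sum_congr rfl (fun j _ => key j (f (b j)))]
  have h2 : v = ∑ j, b.coord j v • b j := (b.sum_repr v).symm
  conv_rhs => rw [h2]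
  rw [map_sum, Finset.smul_sum]
  refine Finset.sum_congr rfl fun j _ => ?_
  rw [map_smul, smul_smul]

lemma finrank_ne {W : Type} [AddCommGroup W] [Module ℂ W] [FiniteDimensional ℂ W]
    (h : Nontrivial W) : (Module.finrank ℂ W : ℂ) ≠ 0 := by
  have := Module.finrank_pos (R := ℂ) (M := W)
  exact_mod_cast this.ne'

section rep

variable {H : Type} [Group H] [Fintype H] {V W : Type} [AddCommGroup V] [Module ℂ V]
  [FiniteDimensional ℂ V] [AddCommGroup W] [Module ℂ W] [FiniteDimensional ℂ W]

lemma rep_inv_mul {H V : Type} [Group H] [AddCommGroup V] [Module ℂ V]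
    (D : Representation ℂ H V) (h : H) : D h⁻¹ * D h = 1 := by
  rw [← map_mul, inv_mul_cancel, map_one]

lemma rep_mul_inv {H V : Type} [Group H] [AddCommGroup V] [Module ℂ V]
    (D : Representation ℂ H V) (h : H) : D h * D h⁻¹ = 1 := by
  rw [← map_mul, mul_inv_cancel, map_one]

/-- conjugation averages are scalar -/
lemma schur_avg {D : Representation ℂ H W} (hD : Irred D) (z : Module.End ℂ W) :
    ∃ c : ℂ, ∑ h, D h * z * D h⁻¹ = c • 1 := by
  classical
  obtain ⟨c, hc⟩ := hD.scalar (∑ h, D h * z * D h⁻¹) (by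
    intro g v
    have h1 : (∑ h, D h * z * D h⁻¹) * D g = D g * ∑ h, D h * z * D h⁻¹ := by
      rw [Finset.sum_mul, Finset.mul_sum, ← Equiv.sum_comp (Equiv.mulLeft g)]
      refine Finset.sum_congr rfl fun h _ => ?_
      rw [Equiv.coe_mulLeft, mul_inv_rev, map_mul, map_mul]
      simp only [mul_assoc]
      rw [rep_inv_mul, mul_one]
    exact LinearMap.congr_fun h1 v)
  exact ⟨c, LinearMap.ext fun v => by rw [hc v]; rfl⟩

/-- Fourier inversion -/
lemma inv_rep {D : Representation ℂ H W} (hD : Irred D) (f : Module.End ℂ W) :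
    ∑ h, LinearMap.trace ℂ W (D h⁻¹ * f) • D h
      = ((Fintype.card H : ℂ) / Module.finrank ℂ W) • f :=
  inv_general (fun h => D h) (fun h => D h⁻¹) (schur_avg hD) (fun h => rep_inv_mul D h)
    (finrank_ne hD.1) f

lemma span_rep {D : Representation ℂ H W} (hD : Irred D) :
    Submodule.span ℂ (Set.range fun h : H => D h) = ⊤ := by
  rw [eq_top_iff]
  intro f _
  have h1 := inv_rep hD f
  have h2 : (Module.finrank ℂ W : ℂ) ≠ 0 := finrank_ne hD.1
  have h3 : (Fintype.card H : ℂ) ≠ 0 := by exact_mod_cast Fintype.card_ne_zero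
  have h4 : f = ((Module.finrank ℂ W : ℂ) / Fintype.card H) •
      ∑ h, LinearMap.trace ℂ W (D h⁻¹ * f) • D h := by
    rw [h1, smul_smul, div_mul_div_cancel₀ h3, div_self h2, one_smul]
  rw [h4]
  exact Submodule.smul_mem _ _ (Submodule.sum_mem _ fun h _ => Submodule.smul_mem _ _
    (Submodule.subset_span ⟨h, rfl⟩))

/-- `ρ` is homogeneous of type `D` -/
structure HS (ρ : Representation ℂ H V) (D : Representation ℂ H W) (c : ℂ) : Prop where
  irr : Irred D
  c0 : c ≠ 0
  ch : ∀ h, D.character h = c * ρ.character h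
  pr1 : ((Module.finrank ℂ W : ℂ) / Fintype.card H) • ∑ h : H, D.character h⁻¹ • ρ h = 1

/-- the algebra homomorphism from the endomorphism algebra of `W`, as a linear map -/
noncomputable def Th (ρ : Representation ℂ H V) (D : Representation ℂ H W) :
    Module.End ℂ W →ₗ[ℂ] Module.End ℂ V :=
  ((Module.finrank ℂ W : ℂ) / Fintype.card H) •
    ∑ h : H, ((LinearMap.trace ℂ W).comp (LinearMap.mulLeft ℂ (D h⁻¹))).smulRight (ρ h)

lemma Th_apply (ρ : Representation ℂ H V) (D : Representation ℂ H W) (f : Module.End ℂ W) :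
    Th ρ D f = ((Module.finrank ℂ W : ℂ) / Fintype.card H) •
      ∑ h : H, LinearMap.trace ℂ W (D h⁻¹ * f) • ρ h := by
  rw [Th, LinearMap.smul_apply, LinearMap.sum_apply]
  rfl

variable {ρ : Representation ℂ H V} {D : Representation ℂ H W} {c : ℂ}

lemma HS.th_D (h : HS ρ D c) (g : H) : Th ρ D (D g) = ρ g := by
  rw [Th_apply, ← Equiv.sum_comp (Equiv.mulLeft g)]
  have h1 : ∀ x : H, LinearMap.trace ℂ W (D (Equiv.mulLeft g x)⁻¹ * D g) • ρ (Equiv.mulLeft g x)
      = ρ g * (D.character x⁻¹ • ρ x) := by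
    intro x
    rw [Equiv.coe_mulLeft, ← map_mul, mul_inv_rev, inv_mul_cancel_right, map_mul, mul_smul_comm]
    rfl
  rw [Finset.sum_congr rfl (fun x _ => h1 x), ← Finset.mul_sum, ← mul_smul_comm, h.pr1, mul_one]

lemma HS.th_one (h : HS ρ D c) : Th ρ D 1 = 1 := by
  rw [← map_one D, h.th_D, map_one]

/-- linear maps which agree on the group agree -/
lemma HS.ext {X : Type} [AddCommGroup X] [Module ℂ X] (h : HS ρ D c)
    {f g : Module.End ℂ W →ₗ[ℂ] X} (hfg : ∀ x, f (D x) = g (D x)) : f = g := by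
  apply LinearMap.ext_on (span_rep h.irr)
  rintro _ ⟨x, rfl⟩
  exact hfg x

lemma HS.th_mul (h : HS ρ D c) (f g : Module.End ℂ W) : Th ρ D (f * g) = Th ρ D f * Th ρ D g := by
  have h1 : ∀ (x : H) (f : Module.End ℂ W), Th ρ D (f * D x) = Th ρ D f * ρ x := by
    intro x f
    have h2 : (Th ρ D).comp (LinearMap.mulRight ℂ (D x))
        = (LinearMap.mulRight ℂ (ρ x)).comp (Th ρ D) := by
      apply h.ext
      intro y
      simp only [LinearMap.comp_apply, LinearMap.mulRight_apply]
      rw [← map_mul, h.th_D, h.th_D, map_mul]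
    exact LinearMap.congr_fun h2 f
  have h2 : (Th ρ D).comp (LinearMap.mulLeft ℂ f)
      = (LinearMap.mulLeft ℂ (Th ρ D f)).comp (Th ρ D) := by
    apply h.ext
    intro y
    simp only [LinearMap.comp_apply, LinearMap.mulLeft_apply]
    rw [h1, h.th_D]
  exact LinearMap.congr_fun h2 g

lemma HS.th_tr (h : HS ρ D c) (f : Module.End ℂ W) :
    LinearMap.trace ℂ W f = c * LinearMap.trace ℂ V (Th ρ D f) := by
  have h2 : LinearMap.trace ℂ W = c • (LinearMap.trace ℂ V).comp (Th ρ D) := by
    apply h.ext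
    intro y
    rw [LinearMap.smul_apply, LinearMap.comp_apply, h.th_D]
    exact h.ch y
  have h3 := LinearMap.congr_fun h2 f
  exact h3

lemma HS.th_inj (h : HS ρ D c) {f : Module.End ℂ W} (hf : Th ρ D f = 0) : f = 0 := by
  have h1 := inv_rep h.irr f
  have h2 : (Module.finrank ℂ W : ℂ) ≠ 0 := finrank_ne h.irr.1
  have h3 : (Fintype.card H : ℂ) ≠ 0 := by exact_mod_cast Fintype.card_ne_zero
  have h4 : ∀ x : H, LinearMap.trace ℂ W (D x⁻¹ * f) = 0 := by
    intro x
    rw [h.th_tr, h.th_mul, hf, mul_zero, map_zero, mul_zero]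
  rw [Finset.sum_congr rfl (fun x _ => by rw [h4 x, zero_smul]), Finset.sum_const_zero] at h1
  rcases smul_eq_zero.mp h1.symm with h5 | h5
  · exact absurd h5 (div_ne_zero h3 h2)
  · exact h5

/-- the centre of the algebra is scalar -/
lemma HS.scalar (h : HS ρ D c) {f : Module.End ℂ W}
    (hf : ∀ x, Th ρ D f * ρ x = ρ x * Th ρ D f) : ∃ z : ℂ, f = z • 1 ∧ Th ρ D f = z • 1 := by
  obtain ⟨z, hz⟩ := h.irr.scalar f (by
    intro x v
    have h1 : f * D x - D x * f = 0 := by
      apply h.th_inj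
      rw [map_sub, h.th_mul, h.th_mul, h.th_D, hf, sub_self]
    exact LinearMap.congr_fun (sub_eq_zero.mp h1) v)
  have h1 : f = z • 1 := LinearMap.ext fun v => hz v
  exact ⟨z, h1, by rw [h1, map_smul, h.th_one]⟩

/-- every element of the span comes from `Th` -/
lemma Th_mem (f : Module.End ℂ W) :
    Th ρ D f ∈ Submodule.span ℂ (Set.range fun h : H => ρ h) := by
  rw [Th_apply]
  exact Submodule.smul_mem _ _ (Submodule.sum_mem _ fun h _ => Submodule.smul_mem _ _
    (Submodule.subset_span ⟨h, rfl⟩))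

lemma HS.of_mem (h : HS ρ D c) {x : Module.End ℂ V}
    (hx : x ∈ Submodule.span ℂ (Set.range fun h : H => ρ h)) : ∃ f, Th ρ D f = x := by
  induction hx using Submodule.span_induction with
  | mem x hx =>
    obtain ⟨g, rfl⟩ := hx
    exact ⟨D g, h.th_D g⟩
  | zero => exact ⟨0, map_zero _⟩
  | add x y _ _ hx hy =>
    obtain ⟨f, rfl⟩ := hx
    obtain ⟨g, rfl⟩ := hy
    exact ⟨f + g, map_add _ _ _⟩
  | smul a x _ hx =>
    obtain ⟨f, rfl⟩ := hx
    exact ⟨a • f, map_smul _ _ _⟩

end rep

/-- homogeneous restriction of an irreducible representation to a normal subgroup -/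
lemma hs_of_normal {G : Type} [Group G] [Fintype G] {V : Type} [AddCommGroup V] [Module ℂ V]
    [FiniteDimensional ℂ V] {ρ : Representation ℂ G V} (hρ : Irred ρ) {K : Subgroup G}
    [Fintype K] (hK : K.Normal) {c : ℂ} (h : IrrOn K (fun g => c * ρ.character g)) :
    ∃ (d : ℕ) (D : Representation ℂ K (Fin d → ℂ)), HS (ρ.comp K.subtype) D c := by
  classical
  obtain ⟨d, D, hD, hDc⟩ := exists_rep h
  refine ⟨d, D, hD, irrOn_scal h, fun k => (congrFun hDc k).symm, ?_⟩
  have h1 := pj_one hρ hK h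
  rw [Pj] at h1
  have h2 : ∑ g : G, ext K (fun k : K => c * ρ.character k) g⁻¹ • ρ g
      = ∑ k : K, D.character k⁻¹ • (ρ.comp K.subtype) k := by
    have h3 : ∑ g : G, ext K (fun k : K => c * ρ.character k) g⁻¹ • ρ g
        = ∑ g ∈ Finset.univ.filter (fun g => g ∈ K),
          ext K (fun k : K => c * ρ.character k) g⁻¹ • ρ g := by
      refine (Finset.sum_filter_of_ne ?_).symm
      intro g _ hg
      by_contra hgK
      apply hg
      rw [ext_not K _ (fun h => hgK (by simpa using K.inv_mem h)), zero_smul]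
    rw [h3, Finset.sum_subtype (p := fun g => g ∈ K) _ (by simp)]
    refine Finset.sum_congr rfl fun k _ => ?_
    rw [ext_mem K _ (K.inv_mem k.2), ← hDc]
    rfl
  rw [h2] at h1
  have h3 : (Module.finrank ℂ (Fin d → ℂ) : ℂ) = c * ρ.character ((1 : K) : G) := by
    rw [← D.char_one, ← hDc]
  rw [h3, ← Nat.card_eq_fintype_card]
  exact h1

end Run7.h132
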