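import Mathlib
import Pool.Agent.Run7.h132.Theta

/-!
# Canonical extensions normalized by determinants on two eigenspaces
-/

set_option autoImplicit false
set_option linter.unusedSectionVars false

namespace Run7.h132

open Pool.Agent.H541R3.ART Pool.Agent.W446.AS Pool.Agent.R389 Pool.Agent.Helper606_LC

section det

variable {W : Type} [AddCommGroup W] [Module ℂ W] [FiniteDimensional ℂ W]

/-- the projection to the eigenspace of `1` -/
noncomputable def Tp (T : Module.End ℂ W) : Module.End ℂ W := (2⁻¹ : ℂ) • (1 + T)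

/-- the projection to the eigenspace of `-1` -/
noncomputable def Tm (T : Module.End ℂ W) : Module.End ℂ W := (2⁻¹ : ℂ) • (1 - T)

variable {T : Module.End ℂ W}

lemma Tp_add_Tm : Tp T + Tm T = 1 := by
  rw [Tp, Tm, ← smul_add, add_add_sub_cancel, ← two_smul ℂ (1 : Module.End ℂ W), smul_smul]
  norm_num

lemma Tp_sq (hT : T * T = 1) : Tp T * Tp T = Tp T := by
  rw [Tp, smul_mul_smul_comm, add_mul, mul_add, mul_add, hT, one_mul, mul_one, one_mul]
  have h1 : (1 : Module.End ℂ W) + T + (T + 1) = (2 : ℂ) • (1 + T) := by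
    rw [two_smul]; abel
  rw [h1, smul_smul]
  norm_num

lemma Tm_sq (hT : T * T = 1) : Tm T * Tm T = Tm T := by
  rw [Tm, smul_mul_smul_comm, sub_mul, mul_sub, mul_sub, hT, one_mul, mul_one, one_mul]
  have h1 : (1 : Module.End ℂ W) - T - (T - 1) = (2 : ℂ) • (1 - T) := by
    rw [two_smul]; abel
  rw [h1, smul_smul]
  norm_num

lemma Tp_Tm (hT : T * T = 1) : Tp T * Tm T = 0 := by
  rw [Tp, Tm, smul_mul_smul_comm, add_mul, mul_sub, mul_sub, hT, one_mul, mul_one, one_mul]
  have h1 : (1 : Module.End ℂ W) - T + (T - 1) = 0 := by abel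
  rw [h1, smul_zero]

lemma Tm_Tp (hT : T * T = 1) : Tm T * Tp T = 0 := by
  rw [Tp, Tm, smul_mul_smul_comm, sub_mul, mul_add, mul_add, hT, one_mul, mul_one, one_mul]
  have h1 : (1 : Module.End ℂ W) + T - (T + 1) = 0 := by abel
  rw [h1, smul_zero]

lemma Tp_comm {M : Module.End ℂ W} (h : M * T = T * M) : M * Tp T = Tp T * M := by
  rw [Tp, mul_smul_comm, smul_mul_assoc, mul_add, add_mul, h, one_mul, mul_one]

lemma Tm_comm {M : Module.End ℂ W} (h : M * T = T * M) : M * Tm T = Tm T * M := by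
  rw [Tm, mul_smul_comm, smul_mul_assoc, mul_sub, sub_mul, h, one_mul, mul_one]

/-- the operator `M` on the first eigenspace, the identity on the other -/
noncomputable def Mp (T M : Module.End ℂ W) : Module.End ℂ W := Tp T * M + Tm T

/-- the operator `M` on the second eigenspace, the identity on the other -/
noncomputable def Mm (T M : Module.End ℂ W) : Module.End ℂ W := Tp T + Tm T * M

lemma Mp_mul (hT : T * T = 1) {M N : Module.End ℂ W} (hM : M * T = T * M) :
    Mp T M * Mp T N = Mp T (M * N) := by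
  have h1 : M * Tm T = Tm T * M := Tm_comm hM
  have h2 : M * Tp T = Tp T * M := Tp_comm hM
  rw [Mp, Mp, Mp, add_mul, mul_add, mul_add]
  have e1 : Tp T * M * (Tp T * N) = Tp T * (M * N) := by
    calc Tp T * M * (Tp T * N) = Tp T * (M * Tp T) * N := by simp only [mul_assoc]
      _ = (Tp T * Tp T) * (M * N) := by rw [h2]; simp only [mul_assoc]
      _ = _ := by rw [Tp_sq hT]
  have e2 : Tp T * M * Tm T = 0 := by
    rw [mul_assoc, h1, ← mul_assoc, Tp_Tm hT, zero_mul]
  have e3 : Tm T * (Tp T * N) = 0 := by rw [← mul_assoc, Tm_Tp hT, zero_mul]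
  rw [e1, e2, e3, Tm_sq hT, add_zero, zero_add]

lemma Mm_mul (hT : T * T = 1) {M N : Module.End ℂ W} (hM : M * T = T * M) :
    Mm T M * Mm T N = Mm T (M * N) := by
  have h1 : M * Tm T = Tm T * M := Tm_comm hM
  have h2 : M * Tp T = Tp T * M := Tp_comm hM
  rw [Mm, Mm, Mm, add_mul, mul_add, mul_add]
  have e1 : Tm T * M * (Tm T * N) = Tm T * (M * N) := by
    calc Tm T * M * (Tm T * N) = Tm T * (M * Tm T) * N := by simp only [mul_assoc]
      _ = (Tm T * Tm T) * (M * N) := by rw [h1]; simp only [mul_assoc]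
      _ = _ := by rw [Tm_sq hT]
  have e2 : Tm T * M * Tp T = 0 := by
    rw [mul_assoc, h2, ← mul_assoc, Tm_Tp hT, zero_mul]
  have e3 : Tp T * (Tm T * N) = 0 := by rw [← mul_assoc, Tp_Tm hT, zero_mul]
  rw [e1, e2, e3, Tp_sq hT, add_zero, zero_add]

lemma Mp_one : Mp T 1 = 1 := by rw [Mp, mul_one, Tp_add_Tm]

lemma Mm_one : Mm T 1 = 1 := by rw [Mm, mul_one, Tp_add_Tm]

/-- dimensions of the eigenspaces -/
lemma exists_dims (hT : T * T = 1) (htr : LinearMap.trace ℂ W T = 1) : ∃ d : ℕ,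
    LinearMap.trace ℂ W (Tp T) = (d + 1 : ℕ) ∧ LinearMap.trace ℂ W (Tm T) = d ∧
    (∀ c : ℂ, LinearMap.det (1 + (c - 1) • Tp T) = c ^ (d + 1)) ∧
    ∀ c : ℂ, LinearMap.det (1 + (c - 1) • Tm T) = c ^ d := by
  obtain ⟨a, ha, ha2⟩ := det_idem (Tp T) (Tp_sq hT)
  obtain ⟨b, hb, hb2⟩ := det_idem (Tm T) (Tm_sq hT)
  have h1 : LinearMap.trace ℂ W (Tp T) - LinearMap.trace ℂ W (Tm T) = 1 := by
    rw [← map_sub, ← htr]
    congr 1
    rw [Tp, Tm, ← smul_sub]
    have h2 : (1 : Module.End ℂ W) + T - (1 - T) = (2 : ℂ) • T := by rw [two_smul]; abel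
    rw [h2, smul_smul]
    norm_num
  rw [ha, hb] at h1
  have h2 : a = b + 1 := by
    have h3 : (a : ℂ) = ((b + 1 : ℕ) : ℂ) := by push_cast; linear_combination h1
    exact_mod_cast h3
  exact ⟨b, by rw [ha, h2], hb, by rw [← h2]; exact ha2, hb2⟩

lemma Mp_smul (hT : T * T = 1) {M : Module.End ℂ W} (hM : M * T = T * M) (c : ℂ) :
    Mp T (c • M) = Mp T M * (1 + (c - 1) • Tp T) := by
  have h1 : Tp T * M * Tp T = Tp T * M := by
    rw [mul_assoc, Tp_comm hM, ← mul_assoc, Tp_sq hT]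
  rw [Mp, Mp, mul_add, mul_one, mul_smul_comm, mul_smul_comm, add_mul, h1, Tm_Tp hT, add_zero]
  module

lemma Mm_smul (hT : T * T = 1) {M : Module.End ℂ W} (hM : M * T = T * M) (c : ℂ) :
    Mm T (c • M) = Mm T M * (1 + (c - 1) • Tm T) := by
  have h1 : Tm T * M * Tm T = Tm T * M := by
    rw [mul_assoc, Tm_comm hM, ← mul_assoc, Tm_sq hT]
  rw [Mm, Mm, mul_add, mul_one, mul_smul_comm, mul_smul_comm, add_mul, h1, Tp_Tm hT, zero_add]
  module

end det

section ext

variable {Γ U : Type} [Group Γ] [Group U] [Finite Γ] [Finite U]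

/-- the data for the canonical extension -/
structure XD {W : Type} [AddCommGroup W] [Module ℂ W] (q : Γ →* U) (j : U →* Γ)
    (D : Representation ℂ q.ker W) (T : Module.End ℂ W) (ι : Type) [Fintype ι] (x : ι → q.ker)
    (κ : ℂ) : Prop where
  qj : ∀ u, q (j u) = u
  irr : Irred D
  inv : ∀ (γ : Γ) (e f : q.ker), (f : Γ) = γ * e * γ⁻¹ → D.character f = D.character e
  TT : T * T = 1
  tr : LinearMap.trace ℂ W T = 1
  hT : T = κ • ∑ i, D (x i)
  perm : ∀ (u : U), ∃ π : Equiv.Perm ι, ∀ i, ((x (π i) : q.ker) : Γ) = j u * x i * (j u)⁻¹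

variable {W : Type} [AddCommGroup W] [Module ℂ W] [FiniteDimensional ℂ W] {q : Γ →* U}
  {j : U →* Γ} {D : Representation ℂ q.ker W} {T : Module.End ℂ W} {ι : Type} [Fintype ι]
  {x : ι → q.ker} {κ : ℂ}

/-- normalized intertwiners -/
structure NI (q : Γ →* U) (j : U →* Γ) (D : Representation ℂ q.ker W) (T : Module.End ℂ W) (u : U)
    (M : Module.End ℂ W) : Prop where
  int : ∀ e f : q.ker, (f : Γ) = j u * e * (j u)⁻¹ → M * D e = D f * M
  inv : ∃ M', M * M' = 1 ∧ M' * M = 1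
  nrm : LinearMap.det (Mp T M) = LinearMap.det (Mm T M)

lemma ker_conj (q : Γ →* U) (γ : Γ) (e : q.ker) : γ * e * γ⁻¹ ∈ q.ker := by
  rw [MonoidHom.mem_ker, map_mul, map_mul, map_inv, (MonoidHom.mem_ker).mp e.2, mul_one,
    mul_inv_cancel]

namespace XD

variable (h : XD q j D T ι x κ)

include h

/-- intertwiners commute with `T` -/
lemma commT {u : U} {M : Module.End ℂ W}
    (hM : ∀ e f : q.ker, (f : Γ) = j u * e * (j u)⁻¹ → M * D e = D f * M) : M * T = T * M := by
  obtain ⟨π, hπ⟩ := h.perm u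
  rw [h.hT, mul_smul_comm, smul_mul_assoc, Finset.mul_sum, Finset.sum_mul,
    ← Equiv.sum_comp π (fun i => D (x i) * M)]
  congr 1
  exact Finset.sum_congr rfl fun i _ => hM (x i) (x (π i)) (hπ i)

lemma schur {M : Module.End ℂ W} (hM : ∀ e, M * D e = D e * M) : ∃ c : ℂ, M = c • 1 := by
  obtain ⟨c, hc⟩ := h.irr.scalar M (fun g v => LinearMap.congr_fun (hM g) v)
  exact ⟨c, LinearMap.ext fun v => hc v⟩

lemma det_ne {M M' : Module.End ℂ W} (hM : M * T = T * M) (h1 : M * M' = 1) :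
    LinearMap.det (Mp T M) ≠ 0 ∧ LinearMap.det (Mm T M) ≠ 0 := by
  constructor
  · intro h0
    have h2 := congrArg LinearMap.det (Mp_mul h.TT (N := M') hM)
    rw [map_mul, h0, zero_mul, h1, Mp_one, map_one] at h2
    exact zero_ne_one h2
  · intro h0
    have h2 := congrArg LinearMap.det (Mm_mul h.TT (N := M') hM)
    rw [map_mul, h0, zero_mul, h1, Mm_one, map_one] at h2
    exact zero_ne_one h2

/-- scalars preserving the normalization are trivial -/
lemma scal_one {M M' : Module.End ℂ W} (hM : M * T = T * M) (h1 : M * M' = 1) {c : ℂ}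
    (hc0 : c ≠ 0) (hM2 : LinearMap.det (Mp T M) = LinearMap.det (Mm T M))
    (hc : LinearMap.det (Mp T (c • M)) = LinearMap.det (Mm T (c • M))) : c = 1 := by
  obtain ⟨d, -, -, hd1, hd2⟩ := exists_dims h.TT h.tr
  rw [Mp_smul h.TT hM, Mm_smul h.TT hM, map_mul, map_mul, hd1, hd2, hM2] at hc
  have h2 := mul_left_cancel₀ (h.det_ne hM h1).2 hc
  rw [pow_succ] at h2
  exact (mul_eq_left₀ (pow_ne_zero d hc0)).mp h2

lemma ni_unique {u : U} {M N : Module.End ℂ W} (hM : NI q j D T u M) (hN : NI q j D T u N) :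
    M = N := by
  obtain ⟨M', h1, h2⟩ := hM.inv
  obtain ⟨N', h3, h4⟩ := hN.inv
  obtain ⟨c, hc⟩ := h.schur (M := N' * M) (by
    intro e
    obtain ⟨f, hf⟩ : ∃ f : q.ker, (f : Γ) = j u * e * (j u)⁻¹ := ⟨⟨_, ker_conj q (j u) e⟩, rfl⟩
    have h5 := hM.int e f hf
    have h6 := hN.int e f hf
    calc N' * M * D e = N' * (D f * (N * N')) * M := by
          rw [h3, mul_one, mul_assoc, h5, ← mul_assoc]
      _ = N' * (D f * N) * (N' * M) := by simp only [mul_assoc]
      _ = (N' * N) * D e * (N' * M) := by rw [← h6]; simp only [mul_assoc]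
      _ = D e * (N' * M) := by rw [h4, one_mul])
  have h5 : M = c • N := by
    calc M = N * (N' * M) := by rw [← mul_assoc, h3, one_mul]
      _ = _ := by rw [hc, mul_smul_comm, mul_one]
  have hc0 : c ≠ 0 := by
    have hnt := h.irr.1
    rintro rfl
    rw [zero_smul] at h5
    rw [h5, zero_mul] at h1
    exact zero_ne_one h1
  have h6 : c = 1 := by
    apply h.scal_one (h.commT hN.int) h3 hc0 hN.nrm
    rw [← h5]
    exact hM.nrm
  rw [h5, h6, one_smul]

lemma ni_mul {u v : U} {M N : Module.End ℂ W} (hM : NI q j D T u M) (hN : NI q j D T v N) :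
    NI q j D T (u * v) (M * N) := by
  obtain ⟨M', h1, h2⟩ := hM.inv
  obtain ⟨N', h3, h4⟩ := hN.inv
  have hcM := h.commT hM.int
  refine ⟨?_, ⟨N' * M', ?_, ?_⟩, ?_⟩
  · intro e f hf
    have h5 := hN.int e ⟨_, ker_conj q (j v) e⟩ rfl
    have h6 := hM.int ⟨_, ker_conj q (j v) e⟩ f (by rw [hf, map_mul]; simp only; group)
    rw [mul_assoc, h5, ← mul_assoc, h6, mul_assoc]
  · rw [mul_assoc, ← mul_assoc N, h3, one_mul, h1]
  · rw [mul_assoc, ← mul_assoc M', h2, one_mul, h4]
  · rw [← Mp_mul h.TT hcM, ← Mm_mul h.TT hcM, map_mul, map_mul, hM.nrm, hN.nrm]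

lemma ni_one : NI q j D T 1 1 := by
  refine ⟨fun e f hf => ?_, ⟨1, one_mul 1, one_mul 1⟩, by rw [Mp_one, Mm_one]⟩
  have h1 : f = e := Subtype.ext (by rw [hf, map_one]; group)
  rw [h1, one_mul, mul_one]

lemma ni_exists (u : U) : ∃ M, NI q j D T u M := by
  let e : q.ker ≃* q.ker := MulAut.conjNormal (j u)
  have he : ∀ x : q.ker, ((e x : q.ker) : Γ) = j u * x * (j u)⁻¹ :=
    fun x => MulAut.conjNormal_apply (j u) x
  let D' : Representation ℂ q.ker W := D.comp e.toMonoidHom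
  have hD' : Irred D' := by
    refine ⟨h.irr.1, fun X hX => h.irr.2 X fun l v hv => ?_⟩
    obtain ⟨m, rfl⟩ := e.surjective l
    exact hX m v hv
  obtain ⟨S, hS⟩ := exists_intertwiner h.irr hD' (by
    funext l
    change D.character l = D.character (e l)
    exact (h.inv (j u) l (e l) (he l)).symm)
  let M : Module.End ℂ W := S.toLinearMap
  let M' : Module.End ℂ W := S.symm.toLinearMap
  have h12 : M * M' = 1 := LinearMap.ext fun v => S.apply_symm_apply v
  have h21 : M' * M = 1 := LinearMap.ext fun v => S.symm_apply_apply v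
  have hint : ∀ e f : q.ker, (f : Γ) = j u * e * (j u)⁻¹ → M * D e = D f * M := by
    intro a f hf
    have h1 : f = e a := Subtype.ext (by rw [hf, he])
    rw [h1]
    exact LinearMap.ext fun v => hS a v
  have hc := h.commT hint
  obtain ⟨hp, hm⟩ := h.det_ne hc h12
  obtain ⟨d, -, -, hd1, hd2⟩ := exists_dims h.TT h.tr
  set c : ℂ := LinearMap.det (Mm T M) / LinearMap.det (Mp T M) with hcdef
  have hc0 : c ≠ 0 := div_ne_zero hm hp
  refine ⟨c • M, ⟨fun e f hf => ?_, ⟨c⁻¹ • M', ?_, ?_⟩, ?_⟩⟩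
  · rw [smul_mul_assoc, mul_smul_comm, hint e f hf]
  · rw [smul_mul_smul_comm, h12, mul_inv_cancel₀ hc0, one_smul]
  · rw [smul_mul_smul_comm, h21, inv_mul_cancel₀ hc0, one_smul]
  · rw [Mp_smul h.TT hc, Mm_smul h.TT hc, map_mul, map_mul, hd1, hd2, pow_succ, hcdef]
    field_simp

/-- **The canonical extension.** -/
theorem exists_ext : ∃ Ω : Representation ℂ Γ W, (∀ e : q.ker, Ω e = D e) ∧
    ∀ u, NI q j D T u (Ω (j u)) := by
  choose R hR using h.ni_exists
  have hR1 : R 1 = 1 := h.ni_unique (hR 1) h.ni_one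
  have hRm : ∀ u v, R (u * v) = R u * R v := fun u v =>
    h.ni_unique (hR (u * v)) (h.ni_mul (hR u) (hR v))
  have hker : ∀ γ : Γ, γ * (j (q γ))⁻¹ ∈ q.ker := by
    intro γ
    rw [MonoidHom.mem_ker, map_mul, map_inv, h.qj, mul_inv_cancel]
  let Ω : Representation ℂ Γ W :=
    { toFun := fun γ => D ⟨_, hker γ⟩ * R (q γ)
      map_one' := by
        have h1 : (⟨_, hker 1⟩ : q.ker) = 1 := Subtype.ext (by simp)
        rw [h1, map_one, map_one, hR1, one_mul]
      map_mul' := by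
        intro a b
        have h1 := (hR (q a)).int ⟨_, hker b⟩ ⟨_, ker_conj q (j (q a)) ⟨_, hker b⟩⟩ rfl
        have h2 : (⟨_, hker (a * b)⟩ : q.ker)
            = ⟨_, hker a⟩ * ⟨_, ker_conj q (j (q a)) ⟨_, hker b⟩⟩ := by
          apply Subtype.ext
          simp only [map_mul, mul_inv_rev, Subgroup.coe_mul]
          group
        rw [h2, map_mul D, map_mul q, hRm]
        calc D ⟨_, hker a⟩ * D ⟨_, ker_conj q (j (q a)) ⟨_, hker b⟩⟩ * (R (q a) * R (q b))
            = D ⟨_, hker a⟩ * (D ⟨_, ker_conj q (j (q a)) ⟨_, hker b⟩⟩ * R (q a)) * R (q b) := by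
              simp only [mul_assoc]
          _ = _ := by rw [← h1]; simp only [mul_assoc] }
  refine ⟨Ω, fun e => ?_, fun u => ?_⟩
  · change D ⟨_, hker e⟩ * R (q e) = D e
    have h1 : q (e : Γ) = 1 := (MonoidHom.mem_ker).mp e.2
    have h2 : (⟨_, hker (e : Γ)⟩ : q.ker) = e := by
      apply Subtype.ext
      change (e : Γ) * (j (q (e : Γ)))⁻¹ = e
      rw [h1, map_one, inv_one, mul_one]
    rw [h2, h1, hR1, mul_one]
  · have h2 : (⟨_, hker (j u)⟩ : q.ker) = 1 := Subtype.ext (by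
      simp only [h.qj, mul_inv_cancel, OneMemClass.coe_one])
    have h3 : Ω (j u) = R u := by
      change D ⟨_, hker (j u)⟩ * R (q (j u)) = R u
      rw [h2, map_one, h.qj, one_mul]
    rw [h3]
    exact hR u

end XD

end ext

end Run7.h132
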