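import Mathlib
import Pool.Agent.Run7.h132.Ext

/-!
# Galois automorphisms and canonical extensions
-/

set_option autoImplicit false
set_option linter.unusedSectionVars false

namespace Run7.h132

open Pool.Agent.H541R3.ART Pool.Agent.W446.AS Pool.Agent.R389 Pool.Agent.Helper606_LC

section

variable {U : Type} [Group U] [Finite U] {W : Type} [AddCommGroup W] [Module ℂ W]
  [FiniteDimensional ℂ W]

/-- determinants of representations with Galois conjugate characters -/
lemma det_gal {N : ℕ} (hU : Nat.card U ∣ N) (k : (ZMod N)ˣ)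
    (P P' : Representation ℂ U W) (hch : ∀ u, P'.character u = P.character (u ^ (k : ZMod N).val))
    (u : U) : LinearMap.det (P' u) = LinearMap.det (P (u ^ (k : ZMod N).val)) := by
  rw [det_dt, det_dt]
  have h1 : P'.character = fun u => P.character (u ^ (k : ZMod N).val) := funext hch
  rw [h1]
  refine dt_map (fun u : U => u ^ (k : ZMod N).val) P.character ?_ ?_
  · apply Nat.Coprime.orderOf_pow
    exact Nat.Coprime.coprime_dvd_left ((orderOf_dvd_natCard u).trans hU)
      (ZMod.val_coe_unit_coprime k).symm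
  · intro i
    rw [← pow_mul, ← pow_mul, mul_comm]

end

variable {Γ U : Type} [Group Γ] [Group U] [Finite Γ] [Finite U]
  {W : Type} [AddCommGroup W] [Module ℂ W] [FiniteDimensional ℂ W] {q : Γ →* U}
  {j : U →* Γ} {D : Representation ℂ q.ker W} {T : Module.End ℂ W} {ι : Type} [Fintype ι]
  {x : ι → q.ker} {κ : ℂ}

lemma trace_Tp (h : XD q j D T ι x κ) (M : Module.End ℂ W) : LinearMap.trace ℂ W (Tp T * M)
    = 2⁻¹ * (LinearMap.trace ℂ W M + κ * ∑ i, LinearMap.trace ℂ W (D (x i) * M)) := by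
  rw [Tp, smul_mul_assoc, map_smul, smul_eq_mul, add_mul, one_mul, map_add]
  congr 2
  conv_lhs => rw [h.hT]
  rw [smul_mul_assoc, map_smul, smul_eq_mul, Finset.sum_mul, map_sum]

lemma trace_Tm (h : XD q j D T ι x κ) (M : Module.End ℂ W) : LinearMap.trace ℂ W (Tm T * M)
    = 2⁻¹ * (LinearMap.trace ℂ W M - κ * ∑ i, LinearMap.trace ℂ W (D (x i) * M)) := by
  rw [Tm, smul_mul_assoc, map_smul, smul_eq_mul, sub_mul, one_mul, map_sub]
  congr 2
  conv_lhs => rw [h.hT]
  rw [smul_mul_assoc, map_smul, smul_eq_mul, Finset.sum_mul, map_sum]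

lemma ext_irred (h : XD q j D T ι x κ) {Ω : Representation ℂ Γ W} (hΩ : ∀ e : q.ker, Ω e = D e) :
    Irred Ω :=
  ⟨h.irr.1, fun X hX => h.irr.2 X fun e v hv => by
    rw [← hΩ]
    exact hX e v hv⟩

/-- **The canonical extension is fixed by Galois automorphisms.** -/
theorem gal_fix (h : XD q j D T ι x κ) {Ω : Representation ℂ Γ W} (hΩ : ∀ e : q.ker, Ω e = D e)
    (hNI : ∀ u, NI q j D T u (Ω (j u))) {N : ℕ} (hN : 0 < N) (hΓ : Nat.card Γ ∣ N)
    (hU : Nat.card U ∣ N) (k : (ZMod N)ˣ) (hκ : ∀ σ : ℂ ≃+* ℂ, σ κ = κ)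
    (hk : ∀ e : q.ker, Ω.character ((e : Γ) ^ (k : ZMod N).val) = Ω.character e) :
    pw k Ω.character = Ω.character := by
  classical
  obtain ⟨σ, hσ⟩ := exists_aut_pow hN k
  have hirr := ext_irred h hΩ
  set X := Ω.character with hXdef
  have hX : X ∈ Irr Γ := irr_of_irred hirr
  have hX' : pw k X ∈ Irr Γ := irr_pw hN hΓ k hX
  have hσX : ∀ γ : Γ, σ (X γ) = pw k X γ := fun γ => char_pow Ω hN hσ (pow_card_dvd hΓ γ)
  have hXon : IrrOn q.ker X := by
    have h1 : (fun e : q.ker => X e) = D.character := by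
      funext e
      change LinearMap.trace ℂ W (Ω e) = LinearMap.trace ℂ W (D e)
      rw [hΩ]
    rw [IrrOn, h1]
    exact irr_of_irred h.irr
  have hmul : IrrOn q.ker (X * fun _ => (1 : ℂ)) := by
    refine irrOn_congr (fun e _ => ?_) hXon
    rw [Pi.mul_apply, mul_one]
  have hke : ∀ e ∈ q.ker, pw k X e = X e := fun e he => hk ⟨e, he⟩
  obtain ⟨-, -, key⟩ := mul_corr (inferInstance : q.ker.Normal) (irr_chr hX) (one_irrOn q.ker)
    (fun _ _ _ => rfl) hmul
  obtain ⟨μ, hμ, hμK, hμX⟩ := key (pw k X) hX' (by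
    intro e he
    simp only [Pi.mul_apply, mul_one]
    rw [hke e he, hke 1 (one_mem _)]
    ring)
  have hX1 : X 1 ≠ 0 := irrOn_one_ne hXon
  have hμ1 : μ 1 = 1 := by
    have h1 := congrFun hμX 1
    rw [hke 1 (one_mem _), Pi.mul_apply] at h1
    exact (mul_left_cancel₀ hX1 (by rw [mul_one]; exact h1)).symm
  obtain ⟨lam, hlam⟩ := irr_deg_one hμ hμ1
  have hker : ∀ e ∈ q.ker, lam e = 1 := by
    intro e he
    apply Units.ext
    rw [← hlam, Units.val_one]
    have := hμK e he
    rwa [mul_one, hμ1, one_mul] at this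
  have hXlam : ∀ γ, pw k X γ = X γ * ((lam γ : ℂˣ) : ℂ) := by
    intro γ
    rw [hμX, Pi.mul_apply, hlam]
  -- the value of `lam` on the complement
  have hlamj : ∀ u, lam (j u) = 1 := by
    intro u
    obtain ⟨d, hd1, hd2, -, -⟩ := exists_dims h.TT h.tr
    have hcT : ∀ u, Ω (j u) * T = T * Ω (j u) := fun u => h.commT (hNI u).int
    have hcT' : ∀ u, ((lam (j u) : ℂˣ) : ℂ) • Ω (j u) * T
        = T * ((lam (j u) : ℂˣ) : ℂ) • Ω (j u) := fun u => by
      rw [smul_mul_assoc, mul_smul_comm, hcT]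
    have hDx : ∀ (i : ι) (u : U), LinearMap.trace ℂ W (D (x i) * Ω (j u)) = X (x i * j u) := by
      intro i u
      rw [← hΩ, ← map_mul]
      rfl
    have hlx : ∀ (i : ι) (u : U), pw k X (x i * j u) = X (x i * j u) * ((lam (j u) : ℂˣ) : ℂ) := by
      intro i u
      rw [hXlam, map_mul, hker _ (x i).2, one_mul]
    have hσ2 : σ (2⁻¹ : ℂ) = 2⁻¹ := by rw [map_inv₀, map_ofNat]
    have htp : ∀ u, σ (LinearMap.trace ℂ W (Tp T * Ω (j u)))
        = ((lam (j u) : ℂˣ) : ℂ) * LinearMap.trace ℂ W (Tp T * Ω (j u)) := by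
      intro u
      rw [trace_Tp h, Finset.sum_congr rfl (fun i _ => hDx i u)]
      have h1 : LinearMap.trace ℂ W (Ω (j u)) = X (j u) := rfl
      rw [h1, map_mul, map_add, map_mul, map_sum, hσ2, hκ, hσX, hXlam,
        Finset.sum_congr rfl (fun i _ => by rw [hσX, hlx]), ← Finset.sum_mul]
      ring
    have htm : ∀ u, σ (LinearMap.trace ℂ W (Tm T * Ω (j u)))
        = ((lam (j u) : ℂˣ) : ℂ) * LinearMap.trace ℂ W (Tm T * Ω (j u)) := by
      intro u
      rw [trace_Tm h, Finset.sum_congr rfl (fun i _ => hDx i u)]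
      have h1 : LinearMap.trace ℂ W (Ω (j u)) = X (j u) := rfl
      rw [h1, map_mul, map_sub, map_mul, map_sum, hσ2, hκ, hσX, hXlam,
        Finset.sum_congr rfl (fun i _ => by rw [hσX, hlx]), ← Finset.sum_mul]
      ring
    let R' : Representation ℂ U W :=
      { toFun := fun u => ((lam (j u) : ℂˣ) : ℂ) • Ω (j u)
        map_one' := by simp
        map_mul' := by
          intro a b
          rw [map_mul, map_mul, map_mul, Units.val_mul, smul_mul_smul_comm] }
    let Pp : Representation ℂ U W :=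
      { toFun := fun u => Mp T (Ω (j u))
        map_one' := by rw [map_one, map_one, Mp_one]
        map_mul' := by
          intro a b
          rw [Mp_mul h.TT (hcT a), map_mul, map_mul] }
    let Pm : Representation ℂ U W :=
      { toFun := fun u => Mm T (Ω (j u))
        map_one' := by rw [map_one, map_one, Mm_one]
        map_mul' := by
          intro a b
          rw [Mm_mul h.TT (hcT a), map_mul, map_mul] }
    let Qp : Representation ℂ U W :=
      { toFun := fun u => Mp T (R' u)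
        map_one' := by rw [map_one, Mp_one]
        map_mul' := by
          intro a b
          rw [Mp_mul h.TT (show R' a * T = T * R' a from hcT' a), map_mul] }
    let Qm : Representation ℂ U W :=
      { toFun := fun u => Mm T (R' u)
        map_one' := by rw [map_one, Mm_one]
        map_mul' := by
          intro a b
          rw [Mm_mul h.TT (show R' a * T = T * R' a from hcT' a), map_mul] }
    have hp : ∀ u, Qp.character u = Pp.character (u ^ (k : ZMod N).val) := by
      intro u
      rw [← char_pow Pp hN hσ (pow_card_dvd hU u)]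
      change LinearMap.trace ℂ W (Tp T * (((lam (j u) : ℂˣ) : ℂ) • Ω (j u)) + Tm T)
        = σ (LinearMap.trace ℂ W (Tp T * Ω (j u) + Tm T))
      rw [map_add, map_add, map_add σ, htp, mul_smul_comm, map_smul, smul_eq_mul, hd2, map_natCast]
    have hm : ∀ u, Qm.character u = Pm.character (u ^ (k : ZMod N).val) := by
      intro u
      rw [← char_pow Pm hN hσ (pow_card_dvd hU u)]
      change LinearMap.trace ℂ W (Tp T + Tm T * (((lam (j u) : ℂˣ) : ℂ) • Ω (j u)))
        = σ (LinearMap.trace ℂ W (Tp T + Tm T * Ω (j u)))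
      rw [map_add, map_add, map_add σ, htm, mul_smul_comm, map_smul, smul_eq_mul, hd1, map_natCast]
    have h1 := det_gal hU k Pp Qp hp u
    have h2 := det_gal hU k Pm Qm hm u
    have h3 : LinearMap.det (Mp T (((lam (j u) : ℂˣ) : ℂ) • Ω (j u)))
        = LinearMap.det (Mm T (((lam (j u) : ℂˣ) : ℂ) • Ω (j u))) := by
      change LinearMap.det (Qp u) = LinearMap.det (Qm u)
      rw [h1, h2]
      exact (hNI (u ^ (k : ZMod N).val)).nrm
    have h4 := h.scal_one (hcT u) (M' := Ω (j u)⁻¹) (rep_mul_inv Ω (j u)) (Units.ne_zero _)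
      (hNI u).nrm h3
    exact Units.ext h4
  funext γ
  rw [hXlam]
  have h1 : γ = γ * (j (q γ))⁻¹ * j (q γ) := by rw [inv_mul_cancel_right]
  have h2 : γ * (j (q γ))⁻¹ ∈ q.ker := by
    rw [MonoidHom.mem_ker, map_mul, map_inv, h.qj, mul_inv_cancel]
  have h3 : lam γ = 1 := by
    rw [h1, map_mul, hker _ h2, hlamj, one_mul]
  rw [h3, Units.val_one, mul_one]

/-- elements acting trivially -/
lemma ext_triv (h : XD q j D T ι x κ) {Ω : Representation ℂ Γ W}
    (hNI : ∀ u, NI q j D T u (Ω (j u))) {l : U} (hl : ∀ e : q.ker, j l * e * (j l)⁻¹ = e) :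
    Ω (j l) = 1 := by
  apply h.ni_unique (hNI l)
  refine ⟨fun e f hf => ?_, ⟨1, one_mul 1, one_mul 1⟩, by rw [Mp_one, Mm_one]⟩
  have h1 : f = e := Subtype.ext (by rw [hf, hl])
  rw [h1, one_mul, mul_one]

/-- **Division by the canonical extension.** -/
theorem exists_quot (h : XD q j D T ι x κ) {Ω : Representation ℂ Γ W}
    (hΩ : ∀ e : q.ker, Ω e = D e) {V : Type} [AddCommGroup V] [Module ℂ V]
    [FiniteDimensional ℂ V] {R : Representation ℂ Γ V} (hR : Irred R) {c : ℂ}
    (hc : ∀ e : q.ker, D.character e = c * R.character e) :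
    ∃ ξ ∈ Irr U, (∀ γ, R.character γ = Ω.character γ * ξ (q γ)) ∧
      ∀ {N : ℕ} (_ : 0 < N) (_ : Nat.card Γ ∣ N) (k : (ZMod N)ˣ),
        pw k Ω.character = Ω.character → pw k R.character = R.character → pw k ξ = ξ := by
  classical
  have hirr := ext_irred h hΩ
  set X := Ω.character with hXdef
  have hX : X ∈ Irr Γ := irr_of_irred hirr
  have hRI : R.character ∈ Irr Γ := irr_of_irred hR
  have hXD : ∀ e : q.ker, X e = D.character e := by
    intro e
    change LinearMap.trace ℂ W (Ω e) = LinearMap.trace ℂ W (D e)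
    rw [hΩ]
  have hXon : IrrOn q.ker X := by
    have h1 : (fun e : q.ker => X e) = D.character := funext hXD
    rw [IrrOn, h1]
    exact irr_of_irred h.irr
  have hmul : IrrOn q.ker (X * fun _ => (1 : ℂ)) := by
    refine irrOn_congr (fun e _ => ?_) hXon
    rw [Pi.mul_apply, mul_one]
  have hnorm : q.ker.Normal := inferInstance
  obtain ⟨-, key1, key2⟩ := mul_corr hnorm (irr_chr hX) (one_irrOn q.ker)
    (fun _ _ _ => rfl) hmul
  obtain ⟨b, hb, hbK, hbX⟩ := key2 R.character hRI (by
    intro e he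
    simp only [Pi.mul_apply, mul_one]
    have h1 := hXD ⟨e, he⟩
    have h2 := hXD 1
    rw [hc] at h1 h2
    simp only [OneMemClass.coe_one] at h1 h2
    rw [h1, h2]
    ring)
  have hKS : ∀ γ : Γ, ∃ e ∈ q.ker, ∃ s ∈ j.range, γ = e * s := by
    intro γ
    refine ⟨γ * (j (q γ))⁻¹, ?_, j (q γ), ⟨q γ, rfl⟩, by rw [inv_mul_cancel_right]⟩
    rw [MonoidHom.mem_ker, map_mul, map_inv, h.qj, mul_inv_cancel]
  obtain ⟨res1, res2⟩ := res_corr hnorm (ν := fun _ => (1 : ℂ)) j.range hKS (one_irrOn q.ker)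
    (fun _ _ _ => rfl) (one_irrOn _)
  let ξ : U → ℂ := fun u => b (j u)
  have hξ : ξ ∈ Irr U := irr_surj j.rangeRestrict j.rangeRestrict_surjective (res1 b hb hbK)
  have hqs : Function.Surjective q := fun u => ⟨j u, h.qj u⟩
  have hbξ : b = fun γ => ξ (q γ) := by
    apply res2 b hb (fun γ => ξ (q γ)) (irr_surj q hqs hξ) hbK
    · intro e he
      have h1 : q e = 1 := he
      simp only [mul_one]
      rw [h1, map_one]
    · rintro _ ⟨u, rfl⟩
      change b (j u) = b (j (q (j u)))
      rw [h.qj]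
  refine ⟨ξ, hξ, fun γ => ?_, ?_⟩
  · rw [hbX, Pi.mul_apply]
    conv_lhs => rw [hbξ]
  · intro N hN hΓ k hXk hRk
    have h1 : pw k b = b := by
      apply key1 (pw k b) (irr_pw hN hΓ k hb) b hb _ hbK
      · have h2 : X * pw k b = pw k (X * b) := by
          conv_lhs => rw [← hXk]
          rfl
        rw [h2, ← hbX, hRk]
      · intro e he
        simp only [mul_one]
        change b (e ^ _) = b (1 ^ _)
        rw [hbξ]
        simp only
        have h2 : q e = 1 := he
        rw [map_pow, h2, one_pow, one_pow, map_one]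
    funext u
    change b (j (u ^ _)) = b (j u)
    rw [map_pow]
    exact congrFun h1 (j u)

end Run7.h132
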