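import Mathlib

/-!
# The Baer correspondence for groups of class two and odd exponent
-/

set_option autoImplicit false
set_option linter.unusedSectionVars false

namespace Run7.h132

open scoped commutatorElement

section baer

variable {E : Type} [Group E]

/-- all commutators are central -/
def CC (E : Type) [Group E] : Prop := ∀ x y z : E, ⁅x, y⁆ * z = z * ⁅x, y⁆

lemma CC.pow (h : CC E) (x y z : E) (m : ℕ) : ⁅x, y⁆ ^ m * z = z * ⁅x, y⁆ ^ m :=
  ((show Commute ⁅x, y⁆ z from h x y z).pow_left m)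

lemma CC.mul_left (h : CC E) (x y z : E) : ⁅x * y, z⁆ = ⁅x, z⁆ * ⁅y, z⁆ := by
  have h1 : ⁅x * y, z⁆ = x * ⁅y, z⁆ * (z * x⁻¹ * z⁻¹) := by
    rw [commutatorElement_def, commutatorElement_def]; group
  rw [h1, ← h y z x, mul_assoc, h y z, commutatorElement_def x z]
  group

lemma CC.mul_right (h : CC E) (x y z : E) : ⁅x, y * z⁆ = ⁅x, y⁆ * ⁅x, z⁆ := by
  rw [← commutatorElement_inv, h.mul_left, mul_inv_rev, commutatorElement_inv,
    commutatorElement_inv]
  exact h x z ⁅x, y⁆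

lemma CC.comm_pow_left (h : CC E) (x y z : E) (m : ℕ) : ⁅⁅x, y⁆ ^ m, z⁆ = 1 := by
  rw [commutatorElement_eq_one_iff_mul_comm]
  exact h.pow x y z m

lemma CC.comm_pow_right (h : CC E) (x y z : E) (m : ℕ) : ⁅z, ⁅x, y⁆ ^ m⁆ = 1 := by
  rw [commutatorElement_eq_one_iff_mul_comm]
  exact (h.pow x y z m).symm

/-- the underlying set of the Lie ring -/
@[ext] structure BE (E : Type) where
  /-- the element -/
  v : E

/-- the additive group structure -/
@[reducible] def baerGrp (h : CC E) {p m : ℕ} (hp : ∀ x : E, x ^ p = 1) (hm : 2 * m + 1 = p) :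
    AddCommGroup (BE E) :=
  letI : Add (BE E) := ⟨fun x y => ⟨x.v * y.v * ⁅x.v, y.v⁆ ^ m⟩⟩
  letI : Zero (BE E) := ⟨⟨1⟩⟩
  letI : Neg (BE E) := ⟨fun x => ⟨x.v⁻¹⟩⟩
  { AddGroup.ofLeftAxioms (by
      intro x y z
      apply BE.ext
      obtain ⟨x⟩ := x
      obtain ⟨y⟩ := y
      obtain ⟨z⟩ := z
      change (x * y * ⁅x, y⁆ ^ m) * z * ⁅x * y * ⁅x, y⁆ ^ m, z⁆ ^ m
        = x * (y * z * ⁅y, z⁆ ^ m) * ⁅x, y * z * ⁅y, z⁆ ^ m⁆ ^ m
      rw [h.mul_left, h.comm_pow_left, mul_one, h.mul_left, h.mul_right x (y * z),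
        h.comm_pow_right, mul_one, h.mul_right]
      have h1 : (⁅x, z⁆ * ⁅y, z⁆) ^ m = ⁅x, z⁆ ^ m * ⁅y, z⁆ ^ m :=
        (show Commute ⁅x, z⁆ ⁅y, z⁆ from h x z _).mul_pow m
      have h2 : (⁅x, y⁆ * ⁅x, z⁆) ^ m = ⁅x, y⁆ ^ m * ⁅x, z⁆ ^ m :=
        (show Commute ⁅x, y⁆ ⁅x, z⁆ from h x y _).mul_pow m
      rw [h1, h2, mul_assoc (x * y), h.pow x y z]
      have h3 : ⁅x, y⁆ ^ m * (⁅x, z⁆ ^ m * ⁅y, z⁆ ^ m)
          = ⁅y, z⁆ ^ m * (⁅x, y⁆ ^ m * ⁅x, z⁆ ^ m) := by
        rw [h.pow y z, mul_assoc]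
      calc x * y * (z * ⁅x, y⁆ ^ m) * (⁅x, z⁆ ^ m * ⁅y, z⁆ ^ m)
          = x * y * z * (⁅x, y⁆ ^ m * (⁅x, z⁆ ^ m * ⁅y, z⁆ ^ m)) := by simp only [mul_assoc]
        _ = x * (y * z * ⁅y, z⁆ ^ m) * (⁅x, y⁆ ^ m * ⁅x, z⁆ ^ m) := by
          rw [h3]; simp only [mul_assoc]) (by
      intro x
      apply BE.ext
      obtain ⟨x⟩ := x
      change 1 * x * ⁅(1 : E), x⁆ ^ m = x
      rw [commutatorElement_one_left, one_pow, one_mul, mul_one]) (by
      intro x
      apply BE.ext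
      obtain ⟨x⟩ := x
      change x⁻¹ * x * ⁅x⁻¹, x⁆ ^ m = 1
      have h1 : ⁅x⁻¹, x⁆ = 1 := by
        rw [commutatorElement_eq_one_iff_mul_comm, inv_mul_cancel, mul_inv_cancel]
      rw [h1, one_pow, inv_mul_cancel, mul_one]) with
    add_comm := by
      intro x y
      apply BE.ext
      obtain ⟨x⟩ := x
      obtain ⟨y⟩ := y
      change x * y * ⁅x, y⁆ ^ m = y * x * ⁅y, x⁆ ^ m
      have h1 : x * y = ⁅x, y⁆ * (y * x) := by rw [commutatorElement_def]; group
      have h2 : ⁅x, y⁆ ^ (m + 1) = (⁅x, y⁆⁻¹) ^ m := by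
        rw [inv_pow]
        apply eq_inv_of_mul_eq_one_left
        rw [← pow_add, show m + 1 + m = p by omega, hp]
      conv_lhs => rw [h1]
      rw [h x y (y * x), mul_assoc, ← pow_succ', h2, commutatorElement_inv] }

lemma sec_aux (A B : Type) (p : ℕ) [Fact p.Prime] [AddCommGroup A] [AddCommGroup B]
    [Module (ZMod p) A] [Module (ZMod p) B] (f : A →+ B) (hf : Function.Surjective f) :
    ∃ g : B →+ A, ∀ b, f (g b) = b := by
  let F : A →ₗ[ZMod p] B := f.toZModLinearMap p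
  have hF : Function.Surjective F := hf
  obtain ⟨g, hg⟩ := F.exists_rightInverse_of_surjective (LinearMap.range_eq_top.mpr hF)
  exact ⟨g.toAddMonoidHom, fun b => LinearMap.congr_fun hg b⟩

/-- additive sections for groups of exponent `p` -/
lemma sec_of_exp (A B : Type) (p : ℕ) (hp : p.Prime) [AddCommGroup A] [AddCommGroup B]
    (hA : ∀ a : A, p • a = 0) (hB : ∀ a : B, p • a = 0) (f : A →+ B)
    (hf : Function.Surjective f) : ∃ g : B →+ A, ∀ b, f (g b) = b := by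
  have := Fact.mk hp
  exact @sec_aux A B p _ _ _ (AddCommGroup.zmodModule hA) (AddCommGroup.zmodModule hB) f hf

/-- **The Baer section.** -/
theorem baer_section {Q : Type} [CommGroup Q] (h : CC E) {p m : ℕ} (hpp : p.Prime)
    (hp : ∀ x : E, x ^ p = 1) (hm : 2 * m + 1 = p) (π : E →* Q) (hπ : Function.Surjective π) :
    ∃ s : Q → E, (∀ q, π (s q) = q) ∧ ∀ q r, s (q * r) = s q * s r * ⁅s q, s r⁆ ^ m := by
  classical
  let _ : AddCommGroup (BE E) := baerGrp h hp hm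
  have hadd : ∀ x y : BE E, x + y = ⟨x.v * y.v * ⁅x.v, y.v⁆ ^ m⟩ := fun _ _ => rfl
  have hzero : (0 : BE E) = ⟨1⟩ := rfl
  have hns : ∀ (n : ℕ) (x : BE E), n • x = ⟨x.v ^ n⟩ := by
    intro n x
    induction n with
    | zero => rw [zero_smul, hzero, pow_zero]
    | succ n ih =>
      rw [add_smul, one_smul, ih, hadd]
      simp only
      have h1 : ⁅x.v ^ n, x.v⁆ = 1 := by
        rw [commutatorElement_eq_one_iff_mul_comm, ← pow_succ, ← pow_succ']
      rw [h1, one_pow, mul_one, ← pow_succ]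
  have hQ : ∀ q : Q, q ^ p = 1 := by
    intro q
    obtain ⟨x, rfl⟩ := hπ q
    rw [← map_pow, hp, map_one]
  let f : BE E →+ Additive Q :=
    { toFun := fun x => Additive.ofMul (π x.v)
      map_zero' := by
        rw [hzero]
        simp only [map_one]
        rfl
      map_add' := by
        intro x y
        rw [hadd]
        simp only
        rw [MonoidHom.map_mul, MonoidHom.map_mul, map_pow, map_commutatorElement]
        have h1 : ⁅π x.v, π y.v⁆ = 1 := by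
          rw [commutatorElement_eq_one_iff_mul_comm, mul_comm]
        rw [h1, one_pow, mul_one, ofMul_mul] }
  obtain ⟨g, hg⟩ := sec_of_exp (BE E) (Additive Q) p hpp (fun x => by rw [hns, hp, ← hzero])
    (fun x => by
      rw [← ofMul_toMul x, ← ofMul_pow, hQ]
      rfl) f (by
      intro q
      obtain ⟨x, hx⟩ := hπ (Additive.toMul q)
      refine ⟨⟨x⟩, ?_⟩
      change Additive.ofMul (π x) = q
      rw [hx]
      rfl)
  refine ⟨fun q => (g (Additive.ofMul q)).v, fun q => hg (Additive.ofMul q), fun q r => ?_⟩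
  change (g (Additive.ofMul (q * r))).v = _
  rw [ofMul_mul, map_add, hadd]

/-- the Baer section and its cocycle -/
theorem baer_cocycle {Q : Type} [CommGroup Q] (h : CC E) {p m : ℕ} (hpp : p.Prime)
    (hp : ∀ x : E, x ^ p = 1) (hm : 2 * m + 1 = p) (π : E →* Q) (hπ : Function.Surjective π)
    (hker : ∀ x : E, π x = 1 → ∀ y, x * y = y * x) :
    ∃ (s : Q → E) (w : Q → Q → E), (∀ q, π (s q) = q) ∧ (∀ q r, π (w q r) = 1) ∧
      (∀ q r, s q * s r = w q r * s (q * r)) ∧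
      (∀ q q' r, w (q * q') r = w q r * w q' r) ∧ (∀ q r, w q r * w r q = 1) := by
  obtain ⟨s, hs, hs2⟩ := baer_section h hpp hp hm π hπ
  have hπc : ∀ q r, π ⁅s q, s r⁆ = 1 := by
    intro q r
    rw [map_commutatorElement, commutatorElement_eq_one_iff_mul_comm, mul_comm]
  refine ⟨s, fun q r => (⁅s q, s r⁆ ^ m)⁻¹, hs, ?_, ?_, ?_, ?_⟩
  · intro q r
    simp only
    rw [map_inv, map_pow, hπc, one_pow, inv_one]
  · intro q r
    simp only
    rw [hs2, ← mul_assoc, eq_comm]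
    have h1 := h.pow (s q) (s r) (s q * s r) m
    rw [mul_assoc, mul_assoc, inv_mul_eq_iff_eq_mul, ← mul_assoc]
    exact h1.symm
  · intro q q' r
    simp only
    have h1 : ⁅s (q * q'), s r⁆ = ⁅s q, s r⁆ * ⁅s q', s r⁆ := by
      rw [hs2, h.mul_left, h.comm_pow_left, mul_one, h.mul_left]
    rw [h1, (show Commute ⁅s q, s r⁆ ⁅s q', s r⁆ from h _ _ _).mul_pow m, mul_inv_rev]
    apply hker
    rw [map_inv, map_pow, hπc, one_pow, inv_one]
  · intro q r
    simp only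
    rw [← commutatorElement_inv (s q) (s r), inv_pow, inv_inv, inv_mul_cancel]

end baer

end Run7.h132
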