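import Mathlib
import Pool.Agent.Run7.h132.RepA

/-!
# Chief factors: the case of irreducible restriction
-/

set_option autoImplicit false
set_option linter.unusedSectionVars false

namespace Run7.h132

open Pool.Agent.H541R3.ART Pool.Agent.W446.AS Pool.Agent.R389 Pool.Agent.Helper606_LC

/-- `K / L` is a chief factor of `G` which is not central -/
structure NC {G : Type} [Group G] (L K : Subgroup G) : Prop where
  nL : L.Normal
  nK : K.Normal
  le : L ≤ K
  chief : ∀ N : Subgroup G, N.Normal → L ≤ N → N ≤ K → N = L ∨ N = K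
  nc : ∃ g : G, ∃ k ∈ K, g * k * g⁻¹ * k⁻¹ ∉ L

variable {G : Type} [Group G]

/-- invariant linear characters of a noncentral chief factor are trivial -/
lemma NC.lin {L K : Subgroup G} (h : NC L K) (lam : K →* ℂˣ) (hL : ∀ l : K, (l : G) ∈ L → lam l = 1)
    (hinv : ∀ (g : G) (k : K) (hk : g * (k : G) * g⁻¹ ∈ K), lam ⟨g * k * g⁻¹, hk⟩ = lam k) :
    lam = 1 := by
  let N : Subgroup G := lam.ker.map K.subtype
  have hmem : ∀ x : G, x ∈ N ↔ ∃ hx : x ∈ K, lam ⟨x, hx⟩ = 1 := by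
    intro x
    constructor
    · rintro ⟨y, hy, rfl⟩
      exact ⟨y.2, hy⟩
    · rintro ⟨hx, h1⟩
      exact ⟨⟨x, hx⟩, h1, rfl⟩
  have hN : N.Normal := ⟨fun n hn g => by
    obtain ⟨hx, h1⟩ := (hmem n).mp hn
    have h2 := h.nK.conj_mem n hx g
    exact (hmem _).mpr ⟨h2, by rw [hinv g ⟨n, hx⟩ h2, h1]⟩⟩
  have hLN : L ≤ N := fun l hl => (hmem l).mpr ⟨h.le hl, hL ⟨l, h.le hl⟩ hl⟩
  have hNK : N ≤ K := fun x hx => ((hmem x).mp hx).1
  rcases h.chief N hN hLN hNK with h1 | h1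
  · exfalso
    obtain ⟨g, k, hk, hgk⟩ := h.nc
    apply hgk
    rw [← h1]
    have h2 := h.nK.conj_mem k hk g
    refine (hmem _).mpr ⟨K.mul_mem h2 (K.inv_mem hk), ?_⟩
    have h3 : (⟨g * k * g⁻¹ * k⁻¹, K.mul_mem h2 (K.inv_mem hk)⟩ : K)
        = ⟨g * k * g⁻¹, h2⟩ * (⟨k, hk⟩ : K)⁻¹ := rfl
    rw [h3, map_mul, map_inv, hinv g ⟨k, hk⟩ h2, mul_inv_cancel]
  · ext k
    have h2 : (k : G) ∈ N := by rw [h1]; exact k.2
    obtain ⟨hx, h3⟩ := (hmem k).mp h2
    have h4 : lam k = 1 := h3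
    rw [h4]
    rfl

/-- supplements of noncentral chief factors are self-normalizing -/
lemma NC.selfnorm {L K U : Subgroup G} (h : NC L K) (hU : IsCoatom U) (hLU : L ≤ U)
    (hKU : ¬ K ≤ U) : Subgroup.normalizer (U : Set G) = U := by
  rcases hU.le_iff.mp (Subgroup.le_normalizer : U ≤ Subgroup.normalizer (U : Set G)) with h1 | h1
  swap
  · exact h1
  exfalso
  have hUn : U.Normal := Subgroup.normalizer_eq_top_iff.mp h1
  have hinf : K ⊓ U = L := by
    rcases h.chief (K ⊓ U) (by have := h.nK; infer_instance) (le_inf h.le hLU) inf_le_left with h2 | h2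
    · exact h2
    · exact absurd (inf_eq_left.mp h2) hKU
  obtain ⟨k₀, hk₀, hk₀U⟩ := Set.not_subset.mp hKU
  have hgen : ∀ g : G, ∃ (i : ℤ) (u : G), u ∈ U ∧ g = k₀ ^ i * u := by
    intro g
    have h2 : Subgroup.zpowers k₀ ⊔ U = ⊤ := by
      rcases hU.le_iff.mp (le_sup_right : U ≤ Subgroup.zpowers k₀ ⊔ U) with h3 | h3
      · exact h3
      · exfalso
        apply hk₀U
        have h4 : k₀ ∈ Subgroup.zpowers k₀ ⊔ U := Subgroup.mem_sup_left (Subgroup.mem_zpowers k₀)
        rw [h3] at h4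
        exact h4
    have h3 : g ∈ Subgroup.zpowers k₀ ⊔ U := by rw [h2]; exact Subgroup.mem_top g
    obtain ⟨y, hy, z, hz, rfl⟩ := Subgroup.mem_sup_of_normal_right.mp h3
    obtain ⟨i, rfl⟩ := Subgroup.mem_zpowers_iff.mp hy
    exact ⟨i, z, hz, rfl⟩
  have hcomm : ∀ a b : G, a * b * a⁻¹ * b⁻¹ ∈ U := by
    intro a b
    have h2 : ((a * b * a⁻¹ * b⁻¹ : G) : G ⧸ U) = 1 := by
      obtain ⟨i, u, hu, rfl⟩ := hgen a
      obtain ⟨j, v, hv, rfl⟩ := hgen b
      have hu' : ((u : G) : G ⧸ U) = 1 := (QuotientGroup.eq_one_iff u).mpr hu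
      have hv' : ((v : G) : G ⧸ U) = 1 := (QuotientGroup.eq_one_iff v).mpr hv
      rw [QuotientGroup.mk_mul, QuotientGroup.mk_mul, QuotientGroup.mk_mul, QuotientGroup.mk_inv,
        QuotientGroup.mk_inv, QuotientGroup.mk_mul, QuotientGroup.mk_mul, hu', hv', mul_one, mul_one,
        QuotientGroup.mk_zpow, QuotientGroup.mk_zpow, ← zpow_add, ← zpow_neg, ← zpow_neg, ← zpow_add,
        ← zpow_add]
      have : i + j + -i + -j = 0 := by ring
      rw [this, zpow_zero]
    exact (QuotientGroup.eq_one_iff _).mp h2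
  obtain ⟨g, k, hk, hgk⟩ := h.nc
  apply hgk
  rw [← hinf]
  exact ⟨K.mul_mem (h.nK.conj_mem k hk g) (K.inv_mem hk), hcomm g k⟩

variable [Finite G]

/-- two functions proportional on `K` -/
lemma irr_eq_of_L {L K : Subgroup G} (h : NC L K) {ν ν' : G → ℂ} (hν : IrrOn K ν)
    (hν' : IrrOn K ν') (hL : IrrOn L ν) (hLL : ∀ l ∈ L, ν' l = ν l)
    (hi : ∀ g : G, ∀ k ∈ K, ν (g * k * g⁻¹) = ν k) (hi' : ∀ g : G, ∀ k ∈ K, ν' (g * k * g⁻¹) = ν' k) :
    ∀ k ∈ K, ν' k = ν k := by
  classical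
  let LK : Subgroup K := L.subgroupOf K
  have hLKn : LK.Normal := h.nL.subgroupOf K
  have hKn : K.Normal := h.nK
  have hLon : IrrOn LK (fun k : K => ν k) := (irrOn_subgroupOf h.le ν).mpr hL
  have hmul : IrrOn LK ((fun k : K => ν k) * fun _ => (1 : ℂ)) := by
    refine irrOn_congr (fun k hk => ?_) hLon
    rw [Pi.mul_apply, mul_one]
  obtain ⟨-, key1, key2⟩ := mul_corr hLKn (irr_chr hν) (one_irrOn LK) (fun _ _ _ => rfl) hmul
  obtain ⟨μ, hμ, hμL, hμeq⟩ := key2 (fun k : K => ν' k) hν' (by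
    intro k hk
    have h1 : ν' (k : G) = ν k := hLL k hk
    have h2 : ν' ((1 : K) : G) = ν ((1 : K) : G) := hLL _ (one_mem L)
    simp only [Pi.mul_apply, mul_one]
    rw [h1, h2]
    ring)
  have hν1 : ν 1 ≠ 0 := irrOn_one_ne hν
  have hμ1 : μ 1 = 1 := by
    have h1 := congrFun hμeq 1
    simp only [Pi.mul_apply, OneMemClass.coe_one] at h1
    rw [hLL 1 (one_mem L)] at h1
    exact (mul_left_cancel₀ hν1 (by rw [mul_one]; exact h1)).symm
  obtain ⟨lam, hlam⟩ := irr_deg_one hμ hμ1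
  have hker : ∀ l : K, (l : G) ∈ L → lam l = 1 := by
    intro l hl
    apply Units.ext
    rw [← hlam, Units.val_one]
    have := hμL l hl
    rwa [mul_one, hμ1, one_mul] at this
  have h1 : lam = 1 := by
    apply h.lin lam hker
    intro g k hk
    -- conjugate character
    let cj : K ≃* K := MulAut.conjNormal (H := K) g
    have hcj : ∀ x : K, ((cj x : K) : G) = g * x * g⁻¹ := fun x => MulAut.conjNormal_apply g x
    have h2 : (fun x : K => μ (cj x)) ∈ Irr K := irr_surj cj.toMonoidHom cj.surjective hμ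
    have h3 := key1 (fun x : K => μ (cj x)) h2 μ hμ (by
      intro x hx
      have h4 : cj x ∈ LK := by
        rw [Subgroup.mem_subgroupOf, hcj]
        exact h.nL.conj_mem _ hx g
      have h5 := hμL (cj x) h4
      simp only [map_one, mul_one] at h5 ⊢
      exact h5) hμL (by
      have h4 : (fun k : K => ν' k) = (fun k : K => ν k) * μ := hμeq
      funext x
      have h5 := congrFun h4 (cj x)
      have h6 := congrFun h4 x
      simp only [Pi.mul_apply] at h5 h6 ⊢
      rw [hcj, hi' g x x.2, hi g x x.2] at h5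
      rw [← h5, h6])
    have h4 : μ (cj k) = μ k := congrFun h3 k
    rw [hlam, hlam] at h4
    have h5 : cj k = ⟨g * k * g⁻¹, hk⟩ := Subtype.ext (hcj k)
    rw [h5] at h4
    exact Units.ext h4
  intro k hk
  have h2 := congrFun hμeq ⟨k, hk⟩
  simp only [Pi.mul_apply] at h2
  rw [h2, hlam, h1, MonoidHom.one_apply, Units.val_one, mul_one]

/-- **Irreducible restriction to `L`.** -/
theorem chief_A {χ : G → ℂ} (hχ : χ ∈ Irr G) {L K U : Subgroup G} (h : NC L K) (hU : IsCoatom U)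
    (hLU : L ≤ U) (hKU : ¬ K ≤ U) {c : ℂ} (hK : IrrOn K (fun g => c * χ g))
    (hL : IrrOn L (fun g => c * χ g)) : Mch χ := by
  classical
  have hNK := h.nK
  have hcl : ∀ g x : G, χ (x * g * x⁻¹) = χ g :=
    (show Virt χ from AddSubgroup.subset_closure hχ).conj
  have hc := irrOn_scal hK
  set ν : G → ℂ := fun g => c * χ g with hν
  have hinv : ∀ g : G, ∀ k ∈ K, ν (g * k * g⁻¹) = ν k := fun g k _ => by
    rw [hν]; simp only; rw [hcl]
  have hsup : K ⊔ U = ⊤ := by
    rcases hU.le_iff.mp (le_sup_right : U ≤ K ⊔ U) with h1 | h1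
    · exact h1
    · exact absurd (h1 ▸ le_sup_left) hKU
  have hKS : ∀ g : G, ∃ k ∈ K, ∃ s ∈ U, g = k * s := by
    intro g
    have h1 : g ∈ K ⊔ U := by rw [hsup]; exact Subgroup.mem_top g
    obtain ⟨y, hy, z, hz, h2⟩ := Subgroup.mem_sup_of_normal_left.mp h1
    exact ⟨y, hy, z, hz, h2.symm⟩
  have hmid : IrrOn (K ⊓ U) ν := irrOn_mid (le_inf h.le hLU) inf_le_left hK hL
  obtain ⟨key1, key2⟩ := res_corr hNK U hKS hK hinv hmid
  have hov : Ov K ν χ := by
    intro k _
    rw [hν]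
    ring
  refine ⟨U, hU.1, h.selfnorm hU hLU hKU, fun s : U => χ s, key1 χ hχ hov, ?_⟩
  intro u
  have hN : 0 < Nat.card G := Nat.card_pos
  have hUd : Nat.card U ∣ Nat.card G := Subgroup.card_subgroup_dvd_card U
  have hKd : Nat.card K ∣ Nat.card G := Subgroup.card_subgroup_dvd_card K
  constructor
  · intro h1
    funext s
    exact congrFun h1 (s : G)
  · intro h1
    have hχu := irr_pw hN dvd_rfl u hχ
    have hs : ∀ s ∈ U, pw u χ s = χ s := fun s hs => congrFun h1 ⟨s, hs⟩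
    let ν' : G → ℂ := pw u ν
    have hν'K : IrrOn K ν' := irr_pw hN hKd u hK
    have h2 : ∀ k ∈ K, ν' k = ν k := by
      apply irr_eq_of_L h hK hν'K hL _ hinv
      · intro g k hk
        change ν ((g * k * g⁻¹) ^ _) = ν (k ^ _)
        rw [conj_pow]
        exact hinv g _ (K.pow_mem hk _)
      · intro l hl
        change c * pw u χ l = c * χ l
        rw [hs l (hLU hl)]
    symm
    apply key2 χ hχ (pw u χ) hχu hov
    · intro k hk
      have h3 : c * pw u χ k = c * χ k := h2 k hk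
      have h4 := mul_left_cancel₀ hc h3
      have h5 : pw u χ 1 = χ 1 := hs 1 (one_mem U)
      rw [h4, h5]
      exact hov k hk
    · intro s hs'
      exact (hs s hs').symm

end Run7.h132
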