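import Mathlib
import Pool.Agent.Run7.h132.Theta
import Pool.Agent.Run7.h132.Baer
import Pool.Agent.Run7.h132.WA

/-!
# The extraspecial group of a fully ramified section
-/

set_option autoImplicit false
set_option linter.unusedSectionVars false

namespace Run7.h132

open Pool.Agent.H541R3.ART Pool.Agent.W446.AS Pool.Agent.R389 Pool.Agent.Helper606_LC
open scoped commutatorElement

variable {G : Type} [Group G] [Fintype G] {V : Type} [AddCommGroup V] [Module ℂ V]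
  [FiniteDimensional ℂ V]

/-- the span of the operators of a subgroup -/
def AA (ρ : Representation ℂ G V) (L : Subgroup G) : Submodule ℂ (Module.End ℂ V) :=
  Submodule.span ℂ (Set.range fun l : L => ρ l)

lemma aa_eq (ρ : Representation ℂ G V) (L : Subgroup G) :
    AA ρ L = Submodule.span ℂ (Set.range fun h : L => (ρ.comp L.subtype) h) := by
  have h : (fun h : L => (ρ.comp L.subtype) h) = fun l : L => ρ l := rfl
  rw [h, AA]

lemma aa_mem (ρ : Representation ℂ G V) {L : Subgroup G} {l : G} (hl : l ∈ L) : ρ l ∈ AA ρ L :=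
  Submodule.subset_span ⟨⟨l, hl⟩, rfl⟩

lemma aa_one (ρ : Representation ℂ G V) (L : Subgroup G) : (1 : Module.End ℂ V) ∈ AA ρ L := by
  rw [← map_one ρ]
  exact aa_mem ρ (one_mem L)

lemma aa_mono (ρ : Representation ℂ G V) {L K : Subgroup G} (h : L ≤ K) : AA ρ L ≤ AA ρ K := by
  apply Submodule.span_mono
  rintro _ ⟨l, rfl⟩
  exact ⟨⟨l, h l.2⟩, rfl⟩

lemma aa_mul {ρ : Representation ℂ G V} {L : Subgroup G} {a b : Module.End ℂ V} (ha : a ∈ AA ρ L)
    (hb : b ∈ AA ρ L) : a * b ∈ AA ρ L := by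
  induction ha using Submodule.span_induction with
  | mem x hx =>
    obtain ⟨l, rfl⟩ := hx
    induction hb using Submodule.span_induction with
    | mem y hy =>
      obtain ⟨m, rfl⟩ := hy
      simp only
      rw [← map_mul]
      exact aa_mem ρ (L.mul_mem l.2 m.2)
    | zero => rw [mul_zero]; exact Submodule.zero_mem _
    | add x y _ _ hx hy => rw [mul_add]; exact Submodule.add_mem _ hx hy
    | smul c x _ hx => rw [mul_smul_comm]; exact Submodule.smul_mem _ _ hx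
  | zero => rw [zero_mul]; exact Submodule.zero_mem _
  | add x y _ _ hx hy => rw [add_mul]; exact Submodule.add_mem _ hx hy
  | smul c x _ hx => rw [smul_mul_assoc]; exact Submodule.smul_mem _ _ hx

lemma aa_conj {ρ : Representation ℂ G V} {L : Subgroup G} (hL : L.Normal) {a : Module.End ℂ V}
    (ha : a ∈ AA ρ L) (g : G) : ρ g * a * ρ g⁻¹ ∈ AA ρ L := by
  induction ha using Submodule.span_induction with
  | mem x hx =>
    obtain ⟨l, rfl⟩ := hx
    simp only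
    rw [← map_mul, ← map_mul]
    exact aa_mem ρ (hL.conj_mem l l.2 g)
  | zero => rw [mul_zero, zero_mul]; exact Submodule.zero_mem _
  | add x y _ _ hx hy => rw [mul_add, add_mul]; exact Submodule.add_mem _ hx hy
  | smul c x _ hx => rw [mul_smul_comm, smul_mul_assoc]; exact Submodule.smul_mem _ _ hx

/-- commuting with a spanning set -/
lemma aa_comm {ρ : Representation ℂ G V} {L : Subgroup G} {x a : Module.End ℂ V}
    (hx : ∀ l ∈ L, x * ρ l = ρ l * x) (ha : a ∈ AA ρ L) : x * a = a * x := by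
  induction ha using Submodule.span_induction with
  | mem y hy =>
    obtain ⟨l, rfl⟩ := hy
    exact hx l l.2
  | zero => rw [mul_zero, zero_mul]
  | add y z _ _ hy hz => rw [mul_add, add_mul, hy, hz]
  | smul c y _ hy => rw [mul_smul_comm, smul_mul_assoc, hy]

/-- scalars in the span -/
lemma aa_scalar {ρ : Representation ℂ G V} (hρ : Irred ρ) {L : Subgroup G} (hL : L.Normal) {c : ℂ}
    (h : IrrOn L (fun g => c * ρ.character g)) {x : Module.End ℂ V} (hx : x ∈ AA ρ L)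
    (hc : ∀ l ∈ L, x * ρ l = ρ l * x) : ∃ z : ℂ, x = z • 1 := by
  classical
  obtain ⟨d, D, hD⟩ := hs_of_normal hρ hL h
  rw [aa_eq] at hx
  obtain ⟨f, rfl⟩ := hD.of_mem (x := x) hx
  obtain ⟨z, -, hz⟩ := hD.scalar (f := f) (fun l => hc l l.2)
  exact ⟨z, hz⟩

/-- operators over `g` commuting with `L` -/
def Sec (ρ : Representation ℂ G V) (L : Subgroup G) (g : G) (x : Module.End ℂ V) : Prop :=
  (∀ l ∈ L, x * ρ l = ρ l * x) ∧ ∃ a ∈ AA ρ L, x = a * ρ g

section sec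

variable {ρ : Representation ℂ G V} {L : Subgroup G}

lemma Sec.mul (hL : L.Normal) {g h : G} {x y : Module.End ℂ V} (hx : Sec ρ L g x)
    (hy : Sec ρ L h y) : Sec ρ L (g * h) (x * y) := by
  obtain ⟨hx1, a, ha, hx2⟩ := hx
  obtain ⟨hy1, b, hb, hy2⟩ := hy
  refine ⟨fun l hl => by rw [mul_assoc, hy1 l hl, ← mul_assoc, hx1 l hl, mul_assoc],
    a * (ρ g * b * ρ g⁻¹), aa_mul ha (aa_conj hL hb g), ?_⟩
  rw [hx2, hy2, map_mul]
  have h1 : ρ g⁻¹ * ρ g = 1 := rep_inv_mul ρ g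
  calc a * ρ g * (b * ρ h) = a * (ρ g * b) * (ρ g⁻¹ * ρ g) * ρ h := by
        rw [h1]; simp only [mul_assoc, mul_one]
    _ = _ := by simp only [mul_assoc]

lemma Sec.one (ρ : Representation ℂ G V) (L : Subgroup G) : Sec ρ L 1 1 :=
  ⟨fun l _ => by rw [one_mul, mul_one], 1, aa_one ρ L, by rw [map_one, mul_one]⟩

lemma Sec.smul {g : G} {x : Module.End ℂ V} (hx : Sec ρ L g x) (z : ℂ) : Sec ρ L g (z • x) := by
  obtain ⟨hx1, a, ha, hx2⟩ := hx
  exact ⟨fun l hl => by rw [smul_mul_assoc, mul_smul_comm, hx1 l hl], z • a,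
    Submodule.smul_mem _ _ ha, by rw [hx2, smul_mul_assoc]⟩

lemma Sec.pow (hL : L.Normal) {g : G} {x : Module.End ℂ V} (hx : Sec ρ L g x) (n : ℕ) :
    Sec ρ L (g ^ n) (x ^ n) := by
  induction n with
  | zero => rw [pow_zero, pow_zero]; exact Sec.one ρ L
  | succ n ih => rw [pow_succ, pow_succ]; exact ih.mul hL hx

/-- changing the element in its coset -/
lemma Sec.coset {g h : G} {x : Module.End ℂ V} (hx : Sec ρ L g x) (hgh : g * h⁻¹ ∈ L) :
    Sec ρ L h x := by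
  obtain ⟨hx1, a, ha, hx2⟩ := hx
  refine ⟨hx1, a * ρ (g * h⁻¹), aa_mul ha (aa_mem ρ hgh), ?_⟩
  rw [hx2, mul_assoc, ← map_mul, inv_mul_cancel_right]

/-- conjugation -/
lemma Sec.conj (hL : L.Normal) {g : G} {x : Module.End ℂ V} (hx : Sec ρ L g x) (h : G) :
    Sec ρ L (h * g * h⁻¹) (ρ h * x * ρ h⁻¹) := by
  obtain ⟨hx1, a, ha, hx2⟩ := hx
  refine ⟨fun l hl => ?_, ρ h * a * ρ h⁻¹, aa_conj hL ha h, ?_⟩
  · have h1 := hx1 (h⁻¹ * l * h) (by
      have := hL.conj_mem l hl h⁻¹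
      rwa [inv_inv] at this)
    have h2 : ρ h⁻¹ * ρ l = ρ (h⁻¹ * l * h) * ρ h⁻¹ := by
      rw [← map_mul, ← map_mul]; congr 1; group
    have h3 : ρ h * ρ (h⁻¹ * l * h) = ρ l * ρ h := by
      rw [← map_mul, ← map_mul]; congr 1; group
    calc ρ h * x * ρ h⁻¹ * ρ l = ρ h * (x * ρ (h⁻¹ * l * h)) * ρ h⁻¹ := by
          rw [mul_assoc, h2]; simp only [mul_assoc]
      _ = ρ l * (ρ h * x * ρ h⁻¹) := by
          rw [h1, ← mul_assoc (ρ h), h3]; simp only [mul_assoc]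
  · rw [hx2, map_mul, map_mul]
    have h1 : ρ h⁻¹ * ρ h = 1 := rep_inv_mul ρ h
    calc ρ h * (a * ρ g) * ρ h⁻¹ = ρ h * a * (ρ h⁻¹ * ρ h) * ρ g * ρ h⁻¹ := by
          rw [h1, mul_one]; simp only [mul_assoc]
      _ = _ := by simp only [mul_assoc]

variable (hρ : Irred ρ) (hL : L.Normal) {c : ℂ} (hLc : IrrOn L (fun g => c * ρ.character g))

include hρ hL hLc

lemma Sec.scal {x : Module.End ℂ V} (hx : Sec ρ L 1 x) : ∃ z : ℂ, x = z • 1 := by
  obtain ⟨hx1, a, ha, hx2⟩ := hx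
  rw [map_one, mul_one] at hx2
  rw [← hx2] at ha
  exact aa_scalar hρ hL hLc ha hx1

lemma Sec.uniq {g : G} {x y y' : Module.End ℂ V} (hx : Sec ρ L g x) (hy' : Sec ρ L g⁻¹ y')
    (h : y' * y = 1) : ∃ z : ℂ, x = z • y := by
  have h1 := hx.mul hL hy'
  rw [mul_inv_cancel] at h1
  obtain ⟨z, hz⟩ := h1.scal hρ hL hLc
  refine ⟨z, ?_⟩
  calc x = x * (y' * y) := by rw [h, mul_one]
    _ = _ := by rw [← mul_assoc, hz, smul_mul_assoc, one_mul]

omit [Fintype G] hL in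
lemma exists_TT [Finite G] {d : ℕ} {D : Representation ℂ L (Fin d → ℂ)} (g : G) (e : L ≃* L)
    (he : ∀ l : L, ((e l : L) : G) = g * l * g⁻¹)
    (hD : Irred D) (hch : ∀ l, D.character l = c * ρ.character (l : G)) :
    ∃ T1 T2 : Module.End ℂ (Fin d → ℂ), T1 * T2 = 1 ∧ T2 * T1 = 1 ∧
      ∀ l : L, T1 * D l = D (e l) * T1 := by
  let D' : Representation ℂ L (Fin d → ℂ) := D.comp e.toMonoidHom
  have hD' : Irred D' := by
    refine ⟨hD.1, fun W hW => hD.2 W fun l v hv => ?_⟩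
    obtain ⟨m, rfl⟩ := e.surjective l
    exact hW m v hv
  have hch' : D.character = D'.character := by
    funext l
    change D.character l = D.character (e l)
    rw [hch, hch, he, ρ.char_conj]
  obtain ⟨T, hT⟩ := exists_intertwiner hD hD' hch'
  exact ⟨T.toLinearMap, T.symm.toLinearMap, LinearMap.ext fun v => T.apply_symm_apply v,
    LinearMap.ext fun v => T.symm_apply_apply v, fun l => LinearMap.ext fun v => hT l v⟩

/-- the data of a homogeneous restriction -/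
lemma exists_theta : ∃ (d : ℕ) (D : Representation ℂ L (Fin d → ℂ))
    (Θ : Module.End ℂ (Fin d → ℂ) →ₗ[ℂ] Module.End ℂ V), Irred D ∧
      (∀ l, D.character l = c * ρ.character (l : G)) ∧ (∀ l : L, Θ (D l) = ρ l) ∧
      (∀ f g, Θ (f * g) = Θ f * Θ g) ∧ Θ 1 = 1 ∧ ∀ f, Θ f ∈ AA ρ L := by
  classical
  obtain ⟨d, D, hD⟩ := hs_of_normal hρ hL hLc
  refine ⟨d, D, Th (ρ.comp L.subtype) D, hD.irr, fun l => hD.ch l, fun l => hD.th_D l, hD.th_mul,
    hD.th_one, fun f => ?_⟩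
  rw [aa_eq]
  exact Th_mem f

/-- existence of an invertible operator over `g` -/
lemma sec_exists (g : G) : ∃ x y : Module.End ℂ V, Sec ρ L g x ∧ Sec ρ L g⁻¹ y ∧ x * y = 1 ∧
    y * x = 1 := by
  obtain ⟨d, D, Θ, hDirr, hDch, hΘD, hΘmul, hΘ1, hmem⟩ := exists_theta hρ hL hLc
  have hcj : ∀ l : L, ((MulAut.conjNormal (H := L) g l : L) : G) = g * l * g⁻¹ :=
    fun l => MulAut.conjNormal_apply g l
  obtain ⟨T1, T2, h12, h21, hT1⟩ := exists_TT hρ hLc g (MulAut.conjNormal (H := L) g) hcj hDirr hDch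
  have hT2 : ∀ l : L, T2 * D (MulAut.conjNormal (H := L) g l) = D l * T2 := by
    intro l
    calc T2 * D (MulAut.conjNormal (H := L) g l)
        = T2 * (D (MulAut.conjNormal (H := L) g l) * T1) * T2 := by
          rw [mul_assoc, mul_assoc, h12, mul_one]
      _ = _ := by rw [← hT1, ← mul_assoc, h21, one_mul]
  have hΘ12 : Θ T1 * Θ T2 = 1 := by rw [← hΘmul, h12, hΘ1]
  have hΘ21 : Θ T2 * Θ T1 = 1 := by rw [← hΘmul, h21, hΘ1]
  have hg1 : ρ g * ρ g⁻¹ = 1 := rep_mul_inv ρ g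
  have hg2 : ρ g⁻¹ * ρ g = 1 := rep_inv_mul ρ g
  have hs1 : Sec ρ L g (Θ T2 * ρ g) := by
    refine ⟨fun l hl => ?_, Θ T2, hmem T2, rfl⟩
    have h1 : ρ g * ρ l = ρ (g * l * g⁻¹) * ρ g := by
      rw [← map_mul, ← map_mul, inv_mul_cancel_right]
    have h2 : ρ (g * l * g⁻¹) = Θ (D (MulAut.conjNormal (H := L) g ⟨l, hl⟩)) := by
      rw [hΘD, hcj]
    have h3 : ρ l = Θ (D ⟨l, hl⟩) := by rw [hΘD]
    rw [mul_assoc, h1, h2, ← mul_assoc, ← hΘmul, hT2, hΘmul, ← h3]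
    simp only [mul_assoc]
  have hxy : (Θ T2 * ρ g) * (ρ g⁻¹ * Θ T1) = 1 := by
    rw [mul_assoc, ← mul_assoc (ρ g), hg1, one_mul, hΘ21]
  have hyx : (ρ g⁻¹ * Θ T1) * (Θ T2 * ρ g) = 1 := by
    rw [mul_assoc, ← mul_assoc (Θ T1), hΘ12, one_mul, hg2]
  refine ⟨Θ T2 * ρ g, ρ g⁻¹ * Θ T1, hs1, ⟨fun l hl => ?_, ρ g⁻¹ * Θ T1 * ρ g, ?_, ?_⟩, hxy, hyx⟩
  · calc ρ g⁻¹ * Θ T1 * ρ l = ρ g⁻¹ * Θ T1 * ρ l * ((Θ T2 * ρ g) * (ρ g⁻¹ * Θ T1)) := by
          rw [hxy, mul_one]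
      _ = (ρ g⁻¹ * Θ T1) * (ρ l * (Θ T2 * ρ g)) * (ρ g⁻¹ * Θ T1) := by simp only [mul_assoc]
      _ = ((ρ g⁻¹ * Θ T1) * (Θ T2 * ρ g)) * ρ l * (ρ g⁻¹ * Θ T1) := by
          rw [← hs1.1 l hl]; simp only [mul_assoc]
      _ = _ := by rw [hyx, one_mul]
  · have := aa_conj hL (hmem T1) g⁻¹
    rwa [inv_inv] at this
  · rw [mul_assoc (ρ g⁻¹ * Θ T1), hg1, mul_one]

end sec

end Run7.h132
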