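import Mathlib
import Pool.Agent.Run7.h132.Sect

/-!
# The Heisenberg section
-/

set_option autoImplicit false
set_option linter.unusedSectionVars false

namespace Run7.h132

open Pool.Agent.H541R3.ART Pool.Agent.W446.AS Pool.Agent.R389 Pool.Agent.Helper606_LC
open scoped commutatorElement

section scal

variable {A : Type} [Ring A] [Algebra ℂ A]

lemma pow_scal_right {x y : A} {ζ : ℂ} (h : y * x = ζ • (x * y)) (n : ℕ) :
    y * x ^ n = ζ ^ n • (x ^ n * y) := by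
  induction n with
  | zero => rw [pow_zero, pow_zero, mul_one, one_mul, one_smul]
  | succ n ih =>
    rw [pow_succ x, ← mul_assoc, ih, smul_mul_assoc, mul_assoc, h, mul_smul_comm, smul_smul,
      pow_succ ζ, mul_assoc]

lemma pow_scal_left {x y : A} {ζ : ℂ} (h : y * x = ζ • (x * y)) (n : ℕ) :
    y ^ n * x = ζ ^ n • (x * y ^ n) := by
  induction n with
  | zero => rw [pow_zero, pow_zero, mul_one, one_mul, one_smul]
  | succ n ih =>
    rw [pow_succ y, mul_assoc, h, mul_smul_comm, ← mul_assoc, ih, smul_mul_assoc, smul_smul,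
      pow_succ' ζ, mul_assoc]

lemma pow_scal {x y : A} {ζ : ℂ} (h : y * x = ζ • (x * y)) (n : ℕ) :
    (x * y) ^ n = ζ ^ (∑ i ∈ Finset.range n, i) • (x ^ n * y ^ n) := by
  induction n with
  | zero => simp
  | succ n ih =>
    rw [pow_succ, ih, Finset.sum_range_succ, pow_add, smul_mul_assoc]
    have h1 : x ^ n * y ^ n * (x * y) = ζ ^ n • (x ^ (n + 1) * y ^ (n + 1)) := by
      calc x ^ n * y ^ n * (x * y) = x ^ n * (y ^ n * x) * y := by simp only [mul_assoc]
        _ = _ := by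
          rw [pow_scal_left h, mul_smul_comm, smul_mul_assoc, pow_succ, pow_succ]
          simp only [mul_assoc]
    rw [h1, smul_smul]

end scal

variable {G : Type} [Group G] [Fintype G] {V : Type} [AddCommGroup V] [Module ℂ V]
  [FiniteDimensional ℂ V] {ρ : Representation ℂ G V} {L K : Subgroup G}

section

variable (hρ : Irred ρ) (hL : L.Normal) {c : ℂ} (hLc : IrrOn L (fun g => c * ρ.character g))

include hρ hL hLc

/-- operators over the same element are proportional -/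
lemma Sec.prop {g : G} {x y : Module.End ℂ V} (hx : Sec ρ L g x) (hy : Sec ρ L g y)
    (h0 : y ≠ 0) : ∃ z : ℂ, x = z • y := by
  obtain ⟨e, e', he, he', -, h1⟩ := sec_exists hρ hL hLc g
  obtain ⟨z₁, h2⟩ := hx.uniq hρ hL hLc he' h1
  obtain ⟨z₂, h3⟩ := hy.uniq hρ hL hLc he' h1
  have h4 : z₂ ≠ 0 := by
    rintro rfl
    rw [zero_smul] at h3
    exact h0 h3
  refine ⟨z₁ * z₂⁻¹, ?_⟩
  rw [h3, smul_smul, mul_assoc, inv_mul_cancel₀ h4, mul_one, h2]

lemma Sec.comm (hab : ∀ x ∈ K, ∀ y ∈ K, x * y * x⁻¹ * y⁻¹ ∈ L) {k m : G} (hk : k ∈ K)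
    (hm : m ∈ K) {x y : Module.End ℂ V} (hx : Sec ρ L k x) (hy : Sec ρ L m y)
    (h0 : x * y ≠ 0) : ∃ ζ : ℂ, y * x = ζ • (x * y) := by
  have h1 : Sec ρ L (k * m) (y * x) := by
    apply (hy.mul hL hx).coset
    have h2 := hab m hm k hk
    have h3 : m * k * (k * m)⁻¹ = m * k * m⁻¹ * k⁻¹ := by group
    rwa [h3]
  exact h1.prop hρ hL hLc (hx.mul hL hy) h0

end

/-- **The Heisenberg section.** -/
theorem exists_t (hρ : Irred ρ) (hL : L.Normal) {c : ℂ}
    (hLc : IrrOn L (fun g => c * ρ.character g)) {Q : Type} [CommGroup Q] (π₀ : K →* Q)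
    (hπs : Function.Surjective π₀) (hπk : ∀ k : K, π₀ k = 1 ↔ (k : G) ∈ L) {p m : ℕ}
    (hp : p.Prime) (hm : 2 * m + 1 = p) (hexp : ∀ x ∈ K, x ^ p ∈ L) :
    ∃ (t : K → Module.End ℂ V) (β : K → K → ℂ), (∀ k l, t k * t l = β k l • t (k * l)) ∧
      (∀ k l, β k l ^ p = 1) ∧ (∀ k k' l, β (k * k') l = β k l * β k' l) ∧
      (∀ k l, β k l * β l k = 1) ∧ (∀ k : K, (k : G) ∈ L → t k = 1) ∧
      (∀ k l : K, π₀ k = π₀ l → t k = t l) ∧ (∀ k : K, Sec ρ L k (t k)) := by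
  classical
  have hnt := hρ.1
  have hab : ∀ x ∈ K, ∀ y ∈ K, x * y * x⁻¹ * y⁻¹ ∈ L := by
    intro x hx y hy
    have h1 : π₀ (⟨x, hx⟩ * ⟨y, hy⟩ * (⟨x, hx⟩ : K)⁻¹ * (⟨y, hy⟩ : K)⁻¹) = 1 := by
      rw [map_mul, map_mul, map_mul, map_inv, map_inv, mul_comm (π₀ ⟨x, hx⟩)]
      simp
    exact (hπk _).mp h1
  have hp0 : p ≠ 0 := hp.ne_zero
  have hsum : ∑ i ∈ Finset.range p, i = p * m := by
    have h1 := Finset.sum_range_id_mul_two p
    have h2 : p - 1 = 2 * m := by omega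
    rw [h2] at h1
    have h3 : p * (2 * m) = p * m * 2 := by ring
    omega
  have huz : ∀ (x : (Module.End ℂ V)ˣ), (x : Module.End ℂ V) ≠ 0 := fun x => x.ne_zero
  -- commutators of elements of exponent `p`
  have hcomm : ∀ (k l : K) (x y : (Module.End ℂ V)ˣ), Sec ρ L k x → Sec ρ L l y →
      x ^ p = 1 → ∃ ζ : ℂ, (y : Module.End ℂ V) * x = ζ • ((x : Module.End ℂ V) * y) ∧
        ζ ^ p = 1 := by
    intro k l x y hx hy hxp
    obtain ⟨ζ, hζ⟩ := hx.comm hρ hL hLc hab k.2 l.2 hy (by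
      rw [← Units.val_mul]; exact huz _)
    refine ⟨ζ, hζ, ?_⟩
    have h1 := pow_scal_right hζ p
    have h2 : (x : Module.End ℂ V) ^ p = 1 := by rw [← Units.val_pow_eq_pow_val, hxp, Units.val_one]
    rw [h2, mul_one, one_mul] at h1
    have h3 : (1 : ℂ) • (y : Module.End ℂ V) = ζ ^ p • (y : Module.End ℂ V) := by
      rw [one_smul]; exact h1
    exact (smul_left_injective ℂ (huz y) h3).symm
  have hmulp : ∀ (k l : K) (x y : (Module.End ℂ V)ˣ), Sec ρ L k x → Sec ρ L l y →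
      x ^ p = 1 → y ^ p = 1 → (x * y) ^ p = 1 := by
    intro k l x y hx hy hxp hyp
    obtain ⟨ζ, hζ, hζp⟩ := hcomm k l x y hx hy hxp
    apply Units.ext
    rw [Units.val_pow_eq_pow_val, Units.val_mul, pow_scal hζ, hsum, pow_mul, hζp, one_pow,
      one_smul, ← Units.val_pow_eq_pow_val, ← Units.val_pow_eq_pow_val, hxp, hyp]
    simp
  -- the group `E`
  let E : Subgroup ((Module.End ℂ V)ˣ × Q) :=
    { carrier := {x | ∃ k : K, π₀ k = x.2 ∧ Sec ρ L k (x.1 : Module.End ℂ V) ∧ x.1 ^ p = 1}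
      mul_mem' := by
        rintro x y ⟨k, hk1, hk2, hk3⟩ ⟨l, hl1, hl2, hl3⟩
        refine ⟨k * l, by rw [map_mul, hk1, hl1]; rfl, ?_, hmulp k l x.1 y.1 hk2 hl2 hk3 hl3⟩
        exact hk2.mul hL hl2
      one_mem' := ⟨1, map_one _, Sec.one ρ L, one_pow _⟩
      inv_mem' := by
        rintro x ⟨k, hk1, hk2, hk3⟩
        refine ⟨k⁻¹, by rw [map_inv, hk1]; rfl, ?_, ?_⟩
        · have h1 : (x⁻¹).1 = x.1 ^ (p - 1) := by
            change x.1⁻¹ = _
            rw [inv_eq_iff_mul_eq_one, ← pow_succ', Nat.sub_add_cancel hp.one_le, hk3]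
          rw [h1, Units.val_pow_eq_pow_val]
          apply (hk2.pow hL (p - 1)).coset
          have h2 : (k : G) ^ (p - 1) * ((k⁻¹ : K) : G)⁻¹ = (k : G) ^ p := by
            rw [InvMemClass.coe_inv, inv_inv, ← pow_succ, Nat.sub_add_cancel hp.one_le]
          rw [h2]
          exact hexp k k.2
        · change x.1⁻¹ ^ p = 1
          rw [inv_pow, hk3, inv_one] }
  have hE : ∀ x : E, ∃ k : K, π₀ k = x.1.2 ∧ Sec ρ L k (x.1.1 : Module.End ℂ V) ∧ x.1.1 ^ p = 1 :=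
    fun x => x.2
  let π : E →* Q := (MonoidHom.snd _ _).comp E.subtype
  have hπ : Function.Surjective π := by
    intro q
    obtain ⟨k, rfl⟩ := hπs q
    obtain ⟨x, y, hx, hy, hxy, hyx⟩ := sec_exists hρ hL hLc (k : G)
    have h1 : Sec ρ L 1 (x ^ p) := by
      apply (hx.pow hL p).coset
      rw [inv_one, mul_one]
      exact hexp k k.2
    obtain ⟨z, hz⟩ := h1.scal hρ hL hLc
    have hz0 : z ≠ 0 := by
      rintro rfl
      have h2 : x ^ p * y ^ p = 1 := by
        have hc : Commute x y := by rw [Commute, SemiconjBy, hxy, hyx]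
        rw [← hc.mul_pow, hxy, one_pow]
      rw [hz, zero_smul, zero_mul] at h2
      exact zero_ne_one h2
    obtain ⟨w, hw⟩ := IsAlgClosed.exists_pow_nat_eq z⁻¹ hp.pos
    have hw0 : w ≠ 0 := by
      rintro rfl
      rw [zero_pow hp0] at hw
      exact inv_ne_zero hz0 hw.symm
    let u : (Module.End ℂ V)ˣ := ⟨w • x, w⁻¹ • y, by
      rw [smul_mul_smul_comm, hxy, mul_inv_cancel₀ hw0, one_smul], by
      rw [smul_mul_smul_comm, hyx, inv_mul_cancel₀ hw0, one_smul]⟩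
    refine ⟨⟨(u, π₀ k), k, rfl, hx.smul w, ?_⟩, rfl⟩
    apply Units.ext
    rw [Units.val_pow_eq_pow_val]
    change (w • x) ^ p = 1
    rw [smul_pow, hw, hz, smul_smul, inv_mul_cancel₀ hz0, one_smul]
  have hkerS : ∀ x : E, π x = 1 → ∃ z : ℂ, (x.1.1 : Module.End ℂ V) = z • 1 := by
    intro x hx
    obtain ⟨k, hk1, hk2, -⟩ := hE x
    have h1 : (k : G) ∈ L := (hπk k).mp (hk1.trans hx)
    have h2 : Sec ρ L 1 (x.1.1 : Module.End ℂ V) := hk2.coset (by rw [inv_one, mul_one]; exact h1)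
    exact h2.scal hρ hL hLc
  have hker : ∀ x : E, π x = 1 → ∀ y, x * y = y * x := by
    intro x hx y
    obtain ⟨z, hz⟩ := hkerS x hx
    apply Subtype.ext
    apply Prod.ext
    · apply Units.ext
      change (x.1.1 : Module.End ℂ V) * y.1.1 = y.1.1 * x.1.1
      rw [hz, smul_mul_assoc, mul_smul_comm, one_mul, mul_one]
    · exact mul_comm _ _
  have hCC : CC E := by
    intro x y z
    apply hker
    rw [map_commutatorElement, commutatorElement_eq_one_iff_mul_comm, mul_comm]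
  have hEp : ∀ x : E, x ^ p = 1 := by
    intro x
    obtain ⟨k, hk1, -, hk3⟩ := hE x
    apply Subtype.ext
    apply Prod.ext
    · exact hk3
    · change x.1.2 ^ p = 1
      rw [← hk1, ← map_pow]
      exact (hπk _).mpr (hexp k k.2)
  obtain ⟨s, w, hs, hw1, hsw, hw2, hw3⟩ := baer_cocycle hCC hp hEp hm π hπ hker
  choose z hz using fun q r => hkerS (w q r) (hw1 q r)
  have hone : ∀ r, w 1 r = 1 := by
    intro r
    have h1 := hw2 1 1 r
    rw [mul_one] at h1
    exact mul_eq_left.mp h1.symm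
  have hs1 : s 1 = 1 := by
    have h1 := hsw 1 1
    rw [hone, one_mul, mul_one] at h1
    exact mul_eq_left.mp h1
  have hzinj : ∀ a b : ℂ, a • (1 : Module.End ℂ V) = b • 1 → a = b :=
    fun a b h => smul_left_injective ℂ one_ne_zero h
  refine ⟨fun k => ((s (π₀ k)).1.1 : Module.End ℂ V), fun k l => z (π₀ k) (π₀ l), ?_, ?_, ?_, ?_,
    ?_, ?_, ?_⟩
  · intro k l
    have h1 := congrArg (fun x : E => (x.1.1 : Module.End ℂ V)) (hsw (π₀ k) (π₀ l))
    change ((s (π₀ k)).1.1 : Module.End ℂ V) * ((s (π₀ l)).1.1 : Module.End ℂ V)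
      = ((w (π₀ k) (π₀ l)).1.1 : Module.End ℂ V) * ((s (π₀ k * π₀ l)).1.1 : Module.End ℂ V) at h1
    rw [hz, smul_mul_assoc, one_mul, ← map_mul] at h1
    exact h1
  · intro k l
    have h1 := congrArg (fun x : E => (x.1.1 : Module.End ℂ V)) (hEp (w (π₀ k) (π₀ l)))
    change ((w (π₀ k) (π₀ l)).1.1 : Module.End ℂ V) ^ p = 1 at h1
    rw [hz, smul_pow, one_pow] at h1
    exact hzinj _ _ (by rw [h1, one_smul])
  · intro k k' l
    have h1 := congrArg (fun x : E => (x.1.1 : Module.End ℂ V)) (hw2 (π₀ k) (π₀ k') (π₀ l))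
    change ((w (π₀ k * π₀ k') (π₀ l)).1.1 : Module.End ℂ V)
      = ((w (π₀ k) (π₀ l)).1.1 : Module.End ℂ V) * ((w (π₀ k') (π₀ l)).1.1 : Module.End ℂ V) at h1
    rw [hz, hz, hz, smul_mul_smul_comm, one_mul, ← map_mul] at h1
    exact hzinj _ _ h1
  · intro k l
    have h1 := congrArg (fun x : E => (x.1.1 : Module.End ℂ V)) (hw3 (π₀ k) (π₀ l))
    change ((w (π₀ k) (π₀ l)).1.1 : Module.End ℂ V) * ((w (π₀ l) (π₀ k)).1.1 : Module.End ℂ V) = 1
      at h1
    rw [hz, hz, smul_mul_smul_comm, one_mul] at h1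
    exact hzinj _ _ (by rw [h1, one_smul])
  · intro k hk
    have h1 : π₀ k = 1 := (hπk k).mpr hk
    change ((s (π₀ k)).1.1 : Module.End ℂ V) = 1
    rw [h1, hs1]
    rfl
  · intro k l hkl
    change ((s (π₀ k)).1.1 : Module.End ℂ V) = ((s (π₀ l)).1.1 : Module.End ℂ V)
    rw [hkl]
  · intro k
    change Sec ρ L k ((s (π₀ k)).1.1 : Module.End ℂ V)
    obtain ⟨l, hl1, hl2, -⟩ := hE (s (π₀ k))
    apply hl2.coset
    have h1 : π₀ l = π₀ k := by
      rw [hl1]
      exact hs (π₀ k)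
    have h2 : π₀ (l * k⁻¹) = 1 := by rw [map_mul, map_inv, h1, mul_inv_cancel]
    exact (hπk _).mp h2

end Run7.h132
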