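import Mathlib
import Pool.Agent.Run7.h132.Sect2

/-!
# The complement of a fully ramified section
-/

set_option autoImplicit false
set_option linter.unusedSectionVars false

namespace Run7.h132

open Pool.Agent.H541R3.ART Pool.Agent.W446.AS Pool.Agent.R389 Pool.Agent.Helper606_LC

variable {G : Type} [Group G] [Fintype G] {V : Type} [AddCommGroup V] [Module ℂ V]
  [FiniteDimensional ℂ V]

/-- the data of a Heisenberg section -/
structure HT (ρ : Representation ℂ G V) (L K : Subgroup G) (t : K → Module.End ℂ V)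
    (β : K → K → ℂ) (p : ℕ) : Prop where
  irr : Irred ρ
  nc : NC L K
  ab : ∀ x ∈ K, ∀ y ∈ K, x * y * x⁻¹ * y⁻¹ ∈ L
  hp : p.Prime
  odd : p ≠ 2
  exp : ∀ x ∈ K, x ^ p ∈ L
  hL : ∃ c : ℂ, IrrOn L (fun g => c * ρ.character g)
  hK : ∃ c : ℂ, IrrOn K (fun g => c * ρ.character g)
  van : ∀ k ∈ K, k ∉ L → ρ.character k = 0
  mul : ∀ k l, t k * t l = β k l • t (k * l)
  pb : ∀ k l, β k l ^ p = 1
  bl : ∀ k k' l, β (k * k') l = β k l * β k' l
  sk : ∀ k l, β k l * β l k = 1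
  one : ∀ k : K, (k : G) ∈ L → t k = 1
  cos : ∀ k l : K, (k : G) * (l : G)⁻¹ ∈ L → t k = t l
  sec : ∀ k : K, Sec ρ L k (t k)

/-- an element which is a square root of one and a `p`-th root of one -/
lemma eq_one_of_sq {p : ℕ} (hp : p.Prime) (h2 : p ≠ 2) {z : ℂ} (hz : z ^ p = 1)
    (hz2 : z ^ 2 = 1) : z = 1 := by
  have hc : Nat.Coprime p 2 := (Nat.coprime_primes hp Nat.prime_two).mpr h2
  have h1 : orderOf z ∣ Nat.gcd p 2 :=
    Nat.dvd_gcd (orderOf_dvd_of_pow_eq_one hz) (orderOf_dvd_of_pow_eq_one hz2)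
  rw [Nat.coprime_iff_gcd_eq_one.mp hc] at h1
  exact orderOf_eq_one_iff.mp (Nat.dvd_one.mp h1)

namespace HT

variable {ρ : Representation ℂ G V} {L K : Subgroup G} {t : K → Module.End ℂ V}
    {β : K → K → ℂ} {p : ℕ} (h : HT ρ L K t β p)

include h

lemma b0 (k l : K) : β k l ≠ 0 := by
  intro h0
  have := h.sk k l
  rw [h0, zero_mul] at this
  exact zero_ne_one this

lemma blr (k l l' : K) : β k (l * l') = β k l * β k l' := by
  have h1 := h.sk k (l * l')
  rw [h.bl] at h1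
  have h2 := h.sk k l
  have h3 := h.sk k l'
  have h4 : β k (l * l') * (β l k * β l' k) = (β k l * β k l') * (β l k * β l' k) := by
    rw [h1, mul_mul_mul_comm, h2, h3, one_mul]
  exact mul_right_cancel₀ (mul_ne_zero (h.b0 l k) (h.b0 l' k)) h4

lemma self (k : K) : β k k = 1 :=
  eq_one_of_sq h.hp h.odd (h.pb k k) (by rw [pow_two]; exact h.sk k k)

lemma b1 (l : K) : β 1 l = 1 := by
  have h1 := h.bl 1 1 l
  rw [mul_one] at h1
  exact (mul_eq_left₀ (h.b0 1 l)).mp h1.symm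

lemma b1' (l : K) : β l 1 = 1 := by
  have h1 := h.blr l 1 1
  rw [mul_one] at h1
  exact (mul_eq_left₀ (h.b0 l 1)).mp h1.symm

lemma t1 : t 1 = 1 := h.one 1 (one_mem L)

lemma inv (k : K) : t k * t k⁻¹ = 1 := by
  have h1 : β k k⁻¹ = 1 := by
    have h2 := h.blr k k k⁻¹
    rw [mul_inv_cancel, h.b1', h.self, one_mul] at h2
    exact h2.symm
  rw [h.mul, h1, one_smul, mul_inv_cancel, h.t1]

lemma inv' (k : K) : t k⁻¹ * t k = 1 := by
  have := h.inv k⁻¹
  rwa [inv_inv] at this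

lemma t0 (k : K) : t k ≠ 0 := by
  have hnt := h.irr.1
  intro h0
  have := h.inv k
  rw [h0, zero_mul] at this
  exact zero_ne_one this

lemma tpow (k : K) (n : ℕ) : t k ^ n = t (k ^ n) := by
  have h2 : ∀ n : ℕ, β (k ^ n) k = 1 := by
    intro n
    induction n with
    | zero => rw [pow_zero, h.b1]
    | succ n ih => rw [pow_succ, h.bl, ih, h.self, one_mul]
  induction n with
  | zero => rw [pow_zero, pow_zero, h.t1]
  | succ n ih => rw [pow_succ, ih, h.mul, h2, one_smul, pow_succ]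

lemma tp (k : K) : t k ^ p = 1 := by
  rw [h.tpow]
  exact h.one _ (h.exp k k.2)

lemma swap (k l : K) : t (k * l) = t (l * k) := by
  apply h.cos
  have h1 := h.ab k k.2 l l.2
  have h2 : ((k * l : K) : G) * ((l * k : K) : G)⁻¹ = k * l * (k : G)⁻¹ * (l : G)⁻¹ := by
    push_cast
    group
  rw [h2]
  exact h1

/-- the commutation relation -/
lemma comm (k l : K) : t k * t l = β k l ^ 2 • (t l * t k) := by
  have h1 : β l k = (β k l)⁻¹ := eq_inv_of_mul_eq_one_left (by rw [mul_comm]; exact h.sk k l)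
  rw [h.mul, h.mul l k, smul_smul, h.swap k l, h1, pow_two, mul_assoc,
    mul_inv_cancel₀ (h.b0 k l), mul_one]

lemma bL (k l : K) (hl : (l : G) ∈ L) : β k l = 1 := by
  have h1 := h.mul k l
  rw [h.one l hl, mul_one] at h1
  have h2 : t (k * l) = t k := by
    apply h.cos
    have h3 : ((k * l : K) : G) * (k : G)⁻¹ = k * l * (k : G)⁻¹ := by push_cast; rfl
    rw [h3]
    exact h.nc.nL.conj_mem l hl k
  rw [h2] at h1
  have h3 : (1 : ℂ) • t k = β k l • t k := by rw [one_smul]; exact h1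
  exact (smul_left_injective ℂ (h.t0 k) h3).symm

lemma bL' (k l : K) (hk : (k : G) ∈ L) : β k l = 1 := by
  have h1 := h.sk k l
  rw [h.bL l k hk, mul_one] at h1
  exact h1

/-- the group elements in terms of the section -/
lemma rho (k : K) : ∃ a ∈ AA ρ L, ρ k = a * t k := by
  obtain ⟨h1, a, ha, h2⟩ := h.sec k⁻¹
  refine ⟨a, ha, ?_⟩
  have h3 : a * (ρ (k⁻¹ : K) * t k) = 1 := by
    rw [← mul_assoc, ← h2, h.inv']
  have h4 : (ρ (k⁻¹ : K) * t k) * a = 1 := by
    have := mul_eq_one_comm.mp h3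
    exact this
  have h5 : t k * a = a * t k := aa_comm (h.sec k).1 ha
  rw [← h5]
  calc ρ k = ρ k * ((ρ (k⁻¹ : K) * t k) * a) := by rw [h4, mul_one]
    _ = (ρ k * ρ (k : G)⁻¹) * (t k * a) := by
      simp only [mul_assoc, InvMemClass.coe_inv]
    _ = _ := by rw [rep_mul_inv, one_mul]

/-- conjugation by an element of `K` -/
lemma conjK (k l : K) : ρ k * t l = β k l ^ 2 • (t l * ρ k) := by
  obtain ⟨a, ha, h1⟩ := h.rho k
  have h2 : t l * a = a * t l := aa_comm (h.sec l).1 ha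
  rw [h1, mul_assoc, h.comm, mul_smul_comm, ← mul_assoc, ← h2, mul_assoc]

/-- nondegeneracy -/
lemma nondeg (k : K) (hk : ∀ l, β k l = 1) : (k : G) ∈ L := by
  obtain ⟨cK, hcK⟩ := h.hK
  have h1 : ∀ l ∈ K, t k * ρ l = ρ l * t k := by
    intro l hl
    have h2 := h.conjK ⟨l, hl⟩ k
    have h3 : β ⟨l, hl⟩ k = 1 := by
      have := h.sk k ⟨l, hl⟩
      rw [hk, one_mul] at this
      exact this
    rw [h3, one_pow, one_smul] at h2
    exact h2.symm
  have h2 : t k ∈ AA ρ K := by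
    obtain ⟨-, a, ha, h3⟩ := h.sec k
    rw [h3]
    exact aa_mul (aa_mono ρ h.nc.le ha) (aa_mem ρ k.2)
  obtain ⟨z, hz⟩ := aa_scalar h.irr h.nc.nK hcK h2 h1
  obtain ⟨a, ha, h3⟩ := h.rho k
  have h4 : ρ k ∈ AA ρ L := by
    rw [h3, hz, mul_smul_comm, mul_one]
    exact Submodule.smul_mem _ _ ha
  by_contra hkL
  have h5 : ∀ x ∈ AA ρ L, LinearMap.trace ℂ V (x * ρ (k : G)⁻¹) = 0 := by
    intro x hx
    induction hx using Submodule.span_induction with
    | mem x hx =>
      obtain ⟨l, rfl⟩ := hx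
      simp only
      rw [← map_mul]
      apply h.van _ (K.mul_mem (h.nc.le l.2) (K.inv_mem k.2))
      intro h6
      apply hkL
      have h7 := L.mul_mem (L.inv_mem h6) l.2
      rw [mul_inv_rev, inv_inv, inv_mul_cancel_right] at h7
      exact h7
    | zero => rw [zero_mul, map_zero]
    | add x y _ _ hx hy => rw [add_mul, map_add, hx, hy, add_zero]
    | smul c x _ hx => rw [smul_mul_assoc, map_smul, hx, smul_zero]
  have h6 := h5 _ h4
  rw [rep_mul_inv, LinearMap.trace_one] at h6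
  exact finrank_ne h.irr.1 h6

lemma nondeg' (k : K) (hk : (k : G) ∉ L) : ∃ l, β l k ≠ 1 := by
  by_contra hcon
  push Not at hcon
  apply hk
  apply h.nondeg
  intro l
  have := h.sk k l
  rw [hcon, mul_one] at this
  exact this

lemma sq_ne (k l : K) (hkl : β k l ≠ 1) : β k l ^ 2 ≠ 1 :=
  fun h2 => hkl (eq_one_of_sq h.hp h.odd (h.pb k l) h2)

/-- conjugation by an element of `G` -/
lemma conjG (g : G) (x y : K) (hy : (y : G) = g * x * g⁻¹) : ∃ z : ℂ, z ^ p = 1 ∧
    ρ g * t x * ρ g⁻¹ = z • t y := by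
  obtain ⟨cL, hcL⟩ := h.hL
  have h1 : Sec ρ L (y : G) (ρ g * t x * ρ g⁻¹) := by
    rw [hy]
    exact (h.sec x).conj h.nc.nL g
  obtain ⟨z, hz⟩ := h1.prop h.irr h.nc.nL hcL (h.sec y) (h.t0 y)
  refine ⟨z, ?_, hz⟩
  have h2 : ∀ n : ℕ, (ρ g * t x * ρ g⁻¹) ^ n = ρ g * t x ^ n * ρ g⁻¹ := by
    intro n
    induction n with
    | zero => rw [pow_zero, pow_zero, mul_one, rep_mul_inv]
    | succ n ih =>
      rw [pow_succ, ih, pow_succ]
      calc ρ g * t x ^ n * ρ g⁻¹ * (ρ g * t x * ρ g⁻¹)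
          = ρ g * t x ^ n * (ρ g⁻¹ * ρ g) * t x * ρ g⁻¹ := by simp only [mul_assoc]
        _ = _ := by rw [rep_inv_mul, mul_one]; simp only [mul_assoc]
  have h3 := h2 p
  rw [hz, smul_pow, h.tp, h.tp, mul_one, rep_mul_inv] at h3
  have hnt := h.irr.1
  exact smul_left_injective ℂ (one_ne_zero (α := Module.End ℂ V)) (by
    change z ^ p • (1 : Module.End ℂ V) = (1 : ℂ) • 1
    rw [h3, one_smul])

/-- every linear character of `K / L` comes from the form -/
lemma surj (z : K →* ℂˣ) (hz : ∀ l : K, (l : G) ∈ L → z l = 1) :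
    ∃ m : K, ∀ k, ((z k : ℂˣ) : ℂ) = β m k ^ 2 := by
  classical
  by_contra hcon
  push Not at hcon
  let B : K → K →* ℂ := fun m =>
    { toFun := fun k => ((z k : ℂˣ) : ℂ) * (β m k ^ 2)⁻¹
      map_one' := by rw [map_one, h.b1', Units.val_one]; simp
      map_mul' := by
        intro x y
        rw [map_mul, h.blr, Units.val_mul, mul_pow, mul_inv]
        ring }
  have h1 : ∀ m, ∑ k, ((z k : ℂˣ) : ℂ) * (β m k ^ 2)⁻¹ = 0 := by
    intro m
    apply sum_hom_units_eq_zero (B m)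
    intro hB
    obtain ⟨k, hk⟩ := hcon m
    apply hk
    have h2 := DFunLike.congr_fun hB k
    change ((z k : ℂˣ) : ℂ) * (β m k ^ 2)⁻¹ = 1 at h2
    rw [mul_inv_eq_one₀ (pow_ne_zero _ (h.b0 m k))] at h2
    exact h2
  have h2 : ∀ k : K, (k : G) ∉ L → ∑ m, (β m k ^ 2)⁻¹ = 0 := by
    intro k hk
    let C : K →* ℂ :=
      { toFun := fun m => (β m k ^ 2)⁻¹
        map_one' := by rw [h.b1]; simp
        map_mul' := by
          intro x y
          rw [h.bl, mul_pow, mul_inv] }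
    apply sum_hom_units_eq_zero C
    intro hC
    obtain ⟨l, hl⟩ := h.nondeg' k hk
    apply h.sq_ne l k hl
    have h3 := DFunLike.congr_fun hC l
    change (β l k ^ 2)⁻¹ = 1 at h3
    rw [inv_eq_one] at h3
    exact h3
  have h3 : ∑ k : K, ∑ m : K, ((z k : ℂˣ) : ℂ) * (β m k ^ 2)⁻¹ = 0 := by
    rw [Finset.sum_comm]
    exact Finset.sum_eq_zero fun m _ => h1 m
  have h4 : ∀ k : K, ∑ m : K, ((z k : ℂˣ) : ℂ) * (β m k ^ 2)⁻¹
      = if (k : G) ∈ L then (Fintype.card K : ℂ) else 0 := by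
    intro k
    by_cases hk : (k : G) ∈ L
    · rw [if_pos hk]
      have h5 : ∀ m : K, ((z k : ℂˣ) : ℂ) * (β m k ^ 2)⁻¹ = 1 := by
        intro m
        rw [hz k hk, h.bL m k hk]
        simp
      rw [Finset.sum_congr rfl (fun m _ => h5 m), Finset.sum_const, Finset.card_univ, nsmul_eq_mul,
        mul_one]
    · rw [if_neg hk, ← Finset.mul_sum, h2 k hk, mul_zero]
  rw [Finset.sum_congr rfl (fun k _ => h4 k), ← Finset.sum_filter, Finset.sum_const,
    nsmul_eq_mul] at h3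
  rcases mul_eq_zero.mp h3 with h5 | h5
  · have h6 : (Finset.univ.filter fun k : K => (k : G) ∈ L).card = 0 := by exact_mod_cast h5
    rw [Finset.card_eq_zero] at h6
    have h7 : (1 : K) ∈ Finset.univ.filter fun k : K => (k : G) ∈ L := by
      rw [Finset.mem_filter]
      exact ⟨Finset.mem_univ _, one_mem L⟩
    rw [h6] at h7
    exact absurd h7 (Finset.notMem_empty _)
  · have h6 : (Fintype.card K : ℂ) ≠ 0 := by exact_mod_cast Fintype.card_ne_zero
    exact h6 h5

end HT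

end Run7.h132
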