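import Mathlib
import Pool.Agent.Run7.h132.Sect3

/-!
# The complement of a fully ramified section, continued
-/

set_option autoImplicit false
set_option linter.unusedSectionVars false

namespace Run7.h132

open Pool.Agent.H541R3.ART Pool.Agent.W446.AS Pool.Agent.R389 Pool.Agent.Helper606_LC

/-- complements of noncentral abelian chief factors are maximal -/
lemma NC.compl_coatom {G : Type} [Group G] {L K U : Subgroup G} (h : NC L K)
    (hab : ∀ x ∈ K, ∀ y ∈ K, x * y * x⁻¹ * y⁻¹ ∈ L) (hLU : L ≤ U) (hKU : K ⊓ U ≤ L)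
    (hG : ∀ g : G, ∃ k ∈ K, ∃ u ∈ U, g = k * u) : IsCoatom U ∧ ¬ K ≤ U := by
  have hnot : ¬ K ≤ U := by
    intro h1
    obtain ⟨g, k, hk, hgk⟩ := h.nc
    apply hgk
    have h2 : K ≤ L := fun x hx => hKU ⟨hx, h1 hx⟩
    exact h2 (K.mul_mem (h.nK.conj_mem k hk g) (K.inv_mem hk))
  refine ⟨⟨fun h1 => hnot (by rw [h1]; exact le_top), fun X hX => ?_⟩, hnot⟩
  have hLX : L ≤ X := hLU.trans hX.le
  have hN : (K ⊓ X).Normal := ⟨fun n hn g => by
    obtain ⟨k, hk, u, hu, rfl⟩ := hG g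
    have h1 : u * n * u⁻¹ ∈ K ⊓ X :=
      ⟨h.nK.conj_mem n hn.1 u, X.mul_mem (X.mul_mem (hX.le hu) hn.2) (X.inv_mem (hX.le hu))⟩
    have h2 : k * u * n * (k * u)⁻¹
        = (k * (u * n * u⁻¹) * k⁻¹ * (u * n * u⁻¹)⁻¹) * (u * n * u⁻¹) := by group
    rw [h2]
    have h3 := hab k hk _ h1.1
    exact mul_mem ⟨h.le h3, hLX h3⟩ h1⟩
  rcases h.chief _ hN (le_inf h.le hLX) inf_le_left with h1 | h1
  · exfalso
    obtain ⟨x, hx, hxU⟩ := SetLike.exists_of_lt hX
    obtain ⟨k, hk, u, hu, rfl⟩ := hG x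
    apply hxU
    have h2 : k ∈ K ⊓ X := by
      refine ⟨hk, ?_⟩
      have h3 := X.mul_mem hx (X.inv_mem (hX.le hu))
      rwa [mul_inv_cancel_right] at h3
    rw [h1] at h2
    exact U.mul_mem (hLU h2) hu
  · rw [eq_top_iff]
    intro g _
    obtain ⟨k, hk, u, hu, rfl⟩ := hG g
    have h2 : k ∈ K ⊓ X := by rw [h1]; exact hk
    exact X.mul_mem h2.2 (hX.le hu)

variable {G : Type} [Group G] [Fintype G] {V : Type} [AddCommGroup V] [Module ℂ V]
  [FiniteDimensional ℂ V]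

/-- the stabilizer of the section -/
def UU (ρ : Representation ℂ G V) {K : Subgroup G} (hK : K.Normal) (t : K → Module.End ℂ V) :
    Subgroup G where
  carrier := {g | ∀ x y : K, (y : G) = g * x * g⁻¹ → ρ g * t x = t y * ρ g}
  mul_mem' := by
    intro g h hg hh x y hxy
    have h1 : h * x * h⁻¹ ∈ K := hK.conj_mem x x.2 h
    have h2 := hh x ⟨_, h1⟩ rfl
    have h3 := hg ⟨_, h1⟩ y (by rw [hxy]; simp only; group)
    rw [map_mul, mul_assoc, h2, ← mul_assoc, h3, mul_assoc]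
  one_mem' := by
    intro x y hxy
    have h1 : y = x := Subtype.ext (by rw [hxy]; group)
    rw [h1, map_one, one_mul, mul_one]
  inv_mem' := by
    intro g hg x y hxy
    have h1 := hg y x (by rw [hxy]; group)
    calc ρ g⁻¹ * t x = ρ g⁻¹ * (t x * ρ g) * ρ g⁻¹ := by
          rw [mul_assoc, mul_assoc, rep_mul_inv, mul_one]
      _ = _ := by rw [← h1, ← mul_assoc, rep_inv_mul, one_mul]

namespace HT

variable {ρ : Representation ℂ G V} {L K : Subgroup G} {t : K → Module.End ℂ V}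
    {β : K → K → ℂ} {p : ℕ} (h : HT ρ L K t β p)

include h

lemma uu_mem {g : G} : g ∈ UU ρ h.nc.nK t ↔
    ∀ x y : K, (y : G) = g * x * g⁻¹ → ρ g * t x = t y * ρ g := Iff.rfl

lemma le_uu : L ≤ UU ρ h.nc.nK t := by
  intro l hl
  rw [h.uu_mem]
  intro x y hxy
  have h1 : t y = t x := by
    apply h.cos
    rw [hxy]
    exact h.ab l (h.nc.le hl) x x.2
  rw [h1]
  exact ((h.sec x).1 l hl).symm

lemma uu_inf : K ⊓ UU ρ h.nc.nK t ≤ L := by
  rintro m ⟨hmK, hmU⟩
  apply h.nondeg ⟨m, hmK⟩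
  intro x
  have h1 : m * x * m⁻¹ ∈ K := h.nc.nK.conj_mem x x.2 m
  have h2 := hmU x ⟨_, h1⟩ rfl
  have h3 : t ⟨_, h1⟩ = t x := by
    apply h.cos
    exact h.ab m hmK x x.2
  have h4 := h.conjK ⟨m, hmK⟩ x
  rw [h3] at h2
  have h5 : ρ m * t x = β ⟨m, hmK⟩ x ^ 2 • (t x * ρ m) := h4
  rw [h2] at h5
  have h6 : t x * ρ m ≠ 0 := by
    intro h0
    have h7 : t x * ρ m * ρ m⁻¹ = 0 := by rw [h0, zero_mul]
    rw [mul_assoc, rep_mul_inv, mul_one] at h7
    exact h.t0 x h7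
  have h7 : (1 : ℂ) • (t x * ρ m) = β ⟨m, hmK⟩ x ^ 2 • (t x * ρ m) := by
    rw [one_smul]; exact h5
  have h8 := smul_left_injective ℂ h6 h7
  exact eq_one_of_sq h.hp h.odd (h.pb _ _) h8.symm

lemma uu_fac (g : G) : ∃ m ∈ K, ∃ u ∈ UU ρ h.nc.nK t, g = m * u := by
  classical
  have hnt := h.irr.1
  -- the conjugate elements
  let cg : K → K := fun x => ⟨g⁻¹ * x * g, by
    have := h.nc.nK.conj_mem x x.2 g⁻¹
    rwa [inv_inv] at this⟩
  have hcg : ∀ x, ((cg x : K) : G) = g⁻¹ * x * g := fun _ => rfl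
  have hcgm : ∀ x y, cg (x * y) = cg x * cg y := by
    intro x y
    apply Subtype.ext
    rw [hcg]
    push_cast
    rw [hcg, hcg]
    group
  choose z hz1 hz2 using fun x : K => h.conjG g (cg x) x (by rw [hcg]; group)
  have hz0 : ∀ x, z x ≠ 0 := by
    intro x h0
    have := hz1 x
    rw [h0, zero_pow h.hp.ne_zero] at this
    exact zero_ne_one this
  have key : ∀ x y, z x * z y * β x y = β (cg x) (cg y) * z (x * y) := by
    intro x y
    have h1 : (ρ g * t (cg x) * ρ g⁻¹) * (ρ g * t (cg y) * ρ g⁻¹)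
        = β (cg x) (cg y) • (ρ g * t (cg (x * y)) * ρ g⁻¹) := by
      calc (ρ g * t (cg x) * ρ g⁻¹) * (ρ g * t (cg y) * ρ g⁻¹)
          = ρ g * t (cg x) * (ρ g⁻¹ * ρ g) * t (cg y) * ρ g⁻¹ := by simp only [mul_assoc]
        _ = ρ g * (t (cg x) * t (cg y)) * ρ g⁻¹ := by
          rw [rep_inv_mul, mul_one]; simp only [mul_assoc]
        _ = _ := by rw [h.mul, ← hcgm, mul_smul_comm, smul_mul_assoc]
    rw [hz2, hz2, hz2, smul_mul_smul_comm, h.mul, smul_smul, smul_smul] at h1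
    exact smul_left_injective ℂ (h.t0 (x * y)) h1
  have hsw : ∀ x y, z (x * y) = z (y * x) := by
    intro x y
    have h1 := hz2 (x * y)
    rw [hcgm, h.swap, ← hcgm, h.swap x y, hz2] at h1
    exact (smul_left_injective ℂ (h.t0 (y * x)) h1).symm
  have hβ : ∀ x y, β x y = β (cg x) (cg y) := by
    intro x y
    have h1 := key x y
    have h2 := key y x
    rw [← hsw] at h2
    have h3 : (β x y * (β (cg x) (cg y))⁻¹) ^ 2 = 1 := by
      have hA := h.sk x y
      have hB := h.sk (cg x) (cg y)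
      have hb1 := h.b0 x y
      have hb2 := h.b0 (cg x) (cg y)
      have e1 : β y x = (β x y)⁻¹ := eq_inv_of_mul_eq_one_left (by rw [mul_comm]; exact hA)
      have e2 : β (cg y) (cg x) = (β (cg x) (cg y))⁻¹ :=
        eq_inv_of_mul_eq_one_left (by rw [mul_comm]; exact hB)
      rw [e1, e2] at h2
      have hzx := hz0 x
      have hzy := hz0 y
      have hzxy := hz0 (x * y)
      have h4 : z (x * y) = z x * z y * β x y * (β (cg x) (cg y))⁻¹ := by
        rw [h1]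
        field_simp
      rw [h4] at h2
      field_simp at h2 ⊢
      have h5 : β (cg x) (cg y) ^ 2 = β x y ^ 2 := h2
      rw [h5]
    have h4 := eq_one_of_sq h.hp h.odd (by
      rw [mul_pow, inv_pow, h.pb, h.pb, inv_one, mul_one]) h3
    exact (mul_inv_eq_one₀ (h.b0 _ _)).mp h4
  have hzmul : ∀ x y, z (x * y) = z x * z y := by
    intro x y
    have h1 := key x y
    rw [← hβ] at h1
    have h2 := mul_right_cancel₀ (h.b0 x y) (show z x * z y * β x y = z (x * y) * β x y by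
      rw [h1, mul_comm])
    exact h2.symm
  let Z : K →* ℂˣ :=
    { toFun := fun x => Units.mk0 (z x) (hz0 x)
      map_one' := by
        apply Units.ext
        have h1 := hzmul 1 1
        rw [mul_one] at h1
        exact (mul_eq_left₀ (hz0 1)).mp h1.symm
      map_mul' := by
        intro x y
        apply Units.ext
        exact hzmul x y }
  obtain ⟨m, hm⟩ := h.surj Z (by
    intro l hl
    apply Units.ext
    have h1 := hz2 l
    have h2 : ((cg l : K) : G) ∈ L := by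
      rw [hcg]
      have := h.nc.nL.conj_mem l hl g⁻¹
      rwa [inv_inv] at this
    rw [h.one l hl, h.one _ h2, mul_one, rep_mul_inv] at h1
    have h3 : (1 : ℂ) • (1 : Module.End ℂ V) = z l • 1 := by rw [one_smul]; exact h1
    exact (smul_left_injective ℂ one_ne_zero h3).symm)
  have hm' : ∀ x, z x = β m x ^ 2 := hm
  refine ⟨m, m.2, (m : G)⁻¹ * g, ?_, by group⟩
  rw [h.uu_mem]
  intro x y hxy
  -- `w = g x g⁻¹`
  let w : K := ⟨g * x * g⁻¹, h.nc.nK.conj_mem x x.2 g⟩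
  have hw : cg w = x := Subtype.ext (by rw [hcg]; simp only [w]; group)
  have hyw : t y = t w := by
    apply h.cos
    have h1 := h.ab (m : G)⁻¹ (K.inv_mem m.2) w w.2
    have h2 : (y : G) * (w : G)⁻¹ = (m : G)⁻¹ * w * (m : G)⁻¹⁻¹ * (w : G)⁻¹ := by
      rw [hxy]
      simp only [w]
      group
    rw [h2]
    exact h1
  have h1 := hz2 w
  rw [hw, hm'] at h1
  have h2 := h.conjK m w
  have h3 : ρ g * t x = β m w ^ 2 • (t w * ρ g) := by
    calc ρ g * t x = ρ g * t x * ρ g⁻¹ * ρ g := by rw [mul_assoc, rep_inv_mul, mul_one]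
      _ = _ := by rw [h1, smul_mul_assoc]
  rw [map_mul, mul_assoc, h3, hyw, mul_smul_comm, ← mul_assoc]
  have h4 : ρ (m : G)⁻¹ * t w = (β m w ^ 2)⁻¹ • (t w * ρ (m : G)⁻¹) := by
    have h5 : t w * ρ (m : G)⁻¹ = β m w ^ 2 • (ρ (m : G)⁻¹ * t w) := by
      calc t w * ρ (m : G)⁻¹ = ρ (m : G)⁻¹ * (ρ m * t w) * ρ (m : G)⁻¹ := by
            rw [← mul_assoc, rep_inv_mul, one_mul]
        _ = _ := by
            rw [h2, mul_smul_comm, smul_mul_assoc, mul_assoc, mul_assoc, rep_mul_inv, mul_one]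
    rw [h5, smul_smul, inv_mul_cancel₀ (pow_ne_zero _ (h.b0 m w)), one_smul]
  rw [h4, smul_mul_assoc, smul_smul, mul_inv_cancel₀ (pow_ne_zero _ (h.b0 m w)), one_smul,
    mul_assoc]

lemma uu_coatom : IsCoatom (UU ρ h.nc.nK t) ∧ ¬ K ≤ UU ρ h.nc.nK t :=
  h.nc.compl_coatom h.ab h.le_uu h.uu_inf h.uu_fac

lemma uu_norm : Subgroup.normalizer ((UU ρ h.nc.nK t : Subgroup G) : Set G) = UU ρ h.nc.nK t :=
  h.nc.selfnorm h.uu_coatom.1 h.le_uu h.uu_coatom.2

end HT

end Run7.h132
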