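import Mathlib
import Pool.Agent.Run7.h132.Sect4
import Pool.Agent.Run7.h132.Ext2

/-!
# The group generated by the section and its stabilizer
-/

set_option autoImplicit false
set_option linter.unusedSectionVars false

namespace Run7.h132

open Pool.Agent.H541R3.ART Pool.Agent.W446.AS Pool.Agent.R389 Pool.Agent.Helper606_LC

variable {G : Type} [Group G] [Fintype G] {V : Type} [AddCommGroup V] [Module ℂ V]
  [FiniteDimensional ℂ V]

/-- scalars as units -/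
noncomputable def sc (V : Type) [AddCommGroup V] [Module ℂ V] : ℂˣ →* (Module.End ℂ V)ˣ :=
  Units.map (algebraMap ℂ (Module.End ℂ V)).toMonoidHom

lemma sc_val (z : ℂˣ) : ((sc V z : (Module.End ℂ V)ˣ) : Module.End ℂ V) = (z : ℂ) • 1 :=
  Algebra.algebraMap_eq_smul_one (z : ℂ)

lemma sc_comm (z : ℂˣ) (x : (Module.End ℂ V)ˣ) : x * sc V z = sc V z * x := by
  apply Units.ext
  rw [Units.val_mul, Units.val_mul, sc_val, smul_mul_assoc, mul_smul_comm, one_mul, mul_one]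

/-- group elements as units -/
noncomputable def ru (ρ : Representation ℂ G V) : G →* (Module.End ℂ V)ˣ :=
  MonoidHom.toHomUnits ρ

lemma ru_val (ρ : Representation ℂ G V) (g : G) :
    ((ru ρ g : (Module.End ℂ V)ˣ) : Module.End ℂ V) = ρ g := rfl

namespace HT

variable {ρ : Representation ℂ G V} {L K : Subgroup G} {t : K → Module.End ℂ V}
    {β : K → K → ℂ} {p : ℕ} (h : HT ρ L K t β p)

/-- the section as units -/
def te (k : K) : (Module.End ℂ V)ˣ := ⟨t k, t k⁻¹, h.inv k, h.inv' k⟩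

/-- the cocycle as units -/
noncomputable def ub (k l : K) : ℂˣ := Units.mk0 (β k l) (h.b0 k l)

lemma te_val (k : K) : ((h.te k : (Module.End ℂ V)ˣ) : Module.End ℂ V) = t k := rfl

lemma te_mul (k l : K) : h.te k * h.te l = sc V (h.ub k l) * h.te (k * l) := by
  apply Units.ext
  rw [Units.val_mul, Units.val_mul, sc_val, te_val, te_val, te_val, h.mul, smul_mul_assoc, one_mul]
  rfl

lemma te_one : h.te 1 = 1 := Units.ext h.t1

lemma te_inv (k : K) : (h.te k)⁻¹ = h.te k⁻¹ := by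
  rw [inv_eq_iff_mul_eq_one]
  exact Units.ext (h.inv k)

lemma te_L (k : K) (hk : (k : G) ∈ L) : h.te k = 1 := Units.ext (h.one k hk)

lemma ub_pow (k l : K) : h.ub k l ^ p = 1 := Units.ext (by
  rw [Units.val_pow_eq_pow_val]
  exact h.pb k l)

lemma ru_te {u : G} (hu : u ∈ UU ρ h.nc.nK t) (x y : K) (hy : (y : G) = u * x * u⁻¹) :
    ru ρ u * h.te x = h.te y * ru ρ u := by
  apply Units.ext
  exact hu x y hy

/-- the group generated by the section and its stabilizer -/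
def Gam : Subgroup ((Module.End ℂ V)ˣ × G) where
  carrier := {x | x.2 ∈ UU ρ h.nc.nK t ∧
    ∃ (ζ : ℂˣ) (k : K), ζ ^ p = 1 ∧ x.1 = sc V ζ * h.te k * ru ρ x.2}
  mul_mem' := by
    rintro x y ⟨hx, ζ, k, hζ, hxe⟩ ⟨hy, η, l, hη, hye⟩
    refine ⟨mul_mem hx hy, ζ * η * h.ub k ⟨_, h.nc.nK.conj_mem l l.2 x.2⟩,
      k * ⟨_, h.nc.nK.conj_mem l l.2 x.2⟩, ?_, ?_⟩
    · rw [mul_pow, mul_pow, hζ, hη, h.ub_pow, one_mul, one_mul]
    · have h1 := h.ru_te hx l ⟨_, h.nc.nK.conj_mem l l.2 x.2⟩ rfl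
      change x.1 * y.1 = _ * ru ρ (x.2 * y.2)
      rw [hxe, hye, map_mul, map_mul, map_mul]
      calc sc V ζ * h.te k * ru ρ x.2 * (sc V η * h.te l * ru ρ y.2)
          = sc V ζ * h.te k * (ru ρ x.2 * sc V η) * h.te l * ru ρ y.2 := by
            simp only [mul_assoc]
        _ = sc V ζ * (h.te k * sc V η) * (ru ρ x.2 * h.te l) * ru ρ y.2 := by
            rw [sc_comm]; simp only [mul_assoc]
        _ = sc V ζ * sc V η * (h.te k * h.te ⟨_, h.nc.nK.conj_mem l l.2 x.2⟩) * ru ρ x.2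
            * ru ρ y.2 := by
            rw [sc_comm, h1]; simp only [mul_assoc]
        _ = _ := by rw [h.te_mul]; simp only [mul_assoc]
  one_mem' := ⟨one_mem _, 1, 1, one_pow _, by
    rw [map_one, h.te_one]
    change (1 : (Module.End ℂ V)ˣ) = 1 * 1 * ru ρ 1
    rw [map_one, one_mul, one_mul]⟩
  inv_mem' := by
    rintro x ⟨hx, ζ, k, hζ, hxe⟩
    refine ⟨inv_mem hx, ζ⁻¹, ⟨_, h.nc.nK.conj_mem _ (k⁻¹).2 (x.2)⁻¹⟩, ?_, ?_⟩
    · rw [inv_pow, hζ, inv_one]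
    · have h1 := h.ru_te (inv_mem hx) k⁻¹ ⟨_, h.nc.nK.conj_mem _ (k⁻¹).2 (x.2)⁻¹⟩ rfl
      change x.1⁻¹ = _ * ru ρ (x.2)⁻¹
      rw [hxe, mul_inv_rev, mul_inv_rev, h.te_inv, ← map_inv, ← map_inv, mul_assoc, ← h1,
        ← mul_assoc, sc_comm]

lemma gam_mem {x : (Module.End ℂ V)ˣ × G} : x ∈ h.Gam ↔ x.2 ∈ UU ρ h.nc.nK t ∧
    ∃ (ζ : ℂˣ) (k : K), ζ ^ p = 1 ∧ x.1 = sc V ζ * h.te k * ru ρ x.2 := Iff.rfl

lemma gam_mk {ζ : ℂˣ} (hζ : ζ ^ p = 1) (k : K) {u : G} (hu : u ∈ UU ρ h.nc.nK t) :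
    (sc V ζ * h.te k * ru ρ u, u) ∈ h.Gam := ⟨hu, ζ, k, hζ, rfl⟩

instance gam_finite : Finite h.Gam := by
  have hp : NeZero p := ⟨h.hp.ne_zero⟩
  let f : rootsOfUnity p ℂ × K × (UU ρ h.nc.nK t) → h.Gam := fun x =>
    ⟨_, h.gam_mk (ζ := x.1) x.1.2 x.2.1 x.2.2.2⟩
  apply Finite.of_surjective f
  rintro ⟨⟨a, u⟩, hu, ζ, k, hζ, ha⟩
  refine ⟨(⟨ζ, hζ⟩, k, ⟨u, hu⟩), ?_⟩
  apply Subtype.ext
  apply Prod.ext
  · exact ha.symm
  · rfl

/-- the projection -/
def qq : h.Gam →* UU ρ h.nc.nK t where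
  toFun x := ⟨x.1.2, x.2.1⟩
  map_one' := rfl
  map_mul' _ _ := rfl

/-- the complement -/
noncomputable def jj : UU ρ h.nc.nK t →* h.Gam where
  toFun u := ⟨(ru ρ u, u), by
    have h1 := h.gam_mk (ζ := 1) (one_pow p) 1 u.2
    rw [map_one, h.te_one, one_mul, one_mul] at h1
    exact h1⟩
  map_one' := by
    apply Subtype.ext
    apply Prod.ext
    · exact map_one (ru ρ)
    · rfl
  map_mul' a b := by
    apply Subtype.ext
    apply Prod.ext
    · exact map_mul (ru ρ) (a : G) (b : G)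
    · rfl

lemma qj (u : UU ρ h.nc.nK t) : h.qq (h.jj u) = u := rfl

/-- the representation on `V` -/
def RR : Representation ℂ h.Gam V :=
  (Units.coeHom (Module.End ℂ V)).comp ((MonoidHom.fst _ _).comp h.Gam.subtype)

lemma rr_apply (x : h.Gam) : h.RR x = (x.1.1 : Module.End ℂ V) := rfl

/-- scalars in the kernel -/
noncomputable def zz (ζ : ℂˣ) (hζ : ζ ^ p = 1) : h.qq.ker := ⟨⟨(sc V ζ, 1), by
    have h1 := h.gam_mk hζ 1 (one_mem (UU ρ h.nc.nK t))
    rw [map_one (ru ρ), h.te_one, mul_one, mul_one] at h1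
    exact h1⟩, by
  rw [MonoidHom.mem_ker]
  rfl⟩

/-- the section in the kernel -/
def xk (k : K) : h.qq.ker := ⟨⟨(h.te k, 1), by
    have h1 := h.gam_mk (ζ := 1) (one_pow p) k (one_mem (UU ρ h.nc.nK t))
    rw [map_one (ru ρ), map_one (sc V), one_mul, mul_one] at h1
    exact h1⟩, by
  rw [MonoidHom.mem_ker]
  rfl⟩

lemma xk_mul (k l : K) : h.xk k * h.xk l = h.zz (h.ub k l) (h.ub_pow k l) * h.xk (k * l) := by
  apply Subtype.ext
  apply Subtype.ext
  apply Prod.ext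
  · exact h.te_mul k l
  · change (1 : G) * 1 = 1 * 1
    rfl

lemma xk_L (k : K) (hk : (k : G) ∈ L) : h.xk k = 1 := by
  apply Subtype.ext
  apply Subtype.ext
  apply Prod.ext
  · exact h.te_L k hk
  · rfl

lemma xk_inv (k : K) : h.xk k * h.xk k⁻¹ = 1 := by
  apply Subtype.ext
  apply Subtype.ext
  apply Prod.ext
  · exact Units.ext (h.inv k)
  · exact (mul_one (1 : G) : _)

lemma zz_comm (ζ : ℂˣ) (hζ : ζ ^ p = 1) (e : h.qq.ker) : h.zz ζ hζ * e = e * h.zz ζ hζ := by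
  apply Subtype.ext
  apply Subtype.ext
  apply Prod.ext
  · exact (sc_comm ζ _).symm
  · change (1 : G) * e.1.1.2 = e.1.1.2 * 1
    rw [one_mul, mul_one]

lemma ker_form (e : h.qq.ker) : ∃ (ζ : ℂˣ) (hζ : ζ ^ p = 1) (k : K), e = h.zz ζ hζ * h.xk k := by
  obtain ⟨⟨⟨a, u⟩, hu, ζ, k, hζ, ha⟩, he⟩ := e
  have h1 : u = 1 := by
    rw [MonoidHom.mem_ker] at he
    exact congrArg Subtype.val he
  refine ⟨ζ, hζ, k, ?_⟩
  apply Subtype.ext
  apply Subtype.ext
  apply Prod.ext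
  · change a = sc V ζ * h.te k
    have h2 : a = sc V ζ * h.te k * ru ρ u := ha
    rw [h2, h1, map_one, mul_one]
  · change u = 1 * 1
    rw [h1, mul_one]

lemma xk_comm (k l : K) : h.xk k * h.xk l
    = h.zz (h.ub k l ^ 2) (by rw [← pow_mul, mul_comm, pow_mul, h.ub_pow, one_pow]) *
      (h.xk l * h.xk k) := by
  apply Subtype.ext
  apply Subtype.ext
  apply Prod.ext
  · change h.te k * h.te l = sc V (h.ub k l ^ 2) * (h.te l * h.te k)
    apply Units.ext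
    rw [Units.val_mul, Units.val_mul, Units.val_mul, sc_val, te_val, te_val, h.comm,
      smul_mul_assoc, one_mul, Units.val_pow_eq_pow_val]
    rfl
  · change (1 : G) * 1 = 1 * (1 * 1)
    simp

/-- representations with the right central character -/
lemma char_van {W : Type} [AddCommGroup W] [Module ℂ W] [FiniteDimensional ℂ W]
    {D : Representation ℂ h.qq.ker W} (hD : ∀ ζ (hζ : ζ ^ p = 1), D (h.zz ζ hζ) = (ζ : ℂ) • 1)
    (k : K) (hk : (k : G) ∉ L) : LinearMap.trace ℂ W (D (h.xk k)) = 0 := by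
  obtain ⟨l, hl⟩ := h.nondeg' k hk
  have h1 := congrArg D (h.xk_comm l k)
  rw [map_mul, map_mul, map_mul, hD, smul_mul_assoc, one_mul] at h1
  have h2 : D (h.xk l) * D (h.xk k) * D (h.xk l⁻¹) = (β l k ^ 2) • D (h.xk k) := by
    rw [h1, smul_mul_assoc, mul_assoc, ← map_mul, h.xk_inv, map_one, mul_one,
      Units.val_pow_eq_pow_val]
    rfl
  have h3 := congrArg (LinearMap.trace ℂ W) h2
  have h4 : D (h.xk l⁻¹) * D (h.xk l) = 1 := by
    rw [← map_mul]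
    have := h.xk_inv l⁻¹
    rw [inv_inv] at this
    rw [this, map_one]
  rw [LinearMap.trace_mul_comm, ← mul_assoc, h4, one_mul, map_smul, smul_eq_mul] at h3
  by_contra h0
  apply h.sq_ne l k hl
  have h5 : 1 * LinearMap.trace ℂ W (D (h.xk k)) = β l k ^ 2 * LinearMap.trace ℂ W (D (h.xk k)) := by
    rw [one_mul]; exact h3
  exact (mul_right_cancel₀ h0 h5).symm

lemma char_form {W : Type} [AddCommGroup W] [Module ℂ W] [FiniteDimensional ℂ W]
    {D : Representation ℂ h.qq.ker W} (hD : ∀ ζ (hζ : ζ ^ p = 1), D (h.zz ζ hζ) = (ζ : ℂ) • 1)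
    (ζ : ℂˣ) (hζ : ζ ^ p = 1) (k : K) : D.character (h.zz ζ hζ * h.xk k)
      = (ζ : ℂ) * LinearMap.trace ℂ W (D (h.xk k)) := by
  change LinearMap.trace ℂ W (D (h.zz ζ hζ * h.xk k)) = _
  rw [map_mul, hD, smul_mul_assoc, one_mul, map_smul, smul_eq_mul]

/-- the representation on `V` restricted to the kernel -/
lemma rr_zz (ζ : ℂˣ) (hζ : ζ ^ p = 1) : (h.RR.comp h.qq.ker.subtype) (h.zz ζ hζ)
    = (ζ : ℂ) • 1 := sc_val ζ

lemma rr_irred : Irred h.RR := by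
  refine ⟨h.irr.1, fun X hX => h.irr.2 X fun g v hv => ?_⟩
  have hU : ∀ u ∈ UU ρ h.nc.nK t, ∀ v ∈ X, ρ u v ∈ X := fun u hu v hv => hX (h.jj ⟨u, hu⟩) v hv
  have ht : ∀ (k : K), ∀ v ∈ X, t k v ∈ X := fun k v hv => hX (h.xk k) v hv
  have ha : ∀ a ∈ AA ρ L, ∀ v ∈ X, a v ∈ X := by
    intro a ha v hv
    induction ha using Submodule.span_induction with
    | mem x hx =>
      obtain ⟨l, rfl⟩ := hx
      exact hU l (h.le_uu l.2) v hv
    | zero => rw [LinearMap.zero_apply]; exact X.zero_mem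
    | add x y _ _ hx hy => rw [LinearMap.add_apply]; exact X.add_mem hx hy
    | smul c x _ hx => rw [LinearMap.smul_apply]; exact X.smul_mem c hx
  obtain ⟨m, hm, u, hu, rfl⟩ := h.uu_fac g
  obtain ⟨a, ha1, ha2⟩ := h.rho ⟨m, hm⟩
  have h1 : ρ m = a * t ⟨m, hm⟩ := ha2
  rw [map_mul, h1]
  exact ha a ha1 _ (ht _ _ (hU u hu v hv))

end HT

end Run7.h132
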