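import Mathlib
import Pool.Agent.Run7.h132.Gam

/-!
# The canonical extension for a fully ramified section
-/

set_option autoImplicit false
set_option linter.unusedSectionVars false

namespace Run7.h132

open Pool.Agent.H541R3.ART Pool.Agent.W446.AS Pool.Agent.R389 Pool.Agent.Helper606_LC

variable {G : Type} [Group G] [Fintype G] {V : Type} [AddCommGroup V] [Module ℂ V]
  [FiniteDimensional ℂ V]

namespace HT

variable {ρ : Representation ℂ G V} {L K : Subgroup G} {t : K → Module.End ℂ V}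
    {β : K → K → ℂ} {p : ℕ} (h : HT ρ L K t β p)

include h

lemma exists_D : ∃ (n : ℕ) (D : Representation ℂ h.qq.ker (Fin n → ℂ)), Irred D ∧
    ∀ ζ (hζ : ζ ^ p = 1), D (h.zz ζ hζ) = (ζ : ℂ) • 1 := by
  classical
  have : Fintype h.qq.ker := Fintype.ofFinite _
  let R₀ : Representation ℂ h.qq.ker V := h.RR.comp h.qq.ker.subtype
  have hτ : R₀.character ∈ Chr h.qq.ker := chr_of_rep R₀
  have hexp := class_expand (chr_class hτ) 1
  have h1 : R₀.character 1 ≠ 0 := by
    rw [R₀.char_one]
    exact finrank_ne h.irr.1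
  obtain ⟨η, hηF, hηne⟩ : ∃ η ∈ irrF h.qq.ker, pr R₀.character η ≠ 0 := by
    by_contra hcon
    push Not at hcon
    apply h1
    rw [hexp]
    exact Finset.sum_eq_zero fun θ hθ => by rw [hcon θ hθ, zero_mul]
  obtain ⟨n, D, hD, rfl⟩ := exists_rep (mem_irrF.mp hηF)
  refine ⟨n, D, hD, fun ζ hζ => ?_⟩
  set z := h.zz ζ hζ with hz
  obtain ⟨ε, hε⟩ := hD.scalar (D z) (fun g v => by
    have h2 : D z * D g = D g * D z := by rw [← map_mul, ← map_mul, hz, h.zz_comm]
    exact LinearMap.congr_fun h2 v)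
  have hDz : D z = ε • 1 := LinearMap.ext fun v => hε v
  have hε0 : ε ≠ 0 := by
    have hnt := hD.1
    rintro rfl
    have h2 := rep_mul_inv D z
    rw [hDz, zero_smul, zero_mul] at h2
    exact zero_ne_one h2
  have hR : ∀ e, R₀.character (z * e) = ζ * R₀.character e := by
    intro e
    change LinearMap.trace ℂ V (R₀ (z * e)) = _
    rw [map_mul, hz, h.rr_zz, smul_mul_assoc, one_mul, map_smul, smul_eq_mul]
    rfl
  have hDe : ∀ e, D.character (z * e)⁻¹ = ε⁻¹ * D.character e⁻¹ := by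
    intro e
    have h2 : D z⁻¹ = ε⁻¹ • 1 := by
      have h3 := rep_mul_inv D z
      rw [hDz, smul_mul_assoc, one_mul] at h3
      rw [← h3, smul_smul, inv_mul_cancel₀ hε0, one_smul]
    change LinearMap.trace ℂ _ (D (z * e)⁻¹) = _
    rw [mul_inv_rev, map_mul, h2, mul_smul_comm, mul_one, map_smul, smul_eq_mul]
    rfl
  have h2 : pr R₀.character D.character = (ζ * ε⁻¹) * pr R₀.character D.character := by
    conv_lhs => rw [pr_eq, ← Equiv.sum_comp (Equiv.mulLeft z)]
    rw [pr_eq, Finset.mul_sum, Finset.mul_sum, Finset.mul_sum]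
    refine Finset.sum_congr rfl fun e _ => ?_
    rw [Equiv.coe_mulLeft, hR, hDe]
    ring
  have h3 : (1 : ℂ) = ζ * ε⁻¹ := mul_right_cancel₀ hηne (by rw [one_mul]; exact h2)
  have h4 : ε = ζ := by
    rw [eq_comm, mul_inv_eq_one₀ hε0] at h3
    exact h3.symm
  rw [hDz, h4]

lemma xk_rep_inv {W : Type} [AddCommGroup W] [Module ℂ W]
    (D : Representation ℂ h.qq.ker W) (k : K) : D (h.xk k⁻¹) * D (h.xk k) = 1 := by
  have := h.xk_inv k⁻¹
  rw [inv_inv] at this
  rw [← map_mul, this, map_one]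

/-- the degree -/
lemma card_eq {W : Type} [AddCommGroup W] [Module ℂ W] [FiniteDimensional ℂ W]
    {D : Representation ℂ h.qq.ker W} (hDi : Irred D)
    (hD : ∀ ζ (hζ : ζ ^ p = 1), D (h.zz ζ hζ) = (ζ : ℂ) • 1) :
    (Nat.card L : ℂ) * (Module.finrank ℂ W) ^ 2 = Nat.card K := by
  classical
  have hn : (Module.finrank ℂ W : ℂ) ≠ 0 := finrank_ne hDi.1
  have key := inv_general (W := W) (fun k : K => D (h.xk k)) (fun k : K => D (h.xk k⁻¹)) (by
    intro z
    obtain ⟨c, hc⟩ := hDi.scalar (∑ k : K, D (h.xk k) * z * D (h.xk k⁻¹)) (by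
      intro g v
      have h1 : (∑ k : K, D (h.xk k) * z * D (h.xk k⁻¹)) * D g
          = D g * ∑ k : K, D (h.xk k) * z * D (h.xk k⁻¹) := by
        obtain ⟨ζ, hζ, l, rfl⟩ := h.ker_form g
        rw [map_mul, hD, smul_mul_assoc, one_mul, mul_smul_comm, smul_mul_assoc]
        congr 1
        rw [Finset.sum_mul, Finset.mul_sum, ← Equiv.sum_comp (Equiv.mulLeft l)]
        refine Finset.sum_congr rfl fun k _ => ?_
        rw [Equiv.coe_mulLeft]
        have h2 : D (h.xk (l * k)) = ((h.ub l k : ℂˣ) : ℂ)⁻¹ • (D (h.xk l) * D (h.xk k)) := by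
          rw [← map_mul, h.xk_mul, map_mul, hD, smul_mul_assoc, one_mul, smul_smul,
            inv_mul_cancel₀ (Units.ne_zero _), one_smul]
        have h3 : D (h.xk (l * k)⁻¹) * D (h.xk l) = ((h.ub l k : ℂˣ) : ℂ) • D (h.xk k⁻¹) := by
          have h4 : D (h.xk l) * D (h.xk k) = ((h.ub l k : ℂˣ) : ℂ) • D (h.xk (l * k)) := by
            rw [h2, smul_smul, mul_inv_cancel₀ (Units.ne_zero _), one_smul]
          have h5 : D (h.xk (l * k)⁻¹) * (D (h.xk l) * D (h.xk k))
              = ((h.ub l k : ℂˣ) : ℂ) • 1 := by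
            rw [h4, mul_smul_comm, h.xk_rep_inv]
          have h6 : D (h.xk k) * D (h.xk k⁻¹) = 1 := by
            have := h.xk_rep_inv D k⁻¹
            rwa [inv_inv] at this
          calc D (h.xk (l * k)⁻¹) * D (h.xk l)
              = D (h.xk (l * k)⁻¹) * (D (h.xk l) * D (h.xk k)) * D (h.xk k⁻¹) := by
                rw [mul_assoc, mul_assoc, h6, mul_one]
            _ = _ := by rw [h5, smul_mul_assoc, one_mul]
        rw [mul_assoc (D (h.xk (l * k)) * z), h3, h2, smul_mul_assoc, smul_mul_assoc,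
          mul_smul_comm, smul_smul, inv_mul_cancel₀ (Units.ne_zero _), one_smul]
        simp only [mul_assoc]
      exact LinearMap.congr_fun h1 v)
    exact ⟨c, LinearMap.ext fun v => by rw [hc v]; rfl⟩) (fun k => h.xk_rep_inv D k) hn 1
  have h1 : ∀ k : K, LinearMap.trace ℂ W (D (h.xk k⁻¹) * 1) • D (h.xk k)
      = if (k : G) ∈ L then (Module.finrank ℂ W : ℂ) • (1 : Module.End ℂ W) else 0 := by
    intro k
    rw [mul_one]
    by_cases hk : (k : G) ∈ L
    · have h2 : ((k⁻¹ : K) : G) ∈ L := L.inv_mem hk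
      rw [if_pos hk, h.xk_L k hk, h.xk_L _ h2, map_one, LinearMap.trace_one]
    · have h2 : ((k⁻¹ : K) : G) ∉ L := fun h3 => hk (by simpa using h3)
      rw [if_neg hk, h.char_van hD _ h2, zero_smul]
  rw [Finset.sum_congr rfl (fun k _ => h1 k), ← Finset.sum_filter, Finset.sum_const,
    ← Nat.cast_smul_eq_nsmul ℂ, smul_smul] at key
  have hnt := hDi.1
  have h2 := smul_left_injective ℂ (one_ne_zero (α := Module.End ℂ W)) key
  have h3 : (Finset.univ.filter fun k : K => (k : G) ∈ L).card = Nat.card L := by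
    rw [← Fintype.card_subtype, ← Nat.card_eq_fintype_card]
    exact Nat.card_congr (Subgroup.subgroupOfEquivOfLe h.nc.le).toEquiv
  rw [h3] at h2
  rw [Nat.card_eq_fintype_card (α := K)]
  field_simp at h2
  exact h2

/-- the data for the canonical extension -/
lemma xd [Fintype K] {W : Type} [AddCommGroup W] [Module ℂ W] [FiniteDimensional ℂ W]
    {D : Representation ℂ h.qq.ker W} (hDi : Irred D)
    (hD : ∀ ζ (hζ : ζ ^ p = 1), D (h.zz ζ hζ) = (ζ : ℂ) • 1) :
    XD h.qq h.jj D (((Nat.card L : ℂ) * Module.finrank ℂ W)⁻¹ • ∑ k : K, D (h.xk k)) K h.xk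
      ((Nat.card L : ℂ) * Module.finrank ℂ W)⁻¹ ∧
      ∀ e : h.qq.ker, D.character e
        = (Module.finrank ℂ W / Module.finrank ℂ V : ℂ) * h.RR.character e := by
  classical
  have hn : (Module.finrank ℂ W : ℂ) ≠ 0 := finrank_ne hDi.1
  have hnV : (Module.finrank ℂ V : ℂ) ≠ 0 := finrank_ne h.irr.1
  have hL0 : (Nat.card L : ℂ) ≠ 0 := by exact_mod_cast Nat.card_pos.ne'
  have hch : ∀ e : h.qq.ker, D.character e
        = (Module.finrank ℂ W / Module.finrank ℂ V : ℂ) * h.RR.character e := by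
    intro e
    obtain ⟨ζ, hζ, k, rfl⟩ := h.ker_form e
    have h1 := h.char_form (D := h.RR.comp h.qq.ker.subtype) (fun ζ hζ => h.rr_zz ζ hζ) ζ hζ k
    have h2 : h.RR.character ((h.zz ζ hζ * h.xk k : h.qq.ker) : h.Gam)
        = Representation.character (h.RR.comp h.qq.ker.subtype : Representation ℂ h.qq.ker V)
          (h.zz ζ hζ * h.xk k) := rfl
    rw [h2, h1, h.char_form hD]
    by_cases hk : (k : G) ∈ L
    · have e1 : D (h.xk k) = 1 := by rw [h.xk_L k hk, map_one]
      have e2 : (h.RR.comp h.qq.ker.subtype) (h.xk k) = 1 := by rw [h.xk_L k hk, map_one]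
      rw [e1, e2, LinearMap.trace_one, LinearMap.trace_one]
      field_simp
    · rw [h.char_van hD k hk, h.char_van (D := h.RR.comp h.qq.ker.subtype)
        (fun ζ hζ => h.rr_zz ζ hζ) k hk]
      ring
  refine ⟨⟨h.qj, hDi, ?_, ?_, ?_, rfl, ?_⟩, hch⟩
  · intro γ e f hf
    rw [hch, hch, hf, h.RR.char_conj]
  · rw [smul_mul_smul_comm, Finset.sum_mul_sum]
    have h1 : ∀ k : K, ∑ l : K, D (h.xk k) * D (h.xk l)
        = ∑ m : K, β k m • D (h.xk m) := by
      intro k
      rw [← Equiv.sum_comp (Equiv.mulLeft k⁻¹)]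
      refine Finset.sum_congr rfl fun m _ => ?_
      rw [Equiv.coe_mulLeft, ← map_mul, h.xk_mul, mul_inv_cancel_left, map_mul, hD,
        smul_mul_assoc, one_mul]
      congr 1
      change β k (k⁻¹ * m) = β k m
      have h2 : β k k⁻¹ = 1 := by
        have h3 := h.blr k k k⁻¹
        rw [mul_inv_cancel, h.b1', h.self, one_mul] at h3
        exact h3.symm
      rw [h.blr, h2, one_mul]
    rw [Finset.sum_congr rfl (fun k _ => h1 k), Finset.sum_comm]
    have h2 : ∀ m : K, ∑ k : K, β k m • D (h.xk m)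
        = if (m : G) ∈ L then (Fintype.card K : ℂ) • (1 : Module.End ℂ W) else 0 := by
      intro m
      rw [← Finset.sum_smul]
      by_cases hm : (m : G) ∈ L
      · rw [if_pos hm, h.xk_L m hm, map_one]
        congr 1
        rw [Finset.sum_congr rfl (fun k _ => h.bL k m hm), Finset.sum_const, Finset.card_univ,
          nsmul_eq_mul, mul_one]
      · rw [if_neg hm]
        let C : K →* ℂ :=
          { toFun := fun k => β k m
            map_one' := h.b1 m
            map_mul' := fun x y => h.bl x y m }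
        have h3 : ∑ k, C k = 0 := by
          apply sum_hom_units_eq_zero C
          intro hC
          obtain ⟨l, hl⟩ := h.nondeg' m hm
          exact hl (DFunLike.congr_fun hC l)
        change (∑ k, C k) • D (h.xk m) = 0
        rw [h3, zero_smul]
    rw [Finset.sum_congr rfl (fun m _ => h2 m), ← Finset.sum_filter, Finset.sum_const,
      ← Nat.cast_smul_eq_nsmul ℂ]
    have h3 : (Finset.univ.filter fun k : K => (k : G) ∈ L).card = Nat.card L := by
      rw [← Fintype.card_subtype, ← Nat.card_eq_fintype_card]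
      exact Nat.card_congr (Subgroup.subgroupOfEquivOfLe h.nc.le).toEquiv
    rw [h3, smul_smul, smul_smul, ← Nat.card_eq_fintype_card, ← h.card_eq hDi hD]
    have h4 : ((Nat.card L : ℂ) * Module.finrank ℂ W)⁻¹ * ((Nat.card L : ℂ) * Module.finrank ℂ W)⁻¹
        * Nat.card L * (Nat.card L * (Module.finrank ℂ W : ℂ) ^ 2) = 1 := by
      field_simp
    rw [h4, one_smul]
  · rw [map_smul, map_sum, smul_eq_mul]
    have h1 : ∀ k : K, LinearMap.trace ℂ W (D (h.xk k))
        = if (k : G) ∈ L then (Module.finrank ℂ W : ℂ) else 0 := by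
      intro k
      by_cases hk : (k : G) ∈ L
      · rw [if_pos hk, h.xk_L k hk, map_one, LinearMap.trace_one]
      · rw [if_neg hk, h.char_van hD k hk]
    rw [Finset.sum_congr rfl (fun k _ => h1 k), ← Finset.sum_filter, Finset.sum_const,
      nsmul_eq_mul]
    have h3 : (Finset.univ.filter fun k : K => (k : G) ∈ L).card = Nat.card L := by
      rw [← Fintype.card_subtype, ← Nat.card_eq_fintype_card]
      exact Nat.card_congr (Subgroup.subgroupOfEquivOfLe h.nc.le).toEquiv
    rw [h3]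
    field_simp
  · intro u
    have hKn : K.Normal := h.nc.nK
    refine ⟨(MulAut.conjNormal (H := K) (u : G)).toEquiv, fun k => ?_⟩
    have h1 : (((MulAut.conjNormal (H := K) (u : G)).toEquiv k : K) : G) = u * k * (u : G)⁻¹ :=
      MulAut.conjNormal_apply (u : G) k
    have h2 := h.ru_te u.2 k _ h1
    apply Subtype.ext
    apply Prod.ext
    · change h.te _ = ru ρ u * h.te k * (ru ρ u)⁻¹
      rw [h2, mul_inv_cancel_right]
    · change (1 : G) = u * 1 * (u : G)⁻¹
      rw [mul_one, mul_inv_cancel]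

end HT

end Run7.h132
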