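import Mathlib
import Pool.Agent.Run7.h132.Gam2

/-!
# Fully ramified chief factors of odd order
-/

set_option autoImplicit false
set_option linter.unusedSectionVars false

namespace Run7.h132

open Pool.Agent.H541R3.ART Pool.Agent.W446.AS Pool.Agent.R389 Pool.Agent.Helper606_LC

variable {G : Type} [Group G] [Fintype G] {V : Type} [AddCommGroup V] [Module ℂ V]
  [FiniteDimensional ℂ V]

/-- the action of an automorphism on the span of `K` -/
structure PsiD (ρ : Representation ℂ G V) (K : Subgroup G) (σ : ℂ ≃+* ℂ)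
    (Ψ : Module.End ℂ V → Module.End ℂ V) : Prop where
  add : ∀ a b, Ψ (a + b) = Ψ a + Ψ b
  smul : ∀ (z : ℂ) a, Ψ (z • a) = σ z • Ψ a
  fix : ∀ k ∈ K, Ψ (ρ k) = ρ k

lemma exists_psi {ρ : Representation ℂ G V} (hρ : Irred ρ) {K : Subgroup G} (hK : K.Normal)
    {c : ℂ} (hc : IrrOn K (fun g => c * ρ.character g)) (σ : ℂ ≃+* ℂ)
    (hσ : ∀ k ∈ K, σ (ρ.character k) = ρ.character k) : ∃ Ψ, PsiD ρ K σ Ψ := by
  classical
  obtain ⟨d, D, hD⟩ := hs_of_normal hρ hK hc
  set κ : ℂ := ((Module.finrank ℂ (Fin d → ℂ) : ℂ) / Fintype.card K) * c with hκ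
  have hpr : κ • ∑ y : K, ρ.character (y : G)⁻¹ • ρ y = 1 := by
    have h1 := hD.pr1
    rw [← h1, hκ, ← smul_smul, Finset.smul_sum (r := c)]
    congr 1
    refine Finset.sum_congr rfl fun y _ => ?_
    rw [smul_smul, hD.ch]
    rfl
  refine ⟨fun a => κ • ∑ y : K, σ (LinearMap.trace ℂ V (ρ (y : G)⁻¹ * a)) • ρ y, ?_, ?_, ?_⟩
  · intro a b
    rw [← smul_add, ← Finset.sum_add_distrib]
    congr 1
    refine Finset.sum_congr rfl fun y _ => ?_
    rw [mul_add, map_add, map_add, add_smul]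
  · intro z a
    rw [smul_comm, Finset.smul_sum (r := σ z)]
    congr 1
    refine Finset.sum_congr rfl fun y _ => ?_
    rw [mul_smul_comm, map_smul, smul_eq_mul, map_mul, smul_smul]
  · intro k hk
    have h1 : ∑ y : K, σ (LinearMap.trace ℂ V (ρ (y : G)⁻¹ * ρ k)) • ρ y
        = ρ k * ∑ y : K, ρ.character (y : G)⁻¹ • ρ y := by
      rw [← Equiv.sum_comp (Equiv.mulLeft (⟨k, hk⟩ : K)), Finset.mul_sum]
      refine Finset.sum_congr rfl fun y _ => ?_
      rw [Equiv.coe_mulLeft]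
      have h2 : ρ (((⟨k, hk⟩ : K) * y : K) : G)⁻¹ * ρ k = ρ (y : G)⁻¹ := by
        rw [← map_mul]
        congr 1
        push_cast
        group
      have h3 : ρ (((⟨k, hk⟩ : K) * y : K) : G) = ρ k * ρ y := by
        rw [← map_mul]
        rfl
      rw [h2, h3, mul_smul_comm]
      congr 1
      exact hσ _ (K.inv_mem y.2)
    change κ • ∑ y : K, σ (LinearMap.trace ℂ V (ρ (y : G)⁻¹ * ρ k)) • ρ y = ρ k
    rw [h1, ← mul_smul_comm, hpr, mul_one]

namespace PsiD

variable {ρ : Representation ℂ G V} {K : Subgroup G} {σ : ℂ ≃+* ℂ}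
  {Ψ : Module.End ℂ V → Module.End ℂ V} (hΨ : PsiD ρ K σ Ψ)

include hΨ

lemma zero : Ψ 0 = 0 := by
  have h1 := hΨ.smul 0 0
  rw [zero_smul, map_zero, zero_smul] at h1
  exact h1

lemma one : Ψ 1 = 1 := by
  have := hΨ.fix 1 (one_mem K)
  rwa [map_one] at this

lemma mul {a b : Module.End ℂ V} (ha : a ∈ AA ρ K) (hb : b ∈ AA ρ K) : Ψ (a * b) = Ψ a * Ψ b := by
  induction ha using Submodule.span_induction with
  | mem x hx =>
    obtain ⟨l, rfl⟩ := hx
    simp only
    induction hb using Submodule.span_induction with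
    | mem y hy =>
      obtain ⟨m, rfl⟩ := hy
      simp only
      rw [← map_mul, hΨ.fix _ (K.mul_mem l.2 m.2), hΨ.fix _ l.2, hΨ.fix _ m.2, map_mul]
    | zero => rw [mul_zero, hΨ.zero, mul_zero]
    | add x y _ _ hx hy => rw [mul_add, hΨ.add, hΨ.add, hx, hy, mul_add]
    | smul c x _ hx => rw [mul_smul_comm, hΨ.smul, hΨ.smul, hx, mul_smul_comm]
  | zero => rw [zero_mul, hΨ.zero, zero_mul]
  | add x y _ _ hx hy => rw [add_mul, hΨ.add, hΨ.add, hx, hy, add_mul]
  | smul c x _ hx => rw [smul_mul_assoc, hΨ.smul, hΨ.smul, hx, smul_mul_assoc]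

lemma conj (hK : K.Normal) {a : Module.End ℂ V} (ha : a ∈ AA ρ K) (g : G) :
    Ψ (ρ g * a * ρ g⁻¹) = ρ g * Ψ a * ρ g⁻¹ := by
  induction ha using Submodule.span_induction with
  | mem x hx =>
    obtain ⟨l, rfl⟩ := hx
    simp only
    rw [← map_mul, ← map_mul, hΨ.fix _ (hK.conj_mem l l.2 g), hΨ.fix _ l.2, map_mul, map_mul]
  | zero => rw [mul_zero, zero_mul, hΨ.zero, mul_zero, zero_mul]
  | add x y _ _ hx hy => rw [mul_add, add_mul, hΨ.add, hΨ.add, hx, hy, mul_add, add_mul]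
  | smul c x _ hx =>
    rw [mul_smul_comm, smul_mul_assoc, hΨ.smul, hΨ.smul, hx, mul_smul_comm, smul_mul_assoc]

lemma sub_mem {L : Subgroup G} (hL : L ≤ K) {a : Module.End ℂ V} (ha : a ∈ AA ρ L) :
    Ψ a ∈ AA ρ L := by
  induction ha using Submodule.span_induction with
  | mem x hx =>
    obtain ⟨l, rfl⟩ := hx
    simp only
    rw [hΨ.fix _ (hL l.2)]
    exact aa_mem ρ l.2
  | zero => rw [hΨ.zero]; exact Submodule.zero_mem _
  | add x y _ _ hx hy => rw [hΨ.add]; exact Submodule.add_mem _ hx hy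
  | smul c x _ hx => rw [hΨ.smul]; exact Submodule.smul_mem _ _ hx

/-- compatibility with traces -/
lemma tr {a : Module.End ℂ V} (ha : a ∈ AA ρ K) {x : Module.End ℂ V}
    (hx : ∀ k ∈ K, σ (LinearMap.trace ℂ V (ρ k * x)) = LinearMap.trace ℂ V (ρ k * x)) :
    σ (LinearMap.trace ℂ V (a * x)) = LinearMap.trace ℂ V (Ψ a * x) := by
  induction ha using Submodule.span_induction with
  | mem y hy =>
    obtain ⟨l, rfl⟩ := hy
    simp only
    rw [hΨ.fix _ l.2, hx l l.2]
  | zero => rw [hΨ.zero, zero_mul, map_zero, map_zero]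
  | add y z _ _ hy hz => rw [hΨ.add, add_mul, add_mul, map_add, map_add, map_add, hy, hz]
  | smul c y _ hy =>
    rw [hΨ.smul, smul_mul_assoc, smul_mul_assoc, LinearMap.map_smul, LinearMap.map_smul,
      smul_eq_mul, smul_eq_mul, map_mul, hy]

end PsiD

namespace HT

variable {ρ : Representation ℂ G V} {L K : Subgroup G} {t : K → Module.End ℂ V}
    {β : K → K → ℂ} {p : ℕ} (h : HT ρ L K t β p)

include h

lemma t_mem (k : K) : t k ∈ AA ρ K := by
  obtain ⟨-, a, ha, h3⟩ := h.sec k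
  rw [h3]
  exact aa_mul (aa_mono ρ h.nc.le ha) (aa_mem ρ k.2)

/-- the automorphism fixes the `p`-th roots of unity and the section -/
lemma psi_fix {σ : ℂ ≃+* ℂ} {Ψ : Module.End ℂ V → Module.End ℂ V} (hΨ : PsiD ρ K σ Ψ) :
    (∀ ζ : ℂ, ζ ^ p = 1 → σ ζ = ζ) ∧ ∀ k, Ψ (t k) = t k := by
  classical
  obtain ⟨cL, hcL⟩ := h.hL
  have hnt := h.irr.1
  have hsec : ∀ k : K, Sec ρ L k (Ψ (t k)) := by
    intro k
    obtain ⟨h1, a, ha, h2⟩ := h.sec k
    refine ⟨fun l hl => ?_, Ψ a, hΨ.sub_mem h.nc.le ha, ?_⟩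
    · have h3 : ρ l = Ψ (ρ l) := (hΨ.fix l (h.nc.le hl)).symm
      have h4 : ρ l ∈ AA ρ K := aa_mem ρ (h.nc.le hl)
      rw [h3, ← hΨ.mul (h.t_mem k) h4, ← hΨ.mul h4 (h.t_mem k), h1 l hl]
    · have h3 : Ψ (ρ k) = ρ k := hΨ.fix k k.2
      rw [h2, hΨ.mul (aa_mono ρ h.nc.le ha) (aa_mem ρ k.2), h3]
  choose lam hlam using fun k : K => (hsec k).prop h.irr h.nc.nL hcL (h.sec k) (h.t0 k)
  have hlam0 : ∀ k, lam k ≠ 0 := by
    intro k h0
    have h1 : Ψ (t k * t k⁻¹) = Ψ (t k) * Ψ (t k⁻¹) := hΨ.mul (h.t_mem k) (h.t_mem k⁻¹)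
    rw [h.inv, hΨ.one, hlam k, h0, zero_smul, zero_mul] at h1
    exact one_ne_zero h1
  have key : ∀ k l, lam k * lam l * β k l = σ (β k l) * lam (k * l) := by
    intro k l
    have h1 : Ψ (t k * t l) = Ψ (t k) * Ψ (t l) := hΨ.mul (h.t_mem k) (h.t_mem l)
    rw [h.mul, hΨ.smul, hlam, hlam k, hlam l, smul_mul_smul_comm, h.mul, smul_smul, smul_smul] at h1
    exact (smul_left_injective ℂ (h.t0 (k * l)) h1).symm
  have hsw : ∀ k l, lam (k * l) = lam (l * k) := by
    intro k l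
    have h1 := hlam (k * l)
    rw [h.swap k l, hlam (l * k)] at h1
    exact (smul_left_injective ℂ (h.t0 (l * k)) h1).symm
  have hσβ : ∀ k l, σ (β k l) = β k l := by
    intro k l
    have h1 := key k l
    have h2 := key l k
    have e1 : β l k = (β k l)⁻¹ := eq_inv_of_mul_eq_one_left (by rw [mul_comm]; exact h.sk k l)
    rw [e1, map_inv₀, ← hsw] at h2
    have hb := h.b0 k l
    have hsb : σ (β k l) ≠ 0 := by
      intro h0
      exact hb (by rw [← map_zero σ] at h0; exact σ.injective h0)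
    have hk := hlam0 k
    have hl := hlam0 l
    have hkl := hlam0 (k * l)
    have h3 : (σ (β k l) * (β k l)⁻¹) ^ 2 = 1 := by
      have h4 : lam (k * l) = lam k * lam l * β k l * (σ (β k l))⁻¹ := by
        rw [h1]
        field_simp
      rw [h4] at h2
      field_simp at h2 ⊢
      exact h2
    have h4 := eq_one_of_sq h.hp h.odd (by
      rw [mul_pow, inv_pow, ← map_pow, h.pb, map_one, inv_one, mul_one]) h3
    exact (mul_inv_eq_one₀ hb).mp h4
  have hroot : ∀ ζ : ℂ, ζ ^ p = 1 → σ ζ = ζ := by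
    intro ζ hζ
    obtain ⟨g, k, hk, hgk⟩ := h.nc.nc
    have hkL : k ∉ L := by
      intro hkL
      apply hgk
      exact L.mul_mem (h.nc.nL.conj_mem k hkL g) (L.inv_mem hkL)
    obtain ⟨l, hl⟩ := h.nondeg' ⟨k, hk⟩ hkL
    have hprim : IsPrimitiveRoot (β l ⟨k, hk⟩) p := by
      have h1 : orderOf (β l ⟨k, hk⟩) ∣ p := orderOf_dvd_of_pow_eq_one (h.pb _ _)
      rcases (Nat.dvd_prime h.hp).mp h1 with h2 | h2
      · exact absurd (orderOf_eq_one_iff.mp h2) hl
      · rw [← h2]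
        exact IsPrimitiveRoot.orderOf _
    have hp0 : NeZero p := ⟨h.hp.ne_zero⟩
    obtain ⟨i, -, hi⟩ := hprim.eq_pow_of_pow_eq_one hζ
    rw [← hi, map_pow, hσβ]
  refine ⟨hroot, ?_⟩
  have hmul : ∀ k l, lam (k * l) = lam k * lam l := by
    intro k l
    have h1 := key k l
    rw [hσβ] at h1
    exact (mul_right_cancel₀ (h.b0 k l) (show lam k * lam l * β k l = lam (k * l) * β k l by
      rw [h1, mul_comm])).symm
  have hone : lam 1 = 1 := by
    have h1 := hmul 1 1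
    rw [mul_one] at h1
    exact (mul_eq_left₀ (hlam0 1)).mp h1.symm
  let Lam : K →* ℂˣ :=
    { toFun := fun x => Units.mk0 (lam x) (hlam0 x)
      map_one' := Units.ext hone
      map_mul' := fun x y => Units.ext (hmul x y) }
  have h1 : Lam = 1 := by
    apply h.nc.lin
    · intro l hl
      apply Units.ext
      have h2 := hlam l
      rw [h.one l hl, hΨ.one] at h2
      have h3 : (1 : ℂ) • (1 : Module.End ℂ V) = lam l • 1 := by rw [one_smul]; exact h2
      exact (smul_left_injective ℂ one_ne_zero h3).symm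
    · intro g k hk
      apply Units.ext
      change lam ⟨g * k * g⁻¹, hk⟩ = lam k
      obtain ⟨z, hz, hz2⟩ := h.conjG g k ⟨g * k * g⁻¹, hk⟩ rfl
      have h2 := hΨ.conj h.nc.nK (h.t_mem k) g
      rw [hz2, hΨ.smul, hlam, hlam k, hroot z hz, smul_smul, mul_smul_comm, smul_mul_assoc, hz2,
        smul_smul] at h2
      have h3 := smul_left_injective ℂ (h.t0 _) h2
      have hz0 : z ≠ 0 := by
        rintro rfl
        rw [zero_pow h.hp.ne_zero] at hz
        exact zero_ne_one hz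
      exact mul_left_cancel₀ hz0 (by rw [h3, mul_comm])
  intro k
  have h2 := DFunLike.congr_fun h1 k
  have h3 : lam k = 1 := congrArg Units.val h2
  rw [hlam, h3, one_smul]

end HT

end Run7.h132
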