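import Mathlib
import Pool.Agent.Run7.h132.WB
import Pool.Agent.Run7.h132.TI2

/-!
# Fully ramified chief factors of odd order, continued
-/

set_option autoImplicit false
set_option linter.unusedSectionVars false

namespace Run7.h132

open Pool.Agent.H541R3.ART Pool.Agent.W446.AS Pool.Agent.R389 Pool.Agent.Helper606_LC

variable {G : Type} [Group G] [Fintype G] {V : Type} [AddCommGroup V] [Module ℂ V]
  [FiniteDimensional ℂ V]

namespace HT

variable {ρ : Representation ℂ G V} {L K : Subgroup G} {t : K → Module.End ℂ V}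
    {β : K → K → ℂ} {p : ℕ} (h : HT ρ L K t β p)

include h

/-- values of the character of the large group -/
lemma rr_char (γ : h.Gam) : ∃ (ζ : ℂ) (m : K), ζ ^ p = 1 ∧
    h.RR.character γ = ζ * LinearMap.trace ℂ V (t m * ρ γ.1.2) := by
  obtain ⟨⟨a, u⟩, hu, ζ, m, hζ, ha⟩ := γ
  refine ⟨ζ, m, ?_, ?_⟩
  · rw [← Units.val_pow_eq_pow_val, hζ, Units.val_one]
  · have h1 : a = sc V ζ * h.te m * ru ρ u := ha
    have h2 : (a : Module.End ℂ V) = (ζ : ℂ) • (t m * ρ u) := by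
      rw [h1, Units.val_mul, Units.val_mul, sc_val, smul_mul_assoc, smul_mul_assoc, one_mul]
      rfl
    change LinearMap.trace ℂ V (a : Module.End ℂ V) = _
    rw [h2, map_smul, smul_eq_mul]

/-- values on the kernel -/
lemma rr_ker (e : h.qq.ker) {σ : ℂ ≃+* ℂ} (hroot : ∀ ζ : ℂ, ζ ^ p = 1 → σ ζ = ζ) :
    σ (h.RR.character e) = h.RR.character e := by
  obtain ⟨ζ, hζ, k, rfl⟩ := h.ker_form e
  have h1 := h.char_form (D := h.RR.comp h.qq.ker.subtype) (fun ζ hζ => h.rr_zz ζ hζ) ζ hζ k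
  have h2 : h.RR.character ((h.zz ζ hζ * h.xk k : h.qq.ker) : h.Gam)
      = Representation.character (h.RR.comp h.qq.ker.subtype : Representation ℂ h.qq.ker V)
        (h.zz ζ hζ * h.xk k) := rfl
  rw [h2, h1, map_mul]
  have h3 : σ (ζ : ℂ) = ζ := hroot _ (by rw [← Units.val_pow_eq_pow_val, hζ, Units.val_one])
  rw [h3]
  congr 1
  by_cases hk : (k : G) ∈ L
  · have e2 : (h.RR.comp h.qq.ker.subtype) (h.xk k) = 1 := by rw [h.xk_L k hk, map_one]
    rw [e2, LinearMap.trace_one, map_natCast]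
  · rw [h.char_van (D := h.RR.comp h.qq.ker.subtype) (fun ζ hζ => h.rr_zz ζ hζ) k hk, map_zero]

/-- elements of `L` centralize the kernel -/
lemma jj_L {l : G} (hl : l ∈ L) (e : h.qq.ker) :
    h.jj ⟨l, h.le_uu hl⟩ * e * (h.jj ⟨l, h.le_uu hl⟩)⁻¹ = e := by
  obtain ⟨ζ, hζ, k, rfl⟩ := h.ker_form e
  rw [mul_inv_eq_iff_eq_mul]
  apply Subtype.ext
  apply Prod.ext
  · apply Units.ext
    change ρ l * ((sc V ζ * h.te k : (Module.End ℂ V)ˣ) : Module.End ℂ V)
      = ((sc V ζ * h.te k : (Module.End ℂ V)ˣ) : Module.End ℂ V) * ρ l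
    rw [Units.val_mul, sc_val, smul_mul_assoc, one_mul, mul_smul_comm, smul_mul_assoc]
    congr 1
    exact ((h.sec k).1 l hl).symm
  · change l * (1 * 1) = 1 * 1 * l
    simp

/-- **Fully ramified chief factors.** -/
theorem mch : Mch ρ.character := by
  classical
  obtain ⟨n, D, hDi, hDz⟩ := h.exists_D
  obtain ⟨hXD, hch⟩ := h.xd hDi hDz
  obtain ⟨Ω, hΩ, hNI⟩ := hXD.exists_ext
  obtain ⟨ξ, hξ, hRξ, hquot⟩ := exists_quot hXD hΩ h.rr_irred hch
  have hχ := irr_of_irred h.irr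
  obtain ⟨cK, hcK⟩ := h.hK
  set N := Nat.card G * Nat.card h.Gam with hNdef
  have hN : 0 < N := Nat.mul_pos Nat.card_pos Nat.card_pos
  have hG : Nat.card G ∣ N := Dvd.intro _ rfl
  have hΓ : Nat.card h.Gam ∣ N := Dvd.intro_left _ rfl
  have hU : Nat.card (UU ρ h.nc.nK t) ∣ N := (Subgroup.card_subgroup_dvd_card _).trans hG
  have hΩD : ∀ e : h.qq.ker, Ω.character e = D.character e := by
    intro e
    change LinearMap.trace ℂ _ (Ω e) = LinearMap.trace ℂ _ (D e)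
    rw [hΩ]
  have hΩfix : ∀ (k : (ZMod N)ˣ) (σ : ℂ ≃+* ℂ),
      (∀ z : ℂ, z ^ N = 1 → σ z = z ^ (k : ZMod N).val) → (∀ ζ : ℂ, ζ ^ p = 1 → σ ζ = ζ) →
      pw k Ω.character = Ω.character := by
    intro k σ hσ hroot
    apply gal_fix hXD hΩ hNI hN hΓ hU k
    · intro τ
      rw [map_inv₀, map_mul, map_natCast, map_natCast]
    · intro e
      have h1 := hΩD (e ^ (k : ZMod N).val)
      rw [hch] at h1
      have h2 := hΩD e
      rw [hch] at h2
      rw [SubmonoidClass.coe_pow] at h1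
      rw [h1, h2, ← char_pow h.RR hN hσ (pow_card_dvd hΓ _), h.rr_ker e hroot]
  have main : ∀ k : (ZMod N)ˣ, pw k ρ.character = ρ.character ↔ pw k ξ = ξ := by
    intro k
    obtain ⟨σ, hσ⟩ := exists_aut_pow hN k
    constructor
    · intro hk
      have hχσ : ∀ g, σ (ρ.character g) = ρ.character g := fun g => by
        rw [char_pow ρ hN hσ (pow_card_dvd hG g)]
        exact congrFun hk g
      obtain ⟨Ψ, hΨ⟩ := exists_psi h.irr h.nc.nK hcK σ (fun k _ => hχσ k)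
      obtain ⟨hroot, ht⟩ := h.psi_fix hΨ
      apply hquot hN hΓ k (hΩfix k σ hσ hroot)
      funext γ
      change h.RR.character (γ ^ (k : ZMod N).val) = _
      rw [← char_pow h.RR hN hσ (pow_card_dvd hΓ γ)]
      obtain ⟨ζ, m, hζ, hγ⟩ := h.rr_char γ
      rw [hγ, map_mul, hroot ζ hζ, hΨ.tr (h.t_mem m) (x := ρ γ.1.2) (fun k _ => by
        rw [← map_mul]
        exact hχσ _), ht]
    · intro hk
      have hξσ : ∀ u, σ (ξ u) = ξ u := fun u => by
        rw [irr_pow hN hσ hξ (pow_card_dvd hU u)]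
        exact congrFun hk u
      have hL : ∀ l ∈ L, σ (ρ.character l) = ρ.character l := by
        intro l hl
        have h1 := hRξ (h.jj ⟨l, h.le_uu hl⟩)
        have h2 : h.RR.character (h.jj ⟨l, h.le_uu hl⟩) = ρ.character l := rfl
        have h3 : Ω (h.jj ⟨l, h.le_uu hl⟩) = 1 :=
          ext_triv hXD hNI (fun e => h.jj_L hl e)
        have h4 : Ω.character (h.jj ⟨l, h.le_uu hl⟩) = (Module.finrank ℂ (Fin n → ℂ) : ℂ) := by
          change LinearMap.trace ℂ _ (Ω (h.jj ⟨l, h.le_uu hl⟩)) = _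
          rw [h3, LinearMap.trace_one]
        rw [h2, h4, h.qj] at h1
        rw [h1, map_mul, map_natCast, hξσ]
      have hK : ∀ k ∈ K, σ (ρ.character k) = ρ.character k := by
        intro k hk
        by_cases hkL : k ∈ L
        · exact hL k hkL
        · rw [h.van k hk hkL, map_zero]
      obtain ⟨Ψ, hΨ⟩ := exists_psi h.irr h.nc.nK hcK σ hK
      obtain ⟨hroot, ht⟩ := h.psi_fix hΨ
      have hΩk := hΩfix k σ hσ hroot
      have hRσ : ∀ γ, σ (h.RR.character γ) = h.RR.character γ := by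
        intro γ
        rw [char_pow h.RR hN hσ (pow_card_dvd hΓ γ), hRξ, hRξ γ]
        congr 1
        · exact congrFun hΩk γ
        · rw [map_pow]
          exact congrFun hk (h.qq γ)
      funext g
      change ρ.character (g ^ (k : ZMod N).val) = _
      rw [← char_pow ρ hN hσ (pow_card_dvd hG g)]
      obtain ⟨m, hm, u, hu, rfl⟩ := h.uu_fac g
      obtain ⟨a, ha1, ha2⟩ := h.rho ⟨m, hm⟩
      have ha3 : ρ m = a * t ⟨m, hm⟩ := ha2
      have hval : ∀ l ∈ L, σ (LinearMap.trace ℂ V (ρ l * (t ⟨m, hm⟩ * ρ u)))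
          = LinearMap.trace ℂ V (ρ l * (t ⟨m, hm⟩ * ρ u)) := by
        intro l hl
        have h1 : ρ l * (t ⟨m, hm⟩ * ρ u) = t ⟨m, hm⟩ * ρ (l * u) := by
          rw [← mul_assoc, ← (h.sec ⟨m, hm⟩).1 l hl, mul_assoc, ← map_mul]
        have hlu : l * u ∈ UU ρ h.nc.nK t := mul_mem (h.le_uu hl) hu
        have h2 := hRσ ⟨_, h.gam_mk (ζ := 1) (one_pow p) ⟨m, hm⟩ hlu⟩
        have h3 : h.RR.character ⟨_, h.gam_mk (ζ := 1) (one_pow p) ⟨m, hm⟩ hlu⟩
            = LinearMap.trace ℂ V (t ⟨m, hm⟩ * ρ (l * u)) := by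
          change LinearMap.trace ℂ V ((sc V 1 * h.te ⟨m, hm⟩ * ru ρ (l * u) :
            (Module.End ℂ V)ˣ) : Module.End ℂ V) = _
          rw [map_one (sc V), one_mul, Units.val_mul]
          rfl
        rw [h1, ← h3]
        exact h2
      have h1 : σ (LinearMap.trace ℂ V (a * (t ⟨m, hm⟩ * ρ u)))
          = LinearMap.trace ℂ V (Ψ a * (t ⟨m, hm⟩ * ρ u)) := by
        have hΨL : PsiD ρ L σ Ψ := ⟨hΨ.add, hΨ.smul, fun k hk => hΨ.fix k (h.nc.le hk)⟩
        exact hΨL.tr ha1 hval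
      have h2 : Ψ a * t ⟨m, hm⟩ = ρ m := by
        have h3 : Ψ (a * t ⟨m, hm⟩) = Ψ a * Ψ (t ⟨m, hm⟩) :=
          hΨ.mul (aa_mono ρ h.nc.le ha1) (h.t_mem _)
        rw [ht, ← ha3, hΨ.fix m hm] at h3
        exact h3.symm
      change σ (LinearMap.trace ℂ V (ρ (m * u))) = LinearMap.trace ℂ V (ρ (m * u))
      rw [map_mul]
      conv_lhs => rw [ha3, mul_assoc, h1, ← mul_assoc, h2]
  refine ⟨UU ρ h.nc.nK t, h.uu_coatom.1.1, h.uu_norm, ξ, hξ, ?_⟩
  exact pw_change hN hG hU hχ hξ main Nat.card_pos dvd_rfl (Subgroup.card_subgroup_dvd_card _)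

end HT

end Run7.h132
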