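import Mathlib
import Pool.Agent.Run7.h132.WB2

/-!
# Chief factors of odd order
-/

set_option autoImplicit false
set_option linter.unusedSectionVars false

namespace Run7.h132

open Pool.Agent.H541R3.ART Pool.Agent.W446.AS Pool.Agent.R389 Pool.Agent.Helper606_LC

section group

variable {G : Type} [Group G] {L K : Subgroup G}

/-- chief factors of prime power order are elementary abelian -/
lemma NC.pgroup [Finite G] (h : NC L K) {p : ℕ} (hp : p.Prime)
    (hcard : ∃ a, L.relIndex K = p ^ a) :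
    (∀ x ∈ K, ∀ y ∈ K, x * y * x⁻¹ * y⁻¹ ∈ L) ∧ ∀ x ∈ K, x ^ p ∈ L := by
  classical
  have hfact : Fact p.Prime := ⟨hp⟩
  have hLn := h.nL
  have hLKn : (L.subgroupOf K).Normal := h.nL.subgroupOf K
  let Q := K ⧸ L.subgroupOf K
  let π : K →* Q := QuotientGroup.mk' (L.subgroupOf K)
  have hπ : ∀ k : K, π k = 1 ↔ (k : G) ∈ L := fun k => by
    change ((k : K) : K ⧸ L.subgroupOf K) = 1 ↔ _
    rw [QuotientGroup.eq_one_iff]
    exact Subgroup.mem_subgroupOf
  have hπs : Function.Surjective π := QuotientGroup.mk'_surjective _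
  obtain ⟨a, ha⟩ := hcard
  have hQp : IsPGroup p Q := by
    apply IsPGroup.of_card (n := a)
    rw [← ha]
    rfl
  have hne : ∃ k : K, (k : G) ∉ L := by
    obtain ⟨g, k, hk, hgk⟩ := h.nc
    exact ⟨⟨k, hk⟩, fun hkL => hgk (L.mul_mem (h.nL.conj_mem k hkL g) (L.inv_mem hkL))⟩
  have hnt : Nontrivial Q := by
    obtain ⟨k, hk⟩ := hne
    exact ⟨π k, 1, fun h1 => hk ((hπ k).mp h1)⟩
  -- the centre
  have hab : ∀ x ∈ K, ∀ y ∈ K, x * y * x⁻¹ * y⁻¹ ∈ L := by
    let N : Subgroup G :=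
      { carrier := {x | x ∈ K ∧ ∀ y ∈ K, x * y * x⁻¹ * y⁻¹ ∈ L}
        mul_mem' := by
          rintro x x' ⟨hx, hx2⟩ ⟨hx', hx2'⟩
          refine ⟨K.mul_mem hx hx', fun y hy => ?_⟩
          have h1 := h.nL.conj_mem _ (hx2' y hy) x
          have h2 : x * x' * y * (x * x')⁻¹ * y⁻¹
              = (x * (x' * y * x'⁻¹ * y⁻¹) * x⁻¹) * (x * y * x⁻¹ * y⁻¹) := by group
          rw [h2]
          exact L.mul_mem h1 (hx2 y hy)
        one_mem' := ⟨K.one_mem, fun y _ => by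
          have : (1 : G) * y * 1⁻¹ * y⁻¹ = 1 := by group
          rw [this]; exact L.one_mem⟩
        inv_mem' := by
          rintro x ⟨hx, hx2⟩
          refine ⟨K.inv_mem hx, fun y hy => ?_⟩
          have h1 := h.nL.conj_mem _ (L.inv_mem (hx2 y hy)) x⁻¹
          have h2 : x⁻¹ * (x * y * x⁻¹ * y⁻¹)⁻¹ * x⁻¹⁻¹ = x⁻¹ * y * x⁻¹⁻¹ * y⁻¹ := by group
          rwa [h2] at h1 }
    have hNn : N.Normal := ⟨fun n hn g => by
      refine ⟨h.nK.conj_mem n hn.1 g, fun y hy => ?_⟩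
      have h1 : g⁻¹ * y * g ∈ K := by
        have := h.nK.conj_mem y hy g⁻¹
        rwa [inv_inv] at this
      have h2 := h.nL.conj_mem _ (hn.2 _ h1) g
      have h3 : g * (n * (g⁻¹ * y * g) * n⁻¹ * (g⁻¹ * y * g)⁻¹) * g⁻¹
          = g * n * g⁻¹ * y * (g * n * g⁻¹)⁻¹ * y⁻¹ := by group
      rwa [h3] at h2⟩
    have hLN : L ≤ N := fun l hl => ⟨h.le hl, fun y hy => by
      have h1 := h.nL.conj_mem _ (L.inv_mem hl) y
      have h2 := L.mul_mem hl h1
      have h3 : l * (y * l⁻¹ * y⁻¹) = l * y * l⁻¹ * y⁻¹ := by group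
      rwa [h3] at h2⟩
    rcases h.chief N hNn hLN (fun x hx => hx.1) with h1 | h1
    · exfalso
      have hcent := hQp.center_nontrivial
      obtain ⟨z, hz⟩ := exists_ne (1 : Subgroup.center Q)
      obtain ⟨k, hk⟩ := hπs (z : Q)
      apply hz
      apply Subtype.ext
      rw [← hk]
      apply (hπ k).mpr
      rw [← h1]
      refine ⟨k.2, fun y hy => ?_⟩
      have h2 : π (k * ⟨y, hy⟩ * k⁻¹ * (⟨y, hy⟩ : K)⁻¹) = 1 := by
        rw [map_mul, map_mul, map_mul, map_inv, map_inv, hk,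
          (Subgroup.mem_center_iff.mp z.2 (π ⟨y, hy⟩)).symm]
        group
      exact (hπ _).mp h2
    · intro x hx
      rw [← h1] at hx
      exact hx.2
  refine ⟨hab, ?_⟩
  have hcomm : ∀ a b : Q, a * b = b * a := by
    intro a b
    obtain ⟨x, rfl⟩ := hπs a
    obtain ⟨y, rfl⟩ := hπs b
    have h1 := (hπ (x * y * x⁻¹ * y⁻¹)).mpr (hab x x.2 y y.2)
    rw [map_mul, map_mul, map_mul, map_inv, map_inv, mul_inv_eq_one, mul_inv_eq_iff_eq_mul] at h1
    exact h1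
  let N : Subgroup G :=
    { carrier := {x | x ∈ K ∧ x ^ p ∈ L}
      mul_mem' := by
        rintro x y ⟨hx, hx2⟩ ⟨hy, hy2⟩
        refine ⟨K.mul_mem hx hy, ?_⟩
        have h1 : π ((⟨x, hx⟩ * ⟨y, hy⟩) ^ p) = 1 := by
          rw [map_pow, map_mul, (show Commute (π ⟨x, hx⟩) (π ⟨y, hy⟩) from hcomm _ _).mul_pow,
            ← map_pow, ← map_pow, (hπ (⟨x, hx⟩ ^ p)).mpr hx2, (hπ (⟨y, hy⟩ ^ p)).mpr hy2, one_mul]
        exact (hπ _).mp h1
      one_mem' := ⟨K.one_mem, by rw [one_pow]; exact L.one_mem⟩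
      inv_mem' := by
        rintro x ⟨hx, hx2⟩
        exact ⟨K.inv_mem hx, by rw [inv_pow]; exact L.inv_mem hx2⟩ }
  have hNn : N.Normal := ⟨fun n hn g => by
    refine ⟨h.nK.conj_mem n hn.1 g, ?_⟩
    rw [conj_pow]
    exact h.nL.conj_mem _ hn.2 g⟩
  have hLN : L ≤ N := fun l hl => ⟨h.le hl, L.pow_mem hl p⟩
  rcases h.chief N hNn hLN (fun x hx => hx.1) with h1 | h1
  · exfalso
    have hdvd : p ∣ Nat.card Q := by
      obtain ⟨n, hn⟩ := (IsPGroup.iff_card (p := p) (G := Q)).mp hQp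
      rw [hn]
      apply dvd_pow_self
      rintro rfl
      rw [pow_zero] at hn
      have := Finite.one_lt_card (α := Q)
      omega
    obtain ⟨z, hz⟩ := exists_prime_orderOf_dvd_card' p hdvd
    obtain ⟨k, rfl⟩ := hπs z
    have h2 : (k : G) ∈ N := by
      refine ⟨k.2, ?_⟩
      have h3 : π (k ^ p) = 1 := by rw [map_pow, ← hz, pow_orderOf_eq_one]
      exact (hπ _).mp h3
    rw [h1] at h2
    rw [(hπ k).mpr h2, orderOf_one] at hz
    exact hp.one_lt.ne hz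
  · intro x hx
    rw [← h1] at hx
    exact hx.2

end group

variable {G : Type} [Group G]

/-- **Dichotomy.** -/
lemma dich [Finite G] {L K : Subgroup G} (h : NC L K)
    (hab : ∀ x ∈ K, ∀ y ∈ K, x * y * x⁻¹ * y⁻¹ ∈ L) {ν : G → ℂ} (hK : IrrOn K ν)
    (hinv : ∀ g : G, ∀ k ∈ K, ν (g * k * g⁻¹) = ν k) :
    IrrOn L ν ∨ ∀ k ∈ K, k ∉ L → ν k = 0 := by
  classical
  have : Fintype G := Fintype.ofFinite G
  have : Fintype K := Fintype.ofFinite K
  have : Fintype L := Fintype.ofFinite L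
  have hKn := h.nK
  have hLKn : (L.subgroupOf K).Normal := h.nL.subgroupOf K
  by_cases hcon : ∀ k ∈ K, k ∉ L → ν k = 0
  · exact Or.inr hcon
  left
  push Not at hcon
  obtain ⟨k₀, hk₀, hk₀L, hνk₀⟩ := hcon
  -- characters stabilizing `ν`
  let N : Subgroup G :=
    { carrier := {x | ∃ hx : x ∈ K, ∀ μ : K →* ℂˣ, (∀ l : K, (l : G) ∈ L → μ l = 1) →
        (∀ y : K, ((μ y : ℂˣ) : ℂ) * ν y = ν y) → μ ⟨x, hx⟩ = 1}
      mul_mem' := by
        rintro x y ⟨hx, hx2⟩ ⟨hy, hy2⟩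
        refine ⟨K.mul_mem hx hy, fun μ h1 h2 => ?_⟩
        have h3 : (⟨x * y, K.mul_mem hx hy⟩ : K) = ⟨x, hx⟩ * ⟨y, hy⟩ := rfl
        rw [h3, map_mul, hx2 μ h1 h2, hy2 μ h1 h2, one_mul]
      one_mem' := ⟨K.one_mem, fun μ _ _ => map_one μ⟩
      inv_mem' := by
        rintro x ⟨hx, hx2⟩
        refine ⟨K.inv_mem hx, fun μ h1 h2 => ?_⟩
        have h3 : (⟨x⁻¹, K.inv_mem hx⟩ : K) = (⟨x, hx⟩ : K)⁻¹ := rfl
        rw [h3, map_inv, hx2 μ h1 h2, inv_one] }
  have hNn : N.Normal := ⟨fun n hn g => by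
    obtain ⟨hx, hx2⟩ := hn
    refine ⟨h.nK.conj_mem n hx g, fun μ h1 h2 => ?_⟩
    let cj : K ≃* K := MulAut.conjNormal (H := K) g
    have hcj : ∀ x : K, ((cj x : K) : G) = g * x * g⁻¹ := fun x => MulAut.conjNormal_apply g x
    have h3 := hx2 (μ.comp cj.toMonoidHom) (fun l hl => by
      apply h1
      change ((cj l : K) : G) ∈ L
      rw [hcj]
      exact h.nL.conj_mem l hl g) (fun y => by
      have h4 := h2 (cj y)
      rw [hcj, hinv g y y.2] at h4
      exact h4)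
    have h4 : cj ⟨n, hx⟩ = ⟨g * n * g⁻¹, h.nK.conj_mem n hx g⟩ := Subtype.ext (hcj _)
    rw [← h4]
    exact h3⟩
  have hLN : L ≤ N := fun l hl => ⟨h.le hl, fun μ h1 _ => h1 _ hl⟩
  rcases h.chief N hNn hLN (fun x hx => hx.1) with h1 | h1
  · exfalso
    apply hk₀L
    rw [← h1]
    refine ⟨hk₀, fun μ _ h2 => ?_⟩
    apply Units.ext
    have h3 := h2 ⟨k₀, hk₀⟩
    exact mul_right_cancel₀ hνk₀ (by rw [h3, Units.val_one, one_mul])
  -- no nontrivial character stabilizes `ν`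
  have hstab : ∀ μ : K →* ℂˣ, (∀ l : K, (l : G) ∈ L → μ l = 1) →
      (∀ y : K, ((μ y : ℂˣ) : ℂ) * ν y = ν y) → μ = 1 := by
    intro μ h2 h3
    ext x
    have h4 : (x : G) ∈ N := by rw [h1]; exact x.2
    obtain ⟨hx, h5⟩ := h4
    have h6 := h5 μ h2 h3
    have h7 : μ x = 1 := h6
    rw [h7]
    rfl
  let Q := K ⧸ L.subgroupOf K
  let π : K →* Q := QuotientGroup.mk' (L.subgroupOf K)
  have hπ : ∀ k : K, π k = 1 ↔ (k : G) ∈ L := fun k => by
    change ((k : K) : K ⧸ L.subgroupOf K) = 1 ↔ _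
    rw [QuotientGroup.eq_one_iff]
    exact Subgroup.mem_subgroupOf
  have hπs : Function.Surjective π := QuotientGroup.mk'_surjective _
  have hcomm : ∀ a b : Q, a * b = b * a := by
    intro a b
    obtain ⟨x, rfl⟩ := hπs a
    obtain ⟨y, rfl⟩ := hπs b
    have h1 := (hπ (x * y * x⁻¹ * y⁻¹)).mpr (hab x x.2 y y.2)
    rw [map_mul, map_mul, map_mul, map_inv, map_inv, mul_inv_eq_one, mul_inv_eq_iff_eq_mul] at h1
    exact h1
  let instQ : CommGroup Q := { (inferInstance : Group Q) with mul_comm := hcomm }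
  have hfin : Finite (Q →* ℂˣ) := inferInstance
  have : Fintype (Q →* ℂˣ) := Fintype.ofFinite _
  have hsum : ∀ k : K, ∑ μ : Q →* ℂˣ, ((μ (π k) : ℂˣ) : ℂ)
      = if (k : G) ∈ L then (Nat.card Q : ℂ) else 0 := by
    intro k
    by_cases hk : (k : G) ∈ L
    · rw [if_pos hk]
      have h2 : ∀ μ : Q →* ℂˣ, ((μ (π k) : ℂˣ) : ℂ) = 1 := fun μ => by
        rw [(hπ k).mpr hk, map_one, Units.val_one]
      rw [Finset.sum_congr rfl (fun μ _ => h2 μ), Finset.sum_const, Finset.card_univ, nsmul_eq_mul,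
        mul_one, ← Nat.card_eq_fintype_card, CommGroup.card_monoidHom_of_hasEnoughRootsOfUnity]
    · rw [if_neg hk]
      have h2 : π k ≠ 1 := fun h2 => hk ((hπ k).mp h2)
      obtain ⟨μ₀, hμ₀⟩ := CommGroup.exists_apply_ne_one_of_hasEnoughRootsOfUnity Q ℂ h2
      have h3 : ∑ μ : Q →* ℂˣ, ((μ (π k) : ℂˣ) : ℂ)
          = ((μ₀ (π k) : ℂˣ) : ℂ) * ∑ μ : Q →* ℂˣ, ((μ (π k) : ℂˣ) : ℂ) := by
        conv_lhs => rw [← Equiv.sum_comp (Equiv.mulLeft μ₀)]
        rw [Finset.mul_sum]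
        refine Finset.sum_congr rfl fun μ _ => ?_
        rw [Equiv.coe_mulLeft, MonoidHom.mul_apply, Units.val_mul]
      by_contra h0
      apply hμ₀
      apply Units.ext
      exact (mul_right_cancel₀ h0 (by rw [Units.val_one, one_mul]; exact h3)).symm
  -- the sum of the inner products
  let F : K → ℂ := fun k => ν k
  have hF : F ∈ Irr K := hK
  have hlin : ∀ μ : Q →* ℂˣ, (fun k : K => ((μ (π k) : ℂˣ) : ℂ)) ∈ Irr K := fun μ =>
    lin_irr (μ.comp π)
  have hμF : ∀ μ : Q →* ℂˣ, (fun k : K => ((μ (π k) : ℂˣ) : ℂ) * F k) ∈ Irr K := by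
    intro μ
    obtain ⟨h2, -, -⟩ := mul_corr (G := K) (K := ⊤) (inferInstance : (⊤ : Subgroup K).Normal)
      (α := fun k : K => ((μ (π k) : ℂˣ) : ℂ)) (ν := F) (irr_chr (hlin μ))
      (irrOn_top.mpr hF) (fun g k _ => Irr.conj hF k g) (by
        rw [irrOn_top]
        apply chr_irr (chr_mul (irr_chr (hlin μ)) (irr_chr hF))
        have h3 := pr_self hF
        rw [pr_eq] at h3 ⊢
        rw [← h3]
        congr 1
        refine Finset.sum_congr rfl fun k _ => ?_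
        simp only [Pi.mul_apply]
        rw [map_inv, map_inv, Units.val_inv_eq_inv_val]
        have : ((μ (π k) : ℂˣ) : ℂ) ≠ 0 := Units.ne_zero _
        field_simp)
    exact h2 F hF (fun k _ => by ring)
  have hpr : ∀ μ : Q →* ℂˣ, pr (fun k : K => ((μ (π k) : ℂˣ) : ℂ) * F k) F
      = if μ = 1 then 1 else 0 := by
    intro μ
    by_cases hμ : μ = 1
    · rw [if_pos hμ, hμ]
      have h2 : (fun k : K => ((((1 : Q →* ℂˣ) (π k) : ℂˣ)) : ℂ) * F k) = F := by
        funext k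
        rw [MonoidHom.one_apply, Units.val_one, one_mul]
      rw [h2, pr_self hF]
    · rw [if_neg hμ]
      apply pr_ne (hμF μ) hF
      intro h2
      apply hμ
      have h3 := hstab (μ.comp π) (fun l hl => by
        change μ (π l) = 1
        rw [(hπ l).mpr hl, map_one]) (fun y => congrFun h2 y)
      apply MonoidHom.ext
      intro q
      obtain ⟨k, rfl⟩ := hπs q
      exact DFunLike.congr_fun h3 k
  have h2 : ∑ μ : Q →* ℂˣ, pr (fun k : K => ((μ (π k) : ℂˣ) : ℂ) * F k) F = 1 := by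
    rw [Finset.sum_congr rfl (fun μ _ => hpr μ), Finset.sum_ite_eq', if_pos (Finset.mem_univ _)]
  have h3 : ∑ μ : Q →* ℂˣ, pr (fun k : K => ((μ (π k) : ℂˣ) : ℂ) * F k) F
      = pr (fun l : L => ν l) (fun l : L => ν l) := by
    simp only [pr_eq]
    rw [← Finset.mul_sum, Finset.sum_comm]
    have h4 : ∀ k : K, ∑ μ : Q →* ℂˣ, ((μ (π k) : ℂˣ) : ℂ) * F k * F k⁻¹
        = if (k : G) ∈ L then (Nat.card Q : ℂ) * (ν k * ν (k : G)⁻¹) else 0 := by
      intro k
      rw [← Finset.sum_mul, ← Finset.sum_mul, hsum]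
      by_cases hk : (k : G) ∈ L
      · rw [if_pos hk, if_pos hk, mul_assoc]
        rfl
      · rw [if_neg hk, if_neg hk, zero_mul, zero_mul]
    rw [Finset.sum_congr rfl (fun k _ => h4 k), ← Finset.sum_filter, ← Finset.mul_sum]
    have h5 : ∑ k ∈ Finset.univ.filter (fun k : K => (k : G) ∈ L), ν k * ν (k : G)⁻¹
        = ∑ l : L, ν l * ν (l : G)⁻¹ := by
      rw [Finset.sum_subtype (p := fun k : K => (k : G) ∈ L) _ (by simp)]
      exact Fintype.sum_equiv (Subgroup.subgroupOfEquivOfLe h.le).toEquiv _ _ (fun _ => rfl)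
    rw [h5, ← mul_assoc]
    congr 1
    have h6 : (Nat.card K : ℂ) = Nat.card Q * Nat.card L := by
      have h7 := Subgroup.card_eq_card_quotient_mul_card_subgroup (L.subgroupOf K)
      rw [h7, Nat.cast_mul]
      congr 1
      exact_mod_cast Nat.card_congr (Subgroup.subgroupOfEquivOfLe h.le).toEquiv
    have h7 : (Nat.card Q : ℂ) ≠ 0 := by exact_mod_cast Nat.card_pos.ne'
    have h8 : (Nat.card L : ℂ) ≠ 0 := by exact_mod_cast Nat.card_pos.ne'
    rw [h6]
    field_simp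
  have h4 : (fun l : L => ν l) ∈ Chr L := by
    have h5 := chr_comp (Subgroup.inclusion h.le) (irr_chr hF)
    exact h5
  exact chr_irr h4 (h3 ▸ h2)

end Run7.h132
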