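import Mathlib
import Pool.Agent.Run7.h132.WC

/-!
# The chief factor theorem
-/

set_option autoImplicit false
set_option linter.unusedSectionVars false

namespace Run7.h132

open Pool.Agent.H541R3.ART Pool.Agent.W446.AS Pool.Agent.R389 Pool.Agent.Helper606_LC

section

variable {G : Type} [Group G] [Fintype G] {V : Type} [AddCommGroup V] [Module ℂ V]
  [FiniteDimensional ℂ V]

/-- construction of the Heisenberg data -/
lemma ht_exists {ρ : Representation ℂ G V} (hρ : Irred ρ) {L K : Subgroup G} (h : NC L K)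
    (hab : ∀ x ∈ K, ∀ y ∈ K, x * y * x⁻¹ * y⁻¹ ∈ L) {p : ℕ} (hp : p.Prime) (hodd : p ≠ 2)
    (hexp : ∀ x ∈ K, x ^ p ∈ L) (hL : ∃ c : ℂ, IrrOn L (fun g => c * ρ.character g))
    (hK : ∃ c : ℂ, IrrOn K (fun g => c * ρ.character g))
    (van : ∀ k ∈ K, k ∉ L → ρ.character k = 0) : ∃ t β, HT ρ L K t β p := by
  obtain ⟨c, hLc⟩ := hL
  have hLKn : (L.subgroupOf K).Normal := h.nL.subgroupOf K
  let Q := K ⧸ L.subgroupOf K
  let π : K →* Q := QuotientGroup.mk' (L.subgroupOf K)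
  have hπ : ∀ k : K, π k = 1 ↔ (k : G) ∈ L := fun k => by
    change ((k : K) : K ⧸ L.subgroupOf K) = 1 ↔ _
    rw [QuotientGroup.eq_one_iff]
    exact Subgroup.mem_subgroupOf
  have hπs : Function.Surjective π := QuotientGroup.mk'_surjective _
  have hcomm : ∀ a b : Q, a * b = b * a := by
    intro a b
    obtain ⟨x, rfl⟩ := hπs a
    obtain ⟨y, rfl⟩ := hπs b
    have h1 := (hπ (x * y * x⁻¹ * y⁻¹)).mpr (hab x x.2 y y.2)
    rw [map_mul, map_mul, map_mul, map_inv, map_inv, mul_inv_eq_one, mul_inv_eq_iff_eq_mul] at h1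
    exact h1
  let instQ : CommGroup Q := { (inferInstance : Group Q) with mul_comm := hcomm }
  obtain ⟨m, hm⟩ := hp.odd_of_ne_two hodd
  obtain ⟨t, β, h1, h2, h3, h4, h5, h6, h7⟩ := exists_t (Q := Q) hρ h.nL hLc π hπs hπ hp hm.symm
    hexp
  refine ⟨t, β, ⟨hρ, h, hab, hp, hodd, hexp, ⟨c, hLc⟩, hK, van, h1, h2, h3, h4, h5, ?_, h7⟩⟩
  intro k l hkl
  apply h6
  have h8 : π (k * l⁻¹) = 1 := (hπ _).mpr hkl
  rw [map_mul, map_inv, mul_inv_eq_one] at h8
  exact h8

end

variable {G : Type} [Group G] [Finite G]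

/-- **Chief factors on which the character vanishes.** -/
theorem chief_van {χ : G → ℂ} (hχ : χ ∈ Irr G) (hprim : Prim χ) {L K : Subgroup G} (h : NC L K)
    {p : ℕ} (hp : p.Prime) (hodd : p ≠ 2) (hcard : ∃ a, L.relIndex K = p ^ a)
    (hvan : ∀ k ∈ K, k ∉ L → χ k = 0) : Mch χ := by
  have : Fintype G := Fintype.ofFinite G
  obtain ⟨n, ρ, hρ, rfl⟩ := exists_rep hχ
  obtain ⟨hab, hexp⟩ := h.pgroup hp hcard
  have hL := (homog_or_ind h.nL hχ).resolve_right hprim
  have hK := (homog_or_ind h.nK hχ).resolve_right hprim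
  obtain ⟨t, β, hT⟩ := ht_exists hρ h hab hp hodd hexp hL hK hvan
  exact hT.mch

/-- **Complemented chief factors of odd order.** -/
theorem chief_odd {χ : G → ℂ} (hχ : χ ∈ Irr G) (hprim : Prim χ) {L K U : Subgroup G} (h : NC L K)
    {p : ℕ} (hp : p.Prime) (hodd : p ≠ 2) (hcard : ∃ a, L.relIndex K = p ^ a)
    (hU : IsCoatom U) (hLU : L ≤ U) (hKU : ¬ K ≤ U) : Mch χ := by
  obtain ⟨hab, -⟩ := h.pgroup hp hcard
  obtain ⟨c, hK⟩ := (homog_or_ind h.nK hχ).resolve_right hprim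
  have hcl : ∀ g x : G, χ (x * g * x⁻¹) = χ g :=
    (show Virt χ from AddSubgroup.subset_closure hχ).conj
  rcases dich h hab hK (fun g k _ => by rw [hcl]) with h1 | h1
  · exact chief_A hχ h hU hLU hKU hK h1
  · apply chief_van hχ hprim h hp hodd hcard
    intro k hk hkL
    have h2 := h1 k hk hkL
    rcases mul_eq_zero.mp h2 with h3 | h3
    · exact absurd h3 (irrOn_scal hK)
    · exact h3

/-- **Chief factors with equal norms.** -/
theorem chief_norm {χ : G → ℂ} (hχ : χ ∈ Irr G) (hprim : Prim χ) {L K U : Subgroup G}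
    (h : NC L K) (hU : IsCoatom U) (hLU : L ≤ U) (hKU : ¬ K ≤ U)
    (hn : pr (fun k : K => χ k) (fun k : K => χ k) = pr (fun l : L => χ l) (fun l : L => χ l)) :
    Mch χ := by
  obtain ⟨c, hK⟩ := (homog_or_ind h.nK hχ).resolve_right hprim
  apply chief_A hχ h hU hLU hKU hK
  have h1 : pr (fun k : K => c * χ k) (fun k : K => c * χ k) = 1 := pr_self hK
  have h2 : ∀ H : Subgroup G, pr (fun k : H => c * χ k) (fun k : H => c * χ k)
      = c * (c * pr (fun k : H => χ k) (fun k : H => χ k)) := by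
    intro H
    rw [pr_const_left, pr_comm, pr_const_left]
  rw [h2, hn, ← h2] at h1
  have h3 : (fun l : L => c * χ l) ∈ Chr L := chr_comp (Subgroup.inclusion h.le) (irr_chr hK)
  exact chr_irr h3 h1

/-- a character which vanishes on `K \ L` has different norms on `K` and on `L` -/
lemma norm_ne_of_van {χ : G → ℂ} (hχ : χ ∈ Irr G) {L K : Subgroup G} (hLK : L < K)
    (hvan : ∀ k ∈ K, k ∉ L → χ k = 0)
    (hn : pr (fun k : K => χ k) (fun k : K => χ k) = pr (fun l : L => χ l) (fun l : L => χ l)) :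
    False := by
  classical
  have : Fintype K := Fintype.ofFinite K
  have : Fintype L := Fintype.ofFinite L
  have h1 : pr (fun l : L => χ l) (fun l : L => χ l) ≠ 0 := by
    apply chr_pr_ne (chr_comp L.subtype (irr_chr hχ))
    intro h0
    obtain ⟨d, hd, hd1⟩ := irr_deg_pos hχ
    have h2 : χ ((1 : L) : G) = 0 := congrFun h0 1
    rw [OneMemClass.coe_one, hd1] at h2
    exact hd.ne' (by exact_mod_cast h2)
  have h2 : ∑ k : K, χ k * χ (k : G)⁻¹ = ∑ l : L, χ l * χ (l : G)⁻¹ := by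
    rw [← Finset.sum_filter_of_ne (p := fun k : K => (k : G) ∈ L) (by
      intro k _ hk
      by_contra hkL
      exact hk (by rw [hvan k k.2 hkL, zero_mul]))]
    rw [Finset.sum_subtype (p := fun k : K => (k : G) ∈ L) _ (by simp)]
    exact Fintype.sum_equiv (Subgroup.subgroupOfEquivOfLe hLK.le).toEquiv _ _ (fun _ => rfl)
  rw [pr_eq, pr_eq] at hn
  rw [pr_eq] at h1
  change (Nat.card K : ℂ)⁻¹ * ∑ k : K, χ k * χ (k : G)⁻¹
    = (Nat.card L : ℂ)⁻¹ * ∑ l : L, χ l * χ (l : G)⁻¹ at hn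
  change (Nat.card L : ℂ)⁻¹ * ∑ l : L, χ l * χ (l : G)⁻¹ ≠ 0 at h1
  rw [h2] at hn
  have h3 := mul_right_cancel₀ (right_ne_zero_of_mul h1) hn
  rw [inv_inj] at h3
  have h4 : Nat.card K = Nat.card L := by exact_mod_cast h3
  have h5 : (L : Set G) ⊂ K := hLK
  have h6 := Set.ncard_lt_ncard h5 (Set.toFinite _)
  have h7 : Set.ncard (L : Set G) = Nat.card L := rfl
  have h8 : Set.ncard (K : Set G) = Nat.card K := rfl
  omega

end Run7.h132
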