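import Mathlib
import Pool.Agent.Run7.h132.WC

/-!
# Fully ramified chief factors of even order: the group of normalized operators
-/

set_option autoImplicit false
set_option linter.unusedSectionVars false

namespace Run7.h132

open Pool.Agent.H541R3.ART Pool.Agent.W446.AS Pool.Agent.R389 Pool.Agent.Helper606_LC

variable {G : Type} [Group G] [Fintype G] {V : Type} [AddCommGroup V] [Module ℂ V]
  [FiniteDimensional ℂ V]

/-- a fully ramified chief factor of even order on which a group of odd order acts -/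
structure T2 (ρ : Representation ℂ G V) (L K : Subgroup G) : Prop where
  irr : Irred ρ
  nc : NC L K
  ab : ∀ x ∈ K, ∀ y ∈ K, x * y * x⁻¹ * y⁻¹ ∈ L
  exp : ∀ x ∈ K, x ^ 2 ∈ L
  hL : ∃ c : ℂ, IrrOn L (fun g => c * ρ.character g)
  hK : ∃ c : ℂ, IrrOn K (fun g => c * ρ.character g)
  van : ∀ k ∈ K, k ∉ L → ρ.character k = 0
  odd : ∀ g : G, ∃ m : ℕ, Odd m ∧ ∀ k ∈ K, g ^ m * k * (g ^ m)⁻¹ * k⁻¹ ∈ L

namespace T2

variable {ρ : Representation ℂ G V} {L K : Subgroup G} (h : T2 ρ L K)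

include h

/-- squares of operators over elements of `K` are scalars -/
lemma sq {k : G} (hk : k ∈ K) {x : Module.End ℂ V} (hx : Sec ρ L k x) : ∃ z : ℂ, x ^ 2 = z • 1 := by
  obtain ⟨c, hc⟩ := h.hL
  have h1 := hx.pow h.nc.nL 2
  have h2 : Sec ρ L 1 (x ^ 2) := h1.coset (by rw [inv_one, mul_one]; exact h.exp k hk)
  exact h2.scal h.irr h.nc.nL hc

/-- commutators are signs -/
lemma comm {k l : G} (hk : k ∈ K) (hl : l ∈ K) {x y : (Module.End ℂ V)ˣ}
    (hx : Sec ρ L k (x : Module.End ℂ V)) (hy : Sec ρ L l (y : Module.End ℂ V)) :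
    ∃ ζ : ℂ, ζ ^ 2 = 1 ∧ (y : Module.End ℂ V) * x = ζ • ((x : Module.End ℂ V) * y) := by
  have hnt := h.irr.1
  obtain ⟨c, hc⟩ := h.hL
  obtain ⟨ζ, hζ⟩ := hx.comm h.irr h.nc.nL hc h.ab hk hl hy (by
    rw [← Units.val_mul]; exact (x * y).ne_zero)
  refine ⟨ζ, ?_, hζ⟩
  obtain ⟨z, hz⟩ := h.sq hk hx
  have h1 := pow_scal_right hζ 2
  rw [hz, mul_smul_comm, mul_one, smul_mul_assoc, one_mul] at h1
  have hz0 : z ≠ 0 := by
    rintro rfl
    have h2 : ((x ^ 2 : (Module.End ℂ V)ˣ) : Module.End ℂ V) = 0 := by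
      rw [Units.val_pow_eq_pow_val, hz, zero_smul]
    exact (x ^ 2).ne_zero h2
  rw [smul_smul] at h1
  have h3 := smul_left_injective ℂ y.ne_zero h1
  exact (mul_right_cancel₀ hz0 (by rw [one_mul]; exact h3)).symm

/-- the group of normalized operators -/
def EE : Subgroup (Module.End ℂ V)ˣ where
  carrier := {x | x ^ 4 = 1 ∧ ∃ k ∈ K, Sec ρ L k (x : Module.End ℂ V)}
  mul_mem' := by
    rintro x y ⟨hx, k, hk, hxk⟩ ⟨hy, l, hl, hyl⟩
    refine ⟨?_, k * l, K.mul_mem hk hl, ?_⟩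
    · obtain ⟨ζ, hζ, hc⟩ := h.comm hk hl hxk hyl
      apply Units.ext
      rw [Units.val_pow_eq_pow_val, Units.val_mul, pow_scal hc]
      have h1 : ∑ i ∈ Finset.range 4, i = 2 * 3 := by decide
      rw [h1, pow_mul, hζ, one_pow, one_smul, ← Units.val_pow_eq_pow_val, ← Units.val_pow_eq_pow_val,
        hx, hy, Units.val_one, mul_one]
    · rw [Units.val_mul]
      exact hxk.mul h.nc.nL hyl
  one_mem' := ⟨one_pow _, 1, K.one_mem, Sec.one ρ L⟩
  inv_mem' := by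
    rintro x ⟨hx, k, hk, hxk⟩
    refine ⟨by rw [inv_pow, hx, inv_one], k⁻¹, K.inv_mem hk, ?_⟩
    have h1 : x⁻¹ = x ^ 3 := by
      rw [inv_eq_iff_mul_eq_one, ← pow_succ', hx]
    rw [h1, Units.val_pow_eq_pow_val]
    apply (hxk.pow h.nc.nL 3).coset
    rw [inv_inv, ← pow_succ]
    have h2 := h.exp k hk
    have h3 : k ^ (3 + 1) = k ^ 2 * k ^ 2 := by rw [← pow_add]
    rw [h3]
    exact L.mul_mem h2 h2

omit h in
lemma ee_mem (h : T2 ρ L K) {x : (Module.End ℂ V)ˣ} :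
    x ∈ h.EE ↔ x ^ 4 = 1 ∧ ∃ k ∈ K, Sec ρ L k (x : Module.End ℂ V) := Iff.rfl

/-- normalized operators exist -/
lemma lift {k : G} (hk : k ∈ K) : ∃ x : (Module.End ℂ V)ˣ, x ∈ h.EE ∧ Sec ρ L k (x : Module.End ℂ V) := by
  have hnt := h.irr.1
  obtain ⟨c, hc⟩ := h.hL
  obtain ⟨x, y, hx, hy, hxy, hyx⟩ := sec_exists h.irr h.nc.nL hc k
  obtain ⟨z, hz⟩ := h.sq hk hx
  have hz0 : z ≠ 0 := by
    rintro rfl
    have h2 : x ^ 2 * y ^ 2 = 1 := by
      have hc : Commute x y := by rw [Commute, SemiconjBy, hxy, hyx]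
      rw [← hc.mul_pow, hxy, one_pow]
    rw [hz, zero_smul, zero_mul] at h2
    exact zero_ne_one h2
  obtain ⟨w, hw⟩ := IsAlgClosed.exists_pow_nat_eq z⁻¹ (show 0 < 2 by norm_num)
  have hw0 : w ≠ 0 := by
    rintro rfl
    rw [zero_pow two_ne_zero] at hw
    exact inv_ne_zero hz0 hw.symm
  let u : (Module.End ℂ V)ˣ := ⟨w • x, w⁻¹ • y, by
    rw [smul_mul_smul_comm, hxy, mul_inv_cancel₀ hw0, one_smul], by
    rw [smul_mul_smul_comm, hyx, inv_mul_cancel₀ hw0, one_smul]⟩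
  have hu2 : u ^ 2 = 1 := by
    apply Units.ext
    rw [Units.val_pow_eq_pow_val]
    change (w • x) ^ 2 = 1
    rw [smul_pow, hw, hz, smul_smul, inv_mul_cancel₀ hz0, one_smul]
  refine ⟨u, ⟨?_, k, hk, hx.smul w⟩, hx.smul w⟩
  have h4 : u ^ 4 = (u ^ 2) ^ 2 := by rw [← pow_mul]
  rw [h4, hu2, one_pow]

/-- two normalized operators over the same element -/
lemma same {k : G} {x y : (Module.End ℂ V)ˣ} (hx : x ∈ h.EE) (hy : y ∈ h.EE)
    (hxk : Sec ρ L k (x : Module.End ℂ V)) (hyk : Sec ρ L k (y : Module.End ℂ V)) :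
    ∃ ζ : ℂˣ, ζ ^ 4 = 1 ∧ (x : Module.End ℂ V) = (ζ : ℂ) • (y : Module.End ℂ V) := by
  have hnt := h.irr.1
  obtain ⟨c, hc⟩ := h.hL
  obtain ⟨z, hz⟩ := hxk.prop h.irr h.nc.nL hc hyk y.ne_zero
  have hz4 : z ^ 4 = 1 := by
    have h1 : ((x ^ 4 : (Module.End ℂ V)ˣ) : Module.End ℂ V) = 1 := by rw [hx.1, Units.val_one]
    have h2 : ((y ^ 4 : (Module.End ℂ V)ˣ) : Module.End ℂ V) = 1 := by rw [hy.1, Units.val_one]
    rw [Units.val_pow_eq_pow_val] at h1 h2
    rw [hz, smul_pow, h2] at h1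
    exact smul_left_injective ℂ (one_ne_zero (α := Module.End ℂ V)) (by
      change z ^ 4 • (1 : Module.End ℂ V) = (1 : ℂ) • 1
      rw [h1, one_smul])
  have hz0 : z ≠ 0 := by
    rintro rfl
    rw [zero_pow four_ne_zero] at hz4
    exact zero_ne_one hz4
  exact ⟨Units.mk0 z hz0, Units.ext (by rw [Units.val_pow_eq_pow_val]; exact hz4), hz⟩

lemma conj_mem {x : (Module.End ℂ V)ˣ} (hx : x ∈ h.EE) (g : G) :
    ru ρ g * x * (ru ρ g)⁻¹ ∈ h.EE := by
  obtain ⟨hx4, k, hk, hxk⟩ := hx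
  refine ⟨by rw [conj_pow, hx4, mul_one, mul_inv_cancel], g * k * g⁻¹, h.nc.nK.conj_mem k hk g, ?_⟩
  rw [← map_inv, Units.val_mul, Units.val_mul, ru_val, ru_val]
  exact hxk.conj h.nc.nL g

/-- the trace argument: elements of `K` in the span of `L` -/
lemma mem_L {k : G} (hk : k ∈ K) (hρ : ρ k ∈ AA ρ L) : k ∈ L := by
  by_contra hkL
  have h5 : ∀ x ∈ AA ρ L, LinearMap.trace ℂ V (x * ρ k⁻¹) = 0 := by
    intro x hx
    induction hx using Submodule.span_induction with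
    | mem x hx =>
      obtain ⟨l, rfl⟩ := hx
      simp only
      rw [← map_mul]
      apply h.van _ (K.mul_mem (h.nc.le l.2) (K.inv_mem hk))
      intro h6
      apply hkL
      have h7 := L.mul_mem (L.inv_mem h6) l.2
      rw [mul_inv_rev, inv_inv, inv_mul_cancel_right] at h7
      exact h7
    | zero => rw [zero_mul, map_zero]
    | add x y _ _ hx hy => rw [add_mul, map_add, hx, hy, add_zero]
    | smul c x _ hx => rw [smul_mul_assoc, map_smul, hx, smul_zero]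
  have h6 := h5 _ hρ
  rw [rep_mul_inv, LinearMap.trace_one] at h6
  exact finrank_ne h.irr.1 h6

lemma ee_aa {x : (Module.End ℂ V)ˣ} (hx : x ∈ h.EE) : (x : Module.End ℂ V) ∈ AA ρ K := by
  obtain ⟨-, k, hk, -, a, ha, h3⟩ := hx
  rw [h3]
  exact aa_mul (aa_mono ρ h.nc.le ha) (aa_mem ρ hk)

/-- group elements in terms of normalized operators -/
lemma rho {k : G} {x : (Module.End ℂ V)ˣ} (hxk : Sec ρ L k (x : Module.End ℂ V)) :
    ∃ a ∈ AA ρ L, ρ k = a * (x : Module.End ℂ V) := by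
  obtain ⟨h1, a, ha, h2⟩ := hxk
  -- `x = a * ρ k`, so `a` is invertible with inverse in the span
  have h3 : a * (ρ k * (x⁻¹ : (Module.End ℂ V)ˣ)) = 1 := by
    rw [← mul_assoc, ← h2, Units.mul_inv]
  have h4 : (ρ k * (x⁻¹ : (Module.End ℂ V)ˣ)) * a = 1 := mul_eq_one_comm.mp h3
  -- `ρ k * x⁻¹` is a polynomial in `a`
  have hau : IsUnit a := IsUnit.of_mul_eq_one _ h3
  have hinv : ∀ b ∈ AA ρ L, IsUnit b → ∃ b' ∈ AA ρ L, b' * b = 1 := by
    intro b hb hbu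
    let f : AA ρ L →ₗ[ℂ] AA ρ L :=
      { toFun := fun y => ⟨y * b, aa_mul y.2 hb⟩
        map_add' := fun y z => Subtype.ext (add_mul _ _ _)
        map_smul' := fun r y => Subtype.ext (smul_mul_assoc _ _ _) }
    have hf : Function.Injective f := by
      intro y z hyz
      apply Subtype.ext
      have h5 : (y : Module.End ℂ V) * b = z * b := congrArg Subtype.val hyz
      exact hbu.mul_left_injective h5
    have hfs := LinearMap.surjective_of_injective hf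
    obtain ⟨y, hy⟩ := hfs ⟨1, aa_one ρ L⟩
    exact ⟨y, y.2, congrArg Subtype.val hy⟩
  obtain ⟨b, hb, hba⟩ := hinv a ha hau
  refine ⟨b, hb, ?_⟩
  rw [h2, ← mul_assoc, hba, one_mul]

/-- nondegeneracy -/
lemma nondeg {k : G} (hk : k ∈ K) {x : (Module.End ℂ V)ˣ} (hx : x ∈ h.EE)
    (hxk : Sec ρ L k (x : Module.End ℂ V))
    (hc : ∀ l ∈ K, (x : Module.End ℂ V) * ρ l = ρ l * x) : k ∈ L := by
  obtain ⟨cK, hcK⟩ := h.hK
  obtain ⟨z, hz⟩ := aa_scalar h.irr h.nc.nK hcK (h.ee_aa hx) hc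
  obtain ⟨a, ha, h3⟩ := h.rho hxk
  apply h.mem_L hk
  rw [h3, hz, mul_smul_comm, mul_one]
  exact Submodule.smul_mem _ _ ha

/-- operators over elements of `L` are scalars -/
lemma scal_L {k : G} (hk : k ∈ L) {x : (Module.End ℂ V)ˣ}
    (hxk : Sec ρ L k (x : Module.End ℂ V)) : ∃ z : ℂ, (x : Module.End ℂ V) = z • 1 := by
  obtain ⟨c, hc⟩ := h.hL
  have h2 : Sec ρ L 1 (x : Module.End ℂ V) := hxk.coset (by rw [inv_one, mul_one]; exact hk)
  exact h2.scal h.irr h.nc.nL hc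

end T2

end Run7.h132
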