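import Mathlib
import Pool.Agent.Run7.h132.TwoA

/-!
# Fully ramified chief factors of even order: the complement
-/

set_option autoImplicit false
set_option linter.unusedSectionVars false

namespace Run7.h132

open Pool.Agent.H541R3.ART Pool.Agent.W446.AS Pool.Agent.R389 Pool.Agent.Helper606_LC

variable {G : Type} [Group G] [Fintype G] {V : Type} [AddCommGroup V] [Module ℂ V]
  [FiniteDimensional ℂ V]

namespace T2

variable {ρ : Representation ℂ G V} {L K : Subgroup G} (h : T2 ρ L K)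

include h

/-- a family of normalized operators -/
lemma exists_s : ∃ s : K → (Module.End ℂ V)ˣ, ∀ k : K, s k ∈ h.EE ∧ Sec ρ L k (s k : Module.End ℂ V) := by
  choose s hs1 hs2 using fun k : K => h.lift k.2
  exact ⟨s, fun k => ⟨hs1 k, hs2 k⟩⟩

/-- elements acting trivially on `K / L` act by scalars -/
lemma exists_z {s : K → (Module.End ℂ V)ˣ}
    (hs : ∀ k : K, s k ∈ h.EE ∧ Sec ρ L k (s k : Module.End ℂ V)) {g : G}
    (hg : ∀ k ∈ K, g * k * g⁻¹ * k⁻¹ ∈ L) : ∃ z : K →* ℂˣ,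
      (∀ k, ρ g * (s k : Module.End ℂ V) = ((z k : ℂˣ) : ℂ) • ((s k : Module.End ℂ V) * ρ g)) ∧
      ∀ k : K, (k : G) ∈ L → z k = 1 := by
  have hnt := h.irr.1
  obtain ⟨c, hc⟩ := h.hL
  have h1 : ∀ k : K, ∃ z : ℂ, ρ g * (s k : Module.End ℂ V) * ρ g⁻¹ = z • (s k : Module.End ℂ V) := by
    intro k
    have h2 : Sec ρ L (k : G) (ρ g * (s k : Module.End ℂ V) * ρ g⁻¹) :=
      ((hs k).2.conj h.nc.nL g).coset (hg k k.2)
    exact h2.prop h.irr h.nc.nL hc (hs k).2 (s k).ne_zero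
  choose z hz using h1
  have hz' : ∀ k, ρ g * (s k : Module.End ℂ V) = z k • ((s k : Module.End ℂ V) * ρ g) := by
    intro k
    rw [← smul_mul_assoc, ← hz, mul_assoc, rep_inv_mul, mul_one]
  have hz0 : ∀ k, z k ≠ 0 := by
    intro k h0
    have h2 := hz k
    rw [h0, zero_smul] at h2
    have h3 : ((ru ρ g * s k * (ru ρ g)⁻¹ : (Module.End ℂ V)ˣ) : Module.End ℂ V) = 0 := by
      rw [← map_inv, Units.val_mul, Units.val_mul, ru_val, ru_val]
      exact h2
    exact (ru ρ g * s k * (ru ρ g)⁻¹).ne_zero h3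
  have hmul : ∀ k l, z (k * l) = z k * z l := by
    intro k l
    obtain ⟨w, hw⟩ := ((hs k).2.mul h.nc.nL (hs l).2).prop h.irr h.nc.nL hc (hs (k * l)).2
      (s (k * l)).ne_zero
    have hw0 : w ≠ 0 := by
      rintro rfl
      rw [zero_smul, ← Units.val_mul] at hw
      exact (s k * s l).ne_zero hw
    have h2 : ρ g * ((s k : Module.End ℂ V) * s l) = (z k * z l) • ((s k : Module.End ℂ V) * s l * ρ g) := by
      rw [← mul_assoc, hz', smul_mul_assoc, mul_assoc, hz', mul_smul_comm, smul_smul, mul_assoc]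
    rw [hw, mul_smul_comm, hz', smul_mul_assoc, smul_smul, smul_smul] at h2
    have h3 : (s (k * l) : Module.End ℂ V) * ρ g ≠ 0 := by
      rw [← ru_val ρ g, ← Units.val_mul]
      exact (s (k * l) * ru ρ g).ne_zero
    have h4 := smul_left_injective ℂ h3 h2
    exact mul_left_cancel₀ hw0 (by rw [h4, mul_comm])
  have hL : ∀ k : K, (k : G) ∈ L → z k = 1 := by
    intro k hk
    obtain ⟨w, hw⟩ := h.scal_L hk (hs k).2
    have h2 := hz' k
    rw [hw, mul_smul_comm, mul_one, smul_mul_assoc, one_mul] at h2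
    have h3 : w • ρ g ≠ 0 := by
      rw [← one_mul (ρ g), ← smul_mul_assoc, ← hw, ← ru_val ρ g, ← Units.val_mul]
      exact (s k * ru ρ g).ne_zero
    have h4 : (1 : ℂ) • (w • ρ g) = z k • (w • ρ g) := by rw [one_smul]; exact h2
    exact (smul_left_injective ℂ h3 h4).symm
  refine ⟨{ toFun := fun k => Units.mk0 (z k) (hz0 k)
            map_one' := Units.ext (hL 1 (one_mem L))
            map_mul' := fun k l => Units.ext (hmul k l) }, fun k => hz' k,
          fun k hk => Units.ext (hL k hk)⟩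

/-- elements acting trivially on `K / L` are elements of `K` times elements commuting with the
normalized operators -/
lemma surj {g : G} (hg : ∀ k ∈ K, g * k * g⁻¹ * k⁻¹ ∈ L) :
    ∃ m ∈ K, ∀ x ∈ h.EE, ρ (m⁻¹ * g) * (x : Module.End ℂ V) = x * ρ (m⁻¹ * g) := by
  classical
  have : Fintype K := Fintype.ofFinite K
  have hnt := h.irr.1
  obtain ⟨s, hs⟩ := h.exists_s
  obtain ⟨z, hz, hzL⟩ := h.exists_z hs hg
  choose b hb hbL using fun m : K => h.exists_z hs (g := (m : G)) (fun k hk => h.ab m m.2 k hk)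
  have hne : ∀ (k : K) (g : G), (s k : Module.End ℂ V) * ρ g ≠ 0 := by
    intro k g
    rw [← ru_val ρ g, ← Units.val_mul]
    exact (s k * ru ρ g).ne_zero
  have hbm : ∀ m m' k, b (m * m') k = b m k * b m' k := by
    intro m m' k
    apply Units.ext
    have h1 := hb (m * m') k
    have h2 : ρ ((m * m' : K) : G) = ρ m * ρ m' := by rw [Subgroup.coe_mul, map_mul]
    rw [h2, mul_assoc, hb m', mul_smul_comm, ← mul_assoc, hb m, smul_mul_assoc, smul_smul,
      mul_assoc] at h1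
    have h3 : (s k : Module.End ℂ V) * (ρ m * ρ m') ≠ 0 := by rw [← map_mul]; exact hne _ _
    have h4 := smul_left_injective ℂ h3 h1
    rw [Units.val_mul, ← h4, mul_comm]
  have hnd : ∀ k : K, (k : G) ∉ L → ∃ m, b m k ≠ 1 := by
    intro k hk
    by_contra hcon
    push Not at hcon
    apply hk
    apply h.nondeg k.2 (hs k).1 (hs k).2
    intro l hl
    have h1 := hb ⟨l, hl⟩ k
    rw [hcon, Units.val_one, one_smul] at h1
    exact h1.symm
  -- orthogonality
  obtain ⟨m, hm⟩ : ∃ m : K, z = b m := by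
    by_contra hcon
    push Not at hcon
    let B : K → K →* ℂ := fun m => (Units.coeHom ℂ).comp (z * (b m)⁻¹)
    have h1 : ∀ m, ∑ k, B m k = 0 := by
      intro m
      apply sum_hom_units_eq_zero (B m)
      intro hB
      apply hcon m
      ext k
      have h2 := DFunLike.congr_fun hB k
      change ((z k * (b m k)⁻¹ : ℂˣ) : ℂ) = 1 at h2
      have h3 : z k * (b m k)⁻¹ = 1 := Units.ext h2
      rw [mul_inv_eq_one] at h3
      rw [h3]
    have h2 : ∀ k : K, (k : G) ∉ L → ∑ m, (((b m k)⁻¹ : ℂˣ) : ℂ) = 0 := by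
      intro k hk
      let C : K →* ℂ :=
        { toFun := fun m => (((b m k)⁻¹ : ℂˣ) : ℂ)
          map_one' := by
            have h3 : b 1 k = 1 := by
              have h4 := hbm 1 1 k
              rw [mul_one] at h4
              exact mul_eq_left.mp h4.symm
            rw [h3, inv_one, Units.val_one]
          map_mul' := by
            intro x y
            rw [hbm, mul_inv, Units.val_mul] }
      apply sum_hom_units_eq_zero C
      intro hC
      obtain ⟨l, hl⟩ := hnd k hk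
      apply hl
      have h3 := DFunLike.congr_fun hC l
      change (((b l k)⁻¹ : ℂˣ) : ℂ) = 1 at h3
      have h4 : (b l k)⁻¹ = 1 := Units.ext h3
      exact inv_eq_one.mp h4
    have h3 : ∑ k : K, ∑ m : K, B m k = 0 := by
      rw [Finset.sum_comm]
      exact Finset.sum_eq_zero fun m _ => h1 m
    have h4 : ∀ k : K, ∑ m : K, B m k = if (k : G) ∈ L then (Fintype.card K : ℂ) else 0 := by
      intro k
      by_cases hk : (k : G) ∈ L
      · rw [if_pos hk]
        have h5 : ∀ m : K, B m k = 1 := by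
          intro m
          change ((z k * (b m k)⁻¹ : ℂˣ) : ℂ) = 1
          rw [hzL k hk, hbL m k hk, inv_one, mul_one, Units.val_one]
        rw [Finset.sum_congr rfl (fun m _ => h5 m), Finset.sum_const, Finset.card_univ, nsmul_eq_mul,
          mul_one]
      · rw [if_neg hk]
        have h5 : ∀ m : K, B m k = ((z k : ℂˣ) : ℂ) * (((b m k)⁻¹ : ℂˣ) : ℂ) := fun m => by
          change ((z k * (b m k)⁻¹ : ℂˣ) : ℂ) = _
          rw [Units.val_mul]
        rw [Finset.sum_congr rfl (fun m _ => h5 m), ← Finset.mul_sum, h2 k hk, mul_zero]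
    rw [Finset.sum_congr rfl (fun k _ => h4 k), ← Finset.sum_filter, Finset.sum_const,
      nsmul_eq_mul] at h3
    rcases mul_eq_zero.mp h3 with h5 | h5
    · have h6 : (Finset.univ.filter fun k : K => (k : G) ∈ L).card = 0 := by exact_mod_cast h5
      rw [Finset.card_eq_zero] at h6
      have h7 : (1 : K) ∈ Finset.univ.filter fun k : K => (k : G) ∈ L := by
        rw [Finset.mem_filter]
        exact ⟨Finset.mem_univ _, one_mem L⟩
      rw [h6] at h7
      exact absurd h7 (Finset.notMem_empty _)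
    · have h6 : (Fintype.card K : ℂ) ≠ 0 := by exact_mod_cast Fintype.card_ne_zero
      exact h6 h5
  refine ⟨m, m.2, fun x hx => ?_⟩
  obtain ⟨-, k, hk, hxk⟩ := id hx
  obtain ⟨ζ, -, hζ⟩ := h.same hx (hs ⟨k, hk⟩).1 hxk (hs ⟨k, hk⟩).2
  have key : ρ ((m : G)⁻¹ * g) * (s ⟨k, hk⟩ : Module.End ℂ V)
      = (s ⟨k, hk⟩ : Module.End ℂ V) * ρ ((m : G)⁻¹ * g) := by
    have h1 := hz ⟨k, hk⟩
    have h2 := hb m ⟨k, hk⟩
    rw [hm] at h1
    have h3 : ρ (m : G)⁻¹ * (s ⟨k, hk⟩ : Module.End ℂ V)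
        = ((b m ⟨k, hk⟩ : ℂˣ) : ℂ)⁻¹ • ((s ⟨k, hk⟩ : Module.End ℂ V) * ρ (m : G)⁻¹) := by
      have h4 : (s ⟨k, hk⟩ : Module.End ℂ V) * ρ (m : G)⁻¹
          = ((b m ⟨k, hk⟩ : ℂˣ) : ℂ) • (ρ (m : G)⁻¹ * (s ⟨k, hk⟩ : Module.End ℂ V)) := by
        calc (s ⟨k, hk⟩ : Module.End ℂ V) * ρ (m : G)⁻¹
            = ρ (m : G)⁻¹ * (ρ m * (s ⟨k, hk⟩ : Module.End ℂ V)) * ρ (m : G)⁻¹ := by
              rw [← mul_assoc, rep_inv_mul, one_mul]
          _ = _ := by
              rw [h2, mul_smul_comm, smul_mul_assoc, mul_assoc, mul_assoc, rep_mul_inv, mul_one]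
      rw [h4, smul_smul, inv_mul_cancel₀ (Units.ne_zero _), one_smul]
    rw [map_mul, mul_assoc, h1, mul_smul_comm, ← mul_assoc, h3, smul_mul_assoc, smul_smul,
      mul_inv_cancel₀ (Units.ne_zero _), one_smul, mul_assoc]
  rw [hζ, mul_smul_comm, smul_mul_assoc, key]

/-- the elements commuting with the normalized operators -/
def CZ : Subgroup G where
  carrier := {g | ∀ x ∈ h.EE, ρ g * (x : Module.End ℂ V) = x * ρ g}
  mul_mem' := by
    intro a b ha hb x hx
    rw [map_mul, mul_assoc, hb x hx, ← mul_assoc, ha x hx, mul_assoc]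
  one_mem' := by
    intro x _
    rw [map_one, one_mul, mul_one]
  inv_mem' := by
    intro a ha x hx
    have h1 := ha x hx
    calc ρ a⁻¹ * (x : Module.End ℂ V) = ρ a⁻¹ * ((x : Module.End ℂ V) * ρ a) * ρ a⁻¹ := by
          rw [mul_assoc, mul_assoc, rep_mul_inv, mul_one]
      _ = _ := by rw [← h1, ← mul_assoc, rep_inv_mul, one_mul]

omit h in
lemma cz_mem (h : T2 ρ L K) {g : G} : g ∈ h.CZ ↔ ∀ x ∈ h.EE, ρ g * (x : Module.End ℂ V) = x * ρ g :=
  Iff.rfl

lemma cz_normal : h.CZ.Normal := ⟨fun a ha g x hx => by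
  have h1 := h.conj_mem hx g⁻¹
  have h2 := ha _ h1
  rw [← map_inv, inv_inv, Units.val_mul, Units.val_mul, ru_val, ru_val] at h2
  calc ρ (g * a * g⁻¹) * (x : Module.End ℂ V)
      = ρ g * (ρ a * (ρ g⁻¹ * (x : Module.End ℂ V) * ρ g)) * ρ g⁻¹ := by
        rw [map_mul, map_mul]
        simp only [mul_assoc]
        rw [rep_mul_inv, mul_one]
    _ = (x : Module.End ℂ V) * ρ (g * a * g⁻¹) := by
        rw [h2, map_mul, map_mul]
        simp only [← mul_assoc]
        rw [rep_mul_inv, one_mul]⟩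

lemma le_cz : L ≤ h.CZ := by
  intro l hl x hx
  obtain ⟨-, k, hk, hxk⟩ := hx
  exact (hxk.1 l hl).symm

lemma cz_inf {k : G} (hk : k ∈ K) (hc : k ∈ h.CZ) : k ∈ L := by
  obtain ⟨x, hx, hxk⟩ := h.lift hk
  apply h.nondeg hk hx hxk
  intro l hl
  obtain ⟨y, hy, hyl⟩ := h.lift hl
  obtain ⟨a, ha, h1⟩ := h.rho hyl
  obtain ⟨b, hb, h2⟩ := h.rho hxk
  -- `y` commutes with `ρ k = b * x`, and with `b`
  have h3 := hc y hy
  have h4 : (y : Module.End ℂ V) * b = b * y := aa_comm hyl.1 hb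
  have h5 : (x : Module.End ℂ V) * a = a * x := aa_comm hxk.1 ha
  have h6 : b * ((x : Module.End ℂ V) * y) = b * ((y : Module.End ℂ V) * x) := by
    rw [← mul_assoc, ← h2, h3, h2, ← mul_assoc, h4, mul_assoc]
  have hb' : b * ((x : Module.End ℂ V) * (ρ k⁻¹)) = 1 := by
    rw [← mul_assoc, ← h2, rep_mul_inv]
  have hbu : IsUnit b := IsUnit.of_mul_eq_one _ hb'
  have h7 := hbu.mul_right_injective h6
  rw [h1, ← mul_assoc, h5, mul_assoc, h7, mul_assoc]

/-- **The complement.** -/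
theorem exists_compl : ∃ U : Subgroup G, h.CZ ≤ U ∧ K ⊓ U ≤ L ∧
    (∀ g : G, ∃ m ∈ K, ∃ u ∈ U, g = m * u) ∧ ∀ u ∈ U, ∃ m : ℕ, Odd m ∧ u ^ m ∈ h.CZ := by
  classical
  have hn := h.cz_normal
  let C : Subgroup G :=
    { carrier := {g | ∀ k ∈ K, g * k * g⁻¹ * k⁻¹ ∈ L}
      mul_mem' := by
        intro a b ha hb k hk
        have h1 := h.nc.nL.conj_mem _ (hb k hk) a
        have h2 : a * b * k * (a * b)⁻¹ * k⁻¹
            = (a * (b * k * b⁻¹ * k⁻¹) * a⁻¹) * (a * k * a⁻¹ * k⁻¹) := by group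
        rw [h2]
        exact L.mul_mem h1 (ha k hk)
      one_mem' := by
        intro k _
        have : (1 : G) * k * 1⁻¹ * k⁻¹ = 1 := by group
        rw [this]; exact L.one_mem
      inv_mem' := by
        intro a ha k hk
        have h1 := h.nc.nL.conj_mem _ (L.inv_mem (ha (a⁻¹ * k * a) (by
          have := h.nc.nK.conj_mem k hk a⁻¹
          rwa [inv_inv] at this))) 1
        have h2 : 1 * (a * (a⁻¹ * k * a) * a⁻¹ * (a⁻¹ * k * a)⁻¹)⁻¹ * 1⁻¹
            = a⁻¹ * k * a⁻¹⁻¹ * k⁻¹ := by group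
        rwa [h2] at h1 }
  have hCmem : ∀ g, g ∈ C ↔ ∀ k ∈ K, g * k * g⁻¹ * k⁻¹ ∈ L := fun _ => Iff.rfl
  have hCn : C.Normal := ⟨fun c hc g k hk => by
    have h1 : g⁻¹ * k * g ∈ K := by
      have := h.nc.nK.conj_mem k hk g⁻¹
      rwa [inv_inv] at this
    have h2 := h.nc.nL.conj_mem _ (hc _ h1) g
    have h3 : g * (c * (g⁻¹ * k * g) * c⁻¹ * (g⁻¹ * k * g)⁻¹) * g⁻¹
        = g * c * g⁻¹ * k * (g * c * g⁻¹)⁻¹ * k⁻¹ := by group
    rwa [h3] at h2⟩
  let π : G →* G ⧸ h.CZ := QuotientGroup.mk' h.CZ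
  have hπ : ∀ g, π g = 1 ↔ g ∈ h.CZ := fun g => QuotientGroup.eq_one_iff g
  have hπs : Function.Surjective π := QuotientGroup.mk'_surjective _
  let N : Subgroup (G ⧸ h.CZ) := C.map π
  have hNn : N.Normal := hCn.map π hπs
  have hN2 : IsPGroup 2 N := by
    rintro ⟨_, c, hc, rfl⟩
    refine ⟨1, ?_⟩
    apply Subtype.ext
    rw [pow_one]
    change (π c) ^ 2 = 1
    rw [← map_pow, hπ]
    obtain ⟨s, hs⟩ := h.exists_s
    obtain ⟨z, hz, hzL⟩ := h.exists_z hs hc
    intro x hx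
    obtain ⟨-, k, hk, hxk⟩ := id hx
    obtain ⟨ζ, -, hζ⟩ := h.same hx (hs ⟨k, hk⟩).1 hxk (hs ⟨k, hk⟩).2
    have h1 := hz ⟨k, hk⟩
    have h2 : z ⟨k, hk⟩ * z ⟨k, hk⟩ = 1 := by
      rw [← map_mul]
      apply hzL
      have h3 := h.exp k hk
      rw [pow_two] at h3
      exact h3
    have h3 : ((z ⟨k, hk⟩ : ℂˣ) : ℂ) * ((z ⟨k, hk⟩ : ℂˣ) : ℂ) = 1 := by
      rw [← Units.val_mul, h2, Units.val_one]
    rw [hζ, mul_smul_comm, smul_mul_assoc]
    congr 1
    rw [pow_two, map_mul, mul_assoc, h1, mul_smul_comm, ← mul_assoc, h1, smul_mul_assoc, smul_smul,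
      h3, one_smul, mul_assoc]
  obtain ⟨n, hn2⟩ := (IsPGroup.iff_card (p := 2) (G := N)).mp hN2
  have hodd : Odd N.index := by
    rw [Nat.odd_iff]
    by_contra hcon
    have h2 : 2 ∣ N.index := by omega
    rw [Subgroup.index_eq_card] at h2
    have : Fact (Nat.Prime 2) := ⟨Nat.prime_two⟩
    obtain ⟨x, hx⟩ := exists_prime_orderOf_dvd_card' 2 h2
    obtain ⟨y, rfl⟩ := QuotientGroup.mk_surjective x
    obtain ⟨g, rfl⟩ := hπs y
    obtain ⟨m, hm, hm2⟩ := h.odd g
    have h3 : (((π g : G ⧸ h.CZ) : (G ⧸ h.CZ) ⧸ N)) ^ m = 1 := by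
      rw [← QuotientGroup.mk_pow, QuotientGroup.eq_one_iff, ← map_pow]
      exact ⟨g ^ m, hm2, rfl⟩
    have h4 := orderOf_dvd_of_pow_eq_one h3
    rw [hx] at h4
    rw [Nat.odd_iff] at hm
    omega
  have hcop : Nat.Coprime (Nat.card N) N.index := by
    rw [hn2]
    exact Nat.Coprime.pow_left _ (Nat.coprime_two_left.mpr hodd)
  obtain ⟨H, hH⟩ := Subgroup.exists_right_complement'_of_coprime hcop
  refine ⟨H.comap π, ?_, ?_, ?_, ?_⟩
  · intro c hc
    rw [Subgroup.mem_comap, (hπ c).mpr hc]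
    exact one_mem H
  · rintro k ⟨hk, hkU⟩
    apply h.cz_inf hk
    rw [← hπ]
    have h1 : π k ∈ N := ⟨k, fun l hl => h.ab k hk l hl, rfl⟩
    have h2 : π k ∈ N ⊓ H := ⟨h1, hkU⟩
    rw [hH.disjoint.eq_bot] at h2
    exact h2
  · intro g
    have h1 : π g ∈ N ⊔ H := by rw [hH.sup_eq_top]; exact Subgroup.mem_top _
    obtain ⟨_, ⟨c, hc, rfl⟩, y, hy, hcy⟩ := Subgroup.mem_sup_of_normal_left.mp h1
    obtain ⟨m, hm, hmc⟩ := h.surj hc
    refine ⟨m, hm, m⁻¹ * g, ?_, by group⟩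
    have h2 : m⁻¹ * g = (m⁻¹ * c) * (c⁻¹ * g) := by group
    have h3 : π (m⁻¹ * c) = 1 := (hπ _).mpr hmc
    rw [Subgroup.mem_comap, h2, map_mul, h3, one_mul, map_mul, map_inv, ← hcy,
      inv_mul_cancel_left]
    exact hy
  · intro u hu
    have h1 : Nat.card H = N.index := by
      have h2 := hH.card_mul_card
      have h3 := N.card_mul_index
      have h4 : 0 < Nat.card N := Nat.card_pos
      exact Nat.eq_of_mul_eq_mul_left h4 (h2.trans h3.symm)
    refine ⟨Nat.card H, by rw [h1]; exact hodd, ?_⟩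
    rw [← hπ, map_pow]
    have h2 : (⟨π u, hu⟩ : H) ^ Nat.card H = 1 := pow_card_eq_one'
    exact congrArg Subtype.val h2

end T2

end Run7.h132
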