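import Mathlib
import Pool.Agent.Run7.h132.TwoB
import Pool.Agent.Run7.h132.WB2

/-!
# Fully ramified chief factors of even order: the canonical extension
-/

set_option autoImplicit false
set_option linter.unusedSectionVars false

namespace Run7.h132

open Pool.Agent.H541R3.ART Pool.Agent.W446.AS Pool.Agent.R389 Pool.Agent.Helper606_LC

/-- twisting by a linear character -/
lemma irr_mul_lin {H : Type} [Group H] [Finite H] {χ : H → ℂ} (hχ : χ ∈ Irr H) (μ : H →* ℂˣ) :
    (fun h => χ h * ((μ h : ℂˣ) : ℂ)) ∈ Irr H := by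
  classical
  have : Fintype H := Fintype.ofFinite H
  apply chr_irr (chr_mul (irr_chr hχ) (irr_chr (lin_irr μ)))
  have h3 := pr_self hχ
  rw [pr_eq] at h3 ⊢
  rw [← h3]
  congr 1
  refine Finset.sum_congr rfl fun k _ => ?_
  simp only [Pi.mul_apply]
  rw [map_inv, Units.val_inv_eq_inv_val]
  have : ((μ k : ℂˣ) : ℂ) ≠ 0 := Units.ne_zero _
  field_simp

/-- **Division by an extension.** -/
theorem quot2 {Γ U : Type} [Group Γ] [Group U] [Finite Γ] [Finite U] {q : Γ →* U} {j : U →* Γ}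
    (hqj : ∀ u, q (j u) = u) {X R : Γ → ℂ} (hX : X ∈ Irr Γ) (hXon : IrrOn q.ker X)
    (hR : R ∈ Irr Γ) {c : ℂ} (hc : ∀ e ∈ q.ker, X e = c * R e) :
    ∃ ξ ∈ Irr U, (∀ γ, R γ = X γ * ξ (q γ)) ∧
      ∀ ξ' ∈ Irr U, (∀ γ, R γ = X γ * ξ' (q γ)) → ξ' = ξ := by
  classical
  have hmul : IrrOn q.ker (X * fun _ => (1 : ℂ)) := by
    refine irrOn_congr (fun e _ => ?_) hXon
    rw [Pi.mul_apply, mul_one]
  have hnorm : q.ker.Normal := inferInstance
  have hqs : Function.Surjective q := fun u => ⟨j u, hqj u⟩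
  obtain ⟨-, key1, key2⟩ := mul_corr hnorm (irr_chr hX) (one_irrOn q.ker)
    (fun _ _ _ => rfl) hmul
  obtain ⟨b, hb, hbK, hbX⟩ := key2 R hR (by
    intro e he
    simp only [Pi.mul_apply, mul_one]
    rw [hc e he, hc 1 (one_mem _)]
    ring)
  have hKS : ∀ γ : Γ, ∃ e ∈ q.ker, ∃ s ∈ j.range, γ = e * s := by
    intro γ
    refine ⟨γ * (j (q γ))⁻¹, ?_, j (q γ), ⟨q γ, rfl⟩, by rw [inv_mul_cancel_right]⟩
    rw [MonoidHom.mem_ker, map_mul, map_inv, hqj, mul_inv_cancel]
  obtain ⟨res1, res2⟩ := res_corr hnorm (ν := fun _ => (1 : ℂ)) j.range hKS (one_irrOn q.ker)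
    (fun _ _ _ => rfl) (one_irrOn _)
  let ξ : U → ℂ := fun u => b (j u)
  have hξ : ξ ∈ Irr U := irr_surj j.rangeRestrict j.rangeRestrict_surjective (res1 b hb hbK)
  have hbξ : b = fun γ => ξ (q γ) := by
    apply res2 b hb (fun γ => ξ (q γ)) (irr_surj q hqs hξ) hbK
    · intro e he
      have h1 : q e = 1 := he
      simp only [mul_one]
      rw [h1, map_one]
    · rintro _ ⟨u, rfl⟩
      change b (j u) = b (j (q (j u)))
      rw [hqj]
  refine ⟨ξ, hξ, fun γ => ?_, ?_⟩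
  · rw [hbX, Pi.mul_apply]
    conv_lhs => rw [hbξ]
  · intro ξ' hξ' hR'
    have h1 : (fun γ => ξ' (q γ)) = b := by
      apply key1 _ (irr_surj q hqs hξ') b hb _ hbK
      · rw [← hbX]
        funext γ
        exact (hR' γ).symm
      · intro e he
        have h1 : q e = 1 := he
        simp only [mul_one]
        rw [h1, map_one]
    funext u
    have h2 := congrFun h1 (j u)
    simp only [hqj] at h2
    exact h2

variable {G : Type} [Group G] [Fintype G] {V : Type} [AddCommGroup V] [Module ℂ V]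
  [FiniteDimensional ℂ V]

lemma trace_unit_conj (a b : (Module.End ℂ V)ˣ) :
    LinearMap.trace ℂ V ((a * b * a⁻¹ : (Module.End ℂ V)ˣ) : Module.End ℂ V)
      = LinearMap.trace ℂ V (b : Module.End ℂ V) := by
  rw [Units.val_mul, Units.val_mul, LinearMap.trace_mul_comm, ← mul_assoc, Units.inv_mul, one_mul]

namespace T2

variable {ρ : Representation ℂ G V} {L K : Subgroup G} (h : T2 ρ L K)

lemma sc_mem {ζ : ℂˣ} (hζ : ζ ^ 4 = 1) : sc V ζ ∈ h.EE := by
  refine ⟨by rw [← map_pow, hζ, map_one], 1, K.one_mem, ?_⟩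
  rw [sc_val]
  exact (Sec.one ρ L).smul _

lemma dichot {x : (Module.End ℂ V)ˣ} (hx : x ∈ h.EE) : (∃ ζ : ℂˣ, ζ ^ 4 = 1 ∧ x = sc V ζ) ∨
    ∃ f ∈ h.EE, f * x = sc V (-1) * (x * f) := by
  have hnt := h.irr.1
  obtain ⟨hx4, k, hk, hxk⟩ := id hx
  by_cases hkL : k ∈ L
  · left
    obtain ⟨z, hz⟩ := h.scal_L hkL hxk
    have hz4 : z ^ 4 = 1 := by
      have h1 : ((x ^ 4 : (Module.End ℂ V)ˣ) : Module.End ℂ V) = 1 := by rw [hx4, Units.val_one]
      rw [Units.val_pow_eq_pow_val, hz, smul_pow, one_pow] at h1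
      exact smul_left_injective ℂ (one_ne_zero (α := Module.End ℂ V)) (by
        change z ^ 4 • (1 : Module.End ℂ V) = (1 : ℂ) • 1
        rw [h1, one_smul])
    have hz0 : z ≠ 0 := by
      rintro rfl
      rw [zero_pow four_ne_zero] at hz4
      exact zero_ne_one hz4
    refine ⟨Units.mk0 z hz0, Units.ext (by rw [Units.val_pow_eq_pow_val]; exact hz4), ?_⟩
    apply Units.ext
    rw [sc_val, hz]
    rfl
  · right
    obtain ⟨l, hl, hne⟩ : ∃ l ∈ K, (x : Module.End ℂ V) * ρ l ≠ ρ l * x := by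
      by_contra hcon
      push Not at hcon
      exact hkL (h.nondeg hk hx hxk hcon)
    obtain ⟨f, hf, hfl⟩ := h.lift hl
    obtain ⟨ζ, hζ, hc⟩ := h.comm hk hl hxk hfl
    refine ⟨f, hf, ?_⟩
    have hor : ζ = 1 ∨ ζ = -1 := by
      have h0 : (ζ - 1) * (ζ + 1) = 0 := by linear_combination hζ
      rcases mul_eq_zero.mp h0 with h0 | h0
      · exact Or.inl (by linear_combination h0)
      · exact Or.inr (by linear_combination h0)
    rcases hor with h1 | h1
    · exfalso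
      apply hne
      obtain ⟨a, ha, h2⟩ := h.rho hfl
      have h3 : (x : Module.End ℂ V) * a = a * x := aa_comm hxk.1 ha
      rw [h1, one_smul] at hc
      rw [h2, ← mul_assoc, h3, mul_assoc, ← hc, mul_assoc]
    · apply Units.ext
      rw [Units.val_mul, Units.val_mul, Units.val_mul, sc_val, hc, h1, smul_mul_assoc, one_mul]
      simp

instance ee_finite : Finite h.EE := by
  obtain ⟨s, hs⟩ := h.exists_s
  have h4 : NeZero 4 := ⟨four_ne_zero⟩
  let f : rootsOfUnity 4 ℂ × K → h.EE := fun x =>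
    ⟨sc V x.1 * s x.2, mul_mem (h.sc_mem x.1.2) (hs x.2).1⟩
  apply Finite.of_surjective f
  rintro ⟨x, hx⟩
  obtain ⟨-, k, hk, hxk⟩ := id hx
  obtain ⟨ζ, hζ, h1⟩ := h.same hx (hs ⟨k, hk⟩).1 hxk (hs ⟨k, hk⟩).2
  refine ⟨(⟨ζ, hζ⟩, ⟨k, hk⟩), ?_⟩
  apply Subtype.ext
  apply Units.ext
  change ((sc V ζ * s ⟨k, hk⟩ : (Module.End ℂ V)ˣ) : Module.End ℂ V) = x
  rw [Units.val_mul, sc_val, smul_mul_assoc, one_mul, h1]

/-- the natural representation -/
def RV : Representation ℂ h.EE V := (Units.coeHom (Module.End ℂ V)).comp h.EE.subtype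

lemma rv_apply (e : h.EE) : h.RV e = (e.1 : Module.End ℂ V) := rfl

/-- the normalized irreducible representation -/
lemma exists_D : ∃ (n : ℕ) (D : Representation ℂ h.EE (Fin n → ℂ)), Irred D ∧
    ∀ ζ (hζ : ζ ^ 4 = 1), D ⟨sc V ζ, h.sc_mem hζ⟩ = (ζ : ℂ) • 1 := by
  classical
  have : Fintype h.EE := Fintype.ofFinite _
  have hτ : h.RV.character ∈ Chr h.EE := chr_of_rep h.RV
  have hexp := class_expand (chr_class hτ) 1
  have h1 : h.RV.character 1 ≠ 0 := by
    rw [h.RV.char_one]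
    exact finrank_ne h.irr.1
  obtain ⟨η, hηF, hηne⟩ : ∃ η ∈ irrF h.EE, pr h.RV.character η ≠ 0 := by
    by_contra hcon
    push Not at hcon
    apply h1
    rw [hexp]
    exact Finset.sum_eq_zero fun θ hθ => by rw [hcon θ hθ, zero_mul]
  obtain ⟨n, D, hD, rfl⟩ := exists_rep (mem_irrF.mp hηF)
  refine ⟨n, D, hD, fun ζ hζ => ?_⟩
  set z : h.EE := ⟨sc V ζ, h.sc_mem hζ⟩ with hz
  have hzc : ∀ g : h.EE, z * g = g * z := fun g => Subtype.ext (sc_comm ζ g.1).symm
  obtain ⟨ε, hε⟩ := hD.scalar (D z) (fun g v => by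
    have h2 : D z * D g = D g * D z := by rw [← map_mul, ← map_mul, hzc]
    exact LinearMap.congr_fun h2 v)
  have hDz : D z = ε • 1 := LinearMap.ext fun v => hε v
  have hε0 : ε ≠ 0 := by
    have hnt := hD.1
    rintro rfl
    have h2 := rep_mul_inv D z
    rw [hDz, zero_smul, zero_mul] at h2
    exact zero_ne_one h2
  have hR : ∀ e, h.RV.character (z * e) = ζ * h.RV.character e := by
    intro e
    change LinearMap.trace ℂ V ((sc V ζ * e.1 : (Module.End ℂ V)ˣ) : Module.End ℂ V) = _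
    rw [Units.val_mul, sc_val, smul_mul_assoc, one_mul, map_smul, smul_eq_mul]
    rfl
  have hDe : ∀ e, D.character (z * e)⁻¹ = ε⁻¹ * D.character e⁻¹ := by
    intro e
    have h2 : D z⁻¹ = ε⁻¹ • 1 := by
      have h3 := rep_mul_inv D z
      rw [hDz, smul_mul_assoc, one_mul] at h3
      rw [← h3, smul_smul, inv_mul_cancel₀ hε0, one_smul]
    change LinearMap.trace ℂ _ (D (z * e)⁻¹) = _
    rw [mul_inv_rev, map_mul, h2, mul_smul_comm, mul_one, map_smul, smul_eq_mul]
    rfl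
  have h2 : pr h.RV.character D.character = (ζ * ε⁻¹) * pr h.RV.character D.character := by
    conv_lhs => rw [pr_eq, ← Equiv.sum_comp (Equiv.mulLeft z)]
    rw [pr_eq, Finset.mul_sum, Finset.mul_sum, Finset.mul_sum]
    refine Finset.sum_congr rfl fun e _ => ?_
    rw [Equiv.coe_mulLeft, hR, hDe]
    ring
  have h3 : (1 : ℂ) = ζ * ε⁻¹ := mul_right_cancel₀ hηne (by rw [one_mul]; exact h2)
  have h4 : ε = ζ := by
    rw [eq_comm, mul_inv_eq_one₀ hε0] at h3
    exact h3.symm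
  rw [hDz, h4]

/-- the character of the normalized representation -/
lemma char_D {n : ℕ} {D : Representation ℂ h.EE (Fin n → ℂ)}
    (hD : ∀ ζ (hζ : ζ ^ 4 = 1), D ⟨sc V ζ, h.sc_mem hζ⟩ = (ζ : ℂ) • 1) (e : h.EE) :
    D.character e = ((n : ℂ) / Module.finrank ℂ V) * LinearMap.trace ℂ V (e.1 : Module.End ℂ V) := by
  have hnV : (Module.finrank ℂ V : ℂ) ≠ 0 := finrank_ne h.irr.1
  rcases h.dichot e.2 with ⟨ζ, hζ, h1⟩ | ⟨f, hf, h1⟩
  · have h2 : e = ⟨sc V ζ, h.sc_mem hζ⟩ := Subtype.ext h1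
    have h3 : D.character e = (ζ : ℂ) * n := by
      change LinearMap.trace ℂ _ (D e) = _
      rw [h2, hD ζ hζ, map_smul, LinearMap.trace_one, smul_eq_mul, Module.finrank_fin_fun]
    rw [h3, h1, sc_val, map_smul, LinearMap.trace_one, smul_eq_mul]
    field_simp
  · have h2 : ∀ {W : Type} [AddCommGroup W] [Module ℂ W] [FiniteDimensional ℂ W]
        (A B B' : Module.End ℂ W),
        B * A = (-1 : ℂ) • (A * B) → B * B' = 1 → LinearMap.trace ℂ W A = 0 := by
      intro W _ _ _ A B B' hBA hBB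
      have h3 : LinearMap.trace ℂ W (B * A * B') = -LinearMap.trace ℂ W A := by
        rw [hBA, smul_mul_assoc, mul_assoc, hBB, mul_one, map_smul, smul_eq_mul]
        ring
      rw [LinearMap.trace_mul_comm, ← mul_assoc, mul_eq_one_comm.mp hBB, one_mul] at h3
      have h4 : (2 : ℂ) * LinearMap.trace ℂ W A = 0 := by linear_combination h3
      exact (mul_eq_zero.mp h4).resolve_left two_ne_zero
    have hm1 : (-1 : ℂˣ) ^ 4 = 1 := by norm_num
    have h3 : LinearMap.trace ℂ V (e.1 : Module.End ℂ V) = 0 := by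
      refine h2 _ (f : Module.End ℂ V) ((f⁻¹ : (Module.End ℂ V)ˣ) : Module.End ℂ V) ?_
        (Units.mul_inv f)
      have := congrArg Units.val h1
      rw [Units.val_mul, Units.val_mul, Units.val_mul, sc_val, smul_mul_assoc, one_mul] at this
      simpa using this
    have h4 : D.character e = 0 := by
      refine h2 _ (D ⟨f, hf⟩) (D ⟨f, hf⟩⁻¹) ?_ (rep_mul_inv D _)
      rw [← map_mul]
      have h5 : (⟨f, hf⟩ : h.EE) * e = ⟨sc V (-1), h.sc_mem hm1⟩ * (e * ⟨f, hf⟩) :=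
        Subtype.ext h1
      rw [h5, map_mul D ⟨sc V (-1), h.sc_mem hm1⟩, hD (-1) hm1, smul_mul_assoc, one_mul, map_mul]
      simp
    rw [h3, h4, mul_zero]

end T2

end Run7.h132
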