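import Mathlib
import Pool.Agent.Run7.h132.TwoC

/-!
# Fully ramified chief factors of even order: the large group
-/

set_option autoImplicit false
set_option linter.unusedSectionVars false

namespace Run7.h132

open Pool.Agent.H541R3.ART Pool.Agent.W446.AS Pool.Agent.R389 Pool.Agent.Helper606_LC

variable {G : Type} [Group G] [Fintype G] {V : Type} [AddCommGroup V] [Module ℂ V]
  [FiniteDimensional ℂ V]

namespace T2

variable {ρ : Representation ℂ G V} {L K : Subgroup G} (h : T2 ρ L K)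

/-- the group generated by the normalized operators and `U` -/
def GG (U : Subgroup G) : Subgroup ((Module.End ℂ V)ˣ × G) where
  carrier := {x | x.2 ∈ U ∧ x.1 * (ru ρ x.2)⁻¹ ∈ h.EE}
  mul_mem' := by
    rintro x y ⟨hx, hx'⟩ ⟨hy, hy'⟩
    refine ⟨mul_mem hx hy, ?_⟩
    have h1 := mul_mem hx' (h.conj_mem hy' x.2)
    have h2 : x.1 * (ru ρ x.2)⁻¹ * (ru ρ x.2 * (y.1 * (ru ρ y.2)⁻¹) * (ru ρ x.2)⁻¹)
        = (x * y).1 * (ru ρ (x * y).2)⁻¹ := by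
      rw [Prod.fst_mul, Prod.snd_mul, map_mul]
      group
    rwa [h2] at h1
  one_mem' := ⟨one_mem U, by
    rw [Prod.snd_one, map_one, inv_one, mul_one]
    exact one_mem _⟩
  inv_mem' := by
    rintro x ⟨hx, hx'⟩
    refine ⟨inv_mem hx, ?_⟩
    have h1 := h.conj_mem (inv_mem hx') (x.2)⁻¹
    have h2 : ru ρ (x.2)⁻¹ * (x.1 * (ru ρ x.2)⁻¹)⁻¹ * (ru ρ (x.2)⁻¹)⁻¹
        = (x⁻¹).1 * (ru ρ (x⁻¹).2)⁻¹ := by
      rw [Prod.fst_inv, Prod.snd_inv, map_inv]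
      group
    rwa [h2] at h1

variable {U : Subgroup G}

lemma gg_mem {x : (Module.End ℂ V)ˣ × G} : x ∈ h.GG U ↔ x.2 ∈ U ∧ x.1 * (ru ρ x.2)⁻¹ ∈ h.EE :=
  Iff.rfl

lemma gg_mk {e : (Module.End ℂ V)ˣ} (he : e ∈ h.EE) {u : G} (hu : u ∈ U) :
    (e * ru ρ u, u) ∈ h.GG U := ⟨hu, by
  change e * ru ρ u * (ru ρ u)⁻¹ ∈ h.EE
  rwa [mul_inv_cancel_right]⟩

instance gg_finite : Finite (h.GG U) := by
  let f : h.GG U → h.EE × G := fun x => (⟨_, x.2.2⟩, x.1.2)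
  apply Finite.of_injective f
  intro x y hxy
  have h1 : x.1.2 = y.1.2 := congrArg (fun z : h.EE × G => z.2) hxy
  have h2 : x.1.1 * (ru ρ x.1.2)⁻¹ = y.1.1 * (ru ρ y.1.2)⁻¹ :=
    congrArg (fun z : h.EE × G => z.1.1) hxy
  apply Subtype.ext
  apply Prod.ext
  · rw [h1] at h2
    exact mul_right_cancel h2
  · exact h1

/-- the projection -/
def qq (U : Subgroup G) : h.GG U →* U where
  toFun x := ⟨x.1.2, x.2.1⟩
  map_one' := rfl
  map_mul' _ _ := rfl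

/-- the complement -/
noncomputable def jj (U : Subgroup G) : U →* h.GG U where
  toFun u := ⟨(ru ρ u, u), by
    have h1 := h.gg_mk (one_mem h.EE) u.2
    rwa [one_mul] at h1⟩
  map_one' := Subtype.ext (Prod.ext (map_one (ru ρ)) rfl)
  map_mul' a b := Subtype.ext (Prod.ext (map_mul (ru ρ) (a : G) (b : G)) rfl)

lemma qj (u : U) : h.qq U (h.jj U u) = u := rfl

/-- the representation on `V` -/
def RR (U : Subgroup G) : Representation ℂ (h.GG U) V :=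
  (Units.coeHom (Module.End ℂ V)).comp ((MonoidHom.fst _ _).comp (h.GG U).subtype)

lemma rr_apply (x : h.GG U) : h.RR U x = (x.1.1 : Module.End ℂ V) := rfl

/-- the elements over `CZ` -/
def NN (U : Subgroup G) : Subgroup (h.GG U) :=
  h.CZ.comap ((MonoidHom.snd _ _).comp (h.GG U).subtype)

lemma nn_mem {x : h.GG U} : x ∈ h.NN U ↔ x.1.2 ∈ h.CZ := Iff.rfl

lemma nn_normal : (h.NN U).Normal := by
  have := h.cz_normal
  exact Subgroup.Normal.comap this _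

/-- elements of `CZ` commute with the normalized operators -/
lemma cz_comm {c : G} (hc : c ∈ h.CZ) {e : (Module.End ℂ V)ˣ} (he : e ∈ h.EE) :
    ru ρ c * e = e * ru ρ c := Units.ext (hc e he)

/-- the projection to the normalized operators -/
noncomputable def eps (U : Subgroup G) : h.NN U →* h.EE where
  toFun x := ⟨x.1.1.1 * (ru ρ x.1.1.2)⁻¹, x.1.2.2⟩
  map_one' := by
    apply Subtype.ext
    change (1 : (Module.End ℂ V)ˣ) * (ru ρ (1 : G))⁻¹ = 1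
    rw [map_one, inv_one, mul_one]
  map_mul' x y := by
    apply Subtype.ext
    change x.1.1.1 * y.1.1.1 * (ru ρ (x.1.1.2 * y.1.1.2))⁻¹
      = x.1.1.1 * (ru ρ x.1.1.2)⁻¹ * (y.1.1.1 * (ru ρ y.1.1.2)⁻¹)
    have h1 : ru ρ x.1.1.2 * (y.1.1.1 * (ru ρ y.1.1.2)⁻¹)
        = (y.1.1.1 * (ru ρ y.1.1.2)⁻¹) * ru ρ x.1.1.2 := h.cz_comm x.2 y.1.2.2
    have h2 : (ru ρ x.1.1.2)⁻¹ * (y.1.1.1 * (ru ρ y.1.1.2)⁻¹)
        = (y.1.1.1 * (ru ρ y.1.1.2)⁻¹) * (ru ρ x.1.1.2)⁻¹ := by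
      rw [inv_mul_eq_iff_eq_mul, ← mul_assoc (ru ρ x.1.1.2), h1, mul_inv_cancel_right]
    rw [mul_assoc x.1.1.1 (ru ρ x.1.1.2)⁻¹, h2, map_mul, mul_inv_rev]
    simp only [mul_assoc]

lemma eps_val (x : h.NN U) : (h.eps U x : (Module.End ℂ V)ˣ) = x.1.1.1 * (ru ρ x.1.1.2)⁻¹ := rfl

lemma eps_surj : Function.Surjective (h.eps U) := by
  rintro ⟨e, he⟩
  have h1 := h.gg_mk he (one_mem U)
  refine ⟨⟨⟨_, h1⟩, ?_⟩, ?_⟩
  · rw [h.nn_mem]
    exact one_mem _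
  · apply Subtype.ext
    rw [h.eps_val]
    change e * ru ρ 1 * (ru ρ 1)⁻¹ = e
    rw [mul_inv_cancel_right]

lemma ker_le : (h.qq U).ker ≤ h.NN U := by
  intro x hx
  rw [h.nn_mem]
  have h1 : x.1.2 = 1 := congrArg Subtype.val ((MonoidHom.mem_ker).mp hx)
  rw [h1]
  exact one_mem _

lemma epsk_surj : Function.Surjective ((h.eps U).comp (Subgroup.inclusion (h.ker_le (U := U)))) := by
  rintro ⟨e, he⟩
  have h1 := h.gg_mk he (one_mem U)
  refine ⟨⟨⟨_, h1⟩, rfl⟩, ?_⟩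
  apply Subtype.ext
  change e * ru ρ 1 * (ru ρ 1)⁻¹ = e
  rw [mul_inv_cancel_right]

/-- the function which is extended -/
noncomputable def nu (n : ℕ) (U : Subgroup G) (x : h.GG U) : ℂ := ((n : ℂ) / Module.finrank ℂ V) *
  LinearMap.trace ℂ V ((x.1.1 * (ru ρ x.1.2)⁻¹ : (Module.End ℂ V)ˣ) : Module.End ℂ V)

lemma nu_irrOn {n : ℕ} {D : Representation ℂ h.EE (Fin n → ℂ)} (hDi : Irred D)
    (hD : ∀ ζ (hζ : ζ ^ 4 = 1), D ⟨sc V ζ, h.sc_mem hζ⟩ = (ζ : ℂ) • 1) :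
    IrrOn (h.NN U) (h.nu n U) ∧ IrrOn (h.qq U).ker (h.nu n U) := by
  constructor
  · have h1 := irr_surj (h.eps U) h.eps_surj (irr_of_irred hDi)
    have h2 : (fun x : h.NN U => D.character (h.eps U x)) = fun x : h.NN U => h.nu n U x := by
      funext x
      rw [h.char_D hD]
      rfl
    rw [h2] at h1
    exact h1
  · have h1 := irr_surj _ (h.epsk_surj (U := U)) (irr_of_irred hDi)
    have h2 : (fun x : (h.qq U).ker => D.character
        (((h.eps U).comp (Subgroup.inclusion (h.ker_le (U := U)))) x))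
        = fun x : (h.qq U).ker => h.nu n U x := by
      funext x
      rw [h.char_D hD]
      rfl
    rw [h2] at h1
    exact h1

lemma nu_inv (n : ℕ) (g : h.GG U) {k : h.GG U} (hk : k ∈ h.NN U) :
    h.nu n U (g * k * g⁻¹) = h.nu n U k := by
  have hn := h.cz_normal
  rw [nu, nu]
  congr 1
  have hc : g.1.2 * k.1.2 * (g.1.2)⁻¹ ∈ h.CZ := hn.conj_mem _ hk _
  have he := g.2.2
  set e₁ := g.1.1 * (ru ρ g.1.2)⁻¹ with he₁
  have h1 := h.cz_comm hc he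
  have h2 : (g * k * g⁻¹).1.1 * (ru ρ (g * k * g⁻¹).1.2)⁻¹
      = (e₁ * ru ρ g.1.2) * (k.1.1 * (ru ρ k.1.2)⁻¹) * (e₁ * ru ρ g.1.2)⁻¹ := by
    have h3 : (g * k * g⁻¹).1.1 = g.1.1 * k.1.1 * (g.1.1)⁻¹ := rfl
    have h4 : (g * k * g⁻¹).1.2 = g.1.2 * k.1.2 * (g.1.2)⁻¹ := rfl
    rw [h3, h4]
    have h5 : g.1.1 = e₁ * ru ρ g.1.2 := by rw [he₁, inv_mul_cancel_right]
    rw [h5]
    have h6 : e₁⁻¹ * (ru ρ (g.1.2 * k.1.2 * (g.1.2)⁻¹))⁻¹
        = (ru ρ (g.1.2 * k.1.2 * (g.1.2)⁻¹))⁻¹ * e₁⁻¹ := by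
      rw [← mul_inv_rev, ← mul_inv_rev, h1]
    calc e₁ * ru ρ g.1.2 * k.1.1 * (e₁ * ru ρ g.1.2)⁻¹ * (ru ρ (g.1.2 * k.1.2 * (g.1.2)⁻¹))⁻¹
        = e₁ * ru ρ g.1.2 * k.1.1 * (ru ρ g.1.2)⁻¹
            * (e₁⁻¹ * (ru ρ (g.1.2 * k.1.2 * (g.1.2)⁻¹))⁻¹) := by
          rw [mul_inv_rev]; simp only [mul_assoc]
      _ = _ := by
          rw [h6, map_mul, map_mul, map_inv]
          group
  rw [h2]
  exact trace_unit_conj _ _

/-- the two sets of primes -/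
lemma cpl2 : Cpl (fun q => q = 2) (fun q => q ≠ 2) := fun _ _ => Iff.rfl

lemma isPi_odd {m : ℕ} (hm : Odd m) : IsPi (fun q => q ≠ 2) m := by
  rintro q hq hqm rfl
  rw [Nat.odd_iff] at hm
  omega

lemma odd_of_isPi {m : ℕ} (hm : IsPi (fun q => q ≠ 2) m) : Odd m := by
  rw [Nat.odd_iff]
  by_contra hcon
  have h2 : 2 ∣ m := by omega
  exact hm 2 Nat.prime_two h2 rfl

include h in
lemma isPi_two {n : ℕ} {D : Representation ℂ h.EE (Fin n → ℂ)} (hDi : Irred D) :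
    IsPi (fun q => q = 2) n := by
  have h1 : Module.finrank ℂ (Fin n → ℂ) ∣ Nat.card h.EE := Pool.Agent.R403.RS.frob_dvd D
    ((irred_iff D).mp hDi)
  rw [Module.finrank_fin_fun] at h1
  intro q hq hqn
  have : Fact q.Prime := ⟨hq⟩
  obtain ⟨x, hx⟩ := exists_prime_orderOf_dvd_card' q (hqn.trans h1)
  have h2 : x ^ 4 = 1 := Subtype.ext x.2.1
  have h3 := orderOf_dvd_of_pow_eq_one h2
  rw [hx] at h3
  have h4 : q ∣ 2 ^ 2 := by norm_num; exact h3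
  exact (Nat.prime_dvd_prime_iff_eq hq Nat.prime_two).mp (hq.dvd_of_dvd_pow h4)

/-- the determinant of a constant character -/
lemma dt_const {Γ : Type} [Group Γ] [Finite Γ] (n : ℕ) {a : Γ → ℂ} {g : Γ}
    (ha : ∀ j : ℕ, a (g ^ j) = n) : dt a g = 1 := by
  let T : Representation ℂ Γ (Fin n → ℂ) := 1
  have h1 : ∀ x, T.character x = n := by
    intro x
    change LinearMap.trace ℂ _ (1 : Module.End ℂ (Fin n → ℂ)) = _
    rw [LinearMap.trace_one, Module.finrank_fin_fun]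
  have h2 := det_dt T g
  have h3 : dt a g = dt T.character g := dt_congr (fun j => by rw [ha, h1])
  rw [h3, ← h2]
  change LinearMap.det (1 : Module.End ℂ (Fin n → ℂ)) = 1
  exact map_one _

lemma eps_odd {x : h.NN U} (hx : Odd (orderOf x)) : h.eps U x = 1 := by
  have h1 : (h.eps U x) ^ 4 = 1 := Subtype.ext (h.eps U x).2.1
  have h2 : (h.eps U x) ^ orderOf x = 1 := by rw [← map_pow, pow_orderOf_eq_one, map_one]
  apply pow_eq_one_of_coprime h1 h2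
  have : (4 : ℕ) = 2 ^ 2 := by norm_num
  rw [this]
  exact Nat.Coprime.pow_left _ (Nat.coprime_two_left.mpr hx)

/-- **The canonical extension.** -/
theorem exists_X {n : ℕ} {D : Representation ℂ h.EE (Fin n → ℂ)} (hDi : Irred D)
    (hD : ∀ ζ (hζ : ζ ^ 4 = 1), D ⟨sc V ζ, h.sc_mem hζ⟩ = (ζ : ℂ) • 1)
    (hU : ∀ u ∈ U, ∃ m : ℕ, Odd m ∧ u ^ m ∈ h.CZ) :
    Stp (fun q => q ≠ 2) (h.NN U) ⊤ ∧ h.nu n U 1 = n ∧
    ∃ X ∈ Irr (h.GG U), (∀ x ∈ h.NN U, X x = h.nu n U x) ∧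
      ∀ x, IsPi (fun q => q ≠ 2) (orderOf x) → dt X x = 1 := by
  have hnV : (Module.finrank ℂ V : ℂ) ≠ 0 := finrank_ne h.irr.1
  have hstp : Stp (fun q => q ≠ 2) (h.NN U) ⊤ := by
    intro x _
    obtain ⟨m, hm, hm2⟩ := hU x.1.2 x.2.1
    exact ⟨m, isPi_odd hm, hm2⟩
  have hnu1 : h.nu n U 1 = n := by
    rw [nu]
    have h1 : (1 : h.GG U).1.1 * (ru ρ (1 : h.GG U).1.2)⁻¹ = 1 := by
      change (1 : (Module.End ℂ V)ˣ) * (ru ρ (1 : G))⁻¹ = 1
      rw [map_one, inv_one, mul_one]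
    rw [h1, Units.val_one, LinearMap.trace_one]
    field_simp
  refine ⟨hstp, hnu1, ?_⟩
  apply ext_exists cpl2 h.nn_normal hstp (h.nu_irrOn hDi hD).1 (fun g k hk => h.nu_inv n g hk) hnu1
    (h.isPi_two hDi)
  intro k hk hko
  have h1 : h.eps U ⟨k, hk⟩ = 1 := by
    apply h.eps_odd
    rw [Subgroup.orderOf_mk]
    exact odd_of_isPi hko
  apply dt_const n
  intro j
  rw [nu]
  have h2 : h.eps U (⟨k, hk⟩ ^ j) = 1 := by rw [map_pow, h1, one_pow]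
  have h3 := congrArg Subtype.val h2
  rw [h.eps_val] at h3
  have h4 : (((⟨k, hk⟩ : h.NN U) ^ j : h.NN U) : h.GG U) = k ^ j := rfl
  rw [h4] at h3
  rw [h3]
  change _ * LinearMap.trace ℂ V (1 : Module.End ℂ V) = _
  rw [LinearMap.trace_one]
  field_simp

end T2

end Run7.h132
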