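import Mathlib
import Pool.Agent.Run7.h132.TwoD

/-!
# Fully ramified chief factors of even order: the correspondence
-/

set_option autoImplicit false
set_option linter.unusedSectionVars false

namespace Run7.h132

open Pool.Agent.H541R3.ART Pool.Agent.W446.AS Pool.Agent.R389 Pool.Agent.Helper606_LC

variable {G : Type} [Group G] [Fintype G] {V : Type} [AddCommGroup V] [Module ℂ V]
  [FiniteDimensional ℂ V]

/-- compatibility with traces, semilinear form -/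
lemma PsiD.tr2 {ρ : Representation ℂ G V} {K : Subgroup G} {σ : ℂ ≃+* ℂ}
    {Ψ : Module.End ℂ V → Module.End ℂ V} (hΨ : PsiD ρ K σ Ψ) {a : Module.End ℂ V}
    (ha : a ∈ AA ρ K) {x y : Module.End ℂ V}
    (hx : ∀ k ∈ K, σ (LinearMap.trace ℂ V (ρ k * x)) = LinearMap.trace ℂ V (ρ k * y)) :
    σ (LinearMap.trace ℂ V (a * x)) = LinearMap.trace ℂ V (Ψ a * y) := by
  induction ha using Submodule.span_induction with
  | mem z hz =>
    obtain ⟨l, rfl⟩ := hz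
    simp only
    rw [hΨ.fix _ l.2, hx l l.2]
  | zero => rw [hΨ.zero, zero_mul, zero_mul, map_zero, map_zero]
  | add z w _ _ hz hw => rw [hΨ.add, add_mul, add_mul, map_add, map_add, map_add, hz, hw]
  | smul c z _ hz =>
    rw [hΨ.smul, smul_mul_assoc, smul_mul_assoc, LinearMap.map_smul, LinearMap.map_smul,
      smul_eq_mul, smul_eq_mul, map_mul, hz]

namespace T2

variable {ρ : Representation ℂ G V} {L K : Subgroup G} (h : T2 ρ L K)

include h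

/-- the automorphism acts on the normalized operators by scalars -/
lemma exists_lam {σ : ℂ ≃+* ℂ} {Ψ : Module.End ℂ V → Module.End ℂ V} (hΨ : PsiD ρ K σ Ψ) :
    ∃ lam : h.EE →* ℂˣ,
      (∀ e : h.EE, Ψ (e.1 : Module.End ℂ V) = ((lam e : ℂˣ) : ℂ) • (e.1 : Module.End ℂ V)) ∧
      (∀ (e : h.EE) (g : G), lam ⟨ru ρ g * e.1 * (ru ρ g)⁻¹, h.conj_mem e.2 g⟩ = lam e) ∧
      ∀ ζ (hζ : ζ ^ 4 = 1), ((lam ⟨sc V ζ, h.sc_mem hζ⟩ : ℂˣ) : ℂ) * ζ = σ ζ := by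
  have hnt := h.irr.1
  obtain ⟨c, hc⟩ := h.hL
  have h1 : ∀ e : h.EE, ∃ z : ℂ, Ψ (e.1 : Module.End ℂ V) = z • (e.1 : Module.End ℂ V) := by
    rintro ⟨e, he⟩
    obtain ⟨-, k, hk, hek⟩ := id he
    have h2 : Sec ρ L k (Ψ (e : Module.End ℂ V)) := by
      obtain ⟨h3, a, ha, h4⟩ := hek
      refine ⟨fun l hl => ?_, Ψ a, hΨ.sub_mem h.nc.le ha, ?_⟩
      · have h5 : ρ l = Ψ (ρ l) := (hΨ.fix l (h.nc.le hl)).symm
        have h6 : ρ l ∈ AA ρ K := aa_mem ρ (h.nc.le hl)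
        rw [h5, ← hΨ.mul (h.ee_aa he) h6, ← hΨ.mul h6 (h.ee_aa he), h3 l hl]
      · have h5 : Ψ (ρ k) = ρ k := hΨ.fix k hk
        rw [h4, hΨ.mul (aa_mono ρ h.nc.le ha) (aa_mem ρ hk), h5]
    exact h2.prop h.irr h.nc.nL hc hek e.ne_zero
  choose z hz using h1
  have hmul : ∀ e f : h.EE, z (e * f) = z e * z f := by
    intro e f
    have h2 := hΨ.mul (h.ee_aa e.2) (h.ee_aa f.2)
    have h3 : (e.1 : Module.End ℂ V) * (f.1 : Module.End ℂ V) = ((e * f).1 : Module.End ℂ V) := by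
      rw [Subgroup.coe_mul, Units.val_mul]
    rw [h3, hz, hz, hz, smul_mul_smul_comm, h3] at h2
    exact smul_left_injective ℂ (e * f).1.ne_zero h2
  have hone : z 1 = 1 := by
    have h2 := hz 1
    rw [Subgroup.coe_one, Units.val_one, hΨ.one] at h2
    have h3 : (1 : ℂ) • (1 : Module.End ℂ V) = z 1 • 1 := by rw [one_smul]; exact h2
    exact (smul_left_injective ℂ one_ne_zero h3).symm
  have hz0 : ∀ e, z e ≠ 0 := by
    intro e h0
    have h2 := hmul e e⁻¹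
    rw [mul_inv_cancel, hone, h0, zero_mul] at h2
    exact one_ne_zero h2
  refine ⟨{ toFun := fun e => Units.mk0 (z e) (hz0 e)
            map_one' := Units.ext hone
            map_mul' := fun e f => Units.ext (hmul e f) }, fun e => hz e, fun e g => ?_,
          fun ζ hζ => ?_⟩
  · apply Units.ext
    change z ⟨ru ρ g * e.1 * (ru ρ g)⁻¹, h.conj_mem e.2 g⟩ = z e
    have h2 := hz ⟨ru ρ g * e.1 * (ru ρ g)⁻¹, h.conj_mem e.2 g⟩
    have h3 : ((ru ρ g * e.1 * (ru ρ g)⁻¹ : (Module.End ℂ V)ˣ) : Module.End ℂ V)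
        = ρ g * (e.1 : Module.End ℂ V) * ρ g⁻¹ := by
      rw [← map_inv, Units.val_mul, Units.val_mul, ru_val, ru_val]
    have h4 := hΨ.conj h.nc.nK (h.ee_aa e.2) g
    rw [← h3, hz e, mul_smul_comm, smul_mul_assoc, ← h3] at h4
    have h5 : z ⟨ru ρ g * e.1 * (ru ρ g)⁻¹, h.conj_mem e.2 g⟩ •
        ((ru ρ g * e.1 * (ru ρ g)⁻¹ : (Module.End ℂ V)ˣ) : Module.End ℂ V)
        = z e • ((ru ρ g * e.1 * (ru ρ g)⁻¹ : (Module.End ℂ V)ˣ) : Module.End ℂ V) := by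
      rw [← h4]
      exact h2.symm
    exact smul_left_injective ℂ (ru ρ g * e.1 * (ru ρ g)⁻¹).ne_zero h5
  · change z ⟨sc V ζ, h.sc_mem hζ⟩ * ζ = σ ζ
    have h2 := hz ⟨sc V ζ, h.sc_mem hζ⟩
    rw [sc_val, hΨ.smul, hΨ.one, smul_smul] at h2
    exact (smul_left_injective ℂ (one_ne_zero (α := Module.End ℂ V)) h2).symm

/-- the scalars as a linear character of the large group -/
lemma exists_Lam {lam : h.EE →* ℂˣ}
    (hlam : ∀ (e : h.EE) (g : G), lam ⟨ru ρ g * e.1 * (ru ρ g)⁻¹, h.conj_mem e.2 g⟩ = lam e)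
    (U : Subgroup G) :
    ∃ Lam : h.GG U →* ℂˣ, ∀ x : h.GG U, Lam x = lam ⟨x.1.1 * (ru ρ x.1.2)⁻¹, x.2.2⟩ := by
  refine ⟨{ toFun := fun x => lam ⟨x.1.1 * (ru ρ x.1.2)⁻¹, x.2.2⟩
            map_one' := ?_
            map_mul' := ?_ }, fun x => rfl⟩
  · have h1 : (⟨(1 : h.GG U).1.1 * (ru ρ (1 : h.GG U).1.2)⁻¹, (1 : h.GG U).2.2⟩ : h.EE) = 1 := by
      apply Subtype.ext
      change (1 : (Module.End ℂ V)ˣ) * (ru ρ (1 : G))⁻¹ = 1
      rw [map_one, inv_one, mul_one]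
    rw [h1, map_one]
  · intro x y
    rw [← hlam ⟨y.1.1 * (ru ρ y.1.2)⁻¹, y.2.2⟩ x.1.2, ← map_mul]
    congr 1
    apply Subtype.ext
    change x.1.1 * y.1.1 * (ru ρ (x.1.2 * y.1.2))⁻¹
      = x.1.1 * (ru ρ x.1.2)⁻¹ * (ru ρ x.1.2 * (y.1.1 * (ru ρ y.1.2)⁻¹) * (ru ρ x.1.2)⁻¹)
    rw [map_mul]
    group

lemma tr_zero {x f : (Module.End ℂ V)ˣ} (h1 : f * x = sc V (-1) * (x * f)) :
    LinearMap.trace ℂ V (x : Module.End ℂ V) = 0 := by
  have h2 := congrArg Units.val h1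
  rw [Units.val_mul, Units.val_mul, Units.val_mul, sc_val, smul_mul_assoc, one_mul] at h2
  have h3 : LinearMap.trace ℂ V ((f : Module.End ℂ V) * x * ((f⁻¹ : (Module.End ℂ V)ˣ) : Module.End ℂ V))
      = -LinearMap.trace ℂ V (x : Module.End ℂ V) := by
    rw [h2, smul_mul_assoc, mul_assoc, Units.mul_inv, mul_one, map_smul, smul_eq_mul]
    simp
  rw [LinearMap.trace_mul_comm, ← mul_assoc, Units.inv_mul, one_mul] at h3
  have h4 : (2 : ℂ) * LinearMap.trace ℂ V (x : Module.End ℂ V) = 0 := by linear_combination h3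
  exact (mul_eq_zero.mp h4).resolve_left two_ne_zero

/-- **The canonical extension and Galois automorphisms.** -/
lemma gal_X {U : Subgroup G} {n : ℕ} {D : Representation ℂ h.EE (Fin n → ℂ)} (hDi : Irred D)
    (hD : ∀ ζ (hζ : ζ ^ 4 = 1), D ⟨sc V ζ, h.sc_mem hζ⟩ = (ζ : ℂ) • 1)
    (hstp : Stp (fun q => q ≠ 2) (h.NN U) ⊤) (hnu1 : h.nu n U 1 = n) {X : h.GG U → ℂ}
    (hX : X ∈ Irr (h.GG U)) (hXN : ∀ x ∈ h.NN U, X x = h.nu n U x)
    (hdt : ∀ x, IsPi (fun q => q ≠ 2) (orderOf x) → dt X x = 1)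
    {N : ℕ} (hN : 0 < N) (hΓ : Nat.card (h.GG U) ∣ N) {k : (ZMod N)ˣ} {σ : ℂ ≃+* ℂ}
    (hσ : ∀ z : ℂ, z ^ N = 1 → σ z = z ^ (k : ZMod N).val) {lam : h.EE →* ℂˣ}
    (hlam : ∀ ζ (hζ : ζ ^ 4 = 1), ((lam ⟨sc V ζ, h.sc_mem hζ⟩ : ℂˣ) : ℂ) * ζ = σ ζ)
    {Lam : h.GG U →* ℂˣ} (hLam : ∀ x : h.GG U, Lam x = lam ⟨x.1.1 * (ru ρ x.1.2)⁻¹, x.2.2⟩) :
    ∀ x, pw k X x = X x * ((Lam x : ℂˣ) : ℂ) := by
  have hnV : (Module.finrank ℂ V : ℂ) ≠ 0 := finrank_ne h.irr.1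
  have hDσ : ∀ e : h.EE, σ (D.character e) = ((lam e : ℂˣ) : ℂ) * D.character e := by
    intro e
    rcases h.dichot e.2 with ⟨ζ, hζ, h1⟩ | ⟨f, hf, h1⟩
    · have h2 : e = ⟨sc V ζ, h.sc_mem hζ⟩ := Subtype.ext h1
      have h3 : D.character e = (ζ : ℂ) * n := by
        change LinearMap.trace ℂ _ (D e) = _
        rw [h2, hD ζ hζ, map_smul, LinearMap.trace_one, smul_eq_mul, Module.finrank_fin_fun]
      rw [h3, map_mul, map_natCast, h2, ← hlam ζ hζ, mul_assoc]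
    · have h2 : D.character e = 0 := by rw [h.char_D hD, h.tr_zero h1, mul_zero]
      rw [h2, map_zero, mul_zero]
  have hnuD : ∀ x : h.NN U, h.nu n U x = D.character (h.eps U x) := by
    intro x
    rw [h.char_D hD]
    rfl
  have hLam4 : ∀ x, (Lam x) ^ 4 = 1 := by
    intro x
    rw [hLam, ← map_pow]
    have h1 : (⟨x.1.1 * (ru ρ x.1.2)⁻¹, x.2.2⟩ : h.EE) ^ 4 = 1 := Subtype.ext x.2.2.1
    rw [h1, map_one]
  have hLodd : ∀ x, IsPi (fun q => q ≠ 2) (orderOf x) → Lam x = 1 := by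
    intro x hx
    apply pow_eq_one_of_coprime (hLam4 x) (b := orderOf x)
    · rw [← map_pow, pow_orderOf_eq_one, map_one]
    · have : (4 : ℕ) = 2 ^ 2 := by norm_num
      rw [this]
      exact Nat.Coprime.pow_left _ (Nat.coprime_two_left.mpr (odd_of_isPi hx))
  have key := ext_unique cpl2 h.nn_normal hstp hX
    (irr_mul_lin (irr_pw hN hΓ k hX) Lam⁻¹) (h.nu_irrOn hDi hD).1 hXN (by
      intro x hx
      have hxN : x ^ (k : ZMod N).val ∈ h.NN U := Subgroup.pow_mem _ hx _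
      change X (x ^ (k : ZMod N).val) * (((Lam x)⁻¹ : ℂˣ) : ℂ) = _
      rw [hXN _ hxN, hnuD ⟨_, hxN⟩, hnuD ⟨x, hx⟩]
      have h1 : (⟨x ^ (k : ZMod N).val, hxN⟩ : h.NN U) = ⟨x, hx⟩ ^ (k : ZMod N).val := rfl
      rw [h1, map_pow, ← char_pow D hN hσ (by
        rw [← map_pow]
        have h2 : (⟨x, hx⟩ : h.NN U) ^ N = 1 := Subtype.ext (pow_card_dvd hΓ x)
        rw [h2, map_one]), hDσ]
      have h2 : lam (h.eps U ⟨x, hx⟩) = Lam x := by
        rw [hLam]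
        rfl
      rw [h2, Units.val_inv_eq_inv_val]
      have h3 : ((Lam x : ℂˣ) : ℂ) ≠ 0 := Units.ne_zero _
      field_simp) hnu1 (h.isPi_two hDi) hdt (by
      intro x hx
      have h1 : dt (fun y => pw k X y * ((((Lam⁻¹ : h.GG U →* ℂˣ) y : ℂˣ)) : ℂ)) x
          = dt (pw k X) x := by
        apply dt_congr
        intro j
        have h2 : (Lam⁻¹ : h.GG U →* ℂˣ) (x ^ j) = 1 := by
          rw [map_pow, MonoidHom.inv_apply, hLodd x hx, inv_one, one_pow]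
        rw [h2, Units.val_one, mul_one]
      rw [h1]
      have h2 : dt (pw k X) x = dt X (x ^ (k : ZMod N).val) := by
        refine dt_map (fun u : h.GG U => u ^ (k : ZMod N).val) X ?_ ?_
        · apply Nat.Coprime.orderOf_pow
          exact Nat.Coprime.coprime_dvd_left ((orderOf_dvd_natCard x).trans hΓ)
            (ZMod.val_coe_unit_coprime k).symm
        · intro i
          rw [← pow_mul, ← pow_mul, mul_comm]
      rw [h2]
      apply hdt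
      exact hx.dvd (orderOf_pow_dvd _))
  intro x
  have h1 := congrFun key x
  rw [h1]
  change _ = pw k X x * (((Lam x)⁻¹ : ℂˣ) : ℂ) * ((Lam x : ℂˣ) : ℂ)
  rw [Units.val_inv_eq_inv_val, mul_assoc, inv_mul_cancel₀ (Units.ne_zero _), mul_one]

lemma rr_irred {U : Subgroup G} (hLU : L ≤ U) (hG : ∀ g : G, ∃ m ∈ K, ∃ u ∈ U, g = m * u) :
    Irred (h.RR U) := by
  refine ⟨h.irr.1, fun X hX => h.irr.2 X fun g v hv => ?_⟩
  have hU : ∀ u ∈ U, ∀ v ∈ X, ρ u v ∈ X := fun u hu v hv => hX (h.jj U ⟨u, hu⟩) v hv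
  have ht : ∀ e ∈ h.EE, ∀ v ∈ X, (e : Module.End ℂ V) v ∈ X := by
    intro e he v hv
    have h1 := hX ⟨_, h.gg_mk he (one_mem U)⟩ v hv
    rw [h.rr_apply] at h1
    simp only [map_one, mul_one] at h1
    exact h1
  have ha : ∀ a ∈ AA ρ L, ∀ v ∈ X, a v ∈ X := by
    intro a ha v hv
    induction ha using Submodule.span_induction with
    | mem x hx =>
      obtain ⟨l, rfl⟩ := hx
      exact hU l (hLU l.2) v hv
    | zero => rw [LinearMap.zero_apply]; exact X.zero_mem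
    | add x y _ _ hx hy => rw [LinearMap.add_apply]; exact X.add_mem hx hy
    | smul c x _ hx => rw [LinearMap.smul_apply]; exact X.smul_mem c hx
  obtain ⟨m, hm, u, hu, rfl⟩ := hG g
  obtain ⟨x, hx, hxm⟩ := h.lift hm
  obtain ⟨a, ha1, ha2⟩ := h.rho hxm
  rw [map_mul, ha2]
  exact ha a ha1 _ (ht _ hx _ (hU u hu v hv))

end T2

end Run7.h132
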