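import Mathlib
import Pool.Agent.Run7.h132.TwoE
import Pool.Agent.Run7.h132.WD

/-!
# Chief factors of even order on which a group of odd order acts
-/

set_option autoImplicit false
set_option linter.unusedSectionVars false

namespace Run7.h132

open Pool.Agent.H541R3.ART Pool.Agent.W446.AS Pool.Agent.R389 Pool.Agent.Helper606_LC

namespace T2

variable {G : Type} [Group G] [Fintype G] {V : Type} [AddCommGroup V] [Module ℂ V]
  [FiniteDimensional ℂ V]

variable {ρ : Representation ℂ G V} {L K : Subgroup G} (h : T2 ρ L K)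

include h

/-- **Fully ramified chief factors of even order.** -/
theorem mch : Mch ρ.character := by
  classical
  have hnV : (Module.finrank ℂ V : ℂ) ≠ 0 := finrank_ne h.irr.1
  obtain ⟨U, hCU, hKU, hG, hodd⟩ := h.exists_compl
  have hLU : L ≤ U := h.le_cz.trans hCU
  obtain ⟨hco, hKnU⟩ := h.nc.compl_coatom h.ab hLU hKU hG
  have hself := h.nc.selfnorm hco hLU hKnU
  obtain ⟨n, D, hDi, hD⟩ := h.exists_D
  obtain ⟨hstp, hnu1, X, hX, hXN, hdt⟩ := h.exists_X hDi hD hodd
  have hXker : IrrOn (h.qq U).ker X :=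
    irrOn_congr (fun x hx => (hXN x (h.ker_le hx)).symm) (h.nu_irrOn hDi hD).2
  have hR : (h.RR U).character ∈ Irr (h.GG U) := irr_of_irred (h.rr_irred hLU hG)
  have hker : ∀ x ∈ (h.qq U).ker, X x
      = ((n : ℂ) / Module.finrank ℂ V) * (h.RR U).character x := by
    intro x hx
    rw [hXN x (h.ker_le hx), nu]
    congr 1
    have h1 : x.1.2 = 1 := congrArg Subtype.val ((MonoidHom.mem_ker).mp hx)
    rw [h1, map_one, inv_one, mul_one]
    rfl
  obtain ⟨ξ, hξ, hRξ, huniq⟩ := quot2 h.qj hX hXker hR hker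
  have hχ := irr_of_irred h.irr
  obtain ⟨cK, hcK⟩ := h.hK
  set N := Nat.card G * Nat.card (h.GG U) with hNdef
  have hN : 0 < N := Nat.mul_pos Nat.card_pos Nat.card_pos
  have hGN : Nat.card G ∣ N := Dvd.intro _ rfl
  have hΓ : Nat.card (h.GG U) ∣ N := Dvd.intro_left _ rfl
  have hU : Nat.card U ∣ N := (Subgroup.card_subgroup_dvd_card _).trans hGN
  -- elements of the large group
  have hform : ∀ x : h.GG U, (h.RR U).character x
      = LinearMap.trace ℂ V (((⟨x.1.1 * (ru ρ x.1.2)⁻¹, x.2.2⟩ : h.EE).1 : Module.End ℂ V)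
        * ρ x.1.2) := by
    intro x
    change LinearMap.trace ℂ V (x.1.1 : Module.End ℂ V) = _
    congr 1
    change (x.1.1 : Module.End ℂ V)
      = ((x.1.1 * (ru ρ x.1.2)⁻¹ : (Module.End ℂ V)ˣ) : Module.End ℂ V) * ρ x.1.2
    rw [← ru_val ρ x.1.2, ← Units.val_mul, inv_mul_cancel_right]
  have main : ∀ k : (ZMod N)ˣ, pw k ρ.character = ρ.character ↔ pw k ξ = ξ := by
    intro k
    obtain ⟨σ, hσ⟩ := exists_aut_pow hN k
    constructor
    · intro hk
      have hχσ : ∀ g, σ (ρ.character g) = ρ.character g := fun g => by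
        rw [char_pow ρ hN hσ (pow_card_dvd hGN g)]
        exact congrFun hk g
      obtain ⟨Ψ, hΨ⟩ := exists_psi h.irr h.nc.nK hcK σ (fun k _ => hχσ k)
      obtain ⟨lam, hlam1, hlam2, hlam3⟩ := h.exists_lam hΨ
      obtain ⟨Lam, hLam⟩ := h.exists_Lam hlam2 U
      have hXg := h.gal_X hDi hD hstp hnu1 hX hXN hdt hN hΓ hσ hlam3 hLam
      have hRg : ∀ x, pw k (h.RR U).character x = (h.RR U).character x * ((Lam x : ℂˣ) : ℂ) := by
        intro x
        change (h.RR U).character (x ^ (k : ZMod N).val) = _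
        rw [← char_pow (h.RR U) hN hσ (pow_card_dvd hΓ x), hform,
          hΨ.tr (h.ee_aa x.2.2) (x := ρ x.1.2) (fun k _ => by
            rw [← map_mul]
            exact hχσ _), hlam1 ⟨x.1.1 * (ru ρ x.1.2)⁻¹, x.2.2⟩, smul_mul_assoc, map_smul,
          smul_eq_mul, hLam, mul_comm]
      apply huniq _ (irr_pw hN hU k hξ)
      intro γ
      have h1 := hRξ (γ ^ (k : ZMod N).val)
      have h2 := hRg γ
      have h3 := hXg γ
      change (h.RR U).character (γ ^ (k : ZMod N).val) = _ at h2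
      change X (γ ^ (k : ZMod N).val) = _ at h3
      rw [h2, h3, map_pow] at h1
      change _ = X γ * ξ ((h.qq U γ) ^ (k : ZMod N).val)
      have h4 : ((Lam γ : ℂˣ) : ℂ) ≠ 0 := Units.ne_zero _
      have h5 : (h.RR U).character γ * ((Lam γ : ℂˣ) : ℂ)
          = X γ * ξ ((h.qq U γ) ^ (k : ZMod N).val) * ((Lam γ : ℂˣ) : ℂ) := by
        rw [h1]; ring
      exact mul_right_cancel₀ h4 h5
    · intro hk
      have hξσ : ∀ u, σ (ξ u) = ξ u := fun u => by
        rw [irr_pow hN hσ hξ (pow_card_dvd hU u)]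
        exact congrFun hk u
      have hL : ∀ l ∈ L, σ (ρ.character l) = ρ.character l := by
        intro l hl
        have h1 := hRξ (h.jj U ⟨l, hLU hl⟩)
        have h2 : (h.RR U).character (h.jj U ⟨l, hLU hl⟩) = ρ.character l := rfl
        have h3 : X (h.jj U ⟨l, hLU hl⟩) = n := by
          rw [hXN _ (by rw [h.nn_mem]; exact h.le_cz hl), nu]
          have h4 : (h.jj U ⟨l, hLU hl⟩).1.1 * (ru ρ (h.jj U ⟨l, hLU hl⟩).1.2)⁻¹ = 1 := by
            change ru ρ l * (ru ρ l)⁻¹ = 1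
            rw [mul_inv_cancel]
          rw [h4, Units.val_one, LinearMap.trace_one]
          field_simp
        rw [h2, h3, h.qj] at h1
        rw [h1, map_mul, map_natCast, hξσ]
      have hK : ∀ k ∈ K, σ (ρ.character k) = ρ.character k := by
        intro k hk
        by_cases hkL : k ∈ L
        · exact hL k hkL
        · rw [h.van k hk hkL, map_zero]
      obtain ⟨Ψ, hΨ⟩ := exists_psi h.irr h.nc.nK hcK σ hK
      obtain ⟨lam, hlam1, hlam2, hlam3⟩ := h.exists_lam hΨ
      obtain ⟨Lam, hLam⟩ := h.exists_Lam hlam2 U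
      have hXg := h.gal_X hDi hD hstp hnu1 hX hXN hdt hN hΓ hσ hlam3 hLam
      have hRσ : ∀ x, σ ((h.RR U).character x) = (h.RR U).character x * ((Lam x : ℂˣ) : ℂ) := by
        intro x
        rw [char_pow (h.RR U) hN hσ (pow_card_dvd hΓ x), hRξ, hRξ x]
        have h1 := hXg x
        change X (x ^ (k : ZMod N).val) = _ at h1
        rw [h1, map_pow]
        have h2 := congrFun hk (h.qq U x)
        change ξ ((h.qq U x) ^ (k : ZMod N).val) = _ at h2
        rw [h2]
        ring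
      funext g
      change ρ.character (g ^ (k : ZMod N).val) = _
      rw [← char_pow ρ hN hσ (pow_card_dvd hGN g)]
      obtain ⟨m, hm, u, hu, rfl⟩ := hG g
      obtain ⟨x, hx, hxm⟩ := h.lift hm
      obtain ⟨a, ha1, ha2⟩ := h.rho hxm
      have hval : ∀ l ∈ L, σ (LinearMap.trace ℂ V (ρ l * ((x : Module.End ℂ V) * ρ u)))
          = LinearMap.trace ℂ V (ρ l * (((lam ⟨x, hx⟩ : ℂˣ) : ℂ) • ((x : Module.End ℂ V) * ρ u))) := by
        intro l hl
        have h1 : ρ l * ((x : Module.End ℂ V) * ρ u) = (x : Module.End ℂ V) * ρ (l * u) := by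
          rw [← mul_assoc, ← hxm.1 l hl, mul_assoc, ← map_mul]
        have hlu : l * u ∈ U := mul_mem (hLU hl) hu
        have h2 := hRσ ⟨_, h.gg_mk hx hlu⟩
        have h3 : (h.RR U).character ⟨_, h.gg_mk hx hlu⟩
            = LinearMap.trace ℂ V ((x : Module.End ℂ V) * ρ (l * u)) := rfl
        have h4 : Lam ⟨_, h.gg_mk hx hlu⟩ = lam ⟨x, hx⟩ := by
          rw [hLam]
          congr 1
          apply Subtype.ext
          change x * ru ρ (l * u) * (ru ρ (l * u))⁻¹ = x
          rw [mul_inv_cancel_right]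
        rw [h3, h4] at h2
        rw [mul_smul_comm, h1, h2, map_smul, smul_eq_mul, mul_comm]
      have hΨL : PsiD ρ L σ Ψ := ⟨hΨ.add, hΨ.smul, fun k hk => hΨ.fix k (h.nc.le hk)⟩
      have h1 := hΨL.tr2 ha1 hval
      have h2 : Ψ a * (((lam ⟨x, hx⟩ : ℂˣ) : ℂ) • (x : Module.End ℂ V)) = ρ m := by
        have h3 : Ψ (a * (x : Module.End ℂ V)) = Ψ a * Ψ (x : Module.End ℂ V) :=
          hΨ.mul (aa_mono ρ h.nc.le ha1) (h.ee_aa hx)
        rw [hlam1 ⟨x, hx⟩, ← ha2, hΨ.fix m hm] at h3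
        exact h3.symm
      change σ (LinearMap.trace ℂ V (ρ (m * u))) = LinearMap.trace ℂ V (ρ (m * u))
      rw [map_mul]
      conv_lhs => rw [ha2, mul_assoc, h1, ← smul_mul_assoc, ← mul_assoc, h2]
  refine ⟨U, hco.1, hself, ξ, hξ, ?_⟩
  exact pw_change hN hGN hU hχ hξ main Nat.card_pos dvd_rfl (Subgroup.card_subgroup_dvd_card _)

end T2

variable {G : Type} [Group G] [Finite G]

/-- **Complemented chief factors of even order on which a group of odd order acts.** -/
theorem chief_two {χ : G → ℂ} (hχ : χ ∈ Irr G) (hprim : Prim χ) {L K U : Subgroup G} (h : NC L K)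
    (hcard : ∃ a, L.relIndex K = 2 ^ a)
    (hodd : ∀ g : G, ∃ m : ℕ, Odd m ∧ ∀ k ∈ K, g ^ m * k * (g ^ m)⁻¹ * k⁻¹ ∈ L)
    (hU : IsCoatom U) (hLU : L ≤ U) (hKU : ¬ K ≤ U) : Mch χ := by
  have : Fintype G := Fintype.ofFinite G
  obtain ⟨hab, hexp⟩ := h.pgroup Nat.prime_two hcard
  obtain ⟨c, hK⟩ := (homog_or_ind h.nK hχ).resolve_right hprim
  have hL := (homog_or_ind h.nL hχ).resolve_right hprim
  have hcl : ∀ g x : G, χ (x * g * x⁻¹) = χ g :=
    (show Virt χ from AddSubgroup.subset_closure hχ).conj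
  rcases dich h hab hK (fun g k _ => by rw [hcl]) with h1 | h1
  · exact chief_A hχ h hU hLU hKU hK h1
  · obtain ⟨n, ρ, hρ, rfl⟩ := exists_rep hχ
    have hT : T2 ρ L K := ⟨hρ, h, hab, hexp, hL, ⟨c, hK⟩, by
      intro k hk hkL
      have h2 := h1 k hk hkL
      rcases mul_eq_zero.mp h2 with h3 | h3
      · exact absurd h3 (irrOn_scal hK)
      · exact h3, hodd⟩
    exact hT.mch

end Run7.h132
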