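import Mathlib
import Pool.Agent.Run7.h132.TwoF

/-!
# Groups with a solvable quotient which is not nilpotent
-/

set_option autoImplicit false
set_option linter.unusedSectionVars false

namespace Run7.h132

open Pool.Agent.H541R3.ART Pool.Agent.W446.AS Pool.Agent.R389 Pool.Agent.Helper606_LC

variable {G : Type} [Group G] [Finite G]

/-- some maximal subgroup containing `L` is not normal -/
def Nq (L : Subgroup G) : Prop := ∃ U : Subgroup G, IsCoatom U ∧ L ≤ U ∧ ¬ U.Normal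

/-- coatoms of quotients -/
lemma coatom_comap {L : Subgroup G} [L.Normal] {H : Subgroup (G ⧸ L)} (hH : IsCoatom H) :
    IsCoatom (H.comap (QuotientGroup.mk' L)) := by
  have hs := QuotientGroup.mk'_surjective L
  refine ⟨fun h1 => hH.1 ?_, fun X hX => ?_⟩
  · rw [← Subgroup.map_comap_eq_self_of_surjective hs H, h1]
    exact Subgroup.map_top_of_surjective _ hs
  · have h1 : H < X.map (QuotientGroup.mk' L) := by
      rw [← Subgroup.map_comap_eq_self_of_surjective hs H]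
      refine lt_of_le_of_ne (Subgroup.map_mono hX.le) ?_
      intro h2
      have h3 := congrArg (Subgroup.comap (QuotientGroup.mk' L)) h2
      rw [Subgroup.comap_map_eq, Subgroup.comap_map_eq, QuotientGroup.ker_mk'] at h3
      have h4 : L ≤ H.comap (QuotientGroup.mk' L) := by
        intro l hl
        rw [Subgroup.mem_comap]
        have : (QuotientGroup.mk' L) l = 1 := (QuotientGroup.eq_one_iff l).mpr hl
        rw [this]
        exact one_mem H
      rw [sup_eq_left.mpr h4, sup_eq_left.mpr (h4.trans hX.le)] at h3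
      exact hX.ne h3
    have h2 := hH.2 _ h1
    have h4 : L ≤ H.comap (QuotientGroup.mk' L) := by
      intro l hl
      rw [Subgroup.mem_comap]
      have : (QuotientGroup.mk' L) l = 1 := (QuotientGroup.eq_one_iff l).mpr hl
      rw [this]
      exact one_mem H
    have h3 := congrArg (Subgroup.comap (QuotientGroup.mk' L)) h2
    rw [Subgroup.comap_map_eq, QuotientGroup.ker_mk', Subgroup.comap_top,
      sup_eq_left.mpr (h4.trans hX.le)] at h3
    exact h3

lemma nq_of_not_nilp {L : Subgroup G} [L.Normal] (h : ¬ Group.IsNilpotent (G ⧸ L)) : Nq L := by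
  by_contra hcon
  apply h
  refine ((Group.isNilpotent_of_finite_tfae (G := G ⧸ L)).out 0 2 rfl rfl).mpr ?_
  intro H hH
  have hs := QuotientGroup.mk'_surjective L
  have h1 : (H.comap (QuotientGroup.mk' L)).Normal := by
    by_contra h2
    apply hcon
    refine ⟨_, coatom_comap hH, ?_, h2⟩
    intro l hl
    rw [Subgroup.mem_comap]
    have : (QuotientGroup.mk' L) l = 1 := (QuotientGroup.eq_one_iff l).mpr hl
    rw [this]
    exact one_mem H
  have h2 := h1.map (QuotientGroup.mk' L) hs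
  rwa [Subgroup.map_comap_eq_self_of_surjective hs H] at h2

/-- a noncentral chief factor at the top of the nilpotent residual -/
lemma exists_top {N : Subgroup G} (hN : N.Normal) (hq : Nq N) :
    ∃ L K U : Subgroup G, N ≤ L ∧ NC L K ∧ IsCoatom U ∧ L ≤ U ∧ ¬ K ≤ U ∧ ¬ Nq K := by
  classical
  obtain ⟨L, hL⟩ := Set.Finite.exists_maximal (s := {L : Subgroup G | L.Normal ∧ N ≤ L ∧ Nq L})
    (Set.toFinite _) ⟨N, hN, le_rfl, hq⟩
  obtain ⟨⟨hLn, hNL, U, hU, hLU, hUn⟩, hmax⟩ := hL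
  have hLt : L < ⊤ := lt_of_le_of_lt hLU hU.lt_top
  obtain ⟨K, hK⟩ := Set.Finite.exists_minimal (s := {K : Subgroup G | K.Normal ∧ L < K})
    (Set.toFinite _) ⟨⊤, inferInstance, hLt⟩
  obtain ⟨⟨hKn, hLK⟩, hmin⟩ := hK
  have hKq : ¬ Nq K := fun h1 => by
    have h2 := hmax ⟨hKn, hNL.trans hLK.le, h1⟩ hLK.le
    exact hLK.not_ge h2
  have hKU : ¬ K ≤ U := fun h1 => hKq ⟨U, hU, h1, hUn⟩
  refine ⟨L, K, U, hNL, ⟨hLn, hKn, hLK.le, ?_, ?_⟩, hU, hLU, hKU, hKq⟩
  · intro M hM hLM hMK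
    rcases eq_or_lt_of_le hLM with h1 | h1
    · exact Or.inl h1.symm
    · right
      exact le_antisymm hMK (hmin ⟨hM, h1⟩ hMK)
  · by_contra hcon
    push Not at hcon
    apply hUn
    have h1 : K ≤ Subgroup.normalizer (U : Set G) := by
      intro k hk
      rw [Subgroup.mem_normalizer_iff]
      intro u
      have h2 : ∀ v : G, k * v * k⁻¹ * v⁻¹ ∈ L := by
        intro v
        have h3 := L.inv_mem (hcon v k hk)
        have h4 : (v * k * v⁻¹ * k⁻¹)⁻¹ = k * v * k⁻¹ * v⁻¹ := by group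
        rwa [h4] at h3
      constructor
      · intro hu
        have h3 := U.mul_mem (hLU (h2 u)) hu
        rwa [inv_mul_cancel_right] at h3
      · intro hu
        have h3 := U.mul_mem (U.inv_mem (hLU (h2 u))) hu
        have h4 : (k * u * k⁻¹ * u⁻¹)⁻¹ * (k * u * k⁻¹) = u := by group
        rwa [h4] at h3
    rcases hU.le_iff.mp (Subgroup.le_normalizer : U ≤ Subgroup.normalizer (U : Set G)) with h2 | h2
    · exact Subgroup.normalizer_eq_top_iff.mp h2
    · rw [h2] at h1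
      exact absurd h1 hKU

/-- chief factors in a solvable quotient have prime power order -/
lemma NC.solv {N L K : Subgroup G} [N.Normal] (h : NC L K) (hNL : N ≤ L)
    (hs : Group.IsSolvable (G ⧸ N)) : ∃ p a : ℕ, p.Prime ∧ L.relIndex K = p ^ a := by
  classical
  have hLn := h.nL
  have hKn := h.nK
  have hne : ¬ K ≤ L := by
    intro h1
    obtain ⟨g, k, hk, hgk⟩ := h.nc
    exact hgk (h1 (K.mul_mem (h.nK.conj_mem k hk g) (K.inv_mem hk)))
  have hsL : Group.IsSolvable (G ⧸ L) := by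
    let f : G ⧸ N →* G ⧸ L := QuotientGroup.map N L (MonoidHom.id G) hNL
    have := hs
    apply Group.isSolvable_of_surjective (f := f)
    intro x
    obtain ⟨g, rfl⟩ := QuotientGroup.mk_surjective x
    exact ⟨(g : G ⧸ N), rfl⟩
  let π : G →* G ⧸ L := QuotientGroup.mk' L
  have hπ : ∀ g, π g = 1 ↔ g ∈ L := fun g => QuotientGroup.eq_one_iff g
  -- abelian
  have hab : ∀ x ∈ K, ∀ y ∈ K, x * y * x⁻¹ * y⁻¹ ∈ L := by
    let M : Subgroup G := ⁅K, K⁆ ⊔ L
    have hM : M.Normal := inferInstance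
    have hMK : M ≤ K := sup_le (Subgroup.commutator_le_left K K) h.le
    rcases h.chief M hM le_sup_right hMK with h1 | h1
    · intro x hx y hy
      rw [← h1]
      exact Subgroup.mem_sup_left (Subgroup.commutator_mem_commutator hx hy)
    · exfalso
      have h2 : K.map π ≤ ⁅K.map π, K.map π⁆ := by
        rw [← Subgroup.map_commutator]
        have h3 := congrArg (Subgroup.map π) h1
        rw [Subgroup.map_sup] at h3
        have h4 : L.map π = ⊥ := by
          rw [eq_bot_iff]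
          rintro _ ⟨l, hl, rfl⟩
          exact (hπ l).mpr hl
        rw [h4, sup_bot_eq] at h3
        rw [h3]
      obtain ⟨n, hn⟩ := hsL.solvable
      have h3 : ∀ m, K.map π ≤ derivedSeries (G ⧸ L) m := by
        intro m
        induction m with
        | zero => exact le_top
        | succ m ih =>
          rw [derivedSeries_succ]
          exact h2.trans (Subgroup.commutator_mono ih ih)
      apply hne
      intro k hk
      rw [← hπ]
      have h4 := h3 n (⟨k, hk, rfl⟩ : π k ∈ K.map π)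
      rw [hn] at h4
      exact h4
  have hi : L.relIndex K ≠ 1 := fun h1 => hne (Subgroup.relIndex_eq_one.mp h1)
  obtain ⟨p, hp, hpd⟩ := Nat.exists_prime_and_dvd hi
  have hfact : Fact p.Prime := ⟨hp⟩
  have hLKn : (L.subgroupOf K).Normal := h.nL.subgroupOf K
  let Q := K ⧸ L.subgroupOf K
  let τ : K →* Q := QuotientGroup.mk' (L.subgroupOf K)
  have hτ : ∀ k : K, τ k = 1 ↔ (k : G) ∈ L := fun k => by
    change ((k : K) : K ⧸ L.subgroupOf K) = 1 ↔ _
    rw [QuotientGroup.eq_one_iff]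
    exact Subgroup.mem_subgroupOf
  have hτs : Function.Surjective τ := QuotientGroup.mk'_surjective _
  have hcardQ : Nat.card Q = L.relIndex K := rfl
  have hcomm : ∀ a b : Q, a * b = b * a := by
    intro a b
    obtain ⟨x, rfl⟩ := hτs a
    obtain ⟨y, rfl⟩ := hτs b
    have h1 := (hτ (x * y * x⁻¹ * y⁻¹)).mpr (hab x x.2 y y.2)
    rw [map_mul, map_mul, map_mul, map_inv, map_inv, mul_inv_eq_one, mul_inv_eq_iff_eq_mul] at h1
    exact h1
  let M : Subgroup G :=
    { carrier := {x | x ∈ K ∧ x ^ p ∈ L}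
      mul_mem' := by
        rintro x y ⟨hx, hx2⟩ ⟨hy, hy2⟩
        refine ⟨K.mul_mem hx hy, ?_⟩
        have h1 : τ ((⟨x, hx⟩ * ⟨y, hy⟩) ^ p) = 1 := by
          rw [map_pow, map_mul, (show Commute (τ ⟨x, hx⟩) (τ ⟨y, hy⟩) from hcomm _ _).mul_pow,
            ← map_pow, ← map_pow, (hτ (⟨x, hx⟩ ^ p)).mpr hx2, (hτ (⟨y, hy⟩ ^ p)).mpr hy2, one_mul]
        exact (hτ _).mp h1
      one_mem' := ⟨K.one_mem, by rw [one_pow]; exact L.one_mem⟩
      inv_mem' := by
        rintro x ⟨hx, hx2⟩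
        exact ⟨K.inv_mem hx, by rw [inv_pow]; exact L.inv_mem hx2⟩ }
  have hMn : M.Normal := ⟨fun n hn g => by
    refine ⟨h.nK.conj_mem n hn.1 g, ?_⟩
    rw [conj_pow]
    exact h.nL.conj_mem _ hn.2 g⟩
  have hLM : L ≤ M := fun l hl => ⟨h.le hl, L.pow_mem hl p⟩
  rcases h.chief M hMn hLM (fun x hx => hx.1) with h1 | h1
  · exfalso
    rw [← hcardQ] at hpd
    obtain ⟨z, hz⟩ := exists_prime_orderOf_dvd_card' p hpd
    obtain ⟨k, rfl⟩ := hτs z
    have h2 : (k : G) ∈ M := by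
      refine ⟨k.2, ?_⟩
      have h3 : τ (k ^ p) = 1 := by rw [map_pow, ← hz, pow_orderOf_eq_one]
      exact (hτ _).mp h3
    rw [h1] at h2
    rw [(hτ k).mpr h2, orderOf_one] at hz
    exact hp.one_lt.ne hz
  · have hQ : IsPGroup p Q := by
      intro x
      obtain ⟨k, rfl⟩ := hτs x
      refine ⟨1, ?_⟩
      rw [pow_one, ← map_pow, hτ]
      have h2 : (k : G) ∈ M := by rw [h1]; exact k.2
      exact h2.2
    obtain ⟨a, ha⟩ := (IsPGroup.iff_card (p := p) (G := Q)).mp hQ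
    exact ⟨p, a, hp, by rw [← hcardQ, ha]⟩

/-- a normal subgroup which is a `p`-group modulo `L` acts trivially on a chief factor of
`p`-power order -/
lemma NC.cent_p {L K S : Subgroup G} (h : NC L K) (hS : S.Normal) {p : ℕ} (hp : p.Prime)
    (hcard : ∃ a, L.relIndex K = p ^ a) (hSp : ∀ s ∈ S, ∃ j : ℕ, s ^ p ^ j ∈ L) :
    ∀ s ∈ S, ∀ k ∈ K, s * k * s⁻¹ * k⁻¹ ∈ L := by
  classical
  have hfact : Fact p.Prime := ⟨hp⟩
  have hLn := h.nL
  have hKn := h.nK
  obtain ⟨-, hexp⟩ := h.pgroup hp hcard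
  let T : Subgroup G :=
    { carrier := {k | k ∈ K ∧ ∀ s ∈ S, s * k * s⁻¹ * k⁻¹ ∈ L}
      mul_mem' := by
        rintro x y ⟨hx, hx2⟩ ⟨hy, hy2⟩
        refine ⟨K.mul_mem hx hy, fun s hs => ?_⟩
        have h1 := hx2 s hs
        have h2 := h.nL.conj_mem _ (hy2 s hs) x
        have h3 : s * (x * y) * s⁻¹ * (x * y)⁻¹
            = (s * x * s⁻¹ * x⁻¹) * (x * (s * y * s⁻¹ * y⁻¹) * x⁻¹) := by group
        rw [h3]
        exact L.mul_mem h1 h2
      one_mem' := ⟨K.one_mem, fun s _ => by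
        have : s * 1 * s⁻¹ * 1⁻¹ = 1 := by group
        rw [this]; exact L.one_mem⟩
      inv_mem' := by
        rintro x ⟨hx, hx2⟩
        refine ⟨K.inv_mem hx, fun s hs => ?_⟩
        have h1 := h.nL.conj_mem _ (L.inv_mem (hx2 s hs)) x⁻¹
        have h2 : x⁻¹ * (s * x * s⁻¹ * x⁻¹)⁻¹ * x⁻¹⁻¹ = s * x⁻¹ * s⁻¹ * x⁻¹⁻¹ := by group
        rwa [h2] at h1 }
  have hTn : T.Normal := ⟨fun n hn g => by
    refine ⟨h.nK.conj_mem n hn.1 g, fun s hs => ?_⟩
    have h1 := hS.conj_mem s hs g⁻¹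
    have h2 := h.nL.conj_mem _ (hn.2 _ h1) g
    have h3 : g * (g⁻¹ * s * g⁻¹⁻¹ * n * (g⁻¹ * s * g⁻¹⁻¹)⁻¹ * n⁻¹) * g⁻¹
        = s * (g * n * g⁻¹) * s⁻¹ * (g * n * g⁻¹)⁻¹ := by group
    rwa [h3] at h2⟩
  have hLT : L ≤ T := fun l hl => ⟨h.le hl, fun s _ =>
    L.mul_mem (h.nL.conj_mem l hl s) (L.inv_mem hl)⟩
  rcases h.chief T hTn hLT (fun x hx => hx.1) with h1 | h1
  swap
  · intro s hs k hk
    rw [← h1] at hk
    exact hk.2 s hs
  exfalso
  let π : G →* G ⧸ L := QuotientGroup.mk' L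
  have hπ : ∀ g, π g = 1 ↔ g ∈ L := fun g => QuotientGroup.eq_one_iff g
  have hπs : Function.Surjective π := QuotientGroup.mk'_surjective _
  let S' : Subgroup (G ⧸ L) := S.map π
  let K' : Subgroup (G ⧸ L) := K.map π
  have hK'n : K'.Normal := hKn.map π hπs
  have hS' : IsPGroup p S' := by
    rintro ⟨_, s, hs, rfl⟩
    obtain ⟨j, hj⟩ := hSp s hs
    refine ⟨j, ?_⟩
    apply Subtype.ext
    change (π s) ^ p ^ j = 1
    rw [← map_pow, hπ]
    exact hj
  obtain ⟨k₀, hk₀, hk₀L⟩ : ∃ k ∈ K, k ∉ L := by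
    obtain ⟨g, k, hk, hgk⟩ := h.nc
    exact ⟨k, hk, fun hkL => hgk (L.mul_mem (h.nL.conj_mem k hkL g) (L.inv_mem hkL))⟩
  have hdvd : p ∣ Nat.card K' := by
    have h2 : orderOf (⟨π k₀, k₀, hk₀, rfl⟩ : K') = p := by
      apply orderOf_eq_prime
      · apply Subtype.ext
        change (π k₀) ^ p = 1
        rw [← map_pow, hπ]
        exact hexp k₀ hk₀
      · intro h3
        apply hk₀L
        rw [← hπ]
        exact congrArg Subtype.val h3
    rw [← h2]
    exact orderOf_dvd_natCard _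
  let _ : MulAction S' K' := MulAction.compHom K' ((MulAut.conjNormal (H := K')).comp S'.subtype)
  have hsm : ∀ (s : S') (k : K'), ((s • k : K') : G ⧸ L) = s * k * (s : G ⧸ L)⁻¹ := fun s k =>
    MulAut.conjNormal_apply (s : G ⧸ L) k
  have h1fix : (1 : K') ∈ MulAction.fixedPoints S' K' := by
    intro s
    apply Subtype.ext
    rw [hsm, Subgroup.coe_one, mul_one, mul_inv_cancel]
  obtain ⟨b, hb, hb1⟩ := hS'.exists_fixed_point_of_prime_dvd_card_of_fixed_point K' hdvd h1fix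
  obtain ⟨⟨_, k, hk, rfl⟩, hbk⟩ : ∃ x : K', x = b := ⟨b, rfl⟩
  have h2 : k ∈ T := by
    refine ⟨hk, fun s hs => ?_⟩
    have h3 := hb ⟨π s, s, hs, rfl⟩
    have h4 := congrArg Subtype.val h3
    rw [hsm, ← hbk] at h4
    rw [← hπ, map_mul, map_mul, map_mul, map_inv, map_inv, mul_inv_eq_one]
    exact h4
  rw [h1] at h2
  apply hb1
  apply Subtype.ext
  rw [← hbk]
  exact ((hπ k).mpr h2).symm

/-- **Groups with a solvable quotient which is not nilpotent.** -/
theorem nonnilp {χ : G → ℂ} (hχ : χ ∈ Irr G) (hprim : Prim χ) {N : Subgroup G} [hN : N.Normal]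
    (hs : Group.IsSolvable (G ⧸ N)) (hn : ¬ Group.IsNilpotent (G ⧸ N)) : Mch χ := by
  classical
  obtain ⟨L, K, U, hNL, h, hU, hLU, hKU, hKq⟩ := exists_top hN (nq_of_not_nilp hn)
  obtain ⟨p, a, hp, hpa⟩ := h.solv hNL hs
  by_cases h2 : p = 2
  swap
  · exact chief_odd hχ hprim h hp h2 ⟨a, hpa⟩ hU hLU hKU
  subst h2
  apply chief_two hχ hprim h ⟨a, hpa⟩ _ hU hLU hKU
  have hKn := h.nK
  have hnil : Group.IsNilpotent (G ⧸ K) := by
    by_contra hcon
    exact hKq (nq_of_not_nilp hcon)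
  have hfact : Fact (Nat.Prime 2) := ⟨Nat.prime_two⟩
  let P : Sylow 2 (G ⧸ K) := default
  have hPn : (P : Subgroup (G ⧸ K)).Normal :=
    ((Group.isNilpotent_of_finite_tfae (G := G ⧸ K)).out 0 3 rfl rfl).mp hnil 2 hfact P
  let π : G →* G ⧸ K := QuotientGroup.mk' K
  have hπ : ∀ g, π g = 1 ↔ g ∈ K := fun g => QuotientGroup.eq_one_iff g
  obtain ⟨-, hexp⟩ := h.pgroup Nat.prime_two ⟨a, hpa⟩
  have key := h.cent_p (S := (P : Subgroup (G ⧸ K)).comap π) (hPn.comap π) Nat.prime_two ⟨a, hpa⟩ (by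
    intro s hs
    obtain ⟨j, hj⟩ := P.isPGroup' ⟨π s, hs⟩
    have h1 : (π s) ^ 2 ^ j = 1 := congrArg Subtype.val hj
    rw [← map_pow, hπ] at h1
    refine ⟨j + 1, ?_⟩
    rw [pow_succ, pow_mul]
    exact hexp _ h1)
  intro g
  obtain ⟨e, m, hm, hgm⟩ := Nat.exists_eq_two_pow_mul_odd (orderOf_pos g).ne'
  refine ⟨m, hm, fun k hk => key _ ?_ k hk⟩
  rw [Subgroup.mem_comap]
  apply mem_of_coprime (m := (P : Subgroup (G ⧸ K)).index) (Subgroup.pow_index_mem _ _)
  have h1 : (π (g ^ m)) ^ 2 ^ e = 1 := by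
    rw [← map_pow, ← pow_mul, mul_comm m, ← hgm, pow_orderOf_eq_one, map_one]
  apply Nat.Coprime.coprime_dvd_left (orderOf_dvd_of_pow_eq_one h1)
  apply Nat.Coprime.pow_left
  exact (Nat.Prime.coprime_iff_not_dvd Nat.prime_two).mpr (Sylow.not_dvd_index P)

end Run7.h132
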